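import Pool.Agent.LP86.Mirror2

/-!
Shortest systems are at most exponentially long.
-/

namespace Pool.Agent.LP86

variable {Λ ι : Type} [LinearOrder Λ]

/-- side of a visit of the run on which the new sequence is attached (true for top) -/
noncomputable def side (s : Sq Λ) (α β : Λ) (k : ℕ) : Bool :=
  if Even (cnt s α β k) then s.g (k - 1) else s.g k

/-- nodes kept on the new axis -/
def Nk (s : Sq Λ) (α β : Λ) (k : ℕ) : Prop :=
  (¬ inR α β (s.p k) ∧ Even (cnt s α β k)) ∨ (inR α β (s.p k) ∧ side s α β k = true)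

def Nd (s : Sq Λ) (α β : Λ) (x : Λ) : Prop := ∃ k ≤ s.m, x = s.p k ∧ Nk s α β k

/-- the new relation -/
def rr (s : Sq Λ) (α β : Λ) (P : Bool) (a b : Λ) : Prop :=
  if P then ∃ k < s.m, Even (cnt s α β (k + 1)) ∧ s.g k = true ∧ a = s.p k ∧ b = s.p (k + 1)
  else Nd s α β a ∧ Nd s α β b ∧
    Relation.ReflTransGen (Piece s α β) (a, decide (inR α β a)) (b, decide (inR α β b))

theorem rr_nd {s : Sq Λ} {α β : Λ} {P : Bool} {a b : Λ} (h : rr s α β P a b) :
    Nd s α β a ∧ Nd s α β b := by
  cases P with
  | false => exact ⟨h.1, h.2.1⟩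
  | true =>
    obtain ⟨k, hk, hc, hg, rfl, rfl⟩ := h
    refine ⟨⟨k, hk.le, rfl, ?_⟩, ⟨k + 1, hk, rfl, ?_⟩⟩
    · by_cases hR : inR α β (s.p k)
      · right
        refine ⟨hR, ?_⟩
        rw [cnt_succ_in hR] at hc
        unfold side
        rw [if_neg (fun h => by grind)]
        exact hg
      · left
        rw [cnt_succ_out hR] at hc
        exact ⟨hR, hc⟩
    · by_cases hR : inR α β (s.p (k + 1))
      · right
        refine ⟨hR, ?_⟩
        unfold side
        rw [if_pos hc]
        exact hg
      · exact Or.inl ⟨hR, hc⟩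

theorem rr_conn (s : Sq Λ) (α β : Λ) (h0 : ¬ inR α β (s.p 0)) (hm : ¬ inR α β (s.p s.m))
    (hev : Even (cnt s α β s.m)) :
    Relation.ReflTransGen (fun a b => ∃ P, rr s α β P a b) (s.p 0) (s.p s.m) := by
  -- nodes that can be reached
  set J : Λ × Bool → Prop := fun X => ∃ a, Nd s α β a ∧
    Relation.ReflTransGen (fun a b => ∃ P, rr s α β P a b) (s.p 0) a ∧
    Relation.ReflTransGen (Piece s α β) (a, decide (inR α β a)) X with hJ
  have hreach : ∀ x, Nd s α β x → J (x, decide (inR α β x)) →
      Relation.ReflTransGen (fun a b => ∃ P, rr s α β P a b) (s.p 0) x := by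
    rintro x hx ⟨a, ha, h1, h2⟩
    exact h1.tail ⟨false, ha, hx, h2⟩
  have hstep : ∀ k, k < s.m → Even (cnt s α β (k + 1)) →
      (inR α β (s.p k) → J (s.p k, s.g k)) → (¬ inR α β (s.p k) → J (s.p k, false)) →
      J (s.p (k + 1), if s.g k = true then decide (inR α β (s.p (k + 1))) else false) := by
    intro k hk hc hin hout
    cases hg : s.g k with
    | false =>
      have hJk : J (s.p k, false) := by
        by_cases hR : inR α β (s.p k)
        · have := hin hR; rwa [hg] at this
        · exact hout hR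
      obtain ⟨a, ha, h1, h2⟩ := hJk
      simp only [Bool.false_eq_true, if_false]
      exact ⟨a, ha, h1, h2.tail (Piece.low k hk hc hg)⟩
    | true =>
      have hr : rr s α β true (s.p k) (s.p (k + 1)) := ⟨k, hk, hc, hg, rfl, rfl⟩
      obtain ⟨n1, n2⟩ := rr_nd hr
      have hJk : J (s.p k, decide (inR α β (s.p k))) := by
        by_cases hR : inR α β (s.p k)
        · have := hin hR; rw [hg] at this; rwa [decide_eq_true hR]
        · rw [decide_eq_false hR]; exact hout hR
      simp only [if_true]
      exact ⟨s.p (k + 1), n2, (hreach _ n1 hJk).tail ⟨true, hr⟩, .refl⟩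
  have hmain : ∀ k, k ≤ s.m → (¬ inR α β (s.p k) → Even (cnt s α β k) → J (s.p k, false)) ∧
      (inR α β (s.p k) → J (s.p k, side s α β k)) := by
    intro k
    induction k using Nat.strong_induction_on with
    | _ k ih =>
      intro hk
      rcases Nat.eq_zero_or_pos k with rfl | hpos
      · refine ⟨fun _ _ => ⟨s.p 0, ⟨0, Nat.zero_le _, rfl, Or.inl ⟨h0, ?_⟩⟩, .refl, ?_⟩,
          fun h => absurd h h0⟩
        · rw [cnt_zero]; exact Even.zero
        · rw [decide_eq_false h0]
      · obtain ⟨n, rfl⟩ := Nat.exists_eq_succ_of_ne_zero hpos.ne'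
        simp only [Nat.succ_eq_add_one] at *
        have hn := ih n (by omega) (by omega)
        have hs : Even (cnt s α β (n + 1)) →
            J (s.p (n + 1), if s.g n = true then decide (inR α β (s.p (n + 1))) else false) := by
          intro hc
          refine hstep n (by omega) hc (fun hR => ?_) (fun hR => ?_)
          · have := hn.2 hR
            unfold side at this
            rw [cnt_succ_in hR] at hc
            rwa [if_neg (fun h => by grind)] at this
          · rw [cnt_succ_out hR] at hc
            exact hn.1 hR hc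
        refine ⟨fun hR hc => ?_, fun hR => ?_⟩
        · have := hs hc
          rw [decide_eq_false hR] at this
          simpa using this
        · by_cases hc : Even (cnt s α β (n + 1))
          · have := hs hc
            rw [decide_eq_true hR] at this
            unfold side
            rw [if_pos hc, Nat.add_sub_cancel]
            cases hg : s.g n
            · rw [hg] at this; simpa using this
            · rw [hg] at this; simpa using this
          · have hpos' : 0 < cnt s α β (n + 1) := by
              rcases Nat.eq_zero_or_pos (cnt s α β (n + 1)) with h | h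
              · rw [h] at hc; exact absurd Even.zero hc
              · exact h
            obtain ⟨l, hl, hlR, hlc⟩ := exists_prev hpos'
            have hl0 : 0 < l := by
              rcases Nat.eq_zero_or_pos l with rfl | h
              · exact absurd hlR h0
              · exact h
            have hlev : Even (cnt s α β l) := by
              rw [hlc] at hc; grind
            have hJl := (ih l (by omega) (by omega)).2 hlR
            unfold side at hJl ⊢
            rw [if_pos hlev] at hJl
            rw [if_neg hc]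
            obtain ⟨a, ha, h1, h2⟩ := hJl
            have hne : n + 1 ≠ s.m := fun h => by rw [h] at hR; exact hm hR
            exact ⟨a, ha, h1, h2.tail (Piece.inn l (n + 1) hl (by omega) hl0 hlR hR hlc)⟩
  have hJm := (hmain s.m le_rfl).1 hm hev
  have hNm : Nd s α β (s.p s.m) := ⟨s.m, le_rfl, rfl, Or.inl ⟨hm, hev⟩⟩
  refine hreach _ hNm ?_
  rw [decide_eq_false hm]; exact hJm

namespace MinSys

variable {pl : Λ → ℕ} {sp tp : ι → ℕ} {nr : ι → ι → Prop} {D : ι → Sq Λ}
variable [Fintype ι] (M : MinSys pl sp tp nr D)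
include M

theorem nearby {i j : ι} (h : nr i j) (hij : i ≠ j) (α β : Λ) : Nearby (D i) (D j) α β :=
  ⟨M.sys.dis i j h hij, M.sys.nal i j h hij, fun _ hk => M.alt i hk, fun _ hk => M.alt j hk⟩

theorem pl_inR {α β : Λ} (hpl : pl α = pl β) {x : Λ} (h : inR α β x) : pl x = pl α := by
  have := M.mono h.1; have := M.mono h.2; omega

theorem no_even_run {α β : Λ} (hαβ : α ≤ β) (hpl : pl α = pl β) (hq : Even (pl α))
    (hev : ∀ i, Even (cnt (D i) α β ((D i).m + 1)))
    (hex : ∃ i, ∃ k ≤ (D i).m, inR α β ((D i).p k)) : False := by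
  classical
  have h0 : ∀ i, ¬ inR α β ((D i).p 0) := by
    intro i h
    have := M.pl_inR hpl h
    rw [M.sys.src i] at this
    exact M.osp i (this ▸ hq)
  have hm : ∀ i, ¬ inR α β ((D i).p (D i).m) := by
    intro i h
    have := M.pl_inR hpl h
    rw [M.sys.dst i] at this
    exact M.otp i (this ▸ hq)
  have hev' : ∀ i, Even (cnt (D i) α β (D i).m) := fun i => by
    have := hev i; rwa [cnt_succ_out (hm i)] at this
  have hext := fun i => extract (rr_conn (D i) α β (h0 i) (hm i) (hev' i))
  choose D' e0 em er einj using hext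
  have hnd : ∀ i, ∀ k ≤ (D' i).m, Nd (D i) α β ((D' i).p k) := by
    intro i k hk
    rcases Nat.eq_zero_or_pos k with rfl | h
    · rw [e0]; exact ⟨0, Nat.zero_le _, rfl, Or.inl ⟨h0 i, by rw [cnt_zero]; exact Even.zero⟩⟩
    · obtain ⟨n, rfl⟩ := Nat.exists_eq_succ_of_ne_zero h.ne'
      exact (rr_nd (er i n (by omega))).2
  have hsys : Sys pl sp tp nr D' := by
    refine ⟨fun i => by rw [e0]; exact M.sys.src i, fun i => by rw [em]; exact M.sys.dst i, ?_, ?_, ?_⟩
    · intro i k hk hk'
      obtain ⟨l, hl, e, -⟩ := hnd i k hk'.le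
      rw [e]
      refine M.sys.int i l (Nat.pos_of_ne_zero ?_) (lt_of_le_of_ne hl ?_)
      · rintro rfl
        rw [← e0 i] at e
        have := einj i k hk'.le 0 (Nat.zero_le _) e; omega
      · rintro rfl
        rw [← em i] at e
        have := einj i k hk'.le _ le_rfl e; omega
    · intro i j hn hij k hk l hl
      obtain ⟨a, ha, e, -⟩ := hnd i k hk
      obtain ⟨b, hb, e', -⟩ := hnd j l hl
      rw [e, e']
      exact M.sys.dis i j hn hij a ha b hb
    · intro i j hn hij k hk l hl hg
      have h1 := er i k hk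
      have h2 := er j l hl
      rw [← hg] at h2
      cases hP : (D' i).g k with
      | true =>
        rw [hP] at h1 h2
        obtain ⟨a, ha, -, ga, ea, ea'⟩ := h1
        obtain ⟨b, hb, -, gb, eb, eb'⟩ := h2
        rw [ea, ea', eb, eb']
        exact M.sys.nal i j hn hij a ha b hb (ga.trans gb.symm)
      | false =>
        rw [hP] at h1 h2
        exact chain_noal hαβ (M.nearby hn hij α β) h1.2.2 h2.2.2
  have hmin := M.min D' hsys
  -- counting
  have hcard : ∀ i, (D' i).m + 1 ≤ ((Finset.range ((D i).m + 1)).filter fun k => Nk (D i) α β k).card := by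
    intro i
    have h1 : ((Finset.range ((D' i).m + 1)).image (D' i).p).card = (D' i).m + 1 := by
      rw [Finset.card_image_of_injOn, Finset.card_range]
      intro a ha b hb e
      exact einj i a (by simpa [Nat.lt_succ_iff] using ha) b (by simpa [Nat.lt_succ_iff] using hb) e
    rw [← h1]
    refine (Finset.card_le_card ?_).trans (Finset.card_image_le (f := (D i).p))
    intro x hx
    rw [Finset.mem_image] at hx ⊢
    obtain ⟨k, hk, rfl⟩ := hx
    obtain ⟨l, hl, e, hN⟩ := hnd i k (by simpa [Nat.lt_succ_iff] using hk)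
    exact ⟨l, by simp only [Finset.mem_filter, Finset.mem_range]; exact ⟨by omega, hN⟩, e.symm⟩
  have hle : ∀ i, ((Finset.range ((D i).m + 1)).filter fun k => Nk (D i) α β k).card ≤ (D i).m + 1 :=
    fun i => (Finset.card_filter_le _ _).trans (by simp)
  -- a sequence that meets the run loses a node
  obtain ⟨i, k, hk, hkR⟩ := hex
  have hlt : ((Finset.range ((D i).m + 1)).filter fun k => Nk (D i) α β k).card < (D i).m + 1 := by
    refine lt_of_le_of_ne (hle i) fun heq => ?_
    have hall : ∀ l ≤ (D i).m, Nk (D i) α β l := by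
      have := Finset.filter_card_eq (s := Finset.range ((D i).m + 1)) (p := fun k => Nk (D i) α β k)
        (by rw [heq]; simp)
      intro l hl
      exact this l (by simp; omega)
    -- first visit
    have hvis : ∃ l, l ≤ (D i).m ∧ inR α β ((D i).p l) := ⟨k, hk, hkR⟩
    have hf := Nat.find_spec hvis
    have hfm : ∀ l, l < Nat.find hvis → ¬ inR α β ((D i).p l) := fun l hl h =>
      Nat.find_min hvis hl ⟨by omega, h⟩
    set f := Nat.find hvis
    have hf0 : cnt (D i) α β f = 0 := by
      unfold cnt
      rw [Finset.card_eq_zero, Finset.filter_eq_empty_iff]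
      intro l hl
      exact hfm l (by simpa using hl)
    have hfpos : 0 < f := Nat.pos_of_ne_zero fun h => h0 i (h ▸ hf.2)
    have hflt : f < (D i).m := lt_of_le_of_ne hf.1 fun h => hm i (h ▸ hf.2)
    have h1 : cnt (D i) α β (f + 1) = 1 := by rw [cnt_succ_in hf.2, hf0]
    rcases hall (f + 1) hflt with ⟨-, h2⟩ | ⟨h2, -⟩
    · rw [h1] at h2; exact absurd h2 (by decide)
    · exact M.noloop i hflt ((M.pl_inR hpl hf.2).trans (M.pl_inR hpl h2).symm)
  have h1 : ∑ i, ((D' i).m + 1) ≤ ∑ i, ((Finset.range ((D i).m + 1)).filter fun k => Nk (D i) α β k).card :=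
    Finset.sum_le_sum fun i _ => hcard i
  have h2 : ∑ i, ((Finset.range ((D i).m + 1)).filter fun k => Nk (D i) α β k).card < ∑ i, ((D i).m + 1) :=
    Finset.sum_lt_sum (fun i _ => hle i) ⟨i, Finset.mem_univ i, hlt⟩
  have h3 : ∑ i, ((D i).m + 1) ≤ ∑ i, ((D' i).m + 1) := by
    rw [Finset.sum_add_distrib, Finset.sum_add_distrib]
    exact Nat.add_le_add_right hmin _
  omega

/-- the number of positions used in one gap -/
theorem gap_bound {q : ℕ} (hq : Even q) (X : Finset Λ)
    (hX : ∀ x ∈ X, pl x = q ∧ ∃ i, ∃ k ≤ (D i).m, (D i).p k = x) :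
    X.card ≤ 2 ^ Fintype.card ι := by
  classical
  by_contra hcon
  push Not at hcon
  set v : Λ → ι → ZMod 2 := fun x i => (((Finset.range ((D i).m + 1)).filter fun k =>
    pl ((D i).p k) = q ∧ (D i).p k ≤ x).card : ZMod 2) with hv
  have hcard : Fintype.card (ι → ZMod 2) = 2 ^ Fintype.card ι := by
    rw [Fintype.card_fun, ZMod.card]
  obtain ⟨x, hx, y, hy, hxy, hvv⟩ := Finset.exists_ne_map_eq_of_card_lt_of_maps_to
    (s := X) (t := (Finset.univ : Finset (ι → ZMod 2))) (f := v) (by
      rw [Finset.card_univ, hcard]; exact hcon) (fun _ _ => Finset.mem_univ _)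
  wlog hlt : x < y generalizing x y
  · exact this y hy x hx hxy.symm hvv.symm (lt_of_le_of_ne (not_lt.1 hlt) hxy.symm)
  -- positions between
  set T : Finset Λ := (Finset.univ.biUnion fun i => (Finset.range ((D i).m + 1)).image (D i).p).filter
    fun z => x < z ∧ z ≤ y with hT
  have hmemT : ∀ z, z ∈ T ↔ (∃ i, ∃ k ≤ (D i).m, (D i).p k = z) ∧ x < z ∧ z ≤ y := by
    intro z
    simp [hT, Nat.lt_succ_iff]
  have hyT : y ∈ T := (hmemT y).2 ⟨(hX y hy).2, hlt, le_rfl⟩
  set α := T.min' ⟨y, hyT⟩ with hα
  have hαT : α ∈ T := T.min'_mem _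
  have hα1 := (hmemT α).1 hαT
  have hαmin : ∀ z ∈ T, α ≤ z := fun z hz => T.min'_le z hz
  have hplα : pl α = q := by
    have h1 := M.mono hα1.2.1.le
    have h2 := M.mono hα1.2.2
    rw [(hX x hx).1] at h1
    rw [(hX y hy).1] at h2
    omega
  refine M.no_even_run (α := α) (β := y) hα1.2.2 (hplα.trans (hX y hy).1.symm) (hplα ▸ hq) ?_
    ⟨_, _, (hX y hy).2.choose_spec.choose_spec.1, by
      rw [(hX y hy).2.choose_spec.choose_spec.2]; exact ⟨hα1.2.2, le_rfl⟩⟩
  intro i
  have h1 := congrFun hvv i
  simp only [hv] at h1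
  have hsplit : ((Finset.range ((D i).m + 1)).filter fun k =>
      pl ((D i).p k) = q ∧ (D i).p k ≤ y).card =
      ((Finset.range ((D i).m + 1)).filter fun k =>
      pl ((D i).p k) = q ∧ (D i).p k ≤ x).card + cnt (D i) α y ((D i).m + 1) := by
    unfold cnt
    rw [← Finset.card_union_of_disjoint]
    · congr 1
      ext k
      simp only [Finset.mem_filter, Finset.mem_union, Finset.mem_range]
      constructor
      · rintro ⟨hk, hpk, hky⟩
        by_cases hkx : (D i).p k ≤ x
        · exact Or.inl ⟨hk, hpk, hkx⟩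
        · right
          exact ⟨hk, hαmin _ ((hmemT _).2 ⟨⟨i, k, by omega, rfl⟩, not_le.1 hkx, hky⟩), hky⟩
      · rintro (⟨hk, hpk, hkx⟩ | ⟨hk, hka, hky⟩)
        · exact ⟨hk, hpk, hkx.trans hlt.le⟩
        · refine ⟨hk, ?_, hky⟩
          have h3 := M.mono hka
          have h4 := M.mono hky
          rw [hplα] at h3
          rw [(hX y hy).1] at h4
          omega
    · rw [Finset.disjoint_filter]
      rintro k - ⟨-, h3⟩ ⟨h4, -⟩
      exact absurd (hα1.2.1.trans_le h4) (not_lt.2 h3)
  rw [hsplit] at h1
  push_cast at h1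
  have h2 : ((cnt (D i) α y ((D i).m + 1) : ℕ) : ZMod 2) = 0 := by
    have := h1
    have h5 : ∀ a b : ZMod 2, a = a + b → b = 0 := by decide
    exact h5 _ _ this
  exact (ZMod.natCast_eq_zero_iff_even).1 h2

/-- the exponential bound -/
theorem length_bound {B : ℕ} (hB : ∀ x, pl x ≤ B) (i : ι) :
    (D i).m ≤ (B + 1) * 2 ^ Fintype.card ι + 1 := by
  classical
  set X : Finset Λ := (Finset.Ioo 0 (D i).m).image (D i).p with hX
  have hXc : X.card = (D i).m - 1 := by
    rw [hX, Finset.card_image_of_injOn, Nat.card_Ioo]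
    · omega
    · intro a ha b hb e
      rw [Finset.mem_coe, Finset.mem_Ioo] at ha hb
      exact M.inj i (by omega) (by omega) e
  have hsum : X.card ≤ ∑ q ∈ Finset.range (B + 1), (X.filter fun x => pl x = q).card := by
    rw [← Finset.card_eq_sum_card_fiberwise (f := pl)]
    intro x _
    simp [Nat.lt_succ_iff, hB x]
  have hq : ∀ q ∈ Finset.range (B + 1), (X.filter fun x => pl x = q).card ≤ 2 ^ Fintype.card ι := by
    intro q _
    by_cases hne : (X.filter fun x => pl x = q).Nonempty
    · obtain ⟨x, hx⟩ := hne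
      have hev : Even q := by
        rw [Finset.mem_filter, hX, Finset.mem_image] at hx
        obtain ⟨⟨k, hk, rfl⟩, hpl⟩ := hx
        rw [Finset.mem_Ioo] at hk
        rw [← hpl]
        exact M.sys.int i k hk.1 hk.2
      refine M.gap_bound hev _ fun x hx => ?_
      rw [Finset.mem_filter, hX, Finset.mem_image] at hx
      obtain ⟨⟨k, hk, rfl⟩, hpl⟩ := hx
      rw [Finset.mem_Ioo] at hk
      exact ⟨hpl, i, k, hk.2.le, rfl⟩
    · rw [Finset.not_nonempty_iff_eq_empty.1 hne, Finset.card_empty]
      exact Nat.zero_le _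
  have h3 := hsum.trans (Finset.sum_le_sum hq)
  rw [Finset.sum_const, Finset.card_range, smul_eq_mul, hXc] at h3
  omega

end MinSys

end Pool.Agent.LP86
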