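import Pool.Agent.LP86.Defs

/-!
Two distinct edges lie on a common path with at most `k` edges iff some end point of the one is
joined to some end point of the other by a walk with at most `k - 2` edges.
-/

namespace Pool.Agent.LP86

open SimpleGraph

variable {V : Type} {G : SimpleGraph V}

/-- some end of `e` and some end of `f` are joined by a walk of length at most `k - 2` -/
def Near (G : SimpleGraph V) (k : ℕ) (e f : Sym2 V) : Prop :=
  ∃ a ∈ e, ∃ c ∈ f, ∃ w : G.Walk a c, w.length + 2 ≤ k

theorem Near.symm {k : ℕ} {e f : Sym2 V} (h : Near G k e f) : Near G k f e := by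
  obtain ⟨a, ha, c, hc, w, hw⟩ := h
  exact ⟨c, hc, a, ha, w.reverse, by simpa using hw⟩

theorem exists_path_of_near {k : ℕ} {e f : Sym2 V} (he : e ∈ G.edgeSet) (hf : f ∈ G.edgeSet)
    (hne : e ≠ f) (h : Near G k e f) :
    ∃ (u v : V) (P : G.Walk u v), P.IsPath ∧ P.length ≤ k ∧ e ∈ P.edges ∧ f ∈ P.edges := by
  classical
  -- take a shortest connecting walk
  let S : Set ℕ := {n | ∃ a ∈ e, ∃ c ∈ f, ∃ w : G.Walk a c, w.length = n}
  have hS : S.Nonempty := by
    obtain ⟨a, ha, c, hc, w, hw⟩ := h
    exact ⟨_, a, ha, c, hc, w, rfl⟩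
  obtain ⟨a, ha, c, hc, w, hw⟩ := Nat.sInf_mem hS
  have hmin : ∀ n ∈ S, w.length ≤ n := fun n hn => hw ▸ Nat.sInf_le hn
  have hle : w.length + 2 ≤ k := by
    obtain ⟨a', ha', c', hc', w', hw'⟩ := h
    have := hmin _ ⟨a', ha', c', hc', w', rfl⟩
    omega
  obtain ⟨b, rfl⟩ := Sym2.mem_iff_exists.1 ha
  obtain ⟨d, rfl⟩ := Sym2.mem_iff_exists.1 hc
  have hab : G.Adj a b := he
  have hcd : G.Adj c d := hf
  -- the walk is a path
  have hwp : w.IsPath := by
    have h1 : w.bypass.length ≤ w.length := w.length_bypass_le
    have h2 := hmin _ ⟨a, by simp, c, by simp, w.bypass, rfl⟩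
    have h3 : w.bypass = w := by
      have := w.bypass_eq_self_of_length_le h2
      exact this
    rw [← h3]; exact w.bypass_isPath
  by_cases hac : a = c
  · subst hac
    have hbd : b ≠ d := by rintro rfl; exact hne rfl
    refine ⟨b, d, Walk.cons hab.symm (Walk.cons hcd Walk.nil), ?_, ?_, ?_, ?_⟩
    · simp [Walk.cons_isPath_iff, hab.ne', hcd.ne, hbd]
    · simp; omega
    · simp [Sym2.eq_swap]
    · simp
  · -- `b` and `d` are not on the walk
    have hb : b ∉ w.support := by
      intro hb
      have h1 := hmin _ ⟨b, by simp, c, by simp, w.dropUntil b hb, rfl⟩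
      have h2 : (w.takeUntil b hb).length + (w.dropUntil b hb).length = w.length := by
        rw [← Walk.length_append, Walk.take_spec]
      have h3 : (w.takeUntil b hb).length = 0 := by omega
      exact hab.ne (Walk.eq_of_length_eq_zero h3)
    have hd : d ∉ w.support := by
      intro hd
      have h1 := hmin _ ⟨a, by simp, d, by simp, w.takeUntil d hd, rfl⟩
      have h2 : (w.takeUntil d hd).length + (w.dropUntil d hd).length = w.length := by
        rw [← Walk.length_append, Walk.take_spec]
      have h3 : (w.dropUntil d hd).length = 0 := by omega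
      exact hcd.ne' (Walk.eq_of_length_eq_zero h3)
    have hbd : b ≠ d := by
      rintro rfl
      have h1 := hmin 0 ⟨b, by simp, b, by simp, Walk.nil, rfl⟩
      exact hac (Walk.eq_of_length_eq_zero (by omega : w.length = 0))
    refine ⟨b, d, Walk.cons hab.symm (w.concat hcd), ?_, ?_, ?_, ?_⟩
    · rw [Walk.cons_isPath_iff, Walk.concat_isPath_iff]
      refine ⟨⟨hwp, hd⟩, ?_⟩
      rw [Walk.support_concat]
      simp only [List.concat_eq_append, List.mem_append, List.mem_singleton, not_or]
      exact ⟨hb, hbd⟩
    · simp; omega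
    · simp [Sym2.eq_swap]
    · simp [Walk.edges_concat]

theorem near_of_walk {k : ℕ} {u v : V} (P : G.Walk u v) (hl : P.length ≤ k) {e f : Sym2 V}
    (he : e ∈ P.edges) (hf : f ∈ P.edges) (hne : e ≠ f) : Near G k e f := by
  classical
  -- positions
  have key : ∀ {u v : V} (P : G.Walk u v), ∀ e f : Sym2 V, ∀ i j : ℕ, i < j →
      P.edges[i]? = some e → P.edges[j]? = some f →
      ∃ a ∈ e, ∃ c ∈ f, ∃ w : G.Walk a c, w.length + 2 ≤ P.length := by
    intro u v P
    induction P with
    | nil => intro e f i j _ h; simp at h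
    | @cons u x v hux P ih =>
      intro e f i j hij he hf
      rcases i with _ | i
      · -- first edge
        simp only [Walk.edges_cons, List.getElem?_cons_zero, Option.some.injEq] at he
        subst he
        obtain ⟨j, rfl⟩ : ∃ j', j = j' + 1 := ⟨j - 1, by omega⟩
        simp only [Walk.edges_cons, List.getElem?_cons_succ] at hf
        have hfm : f ∈ P.edges := List.mem_of_getElem? hf
        clear ih hij
        -- walk from `x` to the first end of `f`
        have : ∀ {x v : V} (P : G.Walk x v), f ∈ P.edges → ∃ c ∈ f, ∃ w : G.Walk x c,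
            w.length + 1 ≤ P.length := by
          intro x v P
          induction P with
          | nil => intro h; simp at h
          | @cons x y v hxy P ih =>
            intro h
            simp only [Walk.edges_cons, List.mem_cons] at h
            rcases h with rfl | h
            · exact ⟨x, by simp, Walk.nil, by simp⟩
            · obtain ⟨c, hc, w, hw⟩ := ih h
              exact ⟨c, hc, Walk.cons hxy w, by simp; omega⟩
        obtain ⟨c, hc, w, hw⟩ := this P hfm
        exact ⟨x, by simp, c, hc, w, by simp; omega⟩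
      · obtain ⟨j, rfl⟩ : ∃ j', j = j' + 1 := ⟨j - 1, by omega⟩
        simp only [Walk.edges_cons, List.getElem?_cons_succ] at he hf
        obtain ⟨a, ha, c, hc, w, hw⟩ := ih e f i j (by omega) he hf
        exact ⟨a, ha, c, hc, w, by simp; omega⟩
  obtain ⟨i, hi⟩ := List.getElem?_of_mem he
  obtain ⟨j, hj⟩ := List.getElem?_of_mem hf
  rcases lt_trichotomy i j with h | h | h
  · obtain ⟨a, ha, c, hc, w, hw⟩ := key P e f i j h hi hj
    exact ⟨a, ha, c, hc, w, by omega⟩
  · subst h
    rw [hi] at hj
    exact absurd (Option.some.inj hj) hne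
  · obtain ⟨a, ha, c, hc, w, hw⟩ := key P f e j i h hj hi
    exact Near.symm ⟨a, ha, c, hc, w, by omega⟩

/-- For `k ≥ 2`, `k`-local planarity forbids exactly the crossings of near edges. -/
theorem locallyPlanar_iff {G : SimpleGraph V} (D : TopGraph G) (k : ℕ) :
    D.LocallyPlanar k ↔ ∀ e ∈ G.edgeSet, ∀ f ∈ G.edgeSet, e ≠ f → Near G k e f → ¬ D.Cross e f := by
  constructor
  · intro h e he f hf hne hn
    obtain ⟨u, v, P, hP, hl, h1, h2⟩ := exists_path_of_near he hf hne hn
    exact h u v P hP hl e h1 f h2 hne
  · intro h u v P _ hl e he f hf hne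
    exact h e (P.edges_subset_edgeSet he) f (P.edges_subset_edgeSet hf) hne
      (near_of_walk P hl he hf hne)

end Pool.Agent.LP86
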