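import Pool.Agent.LP86.Top3
import Pool.Agent.LP86.Close

/-!
From a locally planar topological graph to a system.
-/

namespace Pool.Agent.LP86

open Set Filter Topology

theorem exists_cur {V ι : Type} [Finite V] [Finite ι] (w : ι → Bool → V) (nr : ι → ι → Prop)
    (ν : V → ℝ) (hν : Function.Injective ν) (c : ι → ℝ → ℂ) (hc : ∀ i, Continuous (c i))
    (h0 : ∀ i, c i 0 = ν (w i false)) (h1 : ∀ i, c i 1 = ν (w i true))
    (hw : ∀ i, w i false ≠ w i true)
    (havoid : ∀ i, ∀ τ ∈ Icc (0 : ℝ) 1, ∀ v, c i τ = ν v → v = w i false ∨ v = w i true)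
    (hnear : ∀ i j, nr i j → i ≠ j → ∀ τ ∈ Icc (0 : ℝ) 1, ∀ τ' ∈ Icc (0 : ℝ) 1, c i τ = c j τ' →
      ∃ v, c i τ = ν v) : Nonempty (Cur V ι w nr) := by
  classical
  have hsmall : ∀ C : ℝ, 0 < C → ∀ᶠ r in 𝓝[>] (0 : ℝ), r < C := fun C hC =>
    mem_nhdsWithin_of_mem_nhds (Iio_mem_nhds hC)
  -- the radius
  have e1 : ∀ᶠ r in 𝓝[>] (0 : ℝ), ∀ v v', v ≠ v' → 2 * r < |ν v - ν v'| := by
    rw [eventually_all]; intro v
    rw [eventually_all]; intro v'
    by_cases h : v = v'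
    · exact Eventually.of_forall fun r h' => absurd h h'
    · have : 0 < |ν v - ν v'| / 2 := by
        have := abs_pos.2 (sub_ne_zero.2 (hν.ne h)); linarith
      filter_upwards [hsmall _ this] with r hr _
      linarith
  have e2 : ∀ᶠ r in 𝓝[>] (0 : ℝ), ∀ i v, v ≠ w i false → v ≠ w i true → ∀ τ ∈ Icc (0 : ℝ) 1,
      r < ‖c i τ - ν v‖ := by
    rw [eventually_all]; intro i
    rw [eventually_all]; intro v
    by_cases h : v ≠ w i false ∧ v ≠ w i true
    · obtain ⟨τ0, hτ0, hmin⟩ := (isCompact_Icc (a := (0 : ℝ)) (b := 1)).exists_isMinOn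
        ⟨0, by simp⟩ (f := fun τ => ‖c i τ - ν v‖) ((hc i).sub continuous_const).norm.continuousOn
      have hpos : 0 < ‖c i τ0 - ν v‖ := by
        rw [norm_pos_iff, sub_ne_zero]
        intro he
        rcases havoid i τ0 hτ0 v he with h' | h'
        · exact h.1 h'
        · exact h.2 h'
      filter_upwards [hsmall _ hpos] with r hr _ _ τ hτ
      exact hr.trans_le (hmin hτ)
    · exact Eventually.of_forall fun r h1 h2 => absurd ⟨h1, h2⟩ h
  obtain ⟨r, ⟨hr1, hr2⟩, hr0⟩ := ((e1.and e2).and (self_mem_nhdsWithin)).exists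
  have hr0 : 0 < r := hr0
  -- last exit and first entry
  have hA : ∀ i, ∃ a ∈ Icc (0 : ℝ) 1, ‖c i a - ν (w i false)‖ ≤ r ∧
      ∀ τ ∈ Icc (0 : ℝ) 1, a < τ → r < ‖c i τ - ν (w i false)‖ := by
    intro i
    have hcl : IsClosed {τ | ‖c i τ - ν (w i false)‖ ≤ r} :=
      isClosed_le ((hc i).sub continuous_const).norm continuous_const
    obtain ⟨a, ⟨ha, ha'⟩, hmax⟩ := ((isCompact_Icc (a := (0 : ℝ)) (b := 1)).inter_right
      hcl).exists_isGreatest ⟨0, by simp, by simp [h0, hr0.le]⟩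
    refine ⟨a, ha, ha', fun τ hτ hlt => ?_⟩
    by_contra hcon
    exact absurd (hmax ⟨hτ, not_lt.1 hcon⟩) (not_le.2 hlt)
  choose a ha1 ha2 ha3 using hA
  have hdist : ∀ i, 2 * r < ‖((ν (w i true) : ℝ) : ℂ) - ((ν (w i false) : ℝ) : ℂ)‖ := by
    intro i
    rw [← Complex.ofReal_sub, Complex.norm_real, Real.norm_eq_abs]
    exact hr1 _ _ (hw i).symm
  have ha4 : ∀ i, a i < 1 := by
    intro i
    refine lt_of_le_of_ne (ha1 i).2 fun h => ?_
    have := ha2 i
    rw [h, h1] at this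
    linarith [hdist i]
  have hB : ∀ i, ∃ b ∈ Icc (a i) 1, ‖c i b - ν (w i true)‖ ≤ r ∧
      ∀ τ ∈ Icc (a i) 1, τ < b → r < ‖c i τ - ν (w i true)‖ := by
    intro i
    have hcl : IsClosed {τ | ‖c i τ - ν (w i true)‖ ≤ r} :=
      isClosed_le ((hc i).sub continuous_const).norm continuous_const
    obtain ⟨b, ⟨hb, hb'⟩, hmin⟩ := ((isCompact_Icc (a := a i) (b := 1)).inter_right
      hcl).exists_isLeast ⟨1, by simp [(ha4 i).le], by simp [h1, hr0.le]⟩
    refine ⟨b, hb, hb', fun τ hτ hlt => ?_⟩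
    by_contra hcon
    exact absurd (hmin ⟨hτ, not_lt.1 hcon⟩) (not_le.2 hlt)
  choose b hb1 hb2 hb3 using hB
  have hab : ∀ i, a i < b i := by
    intro i
    refine lt_of_le_of_ne (hb1 i).1 fun h => ?_
    have h2 := ha2 i
    have h3 := hb2 i
    rw [← h] at h3
    have h4 := hdist i
    have h5 := norm_add_le (((ν (w i true) : ℝ) : ℂ) - c i (a i)) (c i (a i) - ((ν (w i false) : ℝ) : ℂ))
    rw [sub_add_sub_cancel, norm_sub_rev _ (c i (a i))] at h5
    linarith
  have hpa : ∀ i, ‖c i (a i) - ν (w i false)‖ = r := by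
    intro i
    refine le_antisymm (ha2 i) ?_
    have hcl : IsClosed {τ | r ≤ ‖c i τ - ν (w i false)‖} :=
      isClosed_le continuous_const ((hc i).sub continuous_const).norm
    have hsub : closure (Ioc (a i) 1) ⊆ {τ | r ≤ ‖c i τ - ν (w i false)‖} :=
      closure_minimal (fun τ hτ => (ha3 i τ ⟨(ha1 i).1.trans hτ.1.le, hτ.2⟩ hτ.1).le) hcl
    rw [closure_Ioc (ha4 i).ne] at hsub
    exact hsub ⟨le_rfl, (ha4 i).le⟩
  have hpb : ∀ i, ‖c i (b i) - ν (w i true)‖ = r := by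
    intro i
    refine le_antisymm (hb2 i) ?_
    have hcl : IsClosed {τ | r ≤ ‖c i τ - ν (w i true)‖} :=
      isClosed_le continuous_const ((hc i).sub continuous_const).norm
    have hsub : closure (Ico (a i) (b i)) ⊆ {τ | r ≤ ‖c i τ - ν (w i true)‖} :=
      closure_minimal (fun τ hτ => (hb3 i τ ⟨hτ.1, hτ.2.le.trans (hb1 i).2⟩ hτ.2).le) hcl
    rw [closure_Ico (hab i).ne] at hsub
    exact hsub ⟨(hab i).le, le_rfl⟩
  have hI : ∀ i, ∀ τ ∈ Icc (a i) (b i), τ ∈ Icc (0 : ℝ) 1 := fun i τ hτ =>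
    ⟨(ha1 i).1.trans hτ.1, hτ.2.trans (hb1 i).2⟩
  have hfar : ∀ i v, ∀ τ ∈ Icc (a i) (b i), r ≤ ‖c i τ - ν v‖ := by
    intro i v τ hτ
    by_cases h2 : v = w i false
    · subst h2
      rcases eq_or_lt_of_le hτ.1 with h | h
      · rw [← h, hpa]
      · exact (ha3 i τ (hI i τ hτ) h).le
    by_cases h3 : v = w i true
    · subst h3
      rcases eq_or_lt_of_le hτ.2 with h | h
      · rw [h, hpb]
      · exact (hb3 i τ ⟨hτ.1, hτ.2.trans (hb1 i).2⟩ h).le
    exact (hr2 i v h2 h3 τ (hI i τ hτ)).le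
  have hfarint : ∀ i v, ∀ τ ∈ Ioo (a i) (b i), r < ‖c i τ - ν v‖ := by
    intro i v τ hτ
    have hτ' : τ ∈ Icc (a i) (b i) := ⟨hτ.1.le, hτ.2.le⟩
    by_cases h2 : v = w i false
    · subst h2; exact ha3 i τ (hI i τ hτ') hτ.1
    by_cases h3 : v = w i true
    · subst h3; exact hb3 i τ ⟨hτ.1.le, hτ'.2.trans (hb1 i).2⟩ hτ.2
    exact hr2 i v h2 h3 τ (hI i τ hτ')
  -- separation
  have e3 : ∀ᶠ δ in 𝓝[>] (0 : ℝ), ∀ i j, nr i j → i ≠ j → ∀ τ ∈ Icc (a i) (b i),
      ∀ τ' ∈ Icc (a j) (b j), δ < ‖c i τ - c j τ'‖ := by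
    rw [eventually_all]; intro i
    rw [eventually_all]; intro j
    by_cases h : nr i j ∧ i ≠ j
    · obtain ⟨x, hx, hmin⟩ := ((isCompact_Icc (a := a i) (b := b i)).prod
        (isCompact_Icc (a := a j) (b := b j))).exists_isMinOn
        ⟨(a i, a j), ⟨⟨le_rfl, (hab i).le⟩, ⟨le_rfl, (hab j).le⟩⟩⟩
        (f := fun x : ℝ × ℝ => ‖c i x.1 - c j x.2‖)
        (((hc i).comp continuous_fst).sub ((hc j).comp continuous_snd)).norm.continuousOn
      have hpos : 0 < ‖c i x.1 - c j x.2‖ := by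
        rw [norm_pos_iff, sub_ne_zero]
        intro he
        obtain ⟨v, hv⟩ := hnear i j h.1 h.2 x.1 (hI i _ hx.1) x.2 (hI j _ hx.2) he
        have := hfar i v x.1 hx.1
        rw [hv, sub_self, norm_zero] at this
        linarith
      filter_upwards [hsmall _ hpos] with δ hδ _ _ τ hτ τ' hτ'
      have hm : (τ, τ') ∈ Icc (a i) (b i) ×ˢ Icc (a j) (b j) := ⟨hτ, hτ'⟩
      exact hδ.trans_le (hmin hm)
    · exact Eventually.of_forall fun δ h1 h2 => absurd ⟨h1, h2⟩ h
  obtain ⟨δ, ⟨hδ1, hδ2⟩, hδ0⟩ := ((e3.and (hsmall r hr0)).and (self_mem_nhdsWithin)).exists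
  exact ⟨⟨ν, r, δ, c, a, b, hc, hr0, hδ0, hδ2.le, hr1, hab, hfar, hfarint, hpa, hpb, hδ1, hw⟩⟩

/-- edges as ordered pairs -/
def Ed {V : Type} [LinearOrder V] (G : SimpleGraph V) : Type :=
  {p : V × V // p.1 < p.2 ∧ G.Adj p.1 p.2}

variable {V : Type} [LinearOrder V] {G : SimpleGraph V}

def Ed.sym (e : Ed G) : Sym2 V := s(e.1.1, e.1.2)

theorem Ed.sym_inj {e f : Ed G} (h : e.sym = f.sym) : e = f := by
  rcases Sym2.eq_iff.1 h with ⟨h1, h2⟩ | ⟨h1, h2⟩
  · exact Subtype.ext (Prod.ext h1 h2)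
  · exfalso
    have h3 := e.2.1
    have h4 := f.2.1
    rw [h1, h2] at h3
    exact lt_asymm h3 h4

def Ed.end (e : Ed G) (b : Bool) : V := if b then e.1.2 else e.1.1

instance [Finite V] : Finite (Ed G) := by unfold Ed; infer_instance

def nrE (G : SimpleGraph V) (k : ℕ) (e f : Ed G) : Prop := Near G k e.sym f.sym

theorem nrE_symm {k : ℕ} {e f : Ed G} (h : nrE G k e f) : nrE G k f e := Near.symm h

/-- a linear function that separates the points -/
theorem exists_slope [Finite V] (p : V → ℂ) (hp : Function.Injective p) :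
    ∃ s : ℝ, Function.Injective fun v => (p v).re + s * (p v).im := by
  classical
  have := Fintype.ofFinite V
  -- bad slopes
  set B : Finset ℝ := (Finset.univ : Finset (V × V)).image fun x =>
    -((p x.1).re - (p x.2).re) / ((p x.1).im - (p x.2).im) with hB
  obtain ⟨s, hs⟩ := Infinite.exists_notMem_finset B
  refine ⟨s, fun u v h => ?_⟩
  simp only at h
  by_contra hne
  by_cases him : (p u).im = (p v).im
  · apply hne
    apply hp
    refine Complex.ext ?_ him
    rw [him] at h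
    linarith
  · refine hs (Finset.mem_image.2 ⟨(u, v), Finset.mem_univ _, ?_⟩)
    have : (p u).im - (p v).im ≠ 0 := sub_ne_zero.2 him
    field_simp
    linarith

theorem exists_sys_of_top [Fintype V] {k : ℕ} (D : TopGraph G) (hD : D.LocallyPlanar k) :
    ∃ (pl : Lam → ℕ) (ρ : V → ℕ) (S : Ed G → Sq Lam), Function.Injective ρ ∧
      (∀ v, ρ v < Fintype.card V) ∧ Monotone pl ∧ (∀ x, pl x ≤ 2 * Fintype.card V) ∧
      Sys pl (fun e => 2 * ρ e.1.1 + 1) (fun e => 2 * ρ e.1.2 + 1) (nrE G k) S := by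
  classical
  rw [locallyPlanar_iff] at hD
  obtain ⟨s, hs⟩ := exists_slope D.pos D.pos_inj
  set ν : V → ℝ := fun v => (D.pos v).re + s * (D.pos v).im with hν
  set A : Polynomial ℝ := Lagrange.interpolate Finset.univ ν (fun v => (D.pos v).im) with hA
  have hAe : ∀ v, A.eval (ν v) = (D.pos v).im := fun v =>
    Lagrange.eval_interpolate_at_node _ (hs.injOn) (Finset.mem_univ v)
  set Φ : ℂ → ℂ := fun z => ⟨z.re + s * z.im, z.im - A.eval (z.re + s * z.im)⟩ with hΦ
  have hΦc : Continuous Φ := by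
    have h1 : Continuous fun z : ℂ => z.re + s * z.im :=
      Complex.continuous_re.add (continuous_const.mul Complex.continuous_im)
    exact cont_mk h1 (Complex.continuous_im.sub (A.continuous.comp h1))
  have hΦi : Function.Injective Φ := by
    intro z z' h
    have h1 : z.re + s * z.im = z'.re + s * z'.im := congrArg Complex.re h
    have h2 : z.im - A.eval (z.re + s * z.im) = z'.im - A.eval (z'.re + s * z'.im) :=
      congrArg Complex.im h
    rw [h1] at h2
    have h3 : z.im = z'.im := by linarith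
    rw [h3] at h1
    exact Complex.ext (by linarith) h3
  have hΦp : ∀ v, Φ (D.pos v) = (ν v : ℂ) := by
    intro v
    refine Complex.ext rfl ?_
    show (D.pos v).im - A.eval (ν v) = 0
    rw [hAe, sub_self]
  have harc : ∀ e : Ed G, ∃ γ : unitInterval → ℂ, Continuous γ ∧ Function.Injective γ ∧
      γ 0 = D.pos e.1.1 ∧ γ 1 = D.pos e.1.2 ∧ range γ = D.arc e.sym := fun e =>
    D.isArc _ _ e.2.2
  choose γ g1 g2 g3 g4 g5 using harc
  set c : Ed G → ℝ → ℂ := fun e t => Φ (γ e (projIcc 0 1 zero_le_one t)) with hc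
  have hmem : ∀ e t, γ e (projIcc 0 1 zero_le_one t) ∈ D.arc e.sym := fun e t => by
    rw [← g5]; exact mem_range_self _
  obtain ⟨K⟩ := exists_cur (V := V) (ι := Ed G) (fun e b => e.end b) (nrE G k) ν hs c
    (fun e => hΦc.comp ((g1 e).comp continuous_projIcc))
    (fun e => by
      simp only [hc]
      have : projIcc (0 : ℝ) 1 zero_le_one 0 = 0 := projIcc_left _
      rw [this, g3, hΦp]; rfl)
    (fun e => by
      simp only [hc]
      have : projIcc (0 : ℝ) 1 zero_le_one 1 = 1 := projIcc_right _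
      rw [this, g4, hΦp]; rfl)
    (fun e => by
      have := e.2.1.ne
      simpa [Ed.end] using this)
    (fun e τ _ v hv => by
      simp only [hc] at hv
      rw [← hΦp] at hv
      have h1 := hΦi hv
      have h2 := D.avoid e.sym e.2.2 v (h1 ▸ hmem e τ)
      simpa [Ed.sym, Ed.end] using h2)
    (fun e f hn hne τ _ τ' _ h => by
      simp only [hc] at h
      have h1 := hΦi h
      have h2 := hD e.sym e.2.2 f.sym f.2.2 (fun h => hne (Ed.sym_inj h)) hn
      unfold TopGraph.Cross at h2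
      push Not at h2
      obtain ⟨v, -, -, hv⟩ := h2 _ ⟨hmem e τ, h1 ▸ hmem f τ'⟩
      exact ⟨v, by simp only [hc]; rw [hv, hΦp]⟩)
  obtain ⟨S, hS⟩ := K.exists_sys (fun _ _ => nrE_symm)
  exact ⟨K.pl, K.rk, S, K.rk_inj, K.rk_lt, K.pl_mono, fun x => K.plr_le _, hS⟩

end Pool.Agent.LP86
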