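import Pool.Agent.LP86.Tru
import Pool.Agent.LP86.Mirror3
import Pool.Agent.LP86.Top4
import Pool.Agent.Lib.helper9.BinA

/-!
Completeness of the certificates: a locally planar drawing gives short certificates.
-/

namespace Pool.Agent.LP86

open Pool.Agent.Cx

/-! ### explicit bounds, over any commutative semiring -/

section
variable {S : Type} [CommSemiring S]

def nF (c : S) : S := 2 * c + 1

def bF (c : S) : S := c ^ 2 + 2 * c + 2

def zF (c : S) : S := 4 * (bF c + 3) + 5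

def lF (c : S) : S := 2 * nF c ^ 2 + bF c * ((8 * nF c ^ 2 + 1) * (8 * bF c + 8))

def rF (c : S) : S := lF c * (4 * lF c + 4 * nF c + 19) + 1

def tF (c : S) : S := nF c * (zF c + 1) + 1 + (2 * nF c ^ 2 * (4 * nF c + 3 * zF c + 11) + 1) +
  2 * (lF c * (3 * zF c + 7) + 1 + zF c + 1) + 3

end

theorem size_rule {a : Rule} {q n : ℕ} (h1 : a.2.1 ≤ q) (h2 : a.2.2.1 ≤ q) (h3 : a.fs.2 < n)
    (h4 : a.ls.2 < n) : size a ≤ 4 * q + 4 * n + 18 := by
  obtain ⟨b, x, y, ⟨P, i⟩, ⟨P', j⟩⟩ := a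
  simp only [Rule.fs, Rule.ls] at h1 h2 h3 h4
  have e1 := size_bool b
  have e2 := size_bool P
  have e3 := size_bool P'
  simp only [size_pair, size_nat]
  omega

theorem size_band {a : Band} {n Z : ℕ} (h1 : a.i < n) (h2 : a.j < n) (h3 : size a.lo ≤ Z)
    (h4 : size a.hi ≤ Z) (h5 : size a.c ≤ Z) : size a ≤ 4 * n + 3 * Z + 10 := by
  obtain ⟨P, i, j, lo, hi, c⟩ := a
  simp only [Band.i, Band.j, Band.lo, Band.hi, Band.c] at h1 h2 h3 h4 h5
  have e2 := size_bool P
  simp only [size_pair, size_nat]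
  omega

theorem size_ent {a : Ent} {Z : ℕ} (h3 : size a.lo ≤ Z)
    (h4 : size a.hi ≤ Z) (h5 : size a.c ≤ Z) : size a ≤ 3 * Z + 6 := by
  obtain ⟨lo, hi, s, c⟩ := a
  simp only [Ent.lo, Ent.hi, Ent.c] at h3 h4 h5
  have e2 := size_bool s
  simp only [size_pair]
  omega

theorem size_list_le' {α : Type} [Enc α] {l : List α} {q B : ℕ} (h : ∀ a ∈ l, size a ≤ B)
    (hl : l.length ≤ q) : size l ≤ q * (B + 1) + 1 :=
  (size_list_le l B h).trans (Nat.add_le_add_right (Nat.mul_le_mul_right _ hl) 1)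

theorem size_tb {t : Tb} {n Z q : ℕ} (h1 : t.1.length ≤ n) (h2 : t.2.1.length ≤ 2 * n ^ 2)
    (h3 : t.2.2.1.1.length ≤ q) (h4 : t.2.2.2.1.length ≤ q) (h5 : ∀ z ∈ t.1, size z ≤ Z)
    (h6 : ∀ a ∈ t.2.1, a.i < n ∧ a.j < n ∧ size a.lo ≤ Z ∧ size a.hi ≤ Z ∧ size a.c ≤ Z)
    (h7 : ∀ e ∈ t.2.2.1.1, size e.lo ≤ Z ∧ size e.hi ≤ Z ∧ size e.c ≤ Z)
    (h8 : ∀ e ∈ t.2.2.2.1, size e.lo ≤ Z ∧ size e.hi ≤ Z ∧ size e.c ≤ Z)
    (h9 : size t.2.2.1.2 ≤ Z) (h10 : size t.2.2.2.2 ≤ Z) :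
    size t ≤ n * (Z + 1) + 1 + (2 * n ^ 2 * (4 * n + 3 * Z + 11) + 1) +
      2 * (q * (3 * Z + 7) + 1 + Z + 1) + 3 := by
  obtain ⟨B, L, ⟨E, z⟩, ⟨E', z'⟩⟩ := t
  have a1 := size_list_le' h5 h1
  have a2 := size_list_le' (B := 4 * n + 3 * Z + 10)
    (fun a ha => size_band (h6 a ha).1 (h6 a ha).2.1 (h6 a ha).2.2.1
    (h6 a ha).2.2.2.1 (h6 a ha).2.2.2.2) h2
  have a3 := size_list_le' (B := 3 * Z + 6)
    (fun a ha => size_ent (h7 a ha).1 (h7 a ha).2.1 (h7 a ha).2.2) h3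
  have a4 := size_list_le' (B := 3 * Z + 6)
    (fun a ha => size_ent (h8 a ha).1 (h8 a ha).2.1 (h8 a ha).2.2) h4
  rw [show 4 * n + 3 * Z + 10 + 1 = 4 * n + 3 * Z + 11 from rfl] at a2
  rw [show 3 * Z + 6 + 1 = 3 * Z + 7 from rfl] at a3 a4
  simp only [size_pair] at *
  omega

variable {V : Type} [Fintype V] [LinearOrder V] {G : SimpleGraph V}

theorem card_ed [Fintype (Ed G)] : Fintype.card (Ed G) ≤ Fintype.card V ^ 2 := by
  have h := Fintype.card_le_of_injective (fun e : Ed G => e.1) Subtype.val_injective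
  rwa [Fintype.card_prod, ← sq] at h

theorem cert_of_klp {k : ℕ} (h : KLocallyPlanar k G) :
    ∃ (ρ : V → ℕ) (R : Ed G → List Rule) (t : Ed G → Ed G → Tb), Function.Injective ρ ∧
      (∀ v, ρ v < Fintype.card V) ∧ (∀ e, gW (R e) (ρ e.1.1) (ρ e.1.2)) ∧
      (∀ e f, e = f ∨ nrE G k e f → gP (R e) (R f) (t e f)) ∧
      (∀ e, size (R e) ≤ rF (Fintype.card V)) ∧
      ∀ e f, size (t e f) ≤ tF (Fintype.card V) := by
  classical
  obtain ⟨T0, hT0⟩ := h
  obtain ⟨pl, ρ, S, hρ, hρc, hmono, hpl, hS⟩ := exists_sys_of_top T0 hT0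
  haveI : Fintype (Ed G) := Fintype.ofFinite _
  set c := Fintype.card V with hc
  obtain ⟨D, M⟩ := exists_minSys hS (fun e f => nrE_symm)
    (fun e => by rw [Nat.even_iff]; omega) (fun e => by rw [Nat.even_iff]; omega)
    (fun e he => e.2.1.ne (hρ (by simpa using he))) hmono
  have hgs : ∀ e, Gs pl (nF c) (D e) := fun e =>
    { mono := hmono
      lt := fun x => Nat.lt_succ_of_le (hpl x)
      mpos := M.m_pos e
      inj := fun a ha b hb hab => M.inj e ha hb hab
      alt := fun a ha => M.alt e ha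
      nal := fun a ha b hb hab => M.self' e ha hb hab
      noloop := fun a ha => M.noloop e ha
      even := fun a h0 ha => M.sys.int e a h0 ha
      odd0 := by rw [M.sys.src e]; exact M.osp e
      oddm := by rw [M.sys.dst e]; exact M.otp e
      ends := by rw [M.sys.src e, M.sys.dst e]; exact M.spt e }
  have hlen : ∀ e, (D e).m ≤ 2 ^ bF c := by
    intro e
    have h1 := M.length_bound hpl e
    have h2 : 2 ^ Fintype.card (Ed G) ≤ 2 ^ (c ^ 2) := Nat.pow_le_pow_right two_pos card_ed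
    have h3 : 2 * c + 1 < 2 ^ (2 * c + 1) := Nat.lt_two_pow_self
    have h4 : (2 * c + 1) * 2 ^ Fintype.card (Ed G) ≤ (2 * c + 1) * 2 ^ (c ^ 2) :=
      Nat.mul_le_mul_left _ h2
    have h5 : (2 * c + 1 + 1) * 2 ^ (c ^ 2) ≤ 2 ^ (2 * c + 1) * 2 ^ (c ^ 2) :=
      Nat.mul_le_mul_right _ h3
    have h6 : 2 ^ (2 * c + 1) * 2 ^ (c ^ 2) ≤ 2 ^ bF c := by
      rw [← pow_add]
      exact Nat.pow_le_pow_right two_pos (by unfold bF; omega)
    have h7 : 0 < 2 ^ (c ^ 2) := pow_pos two_pos _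
    have h8 : (2 * c + 1 + 1) * 2 ^ (c ^ 2) = (2 * c + 1) * 2 ^ (c ^ 2) + 2 ^ (c ^ 2) := by ring
    omega
  have hprg := fun e => (hgs e).exists_prg (hlen e)
  choose l R hR hlR using hprg
  have hduo : ∀ e f, e = f ∨ nrE G k e f →
      Duo pl (nF c) fun j : Bool => if j then D e else D f := by
    intro e f hef
    refine ⟨fun j => ?_, fun i j => ?_⟩
    · cases j
      · exact hgs f
      · exact hgs e
    · cases i <;> cases j
      · exact Or.inl rfl
      · rcases eq_or_ne e f with rfl | hne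
        · exact Or.inl rfl
        have hn := nrE_symm (hef.resolve_left hne)
        exact Or.inr ⟨M.sys.dis f e hn hne.symm, M.sys.nal f e hn hne.symm⟩
      · rcases eq_or_ne e f with rfl | hne
        · exact Or.inl rfl
        have hn := hef.resolve_left hne
        exact Or.inr ⟨M.sys.dis e f hn hne, M.sys.nal e f hn hne⟩
      · exact Or.inl rfl
  have htb : ∀ e f, ∃ t : Tb, size t ≤ tF c ∧ (e = f ∨ nrE G k e f → gP (R e) (R f) t) := by
    intro e f
    by_cases hef : e = f ∨ nrE G k e f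
    swap
    · refine ⟨([], [], ([], 0), ([], 0)), ?_, fun h => absurd h hef⟩
      have e0 : size (0 : ℤ) ≤ zF c := by
        refine (size_int_le (k := bF c + 3) (by simp)).trans ?_
        unfold zF; omega
      simp only [size_pair, size_nil]
      unfold tF
      omega
    obtain ⟨t, a1, a2, a3, a4, a5, a6, a7, a8, a9, a10, a11⟩ := (hduo e f hef).exists_tb
      (l := fun j => if j then l e else l f) (R := fun j => if j then R e else R f)
      (fun j => by cases j <;> simp [hR])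
    refine ⟨t, ?_, fun _ => a1⟩
    have hb : (2 * (((D e).m + (D f).m + 2 : ℕ) : ℤ)) < 2 ^ (bF c + 3) := by
      have h1 := hlen e
      have h2 := hlen f
      have h3 : 2 ^ (bF c + 3) = 8 * 2 ^ bF c := by rw [pow_add]; ring
      have h4 : 2 ^ 1 < 2 ^ bF c := Nat.pow_lt_pow_right one_lt_two (by unfold bF; omega)
      have h5 : 2 * ((D e).m + (D f).m + 2) < 2 ^ (bF c + 3) := by omega
      exact_mod_cast h5
    have hz : ∀ z : ℤ, |z| ≤ 2 * (((D e).m + (D f).m + 2 : ℕ) : ℤ) → size z ≤ zF c := fun z hz =>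
      size_int_le (hz.trans_lt hb)
    refine size_tb a2 a3 (a4.le.trans (hlR e)) (a5.le.trans (hlR f)) (fun z hz' => hz z (a6 z hz'))
      (fun a ha => ?_) (fun a ha => ?_) (fun a ha => ?_) (hz _ a10) (hz _ a11)
    · obtain ⟨b1, b2, b3, b4, b5⟩ := a7 a ha
      exact ⟨b1, b2, hz _ b3, hz _ b4, hz _ b5⟩
    · obtain ⟨b3, b4, b5⟩ := a8 a ha
      exact ⟨hz _ b3, hz _ b4, hz _ b5⟩
    · obtain ⟨b3, b4, b5⟩ := a9 a ha
      exact ⟨hz _ b3, hz _ b4, hz _ b5⟩
  choose t ht1 ht2 using htb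
  refine ⟨ρ, R, t, hρ, hρc, fun e => ?_, fun e f => ht2 e f, fun e => ?_, ht1⟩
  · have hp := (hR e).pos
    have hl := (hR e).lk.len
    have h0 : 0 < (D e).m := M.m_pos e
    refine ⟨by omega, (hR e).lk.good, ?_, ?_⟩
    · rw [hl, (hR e).lk.fs _ (by omega), (hR e).last, fsW_eq]
      have : (fac pl (D e) false 0 (D e).m).getD 0 dL = Lr pl (D e) false 0 := by
        rw [List.getD_eq_getElem _ _ (by rw [fac_length]; exact h0)]
        simp [fac]
      rw [this]
      exact M.sys.src e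
    · rw [hl, (hR e).lk.ls _ (by omega), (hR e).last, lsW_eq, fac_length]
      have : (fac pl (D e) false 0 (D e).m).getD ((D e).m - 1) dL =
          Lr pl (D e) false ((D e).m - 1) := by
        rw [List.getD_eq_getElem _ _ (by rw [fac_length]; omega)]
        simp [fac]
      rw [this]
      have h2 : (Lr pl (D e) false ((D e).m - 1)).2.2 = pl ((D e).p (D e).m) := by
        show pl ((D e).p ((D e).m - 1 + 1)) = _
        rw [Nat.sub_add_cancel h0]
      exact h2.trans (M.sys.dst e)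
  · refine size_list_le' (q := lF c) (B := 4 * lF c + 4 * nF c + 18) (fun a ha => ?_)
      (by rw [(hR e).lk.len]; exact hlR e)
    obtain ⟨b1, b2, b3, b4⟩ := (hR e).lk.small a ha
    exact size_rule (b1.trans (hlR e)) (b2.trans (hlR e)) b3 b4

end Pool.Agent.LP86
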