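import Pool.Agent.LP86.Chord

/-!
Drawings with all vertices on the real axis and every edge drawn as one chord above or below it.
-/

namespace Pool.Agent.LP86

open Set

variable {V : Type}

/-- sign of a page -/
def sg (b : Bool) : ℝ := if b then 1 else -1

theorem sg_ne (b : Bool) : sg b ≠ 0 := by unfold sg; split_ifs <;> norm_num

theorem sg_sq (b : Bool) : sg b * sg b = 1 := by unfold sg; split_ifs <;> norm_num

/-- the arc of an edge -/
def bookArc (ξ : V → ℝ) (pg : Sym2 V → Bool) (e : Sym2 V) : Set ℂ :=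
  {z | ∃ a b, e = s(a, b) ∧ z ∈ chord (sg (pg e)) (ξ a) (ξ b)}

theorem bookArc_mk (ξ : V → ℝ) (pg : Sym2 V → Bool) (a b : V) :
    bookArc ξ pg s(a, b) = chord (sg (pg s(a, b))) (ξ a) (ξ b) := by
  ext z
  constructor
  · rintro ⟨c, d, h, hz⟩
    rcases Sym2.eq_iff.1 h with ⟨rfl, rfl⟩ | ⟨rfl, rfl⟩
    · exact hz
    · rw [chord_comm]; exact hz
  · intro h
    exact ⟨a, b, rfl, h⟩

theorem chord_meet {s s' a b c d : ℝ} {x y : Bool} (hs : s = sg x) (hs' : s' = sg y) (hab : a ≠ b)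
    (hcd : c ≠ d) {z : ℂ} (h1 : z ∈ chord s a b) (h2 : z ∈ chord s' c d)
    (hne : s(a, b) ≠ s(c, d)) :
    ((z = a ∨ z = b) ∧ (z = c ∨ z = d)) ∨
      (x = y ∧ Alt a b c d ∧ a + b ≠ c + d ∧ z.re = (a * b - c * d) / (a + b - c - d)) := by
  subst hs hs'
  by_cases hxy : x = y
  · subst hxy
    rcases chord_same (sg_ne x) hab hcd h1 h2 hne with h | h
    · exact Or.inl h
    · exact Or.inr ⟨rfl, h⟩
  · left
    cases x <;> cases y
    · exact absurd rfl hxy
    · exact (chord_opp (by simp [sg]) (by simp [sg]) h2 h1).symm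
    · exact chord_opp (by simp [sg]) (by simp [sg]) h1 h2
    · exact absurd rfl hxy

/-- the one-chord-per-edge drawing -/
theorem book (G : SimpleGraph V) (ξ : V → ℝ) (hξ : Function.Injective ξ) (pg : Sym2 V → Bool) :
    ∃ D : TopGraph G, ∀ a b c d, G.Adj a b → G.Adj c d → s(a, b) ≠ s(c, d) →
      D.Cross s(a, b) s(c, d) → pg s(a, b) = pg s(c, d) ∧ Alt (ξ a) (ξ b) (ξ c) (ξ d) := by
  have inj2 : ∀ {a b c d : V}, s(a, b) ≠ s(c, d) → s(ξ a, ξ b) ≠ s(ξ c, ξ d) := by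
    intro a b c d h h'
    apply h
    rcases Sym2.eq_iff.1 h' with ⟨h1, h2⟩ | ⟨h1, h2⟩
    · rw [hξ h1, hξ h2]
    · rw [hξ h1, hξ h2, Sym2.eq_swap]
  have real_inj : ∀ {a c : V}, ((ξ a : ℝ) : ℂ) = ((ξ c : ℝ) : ℂ) → a = c := fun h =>
    hξ (Complex.ofReal_injective h)
  -- common ends
  have ends : ∀ {a b c d : V} {z : ℂ}, ((z = ξ a ∨ z = ξ b) ∧ (z = ξ c ∨ z = ξ d)) →
      ∃ w, w ∈ s(a, b) ∧ w ∈ s(c, d) ∧ z = ((ξ w : ℝ) : ℂ) := by
    rintro a b c d z ⟨h1 | h1, h2 | h2⟩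
    · exact ⟨a, by simp, by rw [real_inj (h1.symm.trans h2)]; simp, h1⟩
    · exact ⟨a, by simp, by rw [real_inj (h1.symm.trans h2)]; simp, h1⟩
    · exact ⟨b, by simp, by rw [real_inj (h1.symm.trans h2)]; simp, h1⟩
    · exact ⟨b, by simp, by rw [real_inj (h1.symm.trans h2)]; simp, h1⟩
  have meet : ∀ {a b c d : V}, G.Adj a b → G.Adj c d → s(a, b) ≠ s(c, d) → ∀ z ∈ bookArc ξ pg s(a, b),
      z ∈ bookArc ξ pg s(c, d) → (∃ w, w ∈ s(a, b) ∧ w ∈ s(c, d) ∧ z = ((ξ w : ℝ) : ℂ)) ∨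
        (pg s(a, b) = pg s(c, d) ∧ Alt (ξ a) (ξ b) (ξ c) (ξ d) ∧ ξ a + ξ b ≠ ξ c + ξ d ∧
        z.re = (ξ a * ξ b - ξ c * ξ d) / (ξ a + ξ b - ξ c - ξ d)) := by
    intro a b c d hab hcd hne z h1 h2
    rw [bookArc_mk] at h1 h2
    rcases chord_meet rfl rfl (hξ.ne hab.ne) (hξ.ne hcd.ne) h1 h2 (inj2 hne) with h | h
    · exact Or.inl (ends h)
    · exact Or.inr h
  refine ⟨⟨fun v => ((ξ v : ℝ) : ℂ), bookArc ξ pg, fun a b h => real_inj h, ?_, ?_, ?_, ?_⟩, ?_⟩
  · intro u v huv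
    rw [bookArc_mk]
    exact chord_isArc _ (hξ.ne huv.ne)
  · intro e he w hw
    induction e using Sym2.ind with
    | _ a b =>
      rw [bookArc_mk] at hw
      rcases chord_real (sg_ne _) hw (Complex.ofReal_im _) with h | h
      · rw [real_inj h]; simp
      · rw [real_inj h]; simp
  · intro e he f hf hne
    induction e using Sym2.ind with
    | _ a b =>
    induction f using Sym2.ind with
    | _ c d =>
      have he' : G.Adj a b := he
      have hf' : G.Adj c d := hf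
      refine Set.Finite.subset (s := {((ξ a : ℝ) : ℂ), ((ξ b : ℝ) : ℂ)} ∪
        {(⟨(ξ a * ξ b - ξ c * ξ d) / (ξ a + ξ b - ξ c - ξ d), sg (pg s(a, b)) *
          (((ξ a * ξ b - ξ c * ξ d) / (ξ a + ξ b - ξ c - ξ d) - ξ a) *
          (ξ b - (ξ a * ξ b - ξ c * ξ d) / (ξ a + ξ b - ξ c - ξ d)))⟩ : ℂ)}) (by simp) ?_
      rintro z ⟨h1, h2⟩
      rcases meet he' hf' hne z h1 h2 with ⟨w, hw, -, rfl⟩ | ⟨-, -, -, h⟩
      · left
        rcases Sym2.mem_iff.1 hw with rfl | rfl <;> simp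
      · right
        rw [bookArc_mk] at h1
        rw [mem_singleton_iff]
        apply Complex.ext
        · exact h
        · rw [h1.2, h]
  · rintro e he f hf hne z ⟨h1, h2⟩
    induction e using Sym2.ind with
    | _ a b =>
    induction f using Sym2.ind with
    | _ c d =>
      have he' : G.Adj a b := he
      have hf' : G.Adj c d := hf
      rcases meet he' hf' hne z h1 h2 with h | ⟨h3, h4, h5, h6⟩
      · exact Or.inl h
      · right
        rw [bookArc_mk] at h1 h2 ⊢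
        rw [bookArc_mk]
        rw [← h3] at h2 ⊢
        have h0 : z.im ≠ 0 := by
          intro h0
          rcases chord_real (sg_ne _) h1 h0 with e1 | e1 <;>
            rcases chord_real (sg_ne _) h2 h0 with e2 | e2 <;>
          · have := Complex.ofReal_injective (e1.symm.trans e2)
            unfold Alt at h4
            rw [← this] at h4
            rcases h4 with h4 | h4 <;>
              simp only [min_def, max_def] at h4 <;> split_ifs at h4 <;> linarith [h4.1, h4.2.1, h4.2.2]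
        exact chord_proper (sg_sq _) h1 h2 h5 h0 ⟨univ, isOpen_univ, trivial, fun _ _ => Iff.rfl⟩
          ⟨univ, isOpen_univ, trivial, fun _ _ => Iff.rfl⟩
  · intro a b c d hab hcd hne hcr
    obtain ⟨z, ⟨h1, h2⟩, hno⟩ := hcr
    rcases meet hab hcd hne z h1 h2 with h | h
    · exact absurd h hno
    · exact ⟨h.1, h.2.1⟩

end Pool.Agent.LP86
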