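import Pool.Agent.LP86.Rot
import Pool.Agent.LP86.Book

/-!
Alternation of pairs on a line and on a circle.
-/

namespace Pool.Agent.LP86

/-- `x` is strictly between `a` and `b` -/
def Btw {α : Type*} [LinearOrder α] (x a b : α) : Prop := (a < x ∧ x < b) ∨ (b < x ∧ x < a)

theorem Btw.symm {α : Type*} [LinearOrder α] {x a b : α} (h : Btw x a b) : Btw x b a := Or.symm h

/-- the pairs `a b` and `c d` alternate -/
def Al {α : Type*} [LinearOrder α] (a b c d : α) : Prop :=
  (Btw c a b ∨ Btw d a b) ∧ (Btw a c d ∨ Btw b c d)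

theorem al_iff_alt {a b c d : ℝ} : Al a b c d ↔ Alt a b c d := by
  unfold Al Btw Alt
  rcases le_total a b with h | h <;> rcases le_total c d with h' | h' <;>
    simp only [min_eq_left, max_eq_right, min_eq_right, max_eq_left, h, h'] <;>
    constructor <;> intro H <;> grind

theorem al_iff_alt4 {a b c d : ℝ} : Al a b c d ↔ Alt4 a b c d := al_iff_alt

theorem Al.symm {α : Type*} [LinearOrder α] {a b c d : α} (h : Al a b c d) : Al c d a b :=
  ⟨h.2, h.1⟩

theorem Al.swap1 {α : Type*} [LinearOrder α] {a b c d : α} (h : Al a b c d) : Al b a c d :=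
  ⟨h.1.imp Btw.symm Btw.symm, h.2.symm⟩

theorem Al.swap2 {α : Type*} [LinearOrder α] {a b c d : α} (h : Al a b c d) : Al a b d c :=
  ⟨h.1.symm, h.2.imp Btw.symm Btw.symm⟩

/-- strictly monotone maps preserve alternation -/
theorem al_map {α β : Type*} [LinearOrder α] [LinearOrder β] (f : α → β) {a b c d : α}
    (hf : ∀ x ∈ ({a, b, c, d} : Set α), ∀ y ∈ ({a, b, c, d} : Set α), f x < f y ↔ x < y) :
    Al (f a) (f b) (f c) (f d) ↔ Al a b c d := by
  unfold Al Btw
  simp only [Set.mem_insert_iff, Set.mem_singleton_iff] at hf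
  rw [hf a (by simp) c (by simp), hf c (by simp) b (by simp), hf b (by simp) c (by simp),
    hf c (by simp) a (by simp), hf a (by simp) d (by simp), hf d (by simp) b (by simp),
    hf b (by simp) d (by simp), hf d (by simp) a (by simp)]

/-- cutting the circle at `p` -/
noncomputable def cut (p x : ℝ) : ℝ := -1 / (x - p)

theorem cut_lt {p x y : ℝ} (hx : x ≠ p) (hy : y ≠ p) :
    cut p x < cut p y ↔ (x < y ∧ (p < x ∨ y < p)) ∨ (p < x ∧ y < p) := by
  unfold cut
  rcases lt_or_gt_of_ne hx with h | h <;> rcases lt_or_gt_of_ne hy with h' | h'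
  · have e : ∀ z : ℝ, -1 / (z - p) = 1 / (p - z) := fun z => by
      rw [neg_div, ← div_neg]; congr 1; ring
    rw [e, e, div_lt_div_iff₀ (by linarith) (by linarith)]
    constructor
    · intro H; exact Or.inl ⟨by linarith, Or.inr h'⟩
    · rintro (⟨H, -⟩ | ⟨H, -⟩) <;> linarith
  · have h1 : 0 < -1 / (x - p) := div_pos_of_neg_of_neg (by norm_num) (by linarith)
    have h2 : -1 / (y - p) < 0 := div_neg_of_neg_of_pos (by norm_num) (by linarith)
    constructor
    · intro H; linarith
    · rintro (⟨-, H | H⟩ | ⟨H, -⟩) <;> linarith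
  · have h1 : -1 / (x - p) < 0 := div_neg_of_neg_of_pos (by norm_num) (by linarith)
    have h2 : 0 < -1 / (y - p) := div_pos_of_neg_of_neg (by norm_num) (by linarith)
    constructor
    · intro _; exact Or.inr ⟨h, h'⟩
    · intro _; linarith
  · rw [div_lt_div_iff₀ (by linarith) (by linarith)]
    constructor
    · intro H; exact Or.inl ⟨by linarith, Or.inl h⟩
    · rintro (⟨H, -⟩ | ⟨-, H⟩) <;> linarith

theorem cut_inj {p x y : ℝ} (hx : x ≠ p) (hy : y ≠ p) (h : cut p x = cut p y) : x = y := by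
  by_contra hne
  have h1 := cut_lt hx hy
  have h2 := cut_lt hy hx
  rw [h] at h1 h2
  grind

theorem al_cut_hub {p a b c : ℝ} (ha : a ≠ p) (hb : b ≠ p) (hc : c ≠ p) :
    Btw (cut p a) (cut p b) (cut p c) → Al p a b c := by
  unfold Btw Al Btw
  rw [cut_lt hb ha, cut_lt ha hc, cut_lt hc ha, cut_lt ha hb]
  grind

theorem al_cut {p a b c d : ℝ} (ha : a ≠ p) (hb : b ≠ p) (hc : c ≠ p) (hd : d ≠ p) :
    Al (cut p a) (cut p b) (cut p c) (cut p d) ↔ Al a b c d := by
  unfold Al Btw
  rw [cut_lt ha hc, cut_lt hc hb, cut_lt hb hc, cut_lt hc ha, cut_lt ha hd, cut_lt hd hb,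
    cut_lt hb hd, cut_lt hd ha]
  rcases lt_or_gt_of_ne ha with h1 | h1 <;> rcases lt_or_gt_of_ne hb with h2 | h2 <;>
  rcases lt_or_gt_of_ne hc with h3 | h3 <;> rcases lt_or_gt_of_ne hd with h4 | h4 <;> grind

end Pool.Agent.LP86
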