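import Mathlib
import Pool.Agent.LP86.Btw

/-!
Words of places, tables that realize two words, and the canonical order of nodes.
-/

namespace Pool.Agent.LP86

/-- the combinatorial word of an edge: places of its nodes and pages of its steps -/
structure Wd where
  m : ℕ
  q : ℕ → ℕ
  g : ℕ → Bool

structure Wd.Ok (W : Wd) (n : ℕ) : Prop where
  alt : ∀ k, k + 1 < W.m → W.g (k + 1) = !W.g k
  even : ∀ k, 0 < k → k < W.m → Even (W.q k)
  odd0 : ¬ Even (W.q 0)
  oddm : ¬ Even (W.q W.m)
  lt : ∀ k ≤ W.m, W.q k < n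
  mpos : 0 < W.m

/-- the reversed word -/
def Wd.rev (W : Wd) : Wd := ⟨W.m, fun k => W.q (W.m - k), fun k => W.g (W.m - 1 - k)⟩

theorem Wd.Ok.rev {W : Wd} {n : ℕ} (h : W.Ok n) : W.rev.Ok n := by
  refine ⟨fun k hk => ?_, fun k h0 hk => ?_, ?_, ?_, fun k hk => ?_, h.mpos⟩
  · simp only [Wd.rev] at hk ⊢
    have := h.alt (W.m - 1 - (k + 1)) (by omega)
    rw [show W.m - 1 - (k + 1) + 1 = W.m - 1 - k by omega] at this
    rw [this, Bool.not_not]
  · simp only [Wd.rev] at hk ⊢
    exact h.even _ (by omega) (by omega)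
  · simpa [Wd.rev] using h.oddm
  · simpa [Wd.rev] using h.odd0
  · simp only [Wd.rev] at hk ⊢
    exact h.lt _ (by omega)

/-- a two-page table -/
structure Tab where
  pl : ℤ → ℕ
  Arc : Bool → ℤ → ℤ → Prop
  mono : Monotone pl
  symm : ∀ P x y, Arc P x y → Arc P y x
  func : ∀ P x y y', Arc P x y → Arc P x y' → y = y'
  nal : ∀ P x y z u, Arc P x y → Arc P z u → ¬ Al x y z u
  noloop : ∀ P x y, Arc P x y → pl x ≠ pl y

/-- positions of a word in a table -/
structure Rz (T : Tab) (W : Wd) (X : ℕ → ℤ) : Prop where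
  pl : ∀ k ≤ W.m, T.pl (X k) = W.q k
  arc : ∀ k < W.m, T.Arc (W.g k) (X k) (X (k + 1))

theorem Rz.rev {T : Tab} {W : Wd} {X : ℕ → ℤ} (h : Rz T W X) :
    Rz T W.rev (fun k => X (W.m - k)) := by
  refine ⟨fun k hk => ?_, fun k hk => ?_⟩
  · simp only [Wd.rev] at hk ⊢
    exact h.pl _ (by omega)
  · simp only [Wd.rev] at hk ⊢
    have := h.arc (W.m - 1 - k) (by omega)
    rw [show W.m - 1 - k + 1 = W.m - k by omega] at this
    rw [show W.m - (k + 1) = W.m - 1 - k by omega]
    exact T.symm _ _ _ this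

/-- key of a target place seen from a place -/
def ky (n i j : ℕ) : ℤ := if j < i then (i : ℤ) - j else (i : ℤ) - j + n

theorem ky_inj {n i j j' : ℕ} (hi : i < n) (hj : j < n) (hj' : j' < n)
    (h : ky n i j = ky n i j') : j = j' := by
  unfold ky at h
  split_ifs at h <;> omega

theorem key_step {T : Tab} {n : ℕ} {P : Bool} {x y x' y' : ℤ} (h1 : T.Arc P x y)
    (h2 : T.Arc P x' y') (hx : T.pl x = T.pl x') (hi : T.pl x < n) (hj : T.pl y < n)
    (hj' : T.pl y' < n) (hle : x ≤ x') :
    ky n (T.pl x) (T.pl y) ≤ ky n (T.pl x) (T.pl y') ∧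
      (T.pl y = T.pl y' → y' ≤ y) := by
  rcases eq_or_lt_of_le hle with rfl | hlt
  · have := T.func _ _ _ _ h1 h2
    subst this
    exact ⟨le_rfl, fun _ => le_rfl⟩
  have hyy : y ≠ y' := by
    rintro rfl
    have := T.func _ _ _ _ (T.symm _ _ _ h1) (T.symm _ _ _ h2)
    omega
  have n1 := T.noloop _ _ _ h1
  have n2 := T.noloop _ _ _ h2
  have hnal := T.nal _ _ _ _ _ h1 h2
  have mono : ∀ a b, T.pl a < T.pl b → a < b := fun a b h => by
    by_contra hcon
    have := T.mono (not_lt.1 hcon)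
    omega
  have m1 := mono y x
  have m2 := mono x y
  have m3 := mono y' x
  have m4 := mono x y'
  have m5 := mono y x'
  have m6 := mono x' y
  have m7 := mono y' x'
  have m8 := mono x' y'
  have m9 := mono y y'
  have m10 := mono y' y
  unfold Al Btw at hnal
  constructor
  · unfold ky
    by_contra hcon
    apply hnal
    split_ifs at hcon <;> grind
  · intro hp
    by_contra hcon
    apply hnal
    grind

variable (n : ℕ)

/-- key list, starting with step `k`, of length `r` -/
def kf (W : Wd) : ℤ → ℕ → ℕ → List ℤ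
  | _, _, 0 => []
  | s, k, r + 1 => s * ky n (W.q k) (W.q (k + 1)) :: kf W (-s) (k + 1) r

theorem cons_le {a b : ℤ} {l l' : List ℤ} (h : a < b ∨ (a = b ∧ l ≤ l')) : a :: l ≤ b :: l' := by
  rcases h with h | ⟨rfl, h⟩
  · exact le_of_lt (List.Lex.rel h : (a :: l) < (b :: l'))
  · exact List.cons_le_cons a h

variable {n}

/-- positions in a table are compared by the key lists -/
theorem kf_le {T : Tab} (r : ℕ) : ∀ (W W' : Wd) (X X' : ℕ → ℤ) (k k' r' : ℕ), W.Ok n → W'.Ok n →
    Rz T W X → Rz T W' X' → k + r = W.m → k' + r' = W'.m → W.q k = W'.q k' →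
    (0 < r → 0 < r' → W.g k = W'.g k') → (r = 0 ↔ r' = 0) →
    (X k ≤ X' k' → kf n W 1 k r ≤ kf n W' 1 k' r') ∧
    (X' k' ≤ X k → kf n W (-1) k r ≤ kf n W' (-1) k' r') := by
  induction r with
  | zero =>
    intro W W' X X' k k' r' _ _ _ _ _ _ _ _ hr
    have : r' = 0 := hr.1 rfl
    subst this
    simp [kf]
  | succ r ih =>
    intro W W' X X' k k' r' ok ok' hX hX' hk hk' hq hg hr
    obtain ⟨r', rfl⟩ : ∃ a, r' = a + 1 :=
      Nat.exists_eq_succ_of_ne_zero (fun h => by have := hr.2 h; omega)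
    have hg := hg (by omega) (by omega)
    have a1 := hX.arc k (by omega)
    have a2 := hX'.arc k' (by omega)
    rw [← hg] at a2
    have p1 := hX.pl k (by omega)
    have p2 := hX'.pl k' (by omega)
    have p3 := hX.pl (k + 1) (by omega)
    have p4 := hX'.pl (k' + 1) (by omega)
    have l1 := ok.lt k (by omega)
    have l2 := ok.lt (k + 1) (by omega)
    have l3 := ok'.lt (k' + 1) (by omega)
    have hpp : T.pl (X k) = T.pl (X' k') := by rw [p1, p2, hq]
    -- what happens when the targets agree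
    have next : W.q (k + 1) = W'.q (k' + 1) →
        (X (k + 1) ≤ X' (k' + 1) → kf n W 1 (k + 1) r ≤ kf n W' 1 (k' + 1) r') ∧
        (X' (k' + 1) ≤ X (k + 1) → kf n W (-1) (k + 1) r ≤ kf n W' (-1) (k' + 1) r') := by
      intro e
      refine ih W W' X X' (k + 1) (k' + 1) r' ok ok' hX hX' (by omega) (by omega) e ?_ ?_
      · intro h0 h0'
        rw [ok.alt k (by omega), ok'.alt k' (by omega), hg]
      · constructor
        · intro h0
          by_contra h0'
          have h3 := ok'.even (k' + 1) (by omega) (by omega)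
          rw [← e, show k + 1 = W.m by omega] at h3
          exact ok.oddm h3
        · intro h0
          by_contra h0'
          have h3 := ok.even (k + 1) (by omega) (by omega)
          rw [e, show k' + 1 = W'.m by omega] at h3
          exact ok'.oddm h3
    simp only [kf]
    constructor
    · intro hle
      obtain ⟨s1, s2⟩ := key_step (n := n) a1 a2 hpp (by omega) (by omega) (by omega) hle
      rw [p1, p3, p4] at s1
      rw [p3, p4] at s2
      rw [← hq]
      refine cons_le ?_
      rcases lt_or_eq_of_le s1 with h | h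
      · left; linarith
      · right
        refine ⟨by rw [h], ?_⟩
        have e := ky_inj (by omega) (by omega) (by omega) h
        exact (next e).2 (s2 e)
    · intro hle
      obtain ⟨s1, s2⟩ := key_step (n := n) a2 a1 hpp.symm (by omega) (by omega) (by omega) hle
      rw [p2, p4, p3] at s1
      rw [p3, p4] at s2
      rw [← hq] at s1 ⊢
      refine cons_le ?_
      rcases lt_or_eq_of_le s1 with h | h
      · left; linarith
      · right
        refine ⟨by rw [h], ?_⟩
        have e := ky_inj (by omega) (by omega) (by omega) h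
        rw [neg_neg]
        exact (next e.symm).1 (s2 e)

theorem kf_eq (r : ℕ) : ∀ (W W' : Wd) (s : ℤ) (k k' r' : ℕ), s ≠ 0 → W.Ok n → W'.Ok n →
    k + r = W.m → k' + r' = W'.m → W.q k = W'.q k' → kf n W s k r = kf n W' s k' r' →
    r = r' ∧ W.q W.m = W'.q W'.m := by
  induction r with
  | zero =>
    intro W W' s k k' r' _ _ _ hk hk' hq h
    cases r' with
    | zero => exact ⟨rfl, by rw [← hk, ← hk']; exact hq⟩
    | succ r' => simp [kf] at h
  | succ r ih =>
    intro W W' s k k' r' hs ok ok' hk hk' hq h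
    cases r' with
    | zero => simp [kf] at h
    | succ r' =>
      simp only [kf, List.cons.injEq] at h
      have h1 := mul_left_cancel₀ hs h.1
      rw [hq] at h1
      have e := ky_inj (ok'.lt k' (by omega)) (ok.lt (k + 1) (by omega))
        (ok'.lt (k' + 1) (by omega)) h1
      have := ih W W' (-s) (k + 1) (k' + 1) r' (by simpa using hs) ok ok' (by omega) (by omega) e h.2
      exact ⟨by omega, this.2⟩

abbrev Cn := ℕ ×ₗ (List ℤ ×ₗ List ℤ)

instance : Countable Cn := inferInstanceAs (Countable (ℕ × (List ℤ × List ℤ)))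

theorem cn_emb : ∃ f : Cn → ℝ, ∀ x y, f x < f y ↔ x < y := by
  obtain ⟨f⟩ := Order.embedding_from_countable_to_dense Cn ℝ
  exact ⟨f, fun x y => f.lt_iff_lt⟩

/-- key list on page `P` at an inner node -/
def kl (n : ℕ) (W : Wd) (k : ℕ) (P : Bool) : List ℤ :=
  if W.g k = P then kf n W 1 k (W.m - k) else kf n W.rev 1 (W.m - k) k

/-- canonical position of a node -/
def cp (n : ℕ) (W : Wd) (k : ℕ) : Cn :=
  if 0 < k ∧ k < W.m then toLex (W.q k, toLex (kl n W k true, kl n W k false))
  else toLex (W.q k, toLex ([], []))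

theorem cp_fst (W : Wd) (k : ℕ) : (ofLex (cp n W k)).1 = W.q k := by
  unfold cp; split_ifs <;> rfl

theorem kl_le {T : Tab} {W W' : Wd} {X X' : ℕ → ℤ} (ok : W.Ok n) (ok' : W'.Ok n)
    (hX : Rz T W X) (hX' : Rz T W' X') {k k' : ℕ} (h0 : 0 < k) (hk : k < W.m) (h0' : 0 < k')
    (hk' : k' < W'.m) (hq : W.q k = W'.q k') (hle : X k ≤ X' k') (P : Bool) :
    kl n W k P ≤ kl n W' k' P := by
  -- the page of the backward step
  have back : ∀ {W : Wd} {k : ℕ}, W.Ok n → 0 < k → k < W.m → W.g k ≠ P →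
      W.rev.g (W.m - k) = P := by
    intro W k ok h0 hk h
    simp only [Wd.rev]
    have := ok.alt (k - 1) (by omega)
    rw [show k - 1 + 1 = k by omega] at this
    rw [show W.m - 1 - (W.m - k) = k - 1 by omega]
    revert this h
    cases W.g k <;> cases W.g (k - 1) <;> cases P <;> simp
  have qrev : ∀ {W : Wd} {k : ℕ}, k < W.m → W.rev.q (W.m - k) = W.q k := by
    intro W k hk
    simp only [Wd.rev]
    rw [show W.m - (W.m - k) = k by omega]
  unfold kl
  split_ifs with h h' h'
  · exact (kf_le (W.m - k) W W' X X' k k' (W'.m - k') ok ok' hX hX' (by omega) (by omega) hq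
      (fun _ _ => h.trans h'.symm) (by omega)).1 hle
  · exact (kf_le (W.m - k) W W'.rev X (fun k => X' (W'.m - k)) k (W'.m - k') k' ok ok'.rev hX
      hX'.rev (by omega) (by simp only [Wd.rev]; omega) (hq.trans (qrev hk').symm)
      (fun _ _ => h.trans (back ok' h0' hk' h').symm) (by omega)).1
      (by show X k ≤ X' (W'.m - (W'.m - k')); rwa [show W'.m - (W'.m - k') = k' by omega])
  · exact (kf_le k W.rev W' (fun k => X (W.m - k)) X' (W.m - k) k' (W'.m - k') ok.rev ok' hX.rev
      hX' (by simp only [Wd.rev]; omega) (by omega) ((qrev hk).trans hq)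
      (fun _ _ => (back ok h0 hk h).trans h'.symm) (by omega)).1
      (by show X (W.m - (W.m - k)) ≤ X' k'; rwa [show W.m - (W.m - k) = k by omega])
  · exact (kf_le k W.rev W'.rev (fun k => X (W.m - k)) (fun k => X' (W'.m - k)) (W.m - k)
      (W'.m - k') k' ok.rev ok'.rev hX.rev hX'.rev (by simp only [Wd.rev]; omega)
      (by simp only [Wd.rev]; omega) ((qrev hk).trans (hq.trans (qrev hk').symm))
      (fun _ _ => (back ok h0 hk h).trans (back ok' h0' hk' h').symm) (by omega)).1
      (by show X (W.m - (W.m - k)) ≤ X' (W'.m - (W'.m - k'))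
          rwa [show W.m - (W.m - k) = k by omega, show W'.m - (W'.m - k') = k' by omega])

/-- the canonical order refines the order in a table -/
theorem cp_lt {T : Tab} {W W' : Wd} {X X' : ℕ → ℤ} (ok : W.Ok n) (ok' : W'.Ok n)
    (hX : Rz T W X) (hX' : Rz T W' X') {k k' : ℕ} (hk : k ≤ W.m)
    (hk' : k' ≤ W'.m) (h : cp n W k < cp n W' k') : X k < X' k' := by
  by_contra hcon
  push Not at hcon
  have h1 := T.mono hcon
  rw [hX.pl k hk, hX'.pl k' hk'] at h1
  rw [Prod.Lex.lt_iff] at h
  rw [cp_fst, cp_fst] at h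
  rcases h with h | ⟨h, h2⟩
  · omega
  have i1 : 0 < k ∧ k < W.m ↔ Even (W.q k) := by
    constructor
    · rintro ⟨h3, h4⟩; exact ok.even k h3 h4
    · intro h3
      refine ⟨Nat.pos_of_ne_zero ?_, lt_of_le_of_ne hk ?_⟩
      · rintro rfl; exact ok.odd0 h3
      · rintro rfl; exact ok.oddm h3
  have i2 : 0 < k' ∧ k' < W'.m ↔ Even (W'.q k') := by
    constructor
    · rintro ⟨h3, h4⟩; exact ok'.even k' h3 h4
    · intro h3
      refine ⟨Nat.pos_of_ne_zero ?_, lt_of_le_of_ne hk' ?_⟩
      · rintro rfl; exact ok'.odd0 h3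
      · rintro rfl; exact ok'.oddm h3
  by_cases hint : 0 < k ∧ k < W.m
  · have hint' : 0 < k' ∧ k' < W'.m := by rw [i2, ← h, ← i1]; exact hint
    have k1 := kl_le ok' ok hX' hX hint'.1 hint'.2 hint.1 hint.2 h.symm hcon true
    have k2 := kl_le ok' ok hX' hX hint'.1 hint'.2 hint.1 hint.2 h.symm hcon false
    unfold cp at h2
    rw [if_pos hint, if_pos hint'] at h2
    simp only [ofLex_toLex] at h2
    rw [Prod.Lex.lt_iff] at h2
    simp only [ofLex_toLex] at h2
    rcases h2 with h2 | ⟨-, h2⟩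
    · exact absurd h2 (not_lt.2 k1)
    · exact absurd h2 (not_lt.2 k2)
  · have hint' : ¬ (0 < k' ∧ k' < W'.m) := by rw [i2, ← h, ← i1]; exact hint
    unfold cp at h2
    rw [if_neg hint, if_neg hint'] at h2
    exact lt_irrefl _ h2

/-- equal canonical positions -/
theorem cp_eq {W W' : Wd} (ok : W.Ok n) (ok' : W'.Ok n) {k k' : ℕ} (h0 : 0 < k) (hk : k < W.m)
    (h0' : 0 < k') (hk' : k' < W'.m) (h : cp n W k = cp n W' k') :
    (W.q 0 = W'.q 0 ∧ W.q W.m = W'.q W'.m ∧ k = k') ∨
      (W.q 0 = W'.q W'.m ∧ W.q W.m = W'.q 0) := by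
  unfold cp at h
  rw [if_pos ⟨h0, hk⟩, if_pos ⟨h0', hk'⟩] at h
  have h1 : W.q k = W'.q k' := congrArg (fun x => (ofLex x).1) h
  have h2 : kl n W k true = kl n W' k' true := congrArg (fun x => (ofLex (ofLex x).2).1) h
  have h3 : kl n W k false = kl n W' k' false := congrArg (fun x => (ofLex (ofLex x).2).2) h
  have hl : ∀ P, kl n W k P = kl n W' k' P := by intro P; cases P <;> assumption
  have qrev : ∀ {W : Wd} {k : ℕ}, k < W.m → W.rev.q (W.m - k) = W.q k := by
    intro W k hk
    simp only [Wd.rev]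
    rw [show W.m - (W.m - k) = k by omega]
  have qm : ∀ {W : Wd}, W.rev.q W.rev.m = W.q 0 := by
    intro W; simp [Wd.rev]
  by_cases hg : W.g k = W'.g k'
  · left
    have e1 := hl (W.g k)
    have e2 := hl (!W.g k)
    unfold kl at e1 e2
    rw [if_pos rfl, if_pos hg.symm] at e1
    rw [if_neg (by simp), if_neg (by rw [hg]; simp)] at e2
    obtain ⟨a1, a2⟩ := kf_eq _ W W' 1 k k' _ one_ne_zero ok ok' (by omega) (by omega) h1 e1
    obtain ⟨a3, a4⟩ := kf_eq _ W.rev W'.rev 1 (W.m - k) (W'.m - k') _ one_ne_zero ok.rev ok'.rev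
      (by simp only [Wd.rev]; omega) (by simp only [Wd.rev]; omega)
      ((qrev hk).trans (h1.trans (qrev hk').symm)) e2
    rw [qm, qm] at a4
    exact ⟨a4, a2, a3⟩
  · right
    have e1 := hl (W.g k)
    have e2 := hl (!W.g k)
    have hg' : W'.g k' = !W.g k := by
      revert hg; cases W.g k <;> cases W'.g k' <;> simp
    unfold kl at e1 e2
    rw [if_pos rfl, if_neg (fun h => hg h.symm)] at e1
    rw [if_neg (by simp), if_pos hg'] at e2
    obtain ⟨a1, a2⟩ := kf_eq _ W W'.rev 1 k (W'.m - k') _ one_ne_zero ok ok'.rev (by omega)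
      (by simp only [Wd.rev]; omega) (h1.trans (qrev hk').symm) e1
    obtain ⟨a3, a4⟩ := kf_eq _ W.rev W' 1 (W.m - k) k' _ one_ne_zero ok.rev ok'
      (by simp only [Wd.rev]; omega) (by omega) ((qrev hk).trans h1) e2
    rw [qm] at a2 a4
    exact ⟨a4, a2⟩

end Pool.Agent.LP86
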