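import Pool.Agent.LP86.Book
import Pool.Agent.LP86.Top4

/-!
Drawings in which every edge is a chain of chords, alternately above and below the axis.
-/

namespace Pool.Agent.LP86

open Set

theorem IsJordanArc.symm {A : Set ℂ} {a b : ℂ} (h : IsJordanArc A a b) : IsJordanArc A b a := by
  obtain ⟨γ, h1, h2, h3, h4, h5⟩ := h
  have hinv : Function.Involutive unitInterval.symm := unitInterval.symm_symm
  refine ⟨fun t => γ (unitInterval.symm t), h1.comp unitInterval.continuous_symm,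
    h2.comp hinv.injective, by simp [h4], by simp [h3], ?_⟩
  rw [← h5]
  exact hinv.surjective.range_comp γ

theorem IsJordanArc.union {A B : Set ℂ} {a b c : ℂ} (hA : IsJordanArc A a b)
    (hB : IsJordanArc B b c) (hAB : A ∩ B ⊆ {b}) : IsJordanArc (A ∪ B) a c := by
  obtain ⟨γ, g1, g2, g3, g4, g5⟩ := hA
  obtain ⟨η, e1, e2, e3, e4, e5⟩ := hB
  let p : Path a b := ⟨⟨γ, g1⟩, g3, g4⟩
  let q : Path b c := ⟨⟨η, e1⟩, e3, e4⟩
  have hp : ∀ t, p t = γ t := fun _ => rfl
  have hq : ∀ t, q t = η t := fun _ => rfl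
  have hmeet : ∀ s t, γ s = η t → s = 1 ∧ t = 0 := by
    intro s t h
    have h1 : γ s ∈ A := g5 ▸ mem_range_self s
    have h2 : η t ∈ B := e5 ▸ mem_range_self t
    have h3 : γ s = b := hAB ⟨h1, h ▸ h2⟩
    exact ⟨g2 (h3.trans g4.symm), e2 ((h.symm.trans h3).trans e3.symm)⟩
  refine ⟨p.trans q, (p.trans q).continuous, ?_, (p.trans q).source, (p.trans q).target, ?_⟩
  · intro s t h
    rw [Path.trans_apply, Path.trans_apply] at h
    split_ifs at h with h1 h2 h2
    · rw [hp, hp] at h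
      have := congrArg Subtype.val (g2 h)
      simp only at this
      exact Subtype.ext (by linarith)
    · rw [hp, hq] at h
      have h3 := (hmeet _ _ h).2
      have := congrArg Subtype.val h3
      have h0 : ((0 : unitInterval) : ℝ) = 0 := rfl
      simp only [h0] at this
      exfalso; push Not at h2; linarith
    · rw [hp, hq] at h
      have h3 := (hmeet _ _ h.symm).2
      have := congrArg Subtype.val h3
      have h0 : ((0 : unitInterval) : ℝ) = 0 := rfl
      simp only [h0] at this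
      exfalso; push Not at h1; linarith
    · rw [hq, hq] at h
      have := congrArg Subtype.val (e2 h)
      simp only at this
      exact Subtype.ext (by linarith)
  · rw [Path.trans_range, ← g5, ← e5]
    rfl

variable {V : Type} [LinearOrder V] {G : SimpleGraph V}

/-- data of a chain drawing -/
structure ChainData (G : SimpleGraph V) where
  ξ : V → ℝ
  m : Ed G → ℕ
  P : Ed G → ℕ → ℝ
  g : Ed G → ℕ → Bool
  ξ_inj : Function.Injective ξ
  mpos : ∀ e, 0 < m e
  h0 : ∀ e, P e 0 = ξ e.1.1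
  hm : ∀ e, P e (m e) = ξ e.1.2
  hint : ∀ e k, 0 < k → k < m e → ∀ v, P e k ≠ ξ v
  hinj : ∀ e f k l, 0 < k → k < m e → 0 < l → l < m f → P e k = P f l → e = f ∧ k = l
  alt : ∀ e k, k + 1 < m e → g e (k + 1) = !g e k
  self : ∀ e k l, k < l → l < m e → g e k = g e l → ¬ Al (P e k) (P e (k + 1)) (P e l) (P e (l + 1))

namespace ChainData

variable (C : ChainData G)

/-- one chord of the chain -/
def ch (e : Ed G) (k : ℕ) : Set ℂ := chord (sg (C.g e k)) (C.P e k) (C.P e (k + 1))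

def arcE (e : Ed G) : Set ℂ := {z | ∃ k < C.m e, z ∈ C.ch e k}

theorem P_inj (e : Ed G) {k l : ℕ} (hk : k ≤ C.m e) (hl : l ≤ C.m e) (h : C.P e k = C.P e l) :
    k = l := by
  wlog hkl : k < l generalizing k l
  · rcases Nat.lt_or_ge l k with h' | h'
    · exact (this hl hk h.symm h').symm
    · omega
  exfalso
  rcases Nat.eq_zero_or_pos k with rfl | hk0
  · rcases eq_or_lt_of_le hl with rfl | hl'
    · rw [C.h0, C.hm] at h
      exact absurd (C.ξ_inj h) e.2.1.ne
    · rw [C.h0] at h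
      exact C.hint e l hkl hl' _ h.symm
  · rcases eq_or_lt_of_le hl with rfl | hl'
    · rw [C.hm] at h
      exact C.hint e k hk0 hkl _ h
    · have := (C.hinj e e k l hk0 (by omega) (by omega) hl' h).2
      omega

theorem P_ne (e : Ed G) {k : ℕ} (hk : k < C.m e) : C.P e k ≠ C.P e (k + 1) := by
  intro h
  have := C.P_inj e hk.le hk h
  omega

/-- chords of one edge -/
theorem ch_meet (e : Ed G) {k l : ℕ} (hkl : k < l) (hl : l < C.m e) {z : ℂ} (h1 : z ∈ C.ch e k)
    (h2 : z ∈ C.ch e l) : l = k + 1 ∧ z = C.P e l := by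
  have hne : s(C.P e k, C.P e (k + 1)) ≠ s(C.P e l, C.P e (l + 1)) := by
    intro h
    rcases Sym2.eq_iff.1 h with ⟨h', -⟩ | ⟨h', -⟩
    · have := C.P_inj e (by omega) (by omega) h'; omega
    · have := C.P_inj e (by omega) (by omega) h'; omega
  rcases chord_meet rfl rfl (C.P_ne e (by omega)) (C.P_ne e hl) h1 h2 hne with
    ⟨h3, h4⟩ | ⟨h3, h4, -⟩
  · have key : ∀ a b, a ≤ C.m e → b ≤ C.m e → z = C.P e a → z = C.P e b → a = b := by
      intro a b ha hb e1 e2
      exact C.P_inj e ha hb (Complex.ofReal_injective (e1.symm.trans e2))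
    rcases h3 with h3 | h3 <;> rcases h4 with h4 | h4
    · have := key _ _ (by omega) (by omega) h3 h4; omega
    · have := key _ _ (by omega) (by omega) h3 h4; omega
    · have := key _ _ (by omega) (by omega) h3 h4
      exact ⟨this.symm, h4⟩
    · have := key _ _ (by omega) (by omega) h3 h4; omega
  · rw [← al_iff_alt] at h4
    exact absurd h4 (C.self e k l hkl hl h3)

theorem arcE_jordan (e : Ed G) : IsJordanArc (C.arcE e) (C.ξ e.1.1) (C.ξ e.1.2) := by
  have main : ∀ n, 1 ≤ n → n ≤ C.m e →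
      IsJordanArc {z | ∃ k < n, z ∈ C.ch e k} (C.P e 0) (C.P e n) := by
    intro n h1
    induction n, h1 using Nat.le_induction with
    | base =>
      intro hn
      have := chord_isArc (sg (C.g e 0)) (C.P_ne e (k := 0) (by omega))
      have e1 : {z | ∃ k < 1, z ∈ C.ch e k} = C.ch e 0 := by
        ext z
        simp
      rw [e1]
      exact this
    | succ n h1 ih =>
      intro hn
      have h2 := ih (by omega)
      have h3 : IsJordanArc (C.ch e n) (C.P e n) (C.P e (n + 1)) :=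
        chord_isArc (sg (C.g e n)) (C.P_ne e (by omega))
      have e1 : {z | ∃ k < n + 1, z ∈ C.ch e k} = {z | ∃ k < n, z ∈ C.ch e k} ∪ C.ch e n := by
        ext z
        constructor
        · rintro ⟨k, hk, hz⟩
          rcases Nat.lt_succ_iff_lt_or_eq.1 hk with h | rfl
          · exact Or.inl ⟨k, h, hz⟩
          · exact Or.inr hz
        · rintro (⟨k, hk, hz⟩ | hz)
          · exact ⟨k, by omega, hz⟩
          · exact ⟨n, by omega, hz⟩
      rw [e1]
      refine h2.union h3 ?_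
      rintro z ⟨⟨k, hk, hz⟩, hz'⟩
      exact (C.ch_meet e hk (by omega) hz hz').2
  have := main (C.m e) (C.mpos e) le_rfl
  rw [C.h0, C.hm] at this
  exact this

/-- an axis point of a chain is a node -/
theorem arcE_real (e : Ed G) {z : ℂ} (hz : z ∈ C.arcE e) (h0 : z.im = 0) :
    ∃ k ≤ C.m e, z = C.P e k := by
  obtain ⟨k, hk, h⟩ := hz
  rcases chord_real (sg_ne _) h h0 with h | h
  · exact ⟨k, hk.le, h⟩
  · exact ⟨k + 1, hk, h⟩

/-- a common node of two chains is a common vertex -/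
theorem common_node {e f : Ed G} (hef : e ≠ f) {k l : ℕ} (hk : k ≤ C.m e) (hl : l ≤ C.m f)
    (h : C.P e k = C.P f l) : ∃ v, v ∈ e.sym ∧ v ∈ f.sym ∧ C.P e k = C.ξ v := by
  have hend : ∀ (e : Ed G) (k : ℕ), k ≤ C.m e → ¬ (0 < k ∧ k < C.m e) →
      ∃ v, v ∈ e.sym ∧ C.P e k = C.ξ v := by
    intro e k hk hk'
    rcases Nat.eq_zero_or_pos k with rfl | h0
    · exact ⟨_, Sym2.mem_mk_left _ _, C.h0 e⟩
    · have : k = C.m e := by omega
      subst this
      exact ⟨_, Sym2.mem_mk_right _ _, C.hm e⟩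
  by_cases hk' : 0 < k ∧ k < C.m e
  · exfalso
    by_cases hl' : 0 < l ∧ l < C.m f
    · exact hef (C.hinj e f k l hk'.1 hk'.2 hl'.1 hl'.2 h).1
    · obtain ⟨v, -, hv⟩ := hend f l hl hl'
      exact C.hint e k hk'.1 hk'.2 v (h.trans hv)
  · obtain ⟨v, hv, hv'⟩ := hend e k hk hk'
    by_cases hl' : 0 < l ∧ l < C.m f
    · exact absurd (h.symm.trans hv') (C.hint f l hl'.1 hl'.2 v)
    · obtain ⟨u, hu, hu'⟩ := hend f l hl hl'
      have : u = v := C.ξ_inj (hu'.symm.trans (h.symm.trans hv'))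
      exact ⟨v, hv, this ▸ hu, hv'⟩

/-- chords of two edges -/
theorem ch_meet2 {e f : Ed G} (hef : e ≠ f) {k l : ℕ} (hk : k < C.m e) (hl : l < C.m f) {z : ℂ}
    (h1 : z ∈ C.ch e k) (h2 : z ∈ C.ch f l) :
    (∃ v, v ∈ e.sym ∧ v ∈ f.sym ∧ z = ((C.ξ v : ℝ) : ℂ)) ∨
      (C.g e k = C.g f l ∧ Al (C.P e k) (C.P e (k + 1)) (C.P f l) (C.P f (l + 1)) ∧
      C.P e k + C.P e (k + 1) ≠ C.P f l + C.P f (l + 1) ∧
      z.re = (C.P e k * C.P e (k + 1) - C.P f l * C.P f (l + 1)) /
        (C.P e k + C.P e (k + 1) - C.P f l - C.P f (l + 1)) ∧ z.im ≠ 0) := by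
  have hne : s(C.P e k, C.P e (k + 1)) ≠ s(C.P f l, C.P f (l + 1)) := by
    intro h
    have key : ∀ a b a' b', a ≤ C.m e → b ≤ C.m e → a' ≤ C.m f → b' ≤ C.m f → a ≠ b →
        C.P e a = C.P f a' → C.P e b = C.P f b' → False := by
      intro a b a' b' ha hb ha' hb' hab e1 e2
      obtain ⟨u, u1, u2, u3⟩ := C.common_node hef ha ha' e1
      obtain ⟨v, v1, v2, v3⟩ := C.common_node hef hb hb' e2
      have huv : u ≠ v := by
        rintro rfl
        exact hab (C.P_inj e ha hb (u3.trans v3.symm))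
      apply hef
      apply Ed.sym_inj
      rw [(Sym2.mem_and_mem_iff huv).1 ⟨u1, v1⟩, (Sym2.mem_and_mem_iff huv).1 ⟨u2, v2⟩]
    rcases Sym2.eq_iff.1 h with ⟨h1, h2⟩ | ⟨h1, h2⟩
    · exact key k (k + 1) l (l + 1) hk.le hk hl.le hl (by omega) h1 h2
    · exact key k (k + 1) (l + 1) l hk.le hk hl hl.le (by omega) h1 h2
  rcases chord_meet rfl rfl (C.P_ne e hk) (C.P_ne f hl) h1 h2 hne with
    ⟨h3, h4⟩ | ⟨h3, h4, h5, h6⟩
  · left
    have key : ∀ a b, a ≤ C.m e → b ≤ C.m f → z = C.P e a → z = C.P f b →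
        ∃ v, v ∈ e.sym ∧ v ∈ f.sym ∧ z = ((C.ξ v : ℝ) : ℂ) := by
      intro a b ha hb e1 e2
      obtain ⟨v, v1, v2, v3⟩ := C.common_node hef ha hb (Complex.ofReal_injective (e1.symm.trans e2))
      exact ⟨v, v1, v2, by rw [e1, v3]⟩
    rcases h3 with h3 | h3 <;> rcases h4 with h4 | h4
    · exact key _ _ (by omega) (by omega) h3 h4
    · exact key _ _ (by omega) (by omega) h3 h4
    · exact key _ _ (by omega) (by omega) h3 h4
    · exact key _ _ (by omega) (by omega) h3 h4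
  · right
    rw [← al_iff_alt] at h4
    refine ⟨h3, h4, h5, h6, fun h0 => ?_⟩
    have e1 := chord_real (sg_ne _) h1 h0
    have e2 := chord_real (sg_ne _) h2 h0
    unfold Al Btw at h4
    rcases e1 with e1 | e1 <;> rcases e2 with e2 | e2 <;>
    · have := Complex.ofReal_injective (e1.symm.trans e2)
      grind

theorem ch_closed (e : Ed G) (k : ℕ) : IsClosed (C.ch e k) := by
  unfold ch chord
  refine IsClosed.inter (isClosed_Icc.preimage Complex.continuous_re) ?_
  refine isClosed_eq Complex.continuous_im ?_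
  fun_prop

/-- away from the axis an edge looks like one of its chords -/
theorem local_ch (e : Ed G) {k : ℕ} (hk : k < C.m e) {z : ℂ} (hz : z ∈ C.ch e k) (h0 : z.im ≠ 0) :
    ∃ U : Set ℂ, IsOpen U ∧ z ∈ U ∧ ∀ w ∈ U, w ∈ C.arcE e ↔ w ∈ C.ch e k := by
  refine ⟨(⋃ l ∈ (Finset.range (C.m e)).filter (· ≠ k), C.ch e l)ᶜ, ?_, ?_, ?_⟩
  · exact (isClosed_biUnion_finset fun l _ => C.ch_closed e l).isOpen_compl
  · intro hmem
    simp only [mem_iUnion, Finset.mem_filter, Finset.mem_range] at hmem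
    obtain ⟨l, ⟨hl, hlk⟩, hz'⟩ := hmem
    apply h0
    rcases lt_or_gt_of_ne hlk with h | h
    · rw [(C.ch_meet e h hk hz' hz).2]; exact Complex.ofReal_im _
    · rw [(C.ch_meet e h hl hz hz').2]; exact Complex.ofReal_im _
  · intro w hw
    constructor
    · rintro ⟨l, hl, hwl⟩
      by_contra hcon
      apply hw
      simp only [mem_iUnion, Finset.mem_filter, Finset.mem_range]
      refine ⟨l, ⟨hl, ?_⟩, hwl⟩
      rintro rfl; exact hcon hwl
    · intro h; exact ⟨k, hk, h⟩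

/-- the chain drawing -/
theorem exists_top : ∃ D : TopGraph G, ∀ e f : Ed G, e ≠ f → D.Cross e.sym f.sym →
    ∃ k < C.m e, ∃ l < C.m f, C.g e k = C.g f l ∧
      Al (C.P e k) (C.P e (k + 1)) (C.P f l) (C.P f (l + 1)) := by
  set arc : Sym2 V → Set ℂ := fun S => {z | ∃ e : Ed G, e.sym = S ∧ z ∈ C.arcE e} with harc
  have harcE : ∀ e : Ed G, arc e.sym = C.arcE e := by
    intro e
    ext z
    constructor
    · rintro ⟨f, hf, hz⟩
      rw [Ed.sym_inj hf] at hz; exact hz
    · intro h; exact ⟨e, rfl, h⟩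
  have hed : ∀ S ∈ G.edgeSet, ∃ e : Ed G, e.sym = S := by
    intro S hS
    induction S using Sym2.ind with
    | _ u v =>
      have huv : G.Adj u v := hS
      rcases lt_or_gt_of_ne huv.ne with h | h
      · exact ⟨⟨(u, v), h, huv⟩, rfl⟩
      · exact ⟨⟨(v, u), h, huv.symm⟩, Sym2.eq_swap⟩
  refine ⟨⟨fun v => ((C.ξ v : ℝ) : ℂ), arc, fun u v h => C.ξ_inj (Complex.ofReal_injective h),
    ?_, ?_, ?_, ?_⟩, ?_⟩
  · intro u v huv
    rcases lt_or_gt_of_ne huv.ne with h | h
    · have := C.arcE_jordan ⟨(u, v), h, huv⟩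
      have e1 := harcE ⟨(u, v), h, huv⟩
      simp only [Ed.sym] at e1
      rw [e1]; exact this
    · have := C.arcE_jordan ⟨(v, u), h, huv.symm⟩
      have e1 := harcE ⟨(v, u), h, huv.symm⟩
      simp only [Ed.sym] at e1
      rw [Sym2.eq_swap, e1]; exact this.symm
  · intro S hS w hw
    obtain ⟨e, rfl⟩ := hed S hS
    rw [harcE] at hw
    obtain ⟨k, hk, h⟩ := C.arcE_real e hw (Complex.ofReal_im _)
    have h' := Complex.ofReal_injective h
    rcases Nat.eq_zero_or_pos k with rfl | h0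
    · rw [C.h0] at h'
      rw [C.ξ_inj h']; exact Sym2.mem_mk_left _ _
    · rcases eq_or_lt_of_le hk with rfl | hk
      · rw [C.hm] at h'
        rw [C.ξ_inj h']; exact Sym2.mem_mk_right _ _
      · exact absurd h'.symm (C.hint e k h0 hk w)
  · intro S hS T hT hST
    obtain ⟨e, rfl⟩ := hed S hS
    obtain ⟨f, rfl⟩ := hed T hT
    have hef : e ≠ f := fun h => hST (by rw [h])
    rw [harcE, harcE]
    refine Set.Finite.subset (s := ⋃ k ∈ Finset.range (C.m e), ⋃ l ∈ Finset.range (C.m f),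
      ({((C.ξ e.1.1 : ℝ) : ℂ), ((C.ξ e.1.2 : ℝ) : ℂ)} ∪
      {(⟨(C.P e k * C.P e (k + 1) - C.P f l * C.P f (l + 1)) /
        (C.P e k + C.P e (k + 1) - C.P f l - C.P f (l + 1)),
        sg (C.g e k) * (((C.P e k * C.P e (k + 1) - C.P f l * C.P f (l + 1)) /
        (C.P e k + C.P e (k + 1) - C.P f l - C.P f (l + 1)) - C.P e k) * (C.P e (k + 1) -
        (C.P e k * C.P e (k + 1) - C.P f l * C.P f (l + 1)) /
        (C.P e k + C.P e (k + 1) - C.P f l - C.P f (l + 1))))⟩ : ℂ)})) ?_ ?_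
    · refine Set.Finite.biUnion (Finset.finite_toSet _) fun k _ => ?_
      refine Set.Finite.biUnion (Finset.finite_toSet _) fun l _ => ?_
      simp
    · rintro z ⟨⟨k, hk, h1⟩, ⟨l, hl, h2⟩⟩
      simp only [mem_iUnion, Finset.mem_range]
      refine ⟨k, hk, l, hl, ?_⟩
      rcases C.ch_meet2 hef hk hl h1 h2 with ⟨v, hv, -, rfl⟩ | ⟨-, -, -, h3, -⟩
      · left
        rcases Sym2.mem_iff.1 hv with rfl | rfl <;> simp
      · right
        rw [mem_singleton_iff]
        apply Complex.ext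
        · exact h3
        · rw [h1.2, h3]
  · rintro S hS T hT hST z ⟨h1, h2⟩
    obtain ⟨e, rfl⟩ := hed S hS
    obtain ⟨f, rfl⟩ := hed T hT
    have hef : e ≠ f := fun h => hST (by rw [h])
    rw [harcE] at h1 h2
    obtain ⟨k, hk, hz1⟩ := h1
    obtain ⟨l, hl, hz2⟩ := h2
    rcases C.ch_meet2 hef hk hl hz1 hz2 with h | ⟨h3, -, h5, -, h0⟩
    · exact Or.inl h
    · right
      rw [harcE, harcE]
      have e2 : chord (sg (C.g f l)) (C.P f l) (C.P f (l + 1)) =
        chord (sg (C.g e k)) (C.P f l) (C.P f (l + 1)) := by rw [h3]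
      refine chord_proper (sg_sq (C.g e k)) hz1 (e2 ▸ hz2) h5 h0 (C.local_ch e hk hz1 h0) ?_
      rw [← e2]
      exact C.local_ch f hl hz2 h0
  · intro e f hef hcr
    obtain ⟨z, ⟨h1, h2⟩, hno⟩ := hcr
    simp only [harcE] at h1 h2
    obtain ⟨k, hk, hz1⟩ := h1
    obtain ⟨l, hl, hz2⟩ := h2
    rcases C.ch_meet2 hef hk hl hz1 hz2 with h | ⟨h3, h4, -⟩
    · exact absurd h hno
    · exact ⟨k, hk, l, hl, h3, h4⟩

end ChainData

end Pool.Agent.LP86
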