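import Pool.Agent.LP86.Canon
import Pool.Agent.LP86.Chain

/-!
Pairwise realizable words give a locally planar drawing.
-/

namespace Pool.Agent.LP86

theorem al_imp {α β : Type} [LinearOrder α] [LinearOrder β] {a b c d : α} {a' b' c' d' : β}
    (h1 : a < c → a' < c') (h2 : c < a → c' < a') (h3 : a < d → a' < d') (h4 : d < a → d' < a')
    (h5 : b < c → b' < c') (h6 : c < b → c' < b') (h7 : b < d → b' < d') (h8 : d < b → d' < b')
    (h : Al a b c d) : Al a' b' c' d' := by
  exact ⟨h.1.imp (Or.imp (And.imp h1 h6) (And.imp h5 h2))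
    (Or.imp (And.imp h3 h8) (And.imp h7 h4)),
    h.2.imp (Or.imp (And.imp h2 h3) (And.imp h4 h1)) (Or.imp (And.imp h6 h7) (And.imp h8 h5))⟩

variable {V : Type} [LinearOrder V] {G : SimpleGraph V}

theorem klp_of_words {k n : ℕ} (ρ : V → ℕ) (hρ : Function.Injective ρ) (W : Ed G → Wd)
    (ok : ∀ e, (W e).Ok n) (h0 : ∀ e, (W e).q 0 = 2 * ρ e.1.1 + 1)
    (hm : ∀ e, (W e).q (W e).m = 2 * ρ e.1.2 + 1)
    (hself : ∀ e, ∃ T X, Rz T (W e) X)
    (hpair : ∀ e f, e ≠ f → nrE G k e f → ∃ T X Y, Rz T (W e) X ∧ Rz T (W f) Y) :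
    KLocallyPlanar k G := by
  obtain ⟨F, hF⟩ := cn_emb
  have Finj : ∀ x y, F x = F y → x = y := by
    intro x y h
    rcases lt_trichotomy x y with h' | h' | h'
    · have := (hF x y).2 h'; rw [h] at this; exact absurd this (lt_irrefl _)
    · exact h'
    · have := (hF y x).2 h'; rw [h] at this; exact absurd this (lt_irrefl _)
  have cp0 : ∀ e, cp n (W e) 0 = toLex (2 * ρ e.1.1 + 1, toLex ([], [])) := by
    intro e; unfold cp; rw [if_neg (by omega), h0]
  have cpm : ∀ e, cp n (W e) (W e).m = toLex (2 * ρ e.1.2 + 1, toLex ([], [])) := by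
    intro e; unfold cp; rw [if_neg (by omega), hm]
  have key : ∀ {e f : Ed G} {T : Tab} {X Y : ℕ → ℤ}, Rz T (W e) X → Rz T (W f) Y →
      ∀ {a b}, a ≤ (W e).m → b ≤ (W f).m →
      F (cp n (W e) a) < F (cp n (W f) b) → X a < Y b := by
    intro e f T X Y hX hY a b ha hb h
    exact cp_lt (ok e) (ok f) hX hY ha hb ((hF _ _).1 h)
  have hal : ∀ {e f : Ed G} {T : Tab} {X Y : ℕ → ℤ}, Rz T (W e) X → Rz T (W f) Y →
      ∀ {a b}, a < (W e).m → b < (W f).m → (W e).g a = (W f).g b →
      ¬ Al (F (cp n (W e) a)) (F (cp n (W e) (a + 1))) (F (cp n (W f) b))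
        (F (cp n (W f) (b + 1))) := by
    intro e f T X Y hX hY a b ha hb hg h
    have a1 := hX.arc a ha
    have a2 := hY.arc b hb
    rw [← hg] at a2
    refine T.nal _ _ _ _ _ a1 a2 (al_imp ?_ ?_ ?_ ?_ ?_ ?_ ?_ ?_ h)
    · exact key hX hY (by omega) (by omega)
    · exact key hY hX (by omega) (by omega)
    · exact key hX hY (by omega) (by omega)
    · exact key hY hX (by omega) (by omega)
    · exact key hX hY (by omega) (by omega)
    · exact key hY hX (by omega) (by omega)
    · exact key hX hY (by omega) (by omega)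
    · exact key hY hX (by omega) (by omega)
  let C : ChainData G :=
    { ξ := fun v => F (toLex (2 * ρ v + 1, toLex ([], [])))
      m := fun e => (W e).m
      P := fun e k => F (cp n (W e) k)
      g := fun e => (W e).g
      ξ_inj := fun u v h => by
        have h1 := Finj _ _ h
        have h2 : 2 * ρ u + 1 = 2 * ρ v + 1 := congrArg (fun x : Cn => (ofLex x).1) h1
        exact hρ (by omega)
      mpos := fun e => (ok e).mpos
      h0 := fun e => by simp only [cp0]
      hm := fun e => by simp only [cpm]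
      hint := fun e k hk hk' v h => by
        have h1 := congrArg (fun x : Cn => (ofLex x).1) (Finj _ _ h)
        simp only [cp_fst, ofLex_toLex] at h1
        have := (ok e).even k hk hk'
        rw [h1] at this
        grind
      hinj := fun e f k l hk hk' hl hl' h => by
        rcases cp_eq (ok e) (ok f) hk hk' hl hl' (Finj _ _ h) with ⟨h1, h2, h3⟩ | ⟨h1, h2⟩
        · rw [h0, h0] at h1
          rw [hm, hm] at h2
          exact ⟨Subtype.ext (Prod.ext (hρ (by omega)) (hρ (by omega))), h3⟩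
        · exfalso
          rw [h0, hm] at h1
          rw [h0, hm] at h2
          have e1 : e.1.1 = f.1.2 := hρ (by omega)
          have e2 : e.1.2 = f.1.1 := hρ (by omega)
          have h3 := e.2.1
          have h4 := f.2.1
          rw [e1, e2] at h3
          exact lt_asymm h3 h4
      alt := fun e => (ok e).alt
      self := fun e k l hkl hl hg => by
        obtain ⟨T, X, hX⟩ := hself e
        exact hal hX hX (by omega) hl hg }
  obtain ⟨D, hD⟩ := C.exists_top
  refine ⟨D, ?_⟩
  rw [locallyPlanar_iff]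
  intro S hS T hT hne hnear
  have hed : ∀ S ∈ G.edgeSet, ∃ e : Ed G, e.sym = S := by
    intro S hS
    induction S using Sym2.ind with
    | _ u v =>
      have huv : G.Adj u v := hS
      rcases lt_or_gt_of_ne huv.ne with h | h
      · exact ⟨⟨(u, v), h, huv⟩, rfl⟩
      · exact ⟨⟨(v, u), h, huv.symm⟩, Sym2.eq_swap⟩
  obtain ⟨e, rfl⟩ := hed S hS
  obtain ⟨f, rfl⟩ := hed T hT
  have hef : e ≠ f := fun h => hne (by rw [h])
  intro hcr
  obtain ⟨a, ha, b, hb, hg, h⟩ := hD e f hef hcr
  obtain ⟨T, X, Y, hX, hY⟩ := hpair e f hef hnear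
  exact hal hX hY ha hb hg h

end Pool.Agent.LP86
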