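import Pool.Agent.LP86.Win
import Pool.Agent.LP86.Sound

/-!
Certificates: straight-line programs for words, and tables made of bands.
-/

namespace Pool.Agent.LP86

/-- runs of a word in a table -/
inductive Run (T : Tab) : List Lt → ℤ → ℤ → Prop
  | nil (x : ℤ) : Run T [] x x
  | cons (a : Lt) (w : List Lt) (x y z : ℤ) : T.Arc a.1 x y → T.pl x = a.2.1 → T.pl y = a.2.2 →
      Run T w y z → Run T (a :: w) x z

theorem run_append {T : Tab} {u v : List Lt} {x z : ℤ} :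
    Run T (u ++ v) x z ↔ ∃ y, Run T u x y ∧ Run T v y z := by
  induction u generalizing x with
  | nil =>
    constructor
    · intro h; exact ⟨x, Run.nil x, h⟩
    · rintro ⟨y, h1, h2⟩; cases h1; exact h2
  | cons a u ih =>
    constructor
    · intro h
      cases h with
      | cons _ _ _ y _ h1 h2 h3 h4 =>
        obtain ⟨y', h5, h6⟩ := ih.1 h4
        exact ⟨y', Run.cons _ _ _ _ _ h1 h2 h3 h5, h6⟩
    · rintro ⟨y', h5, h6⟩
      cases h5 with
      | cons _ _ _ y _ h1 h2 h3 h4 => exact Run.cons _ _ _ _ _ h1 h2 h3 (ih.2 ⟨_, h4, h6⟩)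

abbrev dL : Lt := (false, 0, 0)

/-- compatible consecutive letters -/
def cmp (a b : Lt) : Prop := a.2.2 = b.2.1 ∧ b.1 = !a.1 ∧ a.2.2 % 2 = 0

def ofList (w : List Lt) : Wd where
  m := w.length
  q k := if k = 0 then (w.getD 0 dL).2.1 else (w.getD (k - 1) dL).2.2
  g k := (w.getD k dL).1

/-- page and place of the first step -/
def fsW (w : List Lt) : Bool × ℕ := ((w.head?.getD dL).1, (w.head?.getD dL).2.1)

/-- page and place of the last step -/
def lsW (w : List Lt) : Bool × ℕ := ((w.getLast?.getD dL).1, (w.getLast?.getD dL).2.2)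

theorem fsW_append {u : List Lt} (v : List Lt) (hu : u ≠ []) : fsW (u ++ v) = fsW u := by
  obtain ⟨a, u, rfl⟩ := List.exists_cons_of_ne_nil hu
  rfl

theorem lsW_append (u : List Lt) {v : List Lt} (hv : v ≠ []) : lsW (u ++ v) = lsW v := by
  simp only [lsW, List.getLast?_append_of_ne_nil u hv]

theorem fsW_eq (w : List Lt) : fsW w = ((w.getD 0 dL).1, (w.getD 0 dL).2.1) := by
  cases w <;> rfl

theorem lsW_eq (w : List Lt) :
    lsW w = ((w.getD (w.length - 1) dL).1, (w.getD (w.length - 1) dL).2.2) := by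
  simp only [lsW, List.getLast?_eq_getElem?, List.getD_eq_getElem?_getD]

theorem Run.pos {T : Tab} {w : List Lt} {x z : ℤ} (h : Run T w x z) : ∃ X : ℕ → ℤ, X 0 = x ∧
    ∀ k < w.length, T.Arc (w.getD k dL).1 (X k) (X (k + 1)) ∧ T.pl (X k) = (w.getD k dL).2.1 ∧
      T.pl (X (k + 1)) = (w.getD k dL).2.2 := by
  induction h with
  | nil x => exact ⟨fun _ => x, rfl, fun k hk => absurd hk (by simp)⟩
  | cons a w x y z h1 h2 h3 _ ih =>
    obtain ⟨X, hX, h⟩ := ih
    refine ⟨fun k => if k = 0 then x else X (k - 1), rfl, fun k hk => ?_⟩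
    rcases Nat.eq_zero_or_pos k with rfl | h0
    · simpa [hX] using ⟨h1, h2, h3⟩
    · obtain ⟨k, rfl⟩ := Nat.exists_eq_succ_of_ne_zero h0.ne'
      simpa using h k (by simpa using hk)

theorem chain_get {w : List Lt} (h : w.IsChain cmp) {k : ℕ} (hk : k + 1 < w.length) :
    cmp (w.getD k dL) (w.getD (k + 1) dL) := by
  rw [List.getD_eq_getElem _ _ hk, List.getD_eq_getElem _ _ (by omega)]
  exact List.isChain_iff_getElem.1 h k hk

theorem Run.rz {T : Tab} {w : List Lt} {x z : ℤ} (h : Run T w x z) (hw : w ≠ [])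
    (hc : w.IsChain cmp) : ∃ X, Rz T (ofList w) X := by
  obtain ⟨X, -, h⟩ := h.pos
  have hl : 0 < w.length := List.length_pos_iff.2 hw
  refine ⟨X, fun k hk => ?_, fun k hk => (h k hk).1⟩
  simp only [ofList] at hk ⊢
  split_ifs with h0
  · subst h0; exact (h 0 hl).2.1
  · have := (h (k - 1) (by omega)).2.2
    rwa [show k - 1 + 1 = k by omega] at this

theorem ofList_ok {w : List Lt} (hw : w ≠ []) (hc : w.IsChain cmp) {n : ℕ}
    (hn : ∀ a ∈ w, a.2.1 < n ∧ a.2.2 < n) (h0 : ¬ Even (fsW w).2) (h1 : ¬ Even (lsW w).2) :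
    (ofList w).Ok n := by
  have hl : 0 < w.length := List.length_pos_iff.2 hw
  have hmem : ∀ k < w.length, w.getD k dL ∈ w := fun k hk => by
    rw [List.getD_eq_getElem _ _ hk]; exact List.getElem_mem hk
  rw [fsW_eq] at h0
  rw [lsW_eq] at h1
  refine ⟨fun k hk => ?_, fun k hk0 hk => ?_, ?_, ?_, fun k hk => ?_, hl⟩
  · exact (chain_get hc hk).2.1
  · simp only [ofList] at hk ⊢
    rw [if_neg (by omega)]
    have := (chain_get hc (k := k - 1) (by omega)).2.2
    exact Nat.even_iff.2 this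
  · simpa [ofList] using h0
  · simp only [ofList]
    rw [if_neg (by omega)]
    exact h1
  · simp only [ofList] at hk ⊢
    split_ifs with h
    · exact (hn _ (hmem 0 hl)).1
    · exact (hn _ (hmem _ (by omega))).2

theorem ofList_q0 (w : List Lt) : (ofList w).q 0 = (fsW w).2 := by
  rw [fsW_eq]; rfl

theorem ofList_qm {w : List Lt} (hw : w ≠ []) : (ofList w).q (ofList w).m = (lsW w).2 := by
  have hl : 0 < w.length := List.length_pos_iff.2 hw
  rw [lsW_eq]
  simp only [ofList]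
  rw [if_neg (by omega)]

/-- a rule: letter or concatenation; two earlier rules; page and place of the first and of the
last step -/
abbrev Rule := Bool × ℕ × ℕ × (Bool × ℕ) × (Bool × ℕ)

abbrev dR : Rule := (true, 0, 0, (false, 0), (false, 0))

abbrev rl (R : List Rule) (r : ℕ) : Rule := R.getD r dR

abbrev Rule.fs (a : Rule) : Bool × ℕ := a.2.2.2.1

abbrev Rule.ls (a : Rule) : Bool × ℕ := a.2.2.2.2

/-- the words of a program -/
inductive Ex (R : List Rule) : ℕ → List Lt → Prop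
  | one (r : ℕ) : r < R.length → (rl R r).1 = true →
      Ex R r [((rl R r).fs.1, (rl R r).fs.2, (rl R r).ls.2)]
  | cat (r : ℕ) (u v : List Lt) : r < R.length → (rl R r).1 = false → Ex R (rl R r).2.1 u →
      Ex R (rl R r).2.2.1 v → Ex R r (u ++ v)

def gR1 (R : List Rule) (r : ℕ) : Prop :=
  ((rl R r).1 = true ∧ (rl R r).fs.1 = (rl R r).ls.1) ∨
  ((rl R r).1 = false ∧ (rl R r).2.1 < r ∧ (rl R r).2.2.1 < r ∧
    (rl R (rl R r).2.1).fs = (rl R r).fs ∧ (rl R (rl R r).2.2.1).ls = (rl R r).ls ∧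
    (rl R (rl R r).2.1).ls.2 = (rl R (rl R r).2.2.1).fs.2 ∧
    (rl R (rl R r).2.2.1).fs.1 = !(rl R (rl R r).2.1).ls.1 ∧
    (rl R (rl R r).2.1).ls.2 % 2 = 0)

/-- well-formed programs -/
def gR (R : List Rule) : Prop := ∀ r < R.length, gR1 R r

theorem exists_ex {R : List Rule} (h : gR R) (r : ℕ) : r < R.length → ∃ w, Ex R r w := by
  induction r using Nat.strong_induction_on with
  | _ r ih =>
    intro hr
    rcases h r hr with h1 | h1
    · exact ⟨_, Ex.one r hr h1.1⟩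
    · obtain ⟨u, hu⟩ := ih _ h1.2.1 (by omega)
      obtain ⟨v, hv⟩ := ih _ h1.2.2.1 (by omega)
      exact ⟨_, Ex.cat r u v hr h1.1 hu hv⟩

theorem Ex.lt {R : List Rule} {r : ℕ} {w : List Lt} (h : Ex R r w) : r < R.length := by
  cases h <;> assumption

theorem Ex.props {R : List Rule} (hR : gR R) {r : ℕ} {w : List Lt} (h : Ex R r w) :
    w ≠ [] ∧ w.IsChain cmp ∧ fsW w = (rl R r).fs ∧ lsW w = (rl R r).ls := by
  induction h with
  | one r hr h1 =>
    have h2 := hR r hr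
    unfold gR1 at h2
    rw [h1] at h2
    simp only [true_and, Bool.true_eq_false, false_and, or_false] at h2
    refine ⟨by simp, by simp, by simp [fsW], ?_⟩
    simp only [lsW, List.getLast?_singleton, Option.getD_some]
    rw [h2]
  | cat r u v hr h1 hu hv ihu ihv =>
    have h2 := hR r hr
    unfold gR1 at h2
    rw [h1] at h2
    simp only [Bool.false_eq_true, false_and, true_and, false_or] at h2
    obtain ⟨a1, a2, a3, a4, a5, a6, a7⟩ := h2
    obtain ⟨b1, b2, b3, b4⟩ := ihu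
    obtain ⟨c1, c2, c3, c4⟩ := ihv
    refine ⟨by simp [b1], ?_, by rw [fsW_append _ b1, b3, a3], by rw [lsW_append _ c1, c4, a4]⟩
    rw [List.isChain_append]
    refine ⟨b2, c2, fun x hx y hy => ?_⟩
    rw [← b4, ← c3] at a5 a6
    rw [← b4] at a7
    simp only [fsW, lsW, Option.mem_def.1 hx, Option.mem_def.1 hy, Option.getD_some] at a5 a6 a7
    exact ⟨a5, a6, a7⟩

/-! ### tables -/

abbrev Band := Bool × ℕ × ℕ × ℤ × ℤ × ℤ

abbrev Ent := ℤ × ℤ × Bool × ℤ

abbrev Band.i (a : Band) : ℕ := a.2.1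

abbrev Band.j (a : Band) : ℕ := a.2.2.1

abbrev Band.lo (a : Band) : ℤ := a.2.2.2.1

abbrev Band.hi (a : Band) : ℤ := a.2.2.2.2.1

abbrev Band.c (a : Band) : ℤ := a.2.2.2.2.2

abbrev Ent.lo (a : Ent) : ℤ := a.1

abbrev Ent.hi (a : Ent) : ℤ := a.2.1

abbrev Ent.s (a : Ent) : Bool := a.2.2.1

abbrev Ent.c (a : Ent) : ℤ := a.2.2.2

abbrev dB : Band := (false, 0, 0, 0, 0, 0)

abbrev dE : Ent := (0, 0, false, 0)

def plT (B : List ℤ) (z : ℤ) : ℕ := B.countP fun b => decide (b ≤ z)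

def gB (B : List ℤ) (a : Band) : Prop :=
  plT B a.lo = a.i ∧ plT B a.hi = a.i ∧ plT B (a.c - a.hi) = a.j ∧ plT B (a.c - a.lo) = a.j ∧
    a.i < a.j

def gBB (a b : Band) : Prop :=
  a.1 ≠ b.1 ∨ a.c - a.lo < b.lo ∨ b.c - b.lo < a.lo ∨ (a.hi < b.lo ∧ b.c - b.lo < a.c - a.hi) ∨
    (b.hi < a.lo ∧ a.c - a.lo < b.c - b.hi)

/-- well-formed tables -/
def gT (B : List ℤ) (L : List Band) : Prop :=
  (∀ a ∈ L, gB B a) ∧ ∀ s < L.length, ∀ t < L.length, s = t ∨ gBB (L.getD s dB) (L.getD t dB)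

def AT (L : List Band) (P : Bool) (x y : ℤ) : Prop :=
  ∃ a ∈ L, a.1 = P ∧ ((a.lo ≤ x ∧ x ≤ a.hi ∧ y = a.c - x) ∨ (a.lo ≤ y ∧ y ≤ a.hi ∧ x = a.c - y))

theorem plT_mono (B : List ℤ) : Monotone (plT B) := by
  intro x y h
  exact List.countP_mono_left fun b _ hb => by
    simp only [decide_eq_true_eq] at hb ⊢
    exact hb.trans h

theorem gB.pl {B : List ℤ} {a : Band} (h : gB B a) {x : ℤ} (h1 : a.lo ≤ x) (h2 : x ≤ a.hi) :
    plT B x = a.i ∧ plT B (a.c - x) = a.j ∧ x < a.c - x := by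
  obtain ⟨e1, e2, e3, e4, e5⟩ := h
  have m1 := plT_mono B h1
  have m2 := plT_mono B h2
  have m3 := plT_mono B (show a.c - a.hi ≤ a.c - x by omega)
  have m4 := plT_mono B (show a.c - x ≤ a.c - a.lo by omega)
  refine ⟨by omega, by omega, ?_⟩
  by_contra hcon
  have := plT_mono B (not_lt.1 hcon)
  omega

theorem gB.lt2 {B : List ℤ} {a : Band} (h : gB B a) {x y : ℤ} (h1 : a.lo ≤ x) (h2 : x ≤ a.hi)
    (h3 : a.lo ≤ y) (h4 : y ≤ a.hi) : x < a.c - y := by
  obtain ⟨e1, -⟩ := h.pl h1 h2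
  obtain ⟨-, e2, -⟩ := h.pl h3 h4
  have e5 := h.2.2.2.2
  by_contra hcon
  have := plT_mono B (not_lt.1 hcon)
  omega

/-- two arcs of a table -/
theorem gT.two {B : List ℤ} {L : List Band} (h : gT B L) {a b : Band} (ha : a ∈ L) (hb : b ∈ L)
    (hp : a.1 = b.1) : a = b ∨ a.c - a.lo < b.lo ∨ b.c - b.lo < a.lo ∨
      (a.hi < b.lo ∧ b.c - b.lo < a.c - a.hi) ∨ (b.hi < a.lo ∧ a.c - a.lo < b.c - b.hi) := by
  obtain ⟨s, hs, rfl⟩ := List.getElem_of_mem ha
  obtain ⟨t, ht, rfl⟩ := List.getElem_of_mem hb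
  have h2 := h.2 s hs t ht
  rw [List.getD_eq_getElem _ _ hs, List.getD_eq_getElem _ _ ht] at h2
  rcases h2 with rfl | h2 | h2
  · exact Or.inl rfl
  · exact absurd hp h2
  · exact Or.inr h2

/-- the table of a list of bands -/
def mkTab (B : List ℤ) (L : List Band) (h : gT B L) : Tab where
  pl := plT B
  Arc := AT L
  mono := plT_mono B
  symm := by
    rintro P x y ⟨a, ha, hp, h1 | h1⟩
    · exact ⟨a, ha, hp, Or.inr h1⟩
    · exact ⟨a, ha, hp, Or.inl h1⟩
  func := by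
    rintro P x y y' ⟨a, ha, hp, h1⟩ ⟨b, hb, hp', h2⟩
    rcases h.two ha hb (hp.trans hp'.symm) with rfl | h3
    · rcases h1 with ⟨a1, a2, a3⟩ | ⟨a1, a2, a3⟩ <;> rcases h2 with ⟨b1, b2, b3⟩ | ⟨b1, b2, b3⟩
      · omega
      · exfalso
        have e1 := (h.1 a ha).pl a1 a2
        have e2 := (h.1 a ha).pl b1 b2
        have e3 := (h.1 a ha).2.2.2.2
        rw [← b3] at e2
        omega
      · exfalso
        have e1 := (h.1 a ha).pl a1 a2
        have e2 := (h.1 a ha).pl b1 b2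
        have e3 := (h.1 a ha).2.2.2.2
        rw [← a3] at e1
        omega
      · omega
    · exfalso
      rcases h1 with ⟨a1, a2, a3⟩ | ⟨a1, a2, a3⟩ <;> rcases h2 with ⟨b1, b2, b3⟩ | ⟨b1, b2, b3⟩ <;>
      · have e1 := ((h.1 a ha).pl a1 a2).2.2
        have e2 := ((h.1 b hb).pl b1 b2).2.2
        omega
  nal := by
    rintro P x y z u ⟨a, ha, hp, h1⟩ ⟨b, hb, hp', h2⟩ hal
    unfold Al Btw at hal
    rcases h.two ha hb (hp.trans hp'.symm) with rfl | h3
    · rcases h1 with ⟨a1, a2, a3⟩ | ⟨a1, a2, a3⟩ <;> rcases h2 with ⟨b1, b2, b3⟩ | ⟨b1, b2, b3⟩ <;>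
      · have e1 := (h.1 a ha).lt2 a1 a2 b1 b2
        have e2 := (h.1 a ha).lt2 b1 b2 a1 a2
        have e3 := (h.1 a ha).lt2 a1 a2 a1 a2
        have e4 := (h.1 a ha).lt2 b1 b2 b1 b2
        omega
    · rcases h1 with ⟨a1, a2, a3⟩ | ⟨a1, a2, a3⟩ <;> rcases h2 with ⟨b1, b2, b3⟩ | ⟨b1, b2, b3⟩ <;>
      · have e1 := ((h.1 a ha).pl a1 a2).2.2
        have e2 := ((h.1 b hb).pl b1 b2).2.2
        omega
  noloop := by
    rintro P x y ⟨a, ha, hp, h1⟩
    rcases h1 with ⟨a1, a2, a3⟩ | ⟨a1, a2, a3⟩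
    · have e1 := (h.1 a ha).pl a1 a2
      have e3 := (h.1 a ha).2.2.2.2
      rw [← a3] at e1
      omega
    · have e1 := (h.1 a ha).pl a1 a2
      have e3 := (h.1 a ha).2.2.2.2
      rw [← a3] at e1
      omega

end Pool.Agent.LP86
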