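import Pool.Agent.LP86.Cert

/-!
Checked entries: every rule of a program runs on an interval of a table.
-/

namespace Pool.Agent.LP86

/-- `x ↦ x + c` or `x ↦ c - x` -/
def app (s : Bool) (c x : ℤ) : ℤ := if s then x + c else c - x

/-- the entry of a letter matches a band -/
def mB (a : Band) (r : Rule) (e : Ent) : Prop :=
  a.1 = r.fs.1 ∧ e.s = false ∧ e.c = a.c ∧
    ((a.i = r.fs.2 ∧ a.j = r.ls.2 ∧ a.lo ≤ e.lo ∧ e.hi ≤ a.hi) ∨
     (a.i = r.ls.2 ∧ a.j = r.fs.2 ∧ a.c - a.hi ≤ e.lo ∧ e.hi ≤ a.c - a.lo))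

/-- the entry of a concatenation -/
def mC (x y e : Ent) : Prop :=
  x.lo ≤ e.lo ∧ e.hi ≤ x.hi ∧
    ((y.s = true ∧ e.s = x.s ∧ e.c = x.c + y.c) ∨ (y.s = false ∧ e.s = !x.s ∧ e.c = y.c - x.c)) ∧
    ((x.s = true ∧ y.lo ≤ e.lo + x.c ∧ e.hi + x.c ≤ y.hi) ∨
     (x.s = false ∧ y.lo ≤ x.c - e.hi ∧ x.c - e.lo ≤ y.hi))

abbrev en (E : List Ent) (r : ℕ) : Ent := E.getD r dE

def gE1 (R : List Rule) (L : List Band) (E : List Ent) (r : ℕ) : Prop :=
  ((rl R r).1 = true ∧ ∃ a ∈ L, mB a (rl R r) (en E r)) ∨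
  ((rl R r).1 = false ∧ mC (en E (rl R r).2.1) (en E (rl R r).2.2.1) (en E r))

/-- checked entries -/
def gE (R : List Rule) (L : List Band) (E : List Ent) : Prop := ∀ r < R.length, gE1 R L E r

theorem Ex.run {R : List Rule} {B : List ℤ} {L : List Band} {E : List Ent} (hT : gT B L)
    (hE : gE R L E) {r : ℕ} {w : List Lt} (h : Ex R r w) : ∀ x, (en E r).lo ≤ x → x ≤ (en E r).hi →
      Run (mkTab B L hT) w x (app (en E r).s (en E r).c x) := by
  induction h with
  | one r hr h1 =>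
    intro x hx hx'
    have h2 := hE r hr
    unfold gE1 at h2
    rw [h1] at h2
    simp only [Bool.true_eq_false, false_and, or_false, true_and] at h2
    obtain ⟨a, ha, e1, e2, e3, h3⟩ := h2
    have hap : app (en E r).s (en E r).c x = a.c - x := by
      unfold app; rw [e2, e3]; rfl
    rw [hap]
    rcases h3 with ⟨e4, e5, e6, e7⟩ | ⟨e4, e5, e6, e7⟩
    · have hp := (hT.1 a ha).pl (x := x) (by omega) (by omega)
      refine Run.cons _ _ _ _ _ ⟨a, ha, e1, Or.inl ⟨by omega, by omega, rfl⟩⟩ ?_ ?_ (Run.nil _)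
      · exact hp.1.trans e4
      · exact hp.2.1.trans e5
    · have hp := (hT.1 a ha).pl (x := a.c - x) (by omega) (by omega)
      refine Run.cons _ _ _ _ _ ⟨a, ha, e1, Or.inr ⟨by omega, by omega, by omega⟩⟩ ?_ ?_
        (Run.nil _)
      · have := hp.2.1
        rw [show a.c - (a.c - x) = x by omega] at this
        exact this.trans e5
      · exact hp.1.trans e4
  | cat r u v hr h1 hu hv ihu ihv =>
    intro x hx hx'
    have h2 := hE r hr
    unfold gE1 at h2
    rw [h1] at h2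
    simp only [Bool.false_eq_true, false_and, false_or, true_and] at h2
    obtain ⟨e1, e2, e3, e4⟩ := h2
    refine run_append.2 ⟨_, ihu x (by omega) (by omega), ?_⟩
    generalize en E r = er at *
    generalize en E (rl R r).2.1 = ex at *
    generalize en E (rl R r).2.2.1 = ey at *
    have hin : ey.lo ≤ app ex.s ex.c x ∧ app ex.s ex.c x ≤ ey.hi := by
      unfold app
      rcases e4 with ⟨f1, f2, f3⟩ | ⟨f1, f2, f3⟩
      · rw [f1]; simp only [if_true]; constructor <;> omega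
      · rw [f1]; simp only [Bool.false_eq_true, if_false]; constructor <;> omega
    have happ : app er.s er.c x = app ey.s ey.c (app ex.s ex.c x) := by
      unfold app
      rcases e3 with ⟨f1, f2, f3⟩ | ⟨f1, f2, f3⟩
      · rw [f1, f2, f3]
        cases ex.s
        · simp only [Bool.false_eq_true, if_false, if_true]; omega
        · simp only [if_true]; omega
      · rw [f1, f2, f3]
        cases ex.s
        · simp only [Bool.false_eq_true, if_false, Bool.not_false, if_true]; omega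
        · simp only [Bool.false_eq_true, if_false, Bool.not_true, if_true]; omega
    rw [happ]
    exact ihv _ hin.1 hin.2

abbrev Tb := List ℤ × List Band × (List Ent × ℤ) × (List Ent × ℤ)

/-- a checked start -/
def gS (R : List Rule) (L : List Band) (E : List Ent × ℤ) : Prop :=
  gE R L E.1 ∧ (en E.1 (R.length - 1)).lo ≤ E.2 ∧ E.2 ≤ (en E.1 (R.length - 1)).hi

/-- a checked table for two programs -/
def gP (R R' : List Rule) (t : Tb) : Prop :=
  gT t.1 t.2.1 ∧ gS R t.2.1 t.2.2.1 ∧ gS R' t.2.1 t.2.2.2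

theorem gS.rz {R : List Rule} {B : List ℤ} {L : List Band} {E : List Ent × ℤ} (hT : gT B L)
    (h : gS R L E) (hR : gR R) {w : List Lt} (hw : Ex R (R.length - 1) w) :
    ∃ X, Rz (mkTab B L hT) (ofList w) X := by
  obtain ⟨h1, h2, -, -⟩ := hw.props hR
  exact (hw.run hT h.1 _ h.2.1 h.2.2).rz h1 h2

theorem gP.rz {R R' : List Rule} {t : Tb} (h : gP R R' t) (hR : gR R) (hR' : gR R')
    {w w' : List Lt} (hw : Ex R (R.length - 1) w) (hw' : Ex R' (R'.length - 1) w') :
    ∃ T X Y, Rz T (ofList w) X ∧ Rz T (ofList w') Y := by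
  obtain ⟨hT, h1, h2⟩ := h
  obtain ⟨X, hX⟩ := h1.rz hT hR hw
  obtain ⟨Y, hY⟩ := h2.rz hT hR' hw'
  exact ⟨_, X, Y, hX, hY⟩

/-- a checked program for an edge from vertex rank `p` to vertex rank `q` -/
def gW (R : List Rule) (p q : ℕ) : Prop :=
  0 < R.length ∧ gR R ∧ (rl R (R.length - 1)).fs.2 = 2 * p + 1 ∧
    (rl R (R.length - 1)).ls.2 = 2 * q + 1

/-- checked programs and tables give a locally planar drawing -/
theorem klp_of_cert {V : Type} [Fintype V] [LinearOrder V] {G : SimpleGraph V} {k : ℕ} (ρ : V → ℕ)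
    (hρ : Function.Injective ρ) (R : Ed G → List Rule) (t : Ed G → Ed G → Tb)
    (hW : ∀ e, gW (R e) (ρ e.1.1) (ρ e.1.2))
    (hP : ∀ e f, e = f ∨ nrE G k e f → gP (R e) (R f) (t e f)) : KLocallyPlanar k G := by
  classical
  have hex : ∀ e, ∃ w, Ex (R e) ((R e).length - 1) w := fun e =>
    exists_ex (hW e).2.1 _ (by have := (hW e).1; omega)
  choose w hw using hex
  have hpr := fun e => (hw e).props (hW e).2.1
  -- a common bound for the places
  obtain ⟨n, hn⟩ : ∃ n, ∀ e, ∀ a ∈ w e, a.2.1 < n ∧ a.2.2 < n := by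
    haveI : Fintype (Ed G) := Fintype.ofFinite _
    refine ⟨(Finset.univ.sum fun e : Ed G => ((w e).map fun a => a.2.1 + a.2.2).sum) + 1,
      fun e a ha => ?_⟩
    have h1 : a.2.1 + a.2.2 ≤ ((w e).map fun a => a.2.1 + a.2.2).sum :=
      List.le_sum_of_mem (List.mem_map.2 ⟨a, ha, rfl⟩)
    have h2 : ((w e).map fun a => a.2.1 + a.2.2).sum ≤
        Finset.univ.sum fun e : Ed G => ((w e).map fun a => a.2.1 + a.2.2).sum :=
      Finset.single_le_sum (f := fun e : Ed G => ((w e).map fun a => a.2.1 + a.2.2).sum)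
        (fun _ _ => Nat.zero_le _) (Finset.mem_univ e)
    constructor <;> omega
  refine klp_of_words (k := k) (n := n) ρ hρ (fun e => ofList (w e)) (fun e => ?_) (fun e => ?_)
    (fun e => ?_) (fun e => ?_) (fun e f hne hn => ?_)
  · refine ofList_ok (hpr e).1 (hpr e).2.1 (hn e) ?_ ?_
    · rw [(hpr e).2.2.1, (hW e).2.2.1, Nat.even_iff]; omega
    · rw [(hpr e).2.2.2, (hW e).2.2.2, Nat.even_iff]; omega
  · rw [ofList_q0, (hpr e).2.2.1, (hW e).2.2.1]
  · rw [ofList_qm (hpr e).1, (hpr e).2.2.2, (hW e).2.2.2]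
  · obtain ⟨T, X, -, hX, -⟩ := (hP e e (Or.inl rfl)).rz (hW e).2.1 (hW e).2.1 (hw e) (hw e)
    exact ⟨T, X, hX⟩
  · exact (hP e f (Or.inr hn)).rz (hW e).2.1 (hW f).2.1 (hw e) (hw f)

end Pool.Agent.LP86
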