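import Pool.Agent.LP86.Close

/-!
Parabolic chords above and below the real axis.
-/

namespace Pool.Agent.LP86

open Set

/-- the chord with ends `a` and `b` on the real axis (`s = 1`: above, `s = -1`: below) -/
def chord (s a b : ℝ) : Set ℂ := {z | z.re ∈ uIcc a b ∧ z.im = s * ((z.re - a) * (b - z.re))}

theorem cont_mk {X : Type*} [TopologicalSpace X] {f g : X → ℝ} (hf : Continuous f)
    (hg : Continuous g) : Continuous fun x => (⟨f x, g x⟩ : ℂ) := by
  have : (fun x => (⟨f x, g x⟩ : ℂ)) = fun x => (f x : ℂ) + (g x : ℂ) * Complex.I := by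
    funext x; exact Complex.mk_eq_add_mul_I _ _
  rw [this]; fun_prop

theorem chord_comm (s a b : ℝ) : chord s a b = chord s b a := by
  ext z
  simp only [chord, mem_ofPred_eq, uIcc_comm a b]
  refine and_congr_right fun _ => ?_
  rw [show (z.re - a) * (b - z.re) = (z.re - b) * (a - z.re) by ring]

theorem chord_isArc (s : ℝ) {a b : ℝ} (h : a ≠ b) : IsJordanArc (chord s a b) a b := by
  let X : ℝ → ℝ := fun t => a + t * (b - a)
  refine ⟨fun t => ⟨X t, s * ((X t - a) * (b - X t))⟩, ?_, ?_, ?_, ?_, ?_⟩
  · have hX : Continuous fun t : unitInterval => X t := by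
      simp only [X]; fun_prop
    exact cont_mk hX (by fun_prop)
  · intro t u htu
    have h1 : X t = X u := congrArg Complex.re htu
    simp only [X] at h1
    have h2 : (t : ℝ) = u := by
      have : ((t : ℝ) - u) * (b - a) = 0 := by linarith
      rcases mul_eq_zero.1 this with h3 | h3
      · linarith
      · exact absurd (by linarith : a = b) h
    exact Subtype.ext h2
  · apply Complex.ext <;> simp [X]
  · apply Complex.ext <;> simp [X]
  · ext z
    simp only [mem_range, chord, mem_ofPred_eq]
    constructor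
    · rintro ⟨t, rfl⟩
      refine ⟨?_, rfl⟩
      have h0 := t.2.1
      have h1 := t.2.2
      simp only [X]
      rcases le_total a b with hab | hab
      · rw [uIcc_of_le hab]; constructor <;> nlinarith
      · rw [uIcc_of_ge hab]; constructor <;> nlinarith
    · rintro ⟨h1, h2⟩
      have hba : b - a ≠ 0 := sub_ne_zero.2 h.symm
      have ht : (z.re - a) / (b - a) ∈ Icc (0 : ℝ) 1 := by
        rcases lt_or_gt_of_ne h with hab | hab
        · rw [uIcc_of_le hab.le] at h1
          rw [mem_Icc, le_div_iff₀ (by linarith), div_le_iff₀ (by linarith)]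
          constructor <;> linarith [h1.1, h1.2]
        · rw [uIcc_of_ge hab.le] at h1
          rw [mem_Icc, le_div_iff_of_neg (by linarith), div_le_iff_of_neg (by linarith)]
          constructor <;> linarith [h1.1, h1.2]
      refine ⟨⟨_, ht⟩, ?_⟩
      have hX : X ((z.re - a) / (b - a)) = z.re := by
        simp only [X]; field_simp; ring
      apply Complex.ext
      · exact hX
      · simp only [hX, h2]

theorem left_mem_chord (s a b : ℝ) : (a : ℂ) ∈ chord s a b := by simp [chord]

theorem right_mem_chord (s a b : ℝ) : (b : ℂ) ∈ chord s a b := by simp [chord]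

/-- the ends of the two chords alternate -/
def Alt (a b c d : ℝ) : Prop :=
  (min a b < min c d ∧ min c d < max a b ∧ max a b < max c d) ∨
    (min c d < min a b ∧ min a b < max c d ∧ max c d < max a b)

theorem Alt.symm {a b c d : ℝ} (h : Alt a b c d) : Alt c d a b := Or.symm h

theorem Alt.swap_left {a b c d : ℝ} (h : Alt a b c d) : Alt b a c d := by
  unfold Alt at *; rwa [min_comm b a, max_comm b a]

theorem Alt.swap_right {a b c d : ℝ} (h : Alt a b c d) : Alt a b d c := by
  unfold Alt at *; rwa [min_comm d c, max_comm d c]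

/-- a point of a chord on the real axis is an end of it -/
theorem chord_real {s a b : ℝ} (hs : s ≠ 0) {z : ℂ} (hz : z ∈ chord s a b) (h0 : z.im = 0) :
    z = a ∨ z = b := by
  have h1 := hz.2
  rw [h0] at h1
  rcases mul_eq_zero.1 h1.symm with h | h
  · exact absurd h hs
  · rcases mul_eq_zero.1 h with h | h
    · left; apply Complex.ext
      · simp; linarith
      · simpa using h0
    · right; apply Complex.ext
      · simp; linarith
      · simpa using h0

theorem chord_prod_nonneg {a b x : ℝ} (h : x ∈ uIcc a b) : 0 ≤ (x - a) * (b - x) := by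
  rcases le_total a b with hab | hab
  · rw [uIcc_of_le hab] at h; exact mul_nonneg (by linarith [h.1]) (by linarith [h.2])
  · rw [uIcc_of_ge hab] at h; exact mul_nonneg_of_nonpos_of_nonpos (by linarith [h.2]) (by linarith [h.1])

/-- chords on different sides meet only in common ends -/
theorem chord_opp {s s' a b c d : ℝ} (hs : 0 < s) (hs' : s' < 0) {z : ℂ} (h1 : z ∈ chord s a b)
    (h2 : z ∈ chord s' c d) : (z = a ∨ z = b) ∧ (z = c ∨ z = d) := by
  have e1 := h1.2
  have e2 := h2.2
  have p1 := chord_prod_nonneg h1.1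
  have p2 := chord_prod_nonneg h2.1
  have i1 : 0 ≤ z.im := by rw [e1]; exact mul_nonneg hs.le p1
  have i2 : z.im ≤ 0 := by rw [e2]; exact mul_nonpos_of_nonpos_of_nonneg hs'.le p2
  have h0 : z.im = 0 := le_antisymm i2 i1
  exact ⟨chord_real hs.ne' h1 h0, chord_real hs'.ne h2 h0⟩

theorem chord_same_aux {s a b c d : ℝ} (hs : s ≠ 0) (hab : a < b) (hcd : c < d) {z : ℂ}
    (h1 : z ∈ chord s a b) (h2 : z ∈ chord s c d) (hne : ¬ (a = c ∧ b = d)) :
    ((z = a ∨ z = b) ∧ (z = c ∨ z = d)) ∨
      (((a < c ∧ c < b ∧ b < d) ∨ (c < a ∧ a < d ∧ d < b)) ∧ a + b ≠ c + d ∧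
        z.re = (a * b - c * d) / (a + b - c - d)) := by
  have e1 := h1.2
  have e2 := h2.2
  have u1 := h1.1
  have u2 := h2.1
  rw [uIcc_of_le hab.le] at u1
  rw [uIcc_of_le hcd.le] at u2
  have e3 : (z.re - a) * (b - z.re) = (z.re - c) * (d - z.re) :=
    mul_left_cancel₀ hs (e1.symm.trans e2)
  obtain ⟨u1, u1'⟩ := u1
  obtain ⟨u2, u2'⟩ := u2
  set x := z.re with hx
  have endp : ∀ t : ℝ, x = t → z.im = 0 → z = (t : ℂ) := by
    intro t h h'
    apply Complex.ext
    · simpa using h
    · simpa using h'
  by_cases hac : a = c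
  · subst hac
    have hbd : b ≠ d := fun h => hne ⟨rfl, h⟩
    have : (x - a) * (b - d) = 0 := by linarith
    rcases mul_eq_zero.1 this with h | h
    · left
      have h0 : z.im = 0 := by rw [e1, h]; ring
      exact ⟨Or.inl (endp a (by linarith) h0), Or.inl (endp a (by linarith) h0)⟩
    · exact absurd (by linarith) hbd
  by_cases hbd : b = d
  · subst hbd
    have : (b - x) * (c - a) = 0 := by linarith
    rcases mul_eq_zero.1 this with h | h
    · left
      have h0 : z.im = 0 := by rw [e1, h]; ring
      exact ⟨Or.inr (endp b (by linarith) h0), Or.inr (endp b (by linarith) h0)⟩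
    · exact absurd (by linarith) hac
  by_cases hbc : b = c
  · subst hbc
    left
    have h : x = b := by linarith
    have h0 : z.im = 0 := by rw [e1, h]; ring
    exact ⟨Or.inr (endp b h h0), Or.inl (endp b h h0)⟩
  by_cases had : a = d
  · subst had
    left
    have h : x = a := by linarith
    have h0 : z.im = 0 := by rw [e1, h]; ring
    exact ⟨Or.inl (endp a h h0), Or.inr (endp a h h0)⟩
  right
  rcases lt_or_gt_of_ne hac with h | h <;> rcases lt_or_gt_of_ne hbd with h' | h'
  · have hcb : c < b := lt_of_le_of_ne (by linarith) (Ne.symm hbc)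
    refine ⟨Or.inl ⟨h, hcb, h'⟩, by linarith, ?_⟩
    rw [eq_div_iff (by linarith)]; linarith
  · exfalso
    -- c d inside a b
    have : (x - c) * (d - x) < (x - a) * (b - x) := by nlinarith
    linarith
  · exfalso
    have : (x - a) * (b - x) < (x - c) * (d - x) := by nlinarith
    linarith
  · have had' : a < d := lt_of_le_of_ne (by linarith) had
    refine ⟨Or.inr ⟨h, had', h'⟩, by linarith, ?_⟩
    rw [eq_div_iff (by linarith)]; linarith

/-- two different chords on one side meet in a common end or alternate and meet in one point -/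
theorem chord_same {s a b c d : ℝ} (hs : s ≠ 0) (hab : a ≠ b) (hcd : c ≠ d) {z : ℂ}
    (h1 : z ∈ chord s a b) (h2 : z ∈ chord s c d) (hne : s(a, b) ≠ s(c, d)) :
    ((z = a ∨ z = b) ∧ (z = c ∨ z = d)) ∨
      (Alt a b c d ∧ a + b ≠ c + d ∧ z.re = (a * b - c * d) / (a + b - c - d)) := by
  wlog h : a < b generalizing a b
  · have := this hab.symm (by rwa [chord_comm]) (by rwa [Sym2.eq_swap])
      (lt_of_le_of_ne (not_lt.1 h) hab.symm)
    rw [or_comm (a := z = a), add_comm a b, mul_comm a b]
    rcases this with h | ⟨h, h'⟩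
    · exact Or.inl h
    · exact Or.inr ⟨h.swap_left, h'⟩
  wlog h' : c < d generalizing c d
  · have := this hcd.symm (by rwa [chord_comm]) (by rwa [Sym2.eq_swap (a := d)])
      (lt_of_le_of_ne (not_lt.1 h') hcd.symm)
    rw [or_comm (a := z = c), add_comm c d, mul_comm c d, sub_right_comm]
    rcases this with h | ⟨h, h'⟩
    · exact Or.inl h
    · exact Or.inr ⟨h.swap_right, h'⟩
  rcases chord_same_aux hs h h' h1 h2 (by rintro ⟨rfl, rfl⟩; exact hne rfl) with h3 | ⟨h3, h4⟩
  · exact Or.inl h3
  · right
    refine ⟨?_, h4⟩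
    unfold Alt
    rwa [min_eq_left h.le, max_eq_right h.le, min_eq_left h'.le, max_eq_right h'.le]

/-- the homeomorphism of the plane that straightens two chords -/
noncomputable def straight (s m n m' n' : ℝ) (h : m ≠ m') (hs : s * s = 1) : ℂ ≃ₜ ℂ where
  toFun z := ⟨z.im + s * (z.re * z.re - m' * z.re + n'), z.im + s * (z.re * z.re - m * z.re + n)⟩
  invFun w := ⟨(s * (w.re - w.im) + n - n') / (m - m'),
    w.re - s * (((s * (w.re - w.im) + n - n') / (m - m')) * ((s * (w.re - w.im) + n - n') / (m - m'))
      - m' * ((s * (w.re - w.im) + n - n') / (m - m')) + n')⟩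
  left_inv z := by
    have hm : m - m' ≠ 0 := sub_ne_zero.2 h
    have e : (s * ((z.im + s * (z.re * z.re - m' * z.re + n')) -
        (z.im + s * (z.re * z.re - m * z.re + n))) + n - n') / (m - m') = z.re := by
      rw [div_eq_iff hm]
      have : s * ((z.im + s * (z.re * z.re - m' * z.re + n')) -
        (z.im + s * (z.re * z.re - m * z.re + n))) = (s * s) * (((m - m') * z.re) + n' - n) := by ring
      rw [this, hs]; ring
    apply Complex.ext
    · exact e
    · simp only [e]; ring
  right_inv w := by
    have hm : m - m' ≠ 0 := sub_ne_zero.2 h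
    apply Complex.ext
    · simp
    · simp only
      set x := (s * (w.re - w.im) + n - n') / (m - m') with hx
      have e : (m - m') * x = s * (w.re - w.im) + n - n' := by rw [hx]; field_simp
      have : w.re - s * (x * x - m' * x + n') + s * (x * x - m * x + n) =
          w.re - s * ((m - m') * x) + s * (n - n') := by ring
      rw [this, e]
      have : w.re - s * (s * (w.re - w.im) + n - n') + s * (n - n') =
          w.re - (s * s) * (w.re - w.im) := by ring
      rw [this, hs]; ring
  continuous_toFun := cont_mk (by fun_prop) (by fun_prop)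
  continuous_invFun := cont_mk (by fun_prop) (by fun_prop)

/-- alternating chords on one side cross properly; this persists for sets that agree with the
chords near the crossing point -/
theorem chord_proper {s a b c d : ℝ} (hs : s * s = 1) {z : ℂ} (h1 : z ∈ chord s a b)
    (h2 : z ∈ chord s c d) (hne : a + b ≠ c + d) (h0 : z.im ≠ 0) {A B : Set ℂ}
    (hA : ∃ U : Set ℂ, IsOpen U ∧ z ∈ U ∧ ∀ w ∈ U, w ∈ A ↔ w ∈ chord s a b)
    (hB : ∃ U : Set ℂ, IsOpen U ∧ z ∈ U ∧ ∀ w ∈ U, w ∈ B ↔ w ∈ chord s c d) :
    ProperCrossing A B z := by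
  obtain ⟨U, hU, hzU, hUA⟩ := hA
  obtain ⟨W, hW, hzW, hWB⟩ := hB
  let N : Set ℂ := {w | w.re ∈ Ioo (min a b) (max a b)} ∩ {w | w.re ∈ Ioo (min c d) (max c d)}
  have hN : IsOpen N := (isOpen_Ioo.preimage Complex.continuous_re).inter
    (isOpen_Ioo.preimage Complex.continuous_re)
  have inner : ∀ {a b : ℝ}, z ∈ chord s a b → z.re ∈ Ioo (min a b) (max a b) := by
    intro a b h
    have h3 := h.1
    rw [uIcc] at h3
    have e := h.2
    refine ⟨lt_of_le_of_ne h3.1 ?_, lt_of_le_of_ne h3.2 ?_⟩
    · intro h4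
      apply h0
      rw [e]
      rcases min_choice a b with h5 | h5 <;> rw [h5] at h4 <;> rw [← h4] <;> ring
    · intro h4
      apply h0
      rw [e]
      rcases max_choice a b with h5 | h5 <;> rw [h5] at h4 <;> rw [h4] <;> ring
  have hzN : z ∈ N := ⟨inner h1, inner h2⟩
  let φ := (straight s (a + b) (a * b) (c + d) (c * d) hne hs).toOpenPartialHomeomorph.restrOpen
    (N ∩ U ∩ W) ((hN.inter hU).inter hW)
  have hφ : ∀ w, φ w = ⟨w.im + s * (w.re * w.re - (c + d) * w.re + c * d),
      w.im + s * (w.re * w.re - (a + b) * w.re + a * b)⟩ := fun w => rfl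
  have hsrc : φ.source = N ∩ U ∩ W := by
    simp only [φ, OpenPartialHomeomorph.restrOpen_source,
      Homeomorph.toOpenPartialHomeomorph_source, univ_inter]
  have key : ∀ {a b : ℝ} (w : ℂ), w.re ∈ Ioo (min a b) (max a b) →
      (w ∈ chord s a b ↔ w.im + s * (w.re * w.re - (a + b) * w.re + a * b) = 0) := by
    intro a b w hw
    simp only [chord, mem_ofPred_eq]
    constructor
    · rintro ⟨-, e⟩; rw [e]; ring
    · intro e
      exact ⟨⟨hw.1.le, hw.2.le⟩, by linarith⟩
  refine ⟨φ, ?_, ?_, ?_, ?_⟩
  · rw [hsrc]; exact ⟨⟨hzN, hzU⟩, hzW⟩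
  · rw [hφ]
    apply Complex.ext
    · simpa using (key z hzN.2).1 h2
    · simpa using (key z hzN.1).1 h1
  · intro w hw
    rw [hsrc] at hw
    rw [hUA w hw.1.2, key w hw.1.1.1, hφ]
  · intro w hw
    rw [hsrc] at hw
    rw [hWB w hw.2, key w hw.1.1.2, hφ]

end Pool.Agent.LP86
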