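import Pool.Agent.LP86.Btw
import Pool.Agent.Lib.helper10.NPMat

/-!
Satisfiability as a problem about circular orders with prescribed alternating pairs.
-/

namespace Pool.Agent.LP86

open Pool.Agent.Cx

/-- number of the terminal of a literal -/
def vt (l : ℕ × Bool) : ℕ := 3 + 2 * l.1 + l.2.toNat

/-- number of the `j`-th terminal of clause `c` -/
def yt (s c j : ℕ) : ℕ := if j = 0 then 2 else 3 + 2 * s + c * (s + 1) + j

/-- number of terminals -/
def nt (s : ℕ) : ℕ := 3 + 2 * s + (s + 1) * (s + 1)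

/-- the quadruples of a formula -/
def quads (φ : CNF) : List (List ℕ) :=
  (List.range (size φ)).map (fun i => [0, 3 + 2 * i + 1, 1, 3 + 2 * i]) ++
  φ.zipIdx.flatMap fun c => [0, yt (size φ) c.2 c.1.length, 1, 2] ::
    c.1.zipIdx.map fun l => [0, yt (size φ) c.2 l.2, yt (size φ) c.2 (l.2 + 1), vt l.1]

/-- the condition on the positions of the terminals -/
def QSep (y : ℕ → ℝ) (q : List ℕ) : Prop :=
  Al (y (q.getD 0 0)) (y (q.getD 2 0)) (y (q.getD 1 0)) (y (q.getD 3 0))

theorem mem_quads {φ : CNF} {q : List ℕ} : q ∈ quads φ ↔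
    (∃ i < size φ, q = [0, 3 + 2 * i + 1, 1, 3 + 2 * i]) ∨
    ∃ c, ∃ hc : c < φ.length, q = [0, yt (size φ) c φ[c].length, 1, 2] ∨
      ∃ j, ∃ hj : j < φ[c].length,
        q = [0, yt (size φ) c j, yt (size φ) c (j + 1), vt (φ[c][j])] := by
  unfold quads
  simp only [List.mem_append, List.mem_map, List.mem_range, List.mem_flatMap, List.mem_cons,
    Prod.exists, List.mem_zipIdx_iff_getElem?, List.getElem?_eq_some_iff]
  constructor
  · rintro (⟨i, hi, rfl⟩ | ⟨c, i, ⟨hi, h⟩, h'⟩)
    · exact Or.inl ⟨i, hi, rfl⟩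
    · have h2 : c = φ[i]'hi := h.symm
      clear h
      subst h2
      rcases h' with rfl | ⟨a, b, j, ⟨hj, hab⟩, rfl⟩
      · exact Or.inr ⟨i, hi, Or.inl rfl⟩
      · exact Or.inr ⟨i, hi, Or.inr ⟨j, hj, by rw [hab]⟩⟩
  · rintro (⟨i, hi, rfl⟩ | ⟨i, hi, rfl | ⟨j, hj, rfl⟩⟩)
    · exact Or.inl ⟨i, hi, rfl⟩
    · exact Or.inr ⟨φ[i], i, ⟨hi, rfl⟩, Or.inl rfl⟩
    · exact Or.inr ⟨φ[i], i, ⟨hi, rfl⟩, Or.inr ⟨φ[i][j].1, φ[i][j].2, j, ⟨hj, rfl⟩, rfl⟩⟩

theorem clause_lt {φ : CNF} {c : ℕ} (hc : c < φ.length) : c < size φ :=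
  hc.trans (length_lt_size φ)

theorem clause_len {φ : CNF} {c : ℕ} (hc : c < φ.length) : φ[c].length < size φ :=
  (length_lt_size φ[c]).trans (size_lt_of_mem (List.getElem_mem hc))

theorem vt_lt {φ : CNF} {c : ℕ} (hc : c < φ.length) {j : ℕ} (hj : j < φ[c].length) :
    vt φ[c][j] < 3 + 2 * size φ := by
  have := var_lt_size (List.getElem_mem hc) (List.getElem_mem hj)
  have := Bool.toNat_le (φ[c][j].2)
  unfold vt; omega

theorem yt_lt {s c j : ℕ} (hc : c < s) (hj : j ≤ s) : yt s c j < nt s := by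
  unfold yt nt
  split_ifs
  · omega
  · have : c * (s + 1) + j < (s + 1) * (s + 1) := by nlinarith
    omega

theorem quads_lt {φ : CNF} {q : List ℕ} (hq : q ∈ quads φ) : ∀ x ∈ q, x < nt (size φ) := by
  rcases mem_quads.1 hq with ⟨i, hi, rfl⟩ | ⟨c, hc, rfl | ⟨j, hj, rfl⟩⟩
  · intro x hx
    simp only [List.mem_cons, List.not_mem_nil, or_false] at hx
    unfold nt
    have : 0 < (size φ + 1) * (size φ + 1) := by positivity
    rcases hx with rfl | rfl | rfl | rfl <;> omega
  · intro x hx
    simp only [List.mem_cons, List.not_mem_nil, or_false] at hx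
    rcases hx with rfl | rfl | rfl | rfl
    · unfold nt; omega
    · exact yt_lt (clause_lt hc) (clause_len hc).le
    · unfold nt; omega
    · unfold nt; omega
  · intro x hx
    simp only [List.mem_cons, List.not_mem_nil, or_false] at hx
    have h1 := clause_len hc
    rcases hx with rfl | rfl | rfl | rfl
    · unfold nt; omega
    · exact yt_lt (clause_lt hc) (by omega)
    · exact yt_lt (clause_lt hc) (by omega)
    · have := vt_lt hc hj; unfold nt; omega

/-! ### from an order to an assignment -/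

theorem btw_of_al {p a b c : ℝ} (ha : a ≠ p) (hb : b ≠ p) (hc : c ≠ p) (h : Al p a b c) :
    Btw (cut p a) (cut p b) (cut p c) := by
  unfold Btw
  rw [cut_lt hb ha, cut_lt ha hc, cut_lt hc ha, cut_lt ha hb]
  unfold Al Btw at h
  grind

theorem sat_of_order {φ : CNF} (y : ℕ → ℝ)
    (inj : ∀ i < nt (size φ), ∀ j < nt (size φ), y i = y j → i = j)
    (h : ∀ q ∈ quads φ, QSep y q) : Sat φ := by
  classical
  set p := y 0 with hp
  have h0 : 0 < nt (size φ) := by unfold nt; omega
  have hne : ∀ i, 1 ≤ i → i < nt (size φ) → y i ≠ p := fun i h1 h2 e => by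
    have := inj i h2 0 h0 e; omega
  set z : ℕ → ℝ := fun i => cut p (y i) with hz
  have zne : ∀ i j, 1 ≤ i → 1 ≤ j → i < nt (size φ) → j < nt (size φ) → i ≠ j → z i ≠ z j :=
    fun i j h1 h2 h3 h4 n e => n (inj _ h3 _ h4 (cut_inj (hne i h1 h3) (hne j h2 h4) e))
  have key : ∀ a b c, [0, a, b, c] ∈ quads φ → 1 ≤ a → 1 ≤ b → 1 ≤ c → Btw (z b) (z a) (z c) := by
    intro a b c hq h1 h2 h3
    have h4 := h _ hq
    have h5 := quads_lt hq
    simp only [List.mem_cons, List.not_mem_nil, or_false] at h5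
    simp only [QSep, List.getD_cons_zero, List.getD_cons_succ] at h4
    exact btw_of_al (hne _ h2 (h5 b (by simp))) (hne _ h1 (h5 a (by simp)))
      (hne _ h3 (h5 c (by simp))) h4
  -- the side opposite to `F`
  set T : ℕ → Prop := fun i => Btw (z 1) (z i) (z 2) with hT
  have hyt : ∀ s c j, 1 ≤ yt s c j := by intro s c j; unfold yt; split_ifs <;> omega
  refine ⟨fun i => decide (T (3 + 2 * i + 1)), fun cl hcl => ?_⟩
  obtain ⟨c, hc, rfl⟩ := List.getElem_of_mem hcl
  by_contra hno
  push Not at hno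
  -- all terminals of the clause are on the side of `F`
  have side : ∀ j, j ≤ φ[c].length → ¬ T (yt (size φ) c j) := by
    intro j
    induction j with
    | zero =>
      intro _
      unfold yt
      rw [if_pos rfl]
      simp only [hT]
      unfold Btw
      rintro (⟨h1, h2⟩ | ⟨h1, h2⟩) <;> linarith
    | succ j ih =>
      intro hj
      have hj' : j < φ[c].length := hj
      have ih := ih (by omega)
      have b1 := key _ _ _ (mem_quads.2 (Or.inr ⟨c, hc, Or.inr ⟨j, hj', rfl⟩⟩)) (hyt _ _ _)
        (hyt _ _ _) (by unfold vt; omega)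
      -- the literal is on the side of `F`
      have hlit : ¬ T (vt (φ[c][j])) := by
        have hn := hno _ (List.getElem_mem hj')
        have hv := var_lt_size (List.getElem_mem hc) (List.getElem_mem hj')
        set l := φ[c][j] with hl
        rcases hb : l.2 with _ | _
        · rw [hb] at hn
          have h1 : T (3 + 2 * l.1 + 1) := by simpa using hn
          have b2 := key _ _ _ (mem_quads.2 (Or.inl ⟨l.1, hv, rfl⟩)) (by omega) (by omega) (by omega)
          have e : vt l = 3 + 2 * l.1 := by unfold vt; rw [hb]; simp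
          rw [e]
          intro h2
          simp only [hT] at h1 h2
          unfold Btw at h1 h2 b2
          grind
        · rw [hb] at hn
          have h1 : ¬ T (3 + 2 * l.1 + 1) := by simpa using hn
          have e : vt l = 3 + 2 * l.1 + 1 := by unfold vt; rw [hb]; simp
          rw [e]; exact h1
      have n1 : z 1 ≠ z (yt (size φ) c j) := by
        refine zne _ _ le_rfl (hyt _ _ _) (by unfold nt; omega)
          (yt_lt (clause_lt hc) (by have := clause_len hc; omega)) ?_
        unfold yt; split_ifs <;> omega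
      have n2 : z 1 ≠ z (vt (φ[c][j])) := by
        refine zne _ _ le_rfl (by unfold vt; omega) (by unfold nt; omega)
          (by have := vt_lt hc hj'; unfold nt; omega) (by unfold vt; omega)
      intro h2
      simp only [hT] at ih h2 hlit
      unfold Btw at ih h2 b1 hlit
      grind
  have b := key _ _ _ (mem_quads.2 (Or.inr ⟨c, hc, Or.inl rfl⟩)) (hyt _ _ _) le_rfl (by omega)
  exact side _ le_rfl b

/-! ### from an assignment to an order -/

/-- breaking ties -/
theorem perturb (y : ℕ → ℝ) (N : ℕ) : ∃ y' : ℕ → ℝ, (∀ i < N, ∀ j < N, y' i = y' j → i = j) ∧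
    ∀ i < N, ∀ j < N, y i < y j → y' i < y' j := by
  classical
  set S : ℕ → Finset ℕ := fun i => (Finset.range N).filter fun j => y j < y i ∨ (y j = y i ∧ j < i)
    with hS
  have lt : ∀ i < N, ∀ j < N, (y i < y j ∨ (y i = y j ∧ i < j)) → (S i).card < (S j).card := by
    intro i hi j hj h
    refine Finset.card_lt_card ⟨fun x hx => ?_, fun hsub => ?_⟩
    · simp only [hS, Finset.mem_filter, Finset.mem_range] at hx ⊢
      refine ⟨hx.1, ?_⟩
      rcases hx.2 with h1 | ⟨h1, h2⟩ <;> rcases h with h3 | ⟨h3, h4⟩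
      · exact Or.inl (h1.trans h3)
      · exact Or.inl (h3 ▸ h1)
      · exact Or.inl (h1 ▸ h3)
      · exact Or.inr ⟨h1.trans h3, h2.trans h4⟩
    · have : i ∈ S i := hsub (by
        simp only [hS, Finset.mem_filter, Finset.mem_range]; exact ⟨hi, h⟩)
      simp only [hS, Finset.mem_filter] at this
      rcases this.2 with h | h
      · exact lt_irrefl _ h
      · exact lt_irrefl _ h.2
  refine ⟨fun i => ((S i).card : ℝ), fun i hi j hj e => ?_, fun i hi j hj h => ?_⟩
  · by_contra hne
    have e' : (S i).card = (S j).card := by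
      have e : ((S i).card : ℝ) = ((S j).card : ℝ) := e
      exact_mod_cast e
    rcases lt_trichotomy (y i) (y j) with h | h | h
    · have := lt i hi j hj (Or.inl h); omega
    · rcases lt_or_gt_of_ne hne with h' | h'
      · have := lt i hi j hj (Or.inr ⟨h, h'⟩); omega
      · have := lt j hj i hi (Or.inr ⟨h.symm, h'⟩); omega
    · have := lt j hj i hi (Or.inl h); omega
  · have := lt i hi j hj (Or.inl h)
    show ((S i).card : ℝ) < ((S j).card : ℝ)
    exact_mod_cast this

/-- the next terminal of a clause, given the position of the last one and the truth value of the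
literal -/
noncomputable def ystep (b : Bool) (x : ℝ) : ℝ :=
  if x < 0 then (if b then 1 / 2 else (x - 1) / 2) else (if b then (x + 1) / 2 else x / 2)

/-- position of the `j`-th terminal of a clause with the given truth values -/
noncomputable def ypos (b : ℕ → Bool) : ℕ → ℝ
  | 0 => -2
  | j + 1 => ystep (b j) (ypos b j)

theorem ypos_spec (b : ℕ → Bool) (j : ℕ) :
    (ypos b j < -1 ∧ -2 ≤ ypos b j ∧ ∀ i < j, b i = false) ∨ (0 < ypos b j ∧ ypos b j < 1) := by
  induction j with
  | zero => left; simp [ypos]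
  | succ j ih =>
    simp only [ypos, ystep]
    rcases ih with ⟨h1, h2, h3⟩ | ⟨h1, h2⟩
    · rw [if_pos (by linarith)]
      cases hb : b j
      · left
        simp only [Bool.false_eq_true, if_false]
        refine ⟨by linarith, by linarith, fun i hi => ?_⟩
        rcases Nat.lt_succ_iff_lt_or_eq.1 hi with h | rfl
        · exact h3 i h
        · exact hb
      · right; norm_num
    · rw [if_neg (by linarith)]
      cases hb : b j
      · right
        simp only [Bool.false_eq_true, if_false]
        constructor <;> linarith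
      · right
        simp only [if_true]
        constructor <;> linarith

theorem ypos_pos {b : ℕ → Bool} {j : ℕ} (h : ∃ i < j, b i = true) : 0 < ypos b j := by
  rcases ypos_spec b j with ⟨-, -, h3⟩ | ⟨h1, -⟩
  · obtain ⟨i, hi, hb⟩ := h
    rw [h3 i hi] at hb
    exact absurd hb (by simp)
  · exact h1

theorem ypos_btw (b : ℕ → Bool) (j : ℕ) :
    Btw (ypos b (j + 1)) (ypos b j) (if b j then 1 else -1) := by
  simp only [ypos, ystep]
  unfold Btw
  rcases ypos_spec b j with ⟨h1, h2, -⟩ | ⟨h1, h2⟩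
  · rw [if_pos (by linarith)]
    cases hb : b j
    · simp only [Bool.false_eq_true, if_false]
      left; constructor <;> linarith
    · simp only [if_true]
      left; constructor <;> linarith
  · rw [if_neg (by linarith)]
    cases hb : b j
    · simp only [Bool.false_eq_true, if_false]
      right; constructor <;> linarith
    · simp only [if_true]
      left; constructor <;> linarith

theorem ypos_gt (b : ℕ → Bool) (j : ℕ) : -2 ≤ ypos b j := by
  rcases ypos_spec b j with ⟨h1, h2, -⟩ | ⟨h1, h2⟩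
  · exact h2
  · linarith

/-- positions for an assignment -/
noncomputable def ty (φ : CNF) (v : ℕ → Bool) (i : ℕ) : ℝ :=
  if i = 0 then -5 else if i = 1 then 0 else if i = 2 then -2 else
  if i < 3 + 2 * size φ then
    (if v ((i - 3) / 2) = decide ((i - 3) % 2 = 1) then 1 else -1)
  else ypos (fun j => decide (v (((φ.getD ((i - (3 + 2 * size φ)) / (size φ + 1)) []).getD j
      (0, false)).1) = ((φ.getD ((i - (3 + 2 * size φ)) / (size φ + 1)) []).getD j
      (0, false)).2)) ((i - (3 + 2 * size φ)) % (size φ + 1))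

theorem ty_vt {φ : CNF} {v : ℕ → Bool} {l : ℕ × Bool} (h : l.1 < size φ) :
    ty φ v (vt l) = if v l.1 = l.2 then 1 else -1 := by
  have hb := Bool.toNat_le l.2
  have h1 : (vt l - 3) / 2 = l.1 := by unfold vt; omega
  have h2 : (vt l - 3) % 2 = l.2.toNat := by unfold vt; omega
  have h3 : vt l < 3 + 2 * size φ := by unfold vt; omega
  have h4 : decide (l.2.toNat = 1) = l.2 := by cases l.2 <;> rfl
  unfold ty
  rw [if_neg (by unfold vt; omega), if_neg (by unfold vt; omega), if_neg (by unfold vt; omega),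
    if_pos h3, h1, h2, h4]

theorem ty_yt {φ : CNF} {v : ℕ → Bool} {c : ℕ} (hc : c < φ.length) {j : ℕ} (hj : j ≤ φ[c].length) :
    ty φ v (yt (size φ) c j) =
      ypos (fun j => decide (v ((φ[c].getD j (0, false)).1) = (φ[c].getD j (0, false)).2)) j := by
  have hs := clause_len hc
  by_cases h0 : j = 0
  · subst h0
    unfold yt ty
    rw [if_pos rfl, if_neg (by omega), if_neg (by omega), if_pos rfl]
    rfl
  · have e : yt (size φ) c j = 3 + 2 * size φ + c * (size φ + 1) + j := by
      unfold yt; rw [if_neg h0]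
    have e0 : 3 + 2 * size φ + c * (size φ + 1) + j - (3 + 2 * size φ) =
        j + (size φ + 1) * c := by rw [mul_comm (size φ + 1) c]; omega
    have e1 : (yt (size φ) c j - (3 + 2 * size φ)) / (size φ + 1) = c := by
      rw [e, e0, Nat.add_mul_div_left _ _ (by omega), Nat.div_eq_of_lt (by omega), zero_add]
    have e2 : (yt (size φ) c j - (3 + 2 * size φ)) % (size φ + 1) = j := by
      rw [e, e0, Nat.add_mul_mod_self_left, Nat.mod_eq_of_lt (by omega)]
    unfold ty
    rw [if_neg (by rw [e]; omega), if_neg (by rw [e]; omega), if_neg (by rw [e]; omega),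
      if_neg (by rw [e]; omega), e1, e2, List.getD_eq_getElem _ _ hc]

theorem order_of_sat {φ : CNF} (h : Sat φ) : ∃ y : ℕ → ℝ,
    (∀ i < nt (size φ), ∀ j < nt (size φ), y i = y j → i = j) ∧ ∀ q ∈ quads φ, QSep y q := by
  obtain ⟨v, hv⟩ := h
  obtain ⟨y, inj, hy⟩ := perturb (ty φ v) (nt (size φ))
  refine ⟨y, inj, ?_⟩
  have key : ∀ a b c, [0, a, b, c] ∈ quads φ → -5 < ty φ v a → -5 < ty φ v b → -5 < ty φ v c →
      Btw (ty φ v b) (ty φ v a) (ty φ v c) → QSep y [0, a, b, c] := by
    intro a b c hq ha hb hc h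
    have h5 := quads_lt hq
    simp only [List.mem_cons, List.not_mem_nil, or_false] at h5
    have h0 : ty φ v 0 = -5 := by unfold ty; simp
    have a0 := h5 0 (by simp)
    have a1 := h5 a (by simp)
    have a2 := h5 b (by simp)
    have a3 := h5 c (by simp)
    have l1 := hy 0 a0 a a1 (by rw [h0]; exact ha)
    have l2 := hy 0 a0 b a2 (by rw [h0]; exact hb)
    have l3 := hy 0 a0 c a3 (by rw [h0]; exact hc)
    simp only [QSep, List.getD_cons_zero, List.getD_cons_succ]
    unfold Btw at h
    unfold Al Btw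
    rcases h with ⟨h, h'⟩ | ⟨h, h'⟩
    · have l4 := hy _ a1 _ a2 h
      have l5 := hy _ a2 _ a3 h'
      exact ⟨Or.inl (Or.inl ⟨l1, l4⟩), Or.inr (Or.inl ⟨l4, l5⟩)⟩
    · have l4 := hy _ a3 _ a2 h
      have l5 := hy _ a2 _ a1 h'
      exact ⟨Or.inr (Or.inl ⟨l3, l4⟩), Or.inr (Or.inr ⟨l4, l5⟩)⟩
  have e1 : ty φ v 1 = 0 := by unfold ty; simp
  have e2 : ty φ v 2 = -2 := by unfold ty; simp
  have yb : ∀ (b : Prop) [Decidable b], (-5 : ℝ) < if b then 1 else -1 := by
    intro b _; split_ifs <;> norm_num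
  intro q hq
  rcases mem_quads.1 hq with ⟨i, hi, rfl⟩ | ⟨c, hc, rfl | ⟨j, hj, rfl⟩⟩
  · have f1 : ty φ v (3 + 2 * i + 1) = if v i = true then 1 else -1 :=
      ty_vt (v := v) (l := (i, true)) hi
    have f2 : ty φ v (3 + 2 * i) = if v i = false then 1 else -1 :=
      ty_vt (v := v) (l := (i, false)) hi
    refine key _ _ _ hq (by rw [f1]; exact yb _) (by rw [e1]; norm_num) (by rw [f2]; exact yb _) ?_
    rw [f1, f2, e1]
    unfold Btw
    cases v i <;> norm_num
  · have f1 := ty_yt (v := v) hc le_rfl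
    refine key _ _ _ hq (by rw [f1]; have := ypos_gt (fun j => decide (v ((φ[c].getD j
      (0, false)).1) = (φ[c].getD j (0, false)).2)) φ[c].length; linarith) (by rw [e1]; norm_num)
      (by rw [e2]; norm_num) ?_
    rw [f1, e1, e2]
    right
    refine ⟨by norm_num, ypos_pos ?_⟩
    obtain ⟨l, hl, hl'⟩ := hv _ (List.getElem_mem hc)
    obtain ⟨i, hi, rfl⟩ := List.getElem_of_mem hl
    exact ⟨i, hi, by rw [List.getD_eq_getElem _ _ hi]; simpa using hl'⟩
  · have f1 := ty_yt (v := v) hc hj.le
    have f2 := ty_yt (v := v) hc (Nat.succ_le_of_lt hj)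
    have f3 : ty φ v (vt φ[c][j]) = _ :=
      ty_vt (v := v) (var_lt_size (List.getElem_mem hc) (List.getElem_mem hj))
    have g1 := ypos_gt (fun j => decide (v ((φ[c].getD j
      (0, false)).1) = (φ[c].getD j (0, false)).2)) j
    have g2 := ypos_gt (fun j => decide (v ((φ[c].getD j
      (0, false)).1) = (φ[c].getD j (0, false)).2)) (j + 1)
    refine key _ _ _ hq (by rw [f1]; linarith) (by rw [f2]; linarith) (by rw [f3]; exact yb _) ?_
    rw [f1, f2, f3]
    have := ypos_btw (fun j => decide (v ((φ[c].getD j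
      (0, false)).1) = (φ[c].getD j (0, false)).2)) j
    simp only [List.getD_eq_getElem _ _ hj, decide_eq_true_eq] at this
    exact this

theorem sat_iff {φ : CNF} : Sat φ ↔ ∃ y : ℕ → ℝ,
    (∀ i < nt (size φ), ∀ j < nt (size φ), y i = y j → i = j) ∧ ∀ q ∈ quads φ, QSep y q :=
  ⟨order_of_sat, fun ⟨y, h1, h2⟩ => sat_of_order y h1 h2⟩

theorem pt_quads : PT quads := by
  unfold quads yt vt
  fun_prop

end Pool.Agent.LP86
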