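import Mathlib
import Pool.Agent.Lib.helper10.NPGraph

/-!
Topological graphs and `k`-locally planar graphs (MP_32ee78).
-/

namespace Pool.Agent.LP86

open Pool.Agent.Cx

/-- `A` is a Jordan arc in the plane with end points `a` and `b`: the image of an injective
continuous map on `[0,1]` that sends `0` to `a` and `1` to `b`. -/
def IsJordanArc (A : Set ℂ) (a b : ℂ) : Prop :=
  ∃ γ : unitInterval → ℂ, Continuous γ ∧ Function.Injective γ ∧ γ 0 = a ∧ γ 1 = b ∧
    Set.range γ = A

/-- The sets `A` and `B` cross properly at the point `p`: in suitable local coordinates around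
`p` (a homeomorphism between open sets that sends `p` to `0`) they are the two coordinate axes. -/
def ProperCrossing (A B : Set ℂ) (p : ℂ) : Prop :=
  ∃ φ : OpenPartialHomeomorph ℂ ℂ, p ∈ φ.source ∧ φ p = 0 ∧
    (∀ z ∈ φ.source, z ∈ A ↔ (φ z).im = 0) ∧ (∀ z ∈ φ.source, z ∈ B ↔ (φ z).re = 0)

variable {V : Type}

/-- A topological graph: a drawing of the graph `G` in the plane `ℂ`. The vertices are distinct
points, each edge is a Jordan arc joining its end points and passing through no other vertex, any
two edges meet in finitely many points, and each of these is a shared end point or a proper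
crossing. -/
structure TopGraph (G : SimpleGraph V) where
  /-- the point of a vertex -/
  pos : V → ℂ
  /-- the arc of an edge (values at non-edges play no role) -/
  arc : Sym2 V → Set ℂ
  pos_inj : Function.Injective pos
  isArc : ∀ u v, G.Adj u v → IsJordanArc (arc s(u, v)) (pos u) (pos v)
  avoid : ∀ e ∈ G.edgeSet, ∀ w, pos w ∈ arc e → w ∈ e
  finite : ∀ e ∈ G.edgeSet, ∀ f ∈ G.edgeSet, e ≠ f → (arc e ∩ arc f).Finite
  proper : ∀ e ∈ G.edgeSet, ∀ f ∈ G.edgeSet, e ≠ f → ∀ p ∈ arc e ∩ arc f,
    (∃ w, w ∈ e ∧ w ∈ f ∧ p = pos w) ∨ ProperCrossing (arc e) (arc f) p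

/-- The edges `e` and `f` cross in the drawing: they have a common point that is not a shared
end point. -/
def TopGraph.Cross {G : SimpleGraph V} (D : TopGraph G) (e f : Sym2 V) : Prop :=
  ∃ p ∈ D.arc e ∩ D.arc f, ¬ ∃ w, w ∈ e ∧ w ∈ f ∧ p = D.pos w

/-- A topological graph is `k`-locally planar if no two edges of a path with at most `k` edges
cross. -/
def TopGraph.LocallyPlanar {G : SimpleGraph V} (D : TopGraph G) (k : ℕ) : Prop :=
  ∀ (u v : V) (P : G.Walk u v), P.IsPath → P.length ≤ k →
    ∀ e ∈ P.edges, ∀ f ∈ P.edges, e ≠ f → ¬ D.Cross e f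

/-- A graph is `k`-locally planar if it has a `k`-locally planar drawing. -/
def KLocallyPlanar (k : ℕ) (G : SimpleGraph V) : Prop :=
  ∃ D : TopGraph G, D.LocallyPlanar k

/-- The recognition problem for `k`-locally planar graphs, as a language of bit strings: the set
of (codes of) adjacency matrices of `k`-locally planar graphs. -/
def Recognition (k : ℕ) : Language :=
  Lang fun M : List (List Bool) => IsGraph M ∧ KLocallyPlanar k (graphOf M)

end Pool.Agent.LP86
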