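import Pool.Agent.LP86.Gad

/-!
From a circular order of the terminals to a drawing of the gadget graph.
-/

namespace Pool.Agent.LP86

open Cv Vx

/-- chunk in which a fan vertex is placed -/
def Jf (o : Bool) (a : ℕ) : ℕ := if a % 2 = 1 then a / 2 else if o then (a + 6) % 8 / 2 else a / 2

def num (R : ℕ → ℕ) (o : Bool) (a : ℕ) : ℕ := 2 * R (Jf o a) + (if a % 2 = 1 then 0 else 1)

def FE (a b : ℕ) : Prop := (a = 0 ∧ 1 ≤ b) ∨ (1 ≤ a ∧ b = a + 1)

def btwb (x a b : ℕ) : Bool := (Nat.blt a x && Nat.blt x b) || (Nat.blt b x && Nat.blt x a)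

def alb (a b c d : ℕ) : Bool := (btwb c a b || btwb d a b) && (btwb a c d || btwb b c d)

theorem btwb_iff (x a b : ℕ) : btwb x a b = true ↔ Btw x a b := by
  simp [btwb, Btw]

theorem alb_iff (a b c d : ℕ) : alb a b c d = true ↔ Al a b c d := by
  simp [alb, Al, btwb_iff]

def pats : List (List ℕ) := [[0,1,2,3],[3,0,1,2],[2,3,0,1],[1,2,3,0],[3,2,1,0],[2,1,0,3],[1,0,3,2],
  [0,3,2,1]]

def Rp (i j : ℕ) : ℕ := (pats.getD i []).getD j 0

/-- the edges of the fan -/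
def fes : List (ℕ × ℕ) := [(0,1),(0,2),(0,3),(0,4),(0,5),(0,6),(0,7),(1,2),(2,3),(3,4),(4,5),(5,6),(6,7)]

theorem mem_fes {a b : ℕ} (hb : b < 8) (h : FE a b) : (a, b) ∈ fes := by
  unfold FE at h
  rcases h with ⟨rfl, h⟩ | ⟨h, rfl⟩
  · interval_cases b <;> simp [fes]
  · have : a < 7 := by omega
    interval_cases a <;> simp [fes]

theorem pats_ok' : ((List.range 8).all fun i => fes.all fun e => fes.all fun f =>
    !(alb (num (Rp i) (Nat.blt i 4) e.1) (num (Rp i) (Nat.blt i 4) e.2)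
      (num (Rp i) (Nat.blt i 4) f.1) (num (Rp i) (Nat.blt i 4) f.2))) = true := by
  decide +kernel

theorem pats_ok : ∀ i < 8, ∀ a < 8, ∀ b < 8, FE a b → ∀ c < 8, ∀ d < 8, FE c d →
    ¬ Al (num (Rp i) (Nat.blt i 4) a) (num (Rp i) (Nat.blt i 4) b)
      (num (Rp i) (Nat.blt i 4) c) (num (Rp i) (Nat.blt i 4) d) := by
  intro i hi a _ b hb hab c _ d hd hcd h
  have h1 := pats_ok'
  simp only [List.all_eq_true, List.mem_range] at h1
  have h2 := h1 i hi _ (mem_fes hb hab) _ (mem_fes hd hcd)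
  rw [← alb_iff] at h
  simp [h] at h2

theorem pattern (R : ℕ → ℕ) (h : Al (R 0) (R 2) (R 1) (R 3)) :
    ∃ i < 8, ∀ j < 4, ∀ j' < 4, R j < R j' ↔ Rp i j < Rp i j' := by
  have e : ∀ i < 8, (∀ j < 4, ∀ j' < 4, j < j' → (R j < R j' ↔ Rp i j < Rp i j') ∧
      (R j' < R j ↔ Rp i j' < Rp i j)) → ∃ i < 8, ∀ j < 4, ∀ j' < 4, R j < R j' ↔ Rp i j < Rp i j' := by
    intro i hi h
    refine ⟨i, hi, fun j hj j' hj' => ?_⟩
    rcases lt_trichotomy j j' with h1 | rfl | h1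
    · exact (h j hj j' hj' h1).1
    · simp
    · exact (h j' hj' j hj h1).2
  have h' : (R 0 < R 1 ∧ R 1 < R 2 ∧ R 2 < R 3) ∨ (R 1 < R 2 ∧ R 2 < R 3 ∧ R 3 < R 0) ∨
      (R 2 < R 3 ∧ R 3 < R 0 ∧ R 0 < R 1) ∨
      (R 3 < R 0 ∧ R 0 < R 1 ∧ R 1 < R 2) ∨ (R 3 < R 2 ∧ R 2 < R 1 ∧ R 1 < R 0) ∨
      (R 2 < R 1 ∧ R 1 < R 0 ∧ R 0 < R 3) ∨
      (R 1 < R 0 ∧ R 0 < R 3 ∧ R 3 < R 2) ∨ (R 0 < R 3 ∧ R 3 < R 2 ∧ R 2 < R 1) := by
    unfold Al Btw at h; omega
  rcases h' with h' | h' | h' | h' | h' | h' | h' | h'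
  · refine e 0 (by norm_num) fun j hj j' hj' hjj => ?_
    interval_cases j <;> interval_cases j' <;> simp [Rp, pats] at hjj ⊢ <;> omega
  · refine e 1 (by norm_num) fun j hj j' hj' hjj => ?_
    interval_cases j <;> interval_cases j' <;> simp [Rp, pats] at hjj ⊢ <;> omega
  · refine e 2 (by norm_num) fun j hj j' hj' hjj => ?_
    interval_cases j <;> interval_cases j' <;> simp [Rp, pats] at hjj ⊢ <;> omega
  · refine e 3 (by norm_num) fun j hj j' hj' hjj => ?_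
    interval_cases j <;> interval_cases j' <;> simp [Rp, pats] at hjj ⊢ <;> omega
  · refine e 4 (by norm_num) fun j hj j' hj' hjj => ?_
    interval_cases j <;> interval_cases j' <;> simp [Rp, pats] at hjj ⊢ <;> omega
  · refine e 5 (by norm_num) fun j hj j' hj' hjj => ?_
    interval_cases j <;> interval_cases j' <;> simp [Rp, pats] at hjj ⊢ <;> omega
  · refine e 6 (by norm_num) fun j hj j' hj' hjj => ?_
    interval_cases j <;> interval_cases j' <;> simp [Rp, pats] at hjj ⊢ <;> omega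
  · refine e 7 (by norm_num) fun j hj j' hj' hjj => ?_
    interval_cases j <;> interval_cases j' <;> simp [Rp, pats] at hjj ⊢ <;> omega

theorem Jf_lt (o : Bool) {a : ℕ} (ha : a < 8) : Jf o a < 4 := by
  unfold Jf; split_ifs <;> omega

theorem fan_noal (R : ℕ → ℕ) (h : Al (R 0) (R 2) (R 1) (R 3)) :
    ∃ o : Bool, ∀ a < 8, ∀ b < 8, FE a b → ∀ c < 8, ∀ d < 8, FE c d →
      ¬ Al (num R o a) (num R o b) (num R o c) (num R o d) := by
  obtain ⟨i, hi, hR⟩ := pattern R h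
  refine ⟨Nat.blt i 4, fun a ha b hb hab c hc d hd hcd hal => ?_⟩
  refine pats_ok i hi a ha b hb hab c hc d hd hcd ?_
  set o := Nat.blt i 4
  have key : ∀ x < 8, ∀ y < 8, num R o x < num R o y ↔ num (Rp i) o x < num (Rp i) o y := by
    intro x hx y hy
    have h1 := hR (Jf o x) (Jf_lt o hx) (Jf o y) (Jf_lt o hy)
    have h2 := hR (Jf o y) (Jf_lt o hy) (Jf o x) (Jf_lt o hx)
    unfold num
    split_ifs <;> omega
  unfold Al Btw at hal ⊢
  rw [key a ha c hc, key c hc b hb, key b hb c hc, key c hc a ha, key a ha d hd, key d hd b hb,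
    key b hb d hd, key d hd a ha] at hal
  exact hal

theorem al_distinct {α : Type*} [LinearOrder α] {a b c d : α} (h : Al a b c d) :
    a ≠ b ∧ a ≠ c ∧ a ≠ d ∧ b ≠ c ∧ b ≠ d ∧ c ≠ d := by
  unfold Al Btw at h
  grind

end Pool.Agent.LP86
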