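import Pool.Agent.LP86.Win

/-!
Short straight-line programs for the word of a sequence.
-/

namespace Pool.Agent.LP86

def flp (a : Lt) : Lt := (a.1, a.2.2, a.2.1)

def inv (w : List Lt) : List Lt := (w.map flp).reverse

theorem inv_inv (w : List Lt) : inv (inv w) = w := by
  simp only [inv, List.map_reverse, List.reverse_reverse, List.map_map]
  have : flp ∘ flp = id := by funext a; rfl
  rw [this, List.map_id]

theorem inv_append (u v : List Lt) : inv (u ++ v) = inv v ++ inv u := by simp [inv]

/-- words with a derivation of bounded depth inside a list of words -/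
inductive Dp (l : List (List Lt)) : ℕ → List Lt → Prop
  | one (d : ℕ) (a : Lt) : [a] ∈ l → Dp l d [a]
  | cat (d : ℕ) (u v : List Lt) : u ++ v ∈ l → Dp l d u → Dp l d v → Dp l (d + 1) (u ++ v)

theorem Dp.mono {l l' : List (List Lt)} (hl : ∀ w ∈ l, w ∈ l') {d d' : ℕ} (hd : d ≤ d')
    {w : List Lt} (h : Dp l d w) : Dp l' d' w := by
  induction h generalizing d' with
  | one d a ha => exact Dp.one _ _ (hl _ ha)
  | cat d u v huv hu hv ihu ihv =>
    obtain ⟨d', rfl⟩ : ∃ e, d' = e + 1 := ⟨d' - 1, by omega⟩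
    exact Dp.cat _ _ _ (hl _ huv) (ihu (by omega)) (ihv (by omega))

theorem Dp.mem {l : List (List Lt)} {d : ℕ} {w : List Lt} (h : Dp l d w) : w ∈ l := by
  cases h <;> assumption

/-- a straight-line program closed under inversion, all words of which satisfy `Q` -/
structure Bank (Q : List Lt → Prop) (l : List (List Lt)) : Prop where
  slp : ∀ (k : ℕ) (w : List Lt), l[k]? = some w → (∃ a, w = [a]) ∨
    ∃ (i j : ℕ) (u v : List Lt), i < k ∧ j < k ∧ l[i]? = some u ∧ l[j]? = some v ∧ w = u ++ v
  inv : ∀ w ∈ l, inv w ∈ l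
  prop : ∀ w ∈ l, Q w

variable {Q : List Lt → Prop} {l : List (List Lt)}

theorem Dp.inv (B : Bank Q l) {d : ℕ} {w : List Lt} (h : Dp l d w) : Dp l d (inv w) := by
  induction h with
  | one d a ha => exact Dp.one _ _ (B.inv _ ha)
  | cat d u v huv hu hv ihu ihv =>
    rw [inv_append]
    exact Dp.cat _ _ _ (by rw [← inv_append]; exact B.inv _ huv) ihv ihu

theorem Bank.add (B : Bank Q l) (hQi : ∀ w, Q w → Q (LP86.inv w)) {u v : List Lt} (hu : u ∈ l)
    (hv : v ∈ l) (hQ : Q (u ++ v)) : ∃ t : List (List Lt), t.length ≤ 2 ∧ Bank Q (l ++ t) ∧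
      u ++ v ∈ l ++ t := by
  refine ⟨[u ++ v, LP86.inv (u ++ v)], by simp, ⟨?_, ?_, ?_⟩, by simp⟩
  · intro k w hk
    obtain ⟨i, hi⟩ := List.mem_iff_getElem?.1 hu
    obtain ⟨j, hj⟩ := List.mem_iff_getElem?.1 hv
    obtain ⟨i', hi'⟩ := List.mem_iff_getElem?.1 (B.inv _ hu)
    obtain ⟨j', hj'⟩ := List.mem_iff_getElem?.1 (B.inv _ hv)
    have lt : ∀ {i : ℕ} {w : List Lt}, l[i]? = some w → i < l.length := fun h =>
      (List.getElem?_eq_some_iff.1 h).1
    have lift : ∀ {i : ℕ} {w : List Lt}, l[i]? = some w →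
        (l ++ [u ++ v, LP86.inv (u ++ v)])[i]? = some w := fun h => by
      rw [List.getElem?_append_left (lt h)]; exact h
    rcases Nat.lt_or_ge k l.length with h | h
    · rw [List.getElem?_append_left h] at hk
      rcases B.slp k w hk with h1 | ⟨a, b, x, y, h1, h2, h3, h4, h5⟩
      · exact Or.inl h1
      · exact Or.inr ⟨a, b, x, y, h1, h2, lift h3, lift h4, h5⟩
    · rw [List.getElem?_append_right h] at hk
      right
      rcases Nat.eq_zero_or_pos (k - l.length) with h0 | h0
      · rw [h0] at hk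
        have : u ++ v = w := by simpa using hk
        exact ⟨i, j, u, v, (lt hi).trans_le h, (lt hj).trans_le h, lift hi, lift hj, this.symm⟩
      · rcases Nat.lt_or_ge (k - l.length) 2 with h1 | h1
        · have h2 : k - l.length = 1 := by omega
          rw [h2] at hk
          have : LP86.inv (u ++ v) = w := by simpa using hk
          exact ⟨j', i', LP86.inv v, LP86.inv u, (lt hj').trans_le h, (lt hi').trans_le h, lift hj',
            lift hi', by rw [← this, inv_append]⟩
        · rw [List.getElem?_eq_none (by simpa using h1)] at hk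
          exact absurd hk (by simp)
  · intro w hw
    rw [List.mem_append] at hw ⊢
    rcases hw with hw | hw
    · exact Or.inl (B.inv w hw)
    · right
      simp only [List.mem_cons, List.not_mem_nil, or_false] at hw ⊢
      rcases hw with rfl | rfl
      · exact Or.inr rfl
      · left; rw [inv_inv]
  · intro w hw
    rw [List.mem_append] at hw
    rcases hw with hw | hw
    · exact B.prop w hw
    · simp only [List.mem_cons, List.not_mem_nil, or_false] at hw
      rcases hw with rfl | rfl
      · exact hQ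
      · exact hQi _ hQ

theorem Bank.take (hQi : ∀ w, Q w → Q (LP86.inv w)) (hQt : ∀ w t, Q w → 0 < t → Q (w.take t))
    {d : ℕ} {w : List Lt} (h : Dp l d w) : Bank Q l → ∀ t, 0 < t →
    ∃ e : List (List Lt), e.length ≤ 2 * d ∧ Bank Q (l ++ e) ∧ Dp (l ++ e) d (w.take t) := by
  induction h with
  | one d a ha =>
    intro B t ht
    refine ⟨[], by simp, by simpa using B, ?_⟩
    obtain ⟨t, rfl⟩ := Nat.exists_eq_succ_of_ne_zero ht.ne'
    simpa using Dp.one d a ha
  | cat d u v huv hu hv ihu ihv =>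
    intro B t ht
    rcases Nat.lt_or_ge u.length t with h | h
    · obtain ⟨e, he, B', hD⟩ := ihv B (t - u.length) (by omega)
      have htk : (u ++ v).take t = u ++ v.take (t - u.length) := by
        rw [List.take_append, List.take_of_length_le h.le]
      have hQ : Q (u ++ v.take (t - u.length)) := by
        rw [← htk]; exact hQt _ _ (B.prop _ huv) ht
      obtain ⟨e', he', B'', hm⟩ := B'.add hQi (u := u) (v := v.take (t - u.length))
        (List.mem_append_left _ hu.mem) hD.mem hQ
      refine ⟨e ++ e', by rw [List.length_append]; omega, by rw [← List.append_assoc]; exact B'', ?_⟩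
      rw [htk, ← List.append_assoc]
      refine Dp.cat _ _ _ hm (hu.mono (fun w hw => ?_) le_rfl) (hD.mono (fun w hw => ?_) le_rfl)
      · exact List.mem_append_left _ (List.mem_append_left _ hw)
      · exact List.mem_append_left _ hw
    · obtain ⟨e, he, B', hD⟩ := ihu B t ht
      refine ⟨e, by omega, B', ?_⟩
      rw [List.take_append_of_le_length h]
      exact hD.mono (fun w hw => hw) (by omega)

variable {Λ : Type} [LinearOrder Λ] {pl : Λ → ℕ} {n : ℕ} {s : Sq Λ}

/-- factors -/
def fac (pl : Λ → ℕ) (s : Sq Λ) (b : Bool) (k l : ℕ) : List Lt :=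
  (List.range l).map fun a => Lr pl s b (k + a)

theorem fac_append (b : Bool) (k l l' : ℕ) :
    fac pl s b k l ++ fac pl s b (k + l) l' = fac pl s b k (l + l') := by
  unfold fac
  rw [List.range_add, List.map_append, List.map_map]
  congr 1
  refine List.map_congr_left fun a _ => ?_
  simp [add_assoc]

theorem fac_take (b : Bool) (k l t : ℕ) (h : t ≤ l) :
    (fac pl s b k l).take t = fac pl s b k t := by
  unfold fac
  rw [← List.map_take, List.take_range, min_eq_left h]

theorem fac_length (b : Bool) (k l : ℕ) : (fac pl s b k l).length = l := by simp [fac]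

theorem Lr_flip (b : Bool) {k : ℕ} (hk : k < s.m) :
    flp (Lr pl s b k) = Lr pl s (!b) (s.m - 1 - k) := by
  simp only [flp, Lr]
  rw [Pg_flip s b (by omega), Ps_flip s b (by omega), Ps_flip s b (by omega),
    show s.m - 1 - (s.m - 1 - k) = k by omega, show s.m - (s.m - 1 - k) = k + 1 by omega,
    show s.m - (s.m - 1 - k + 1) = k by omega]

theorem fac_inv (b : Bool) {k l : ℕ} (h : k + l ≤ s.m) :
    inv (fac pl s b k l) = fac pl s (!b) (s.m - (k + l)) l := by
  refine List.ext_getElem (by simp [inv, fac]) fun i h1 h2 => ?_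
  have hi : i < l := by simpa [fac] using h2
  simp only [inv, fac, List.map_map, List.getElem_reverse, List.getElem_map, List.length_map,
    List.length_range, List.getElem_range, Function.comp]
  rw [Lr_flip b (by omega)]
  congr 1
  omega

theorem fac_congr {b b' : Bool} {k k' l : ℕ} (h : ∀ a < l, Lr pl s b (k + a) = Lr pl s b' (k' + a)) :
    fac pl s b k l = fac pl s b' k' l := by
  unfold fac
  exact List.map_congr_left fun a ha => h a (List.mem_range.1 ha)

/-- the property of words: being a factor -/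
def Fc (pl : Λ → ℕ) (s : Sq Λ) (w : List Lt) : Prop :=
  ∃ b k l, 0 < l ∧ k + l ≤ s.m ∧ w = fac pl s b k l

theorem Fc.inv {w : List Lt} (h : Fc pl s w) : Fc pl s (inv w) := by
  obtain ⟨b, k, l, h0, h1, rfl⟩ := h
  exact ⟨!b, s.m - (k + l), l, h0, by omega, fac_inv b h1⟩

theorem Fc.take {w : List Lt} (t : ℕ) (h : Fc pl s w) (ht : 0 < t) : Fc pl s (w.take t) := by
  obtain ⟨b, k, l, h0, h1, rfl⟩ := h
  rcases Nat.lt_or_ge t l with h | h
  · exact ⟨b, k, t, ht, by omega, fac_take b k l t h.le⟩
  · refine ⟨b, k, l, h0, h1, ?_⟩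
    rw [List.take_of_length_le (by rw [fac_length]; exact h)]

theorem FcI (w : List Lt) (h : Fc pl s w) : Fc pl s (LP86.inv w) := h.inv

theorem FcT (w : List Lt) (t : ℕ) (h : Fc pl s w) (ht : 0 < t) : Fc pl s (w.take t) := Fc.take t h ht

/-- one doubling step for one critical node -/
theorem Gs.double (h : Gs pl n s) {C : Finset (Bool × ℕ)}
    (hC : ∀ b k, Crit pl s b k → (b, k) ∈ C ∧ (!b, s.m - k) ∈ C) {L : ℕ} (hL : 0 < L) {d : ℕ}
    (hS : ∀ b k, (b, k) ∈ C → k < s.m → Dp l d (fac pl s b k (min L (s.m - k))))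
    (B : Bank (Fc pl s) l) {b : Bool} {k : ℕ} (hbk : (b, k) ∈ C) (hk : k < s.m) :
    ∃ e : List (List Lt), e.length ≤ 4 * d + 8 ∧ Bank (Fc pl s) (l ++ e) ∧
      Dp (l ++ e) (d + 2) (fac pl s b k (min (2 * L) (s.m - k))) := by
  rcases Nat.lt_or_ge L (s.m - k) with hlt | hge
  · set l0 := min L (s.m - k - L) with hl0
    have hl0' : 0 < l0 := by omega
    have e0 : min (2 * L) (s.m - k) = L + l0 := by omega
    obtain ⟨b', k', t, ht, hk', hcr, hw⟩ := h.window (b := b) (k := k + L) (l := l0) hl0' (by omega)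
    obtain ⟨c1, c2⟩ := hC _ _ hcr
    have hlt' : k' + t < s.m := hcr.1
    -- forward part
    obtain ⟨e1, n1, B1, D1⟩ := Bank.take FcI FcT
      (hS _ _ c1 hlt') B (l0 - t) (by omega)
    rw [fac_take _ _ _ _ (by omega)] at D1
    -- backward part
    have hback : ∃ e2 : List (List Lt), e2.length ≤ 2 * d + 2 ∧
        Bank (Fc pl s) (l ++ e1 ++ e2) ∧ Dp (l ++ e1 ++ e2) (d + 1) (fac pl s b' k' l0) := by
      rcases Nat.eq_zero_or_pos t with rfl | ht0
      · refine ⟨[], by simp, by simpa using B1, ?_⟩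
        simpa using D1.mono (fun w hw => hw) (Nat.le_succ d)
      · have D2 := (hS _ _ c2 (by omega)).mono (fun w hw => List.mem_append_left e1 hw) le_rfl
        obtain ⟨e2, n2, B2, D3⟩ := Bank.take FcI FcT
          D2 B1 t ht0
        rw [fac_take _ _ _ _ (by omega)] at D3
        have D4 := Dp.inv B2 D3
        rw [fac_inv _ (by omega), Bool.not_not, show s.m - (s.m - (k' + t) + t) = k' by omega] at D4
        have D5 := D1.mono (fun w hw => List.mem_append_left e2 hw) le_rfl
        have hcat : fac pl s b' k' t ++ fac pl s b' (k' + t) (l0 - t) = fac pl s b' k' l0 := by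
          rw [fac_append, show t + (l0 - t) = l0 by omega]
        obtain ⟨e3, n3, B3, m3⟩ := B2.add FcI D4.mem D5.mem
          (by rw [hcat]; exact ⟨b', k', l0, hl0', by omega, rfl⟩)
        refine ⟨e2 ++ e3, by rw [List.length_append]; omega, by rw [← List.append_assoc]; exact B3, ?_⟩
        rw [← hcat, ← List.append_assoc]
        exact Dp.cat _ _ _ m3 (D4.mono (fun w hw => List.mem_append_left e3 hw) le_rfl)
          (D5.mono (fun w hw => List.mem_append_left e3 hw) le_rfl)
    obtain ⟨e2, n2, B2, D2⟩ := hback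
    rw [← fac_congr hw] at D2
    have D3 := (hS _ _ hbk hk).mono (fun w hw => List.mem_append_left e2
      (List.mem_append_left e1 hw)) (Nat.le_succ d)
    rw [min_eq_left hlt.le] at D3
    have hcat : fac pl s b k L ++ fac pl s b (k + L) l0 = fac pl s b k (L + l0) := fac_append _ _ _ _
    obtain ⟨e3, n3, B3, m3⟩ := B2.add FcI D3.mem D2.mem
      (by rw [hcat]; exact ⟨b, k, L + l0, by omega, by omega, rfl⟩)
    refine ⟨e1 ++ e2 ++ e3, by simp only [List.length_append]; omega,
      by rw [← List.append_assoc, ← List.append_assoc]; exact B3, ?_⟩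
    rw [e0, ← hcat, ← List.append_assoc, ← List.append_assoc]
    exact Dp.cat _ _ _ m3 (D3.mono (fun w hw => List.mem_append_left e3 hw) le_rfl)
      (D2.mono (fun w hw => List.mem_append_left e3 hw) le_rfl)
  · refine ⟨[], by simp, by simpa using B, ?_⟩
    have := hS _ _ hbk hk
    rw [min_eq_right hge] at this
    rw [min_eq_right (by omega)]
    exact this.mono (fun w hw => by simpa using hw) (by omega)

/-- one doubling step -/
theorem Gs.level (h : Gs pl n s) {C : Finset (Bool × ℕ)}
    (hC : ∀ b k, Crit pl s b k → (b, k) ∈ C ∧ (!b, s.m - k) ∈ C) {L : ℕ} (hL : 0 < L) {d : ℕ}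
    (hS : ∀ b k, (b, k) ∈ C → k < s.m → Dp l d (fac pl s b k (min L (s.m - k))))
    (B : Bank (Fc pl s) l) :
    ∃ l' : List (List Lt), l'.length ≤ l.length + C.card * (4 * d + 8) ∧ Bank (Fc pl s) l' ∧
      ∀ b k, (b, k) ∈ C → k < s.m → Dp l' (d + 2) (fac pl s b k (min (2 * L) (s.m - k))) := by
  classical
  -- treat the nodes one by one
  have key : ∀ C' : Finset (Bool × ℕ), C' ⊆ C → ∃ e : List (List Lt),
      e.length ≤ C'.card * (4 * d + 8) ∧ Bank (Fc pl s) (l ++ e) ∧
      ∀ b k, (b, k) ∈ C' → k < s.m →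
        Dp (l ++ e) (d + 2) (fac pl s b k (min (2 * L) (s.m - k))) := by
    intro C'
    induction C' using Finset.induction_on with
    | empty => intro _; exact ⟨[], by simp, by simpa using B, by simp⟩
    | insert x C' hx ih =>
      intro hsub
      obtain ⟨e, he, B', hD⟩ := ih (fun y hy => hsub (Finset.mem_insert_of_mem hy))
      obtain ⟨b, k⟩ := x
      rw [Finset.card_insert_of_notMem hx]
      by_cases hk : k < s.m
      · obtain ⟨e', he', B'', hD'⟩ := h.double hC hL (l := l ++ e)
          (fun b k hb hk => (hS b k hb hk).mono (fun w hw => List.mem_append_left _ hw) le_rfl) B'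
          (hsub (Finset.mem_insert_self _ _)) hk
        refine ⟨e ++ e', ?_, by rw [← List.append_assoc]; exact B'', ?_⟩
        · rw [List.length_append, add_mul, one_mul]; omega
        · intro b1 k1 hb hk1
          rw [← List.append_assoc]
          rcases Finset.mem_insert.1 hb with heq | hb
          · rw [Prod.mk.injEq] at heq
            rw [heq.1, heq.2]; exact hD'
          · exact (hD b1 k1 hb hk1).mono (fun w hw => List.mem_append_left _ hw) le_rfl
      · refine ⟨e, by rw [add_mul, one_mul]; omega, B', ?_⟩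
        intro b1 k1 hb hk1
        rcases Finset.mem_insert.1 hb with heq | hb
        · rw [Prod.mk.injEq] at heq
          exact absurd (heq.2 ▸ hk1) hk
        · exact hD b1 k1 hb hk1
  obtain ⟨e, he, B', hD⟩ := key C subset_rfl
  exact ⟨l ++ e, by rw [List.length_append]; omega, B', hD⟩

theorem Lr_bound (h : Gs pl n s) (b : Bool) (k : ℕ) :
    Lr pl s b k ∈ (Finset.univ : Finset Bool) ×ˢ (Finset.range n ×ˢ Finset.range n) := by
  simp only [Lr, Finset.mem_product, Finset.mem_univ, Finset.mem_range, true_and]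
  exact ⟨h.lt _, h.lt _⟩

/-- the critical nodes and the start, closed under reversal -/
theorem Gs.exists_C (h : Gs pl n s) : ∃ C : Finset (Bool × ℕ),
    (∀ b k, Crit pl s b k → (b, k) ∈ C ∧ (!b, s.m - k) ∈ C) ∧ (false, 0) ∈ C ∧
      C.card ≤ 8 * n ^ 2 + 1 := by
  classical
  set U : Finset (Bool × ℕ) := Finset.univ ×ˢ Finset.range s.m with hU
  set A : Finset (Bool × ℕ) := U.filter fun x =>
    ∀ b' k', k' < s.m → Lr pl s b' k' = Lr pl s x.1 x.2 → Ps s x.1 x.2 ≤ Ps s b' k' with hA
  set A' : Finset (Bool × ℕ) := U.filter fun x =>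
    ∀ b' k', k' < s.m → Lr pl s b' k' = Lr pl s x.1 x.2 → Ps s b' k' ≤ Ps s x.1 x.2 with hA'
  have hcardT : ((Finset.univ : Finset Bool) ×ˢ (Finset.range n ×ˢ Finset.range n)).card =
      2 * n ^ 2 := by simp [sq]
  have cA : A.card ≤ 2 * n ^ 2 := by
    rw [← hcardT]
    refine Finset.card_le_card_of_injOn (fun x => Lr pl s x.1 x.2) (fun x _ => Lr_bound h _ _) ?_
    rintro ⟨b, k⟩ hx ⟨b', k'⟩ hx' he
    simp only [hA, hU, Finset.coe_filter, Finset.mem_product, Finset.mem_univ, Finset.mem_range,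
      true_and, Set.mem_ofPred_eq] at hx hx' he
    have hp := le_antisymm (hx.2 b' k' hx'.1 he.symm) (hx'.2 b k hx.1 he)
    obtain ⟨rfl, rfl⟩ := h.det hx.1 hx'.1 hp (congrArg (fun x : Lt => x.1) he)
    rfl
  have cA' : A'.card ≤ 2 * n ^ 2 := by
    rw [← hcardT]
    refine Finset.card_le_card_of_injOn (fun x => Lr pl s x.1 x.2) (fun x _ => Lr_bound h _ _) ?_
    rintro ⟨b, k⟩ hx ⟨b', k'⟩ hx' he
    simp only [hA', hU, Finset.coe_filter, Finset.mem_product, Finset.mem_univ, Finset.mem_range,
      true_and, Set.mem_ofPred_eq] at hx hx' he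
    have hp := le_antisymm (hx'.2 b k hx.1 he) (hx.2 b' k' hx'.1 he.symm)
    obtain ⟨rfl, rfl⟩ := h.det hx.1 hx'.1 hp (congrArg (fun x : Lt => x.1) he)
    rfl
  refine ⟨insert (false, 0) ((A ∪ A') ∪ (A ∪ A').image fun x => (!x.1, s.m - x.2)), ?_,
    Finset.mem_insert_self _ _, ?_⟩
  · intro b k hcr
    have hin : (b, k) ∈ A ∪ A' := by
      rw [Finset.mem_union]
      rcases hcr.2 with h1 | h1
      · left
        simp only [hA, hU, Finset.mem_filter, Finset.mem_product, Finset.mem_univ, Finset.mem_range,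
          true_and]
        exact ⟨hcr.1, h1⟩
      · right
        simp only [hA', hU, Finset.mem_filter, Finset.mem_product, Finset.mem_univ,
          Finset.mem_range, true_and]
        exact ⟨hcr.1, h1⟩
    exact ⟨Finset.mem_insert_of_mem (Finset.mem_union_left _ hin),
      Finset.mem_insert_of_mem (Finset.mem_union_right _ (Finset.mem_image.2 ⟨(b, k), hin, rfl⟩))⟩
  · refine (Finset.card_insert_le _ _).trans ?_
    have h1 := Finset.card_union_le (A ∪ A') ((A ∪ A').image fun x => (!x.1, s.m - x.2))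
    have h2 := Finset.card_union_le A A'
    have h3 := Finset.card_image_le (s := A ∪ A') (f := fun x : Bool × ℕ => (!x.1, s.m - x.2))
    omega

/-- the word of a good sequence has a short straight-line program -/
theorem Gs.exists_slp (h : Gs pl n s) {N : ℕ} (hN : s.m ≤ 2 ^ N) : ∃ l : List (List Lt),
    Bank (Fc pl s) l ∧ fac pl s false 0 s.m ∈ l ∧
      l.length ≤ 2 * n ^ 2 + N * ((8 * n ^ 2 + 1) * (8 * N + 8)) := by
  classical
  obtain ⟨C, hC, hC0, hCc⟩ := h.exists_C
  -- the letters
  set A : Finset Lt := ((Finset.univ : Finset Bool) ×ˢ Finset.range s.m).image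
    fun x => Lr pl s x.1 x.2 with hA
  have hAm : ∀ b k, k < s.m → Lr pl s b k ∈ A := fun b k hk =>
    Finset.mem_image.2 ⟨(b, k), by simp [hk], rfl⟩
  have hAc : A.card ≤ 2 * n ^ 2 := by
    have hcardT : ((Finset.univ : Finset Bool) ×ˢ (Finset.range n ×ˢ Finset.range n)).card =
      2 * n ^ 2 := by simp [sq]
    rw [← hcardT]
    refine Finset.card_le_card fun a ha => ?_
    obtain ⟨x, -, rfl⟩ := Finset.mem_image.1 ha
    exact Lr_bound h _ _
  set l0 : List (List Lt) := A.toList.map fun a => [a] with hl0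
  have hmem0 : ∀ w, w ∈ l0 ↔ ∃ b k, k < s.m ∧ w = [Lr pl s b k] := by
    intro w
    simp only [hl0, List.mem_map, Finset.mem_toList]
    constructor
    · rintro ⟨a, ha, rfl⟩
      obtain ⟨⟨b, k⟩, hx, rfl⟩ := Finset.mem_image.1 ha
      exact ⟨b, k, by simpa using hx, rfl⟩
    · rintro ⟨b, k, hk, rfl⟩
      exact ⟨_, hAm b k hk, rfl⟩
  have B0 : Bank (Fc pl s) l0 := by
    refine ⟨fun k w hw => ?_, fun w hw => ?_, fun w hw => ?_⟩
    · left
      have := List.mem_of_getElem? hw
      obtain ⟨b, k, -, rfl⟩ := (hmem0 w).1 this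
      exact ⟨_, rfl⟩
    · obtain ⟨b, k, hk, rfl⟩ := (hmem0 w).1 hw
      refine (hmem0 _).2 ⟨!b, s.m - 1 - k, by omega, ?_⟩
      simp only [LP86.inv, List.map_cons, List.map_nil, List.reverse_cons, List.reverse_nil,
        List.nil_append]
      rw [Lr_flip b hk]
    · obtain ⟨b, k, hk, rfl⟩ := (hmem0 w).1 hw
      exact ⟨b, k, 1, one_pos, hk, by simp [fac]⟩
  have main : ∀ j, ∃ l : List (List Lt), Bank (Fc pl s) l ∧
      l.length ≤ 2 * n ^ 2 + j * ((8 * n ^ 2 + 1) * (8 * j + 8)) ∧
      ∀ b k, (b, k) ∈ C → k < s.m → Dp l (2 * j) (fac pl s b k (min (2 ^ j) (s.m - k))) := by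
    intro j
    induction j with
    | zero =>
      refine ⟨l0, B0, by simp [hl0, hAc], fun b k _ hk => ?_⟩
      have : min (2 ^ 0) (s.m - k) = 1 := by simp; omega
      rw [this]
      have e : fac pl s b k 1 = [Lr pl s b k] := by simp [fac]
      rw [e]
      exact Dp.one _ _ ((hmem0 _).2 ⟨b, k, hk, rfl⟩)
    | succ j ih =>
      obtain ⟨l, B, hlen, hD⟩ := ih
      obtain ⟨l', hlen', B', hD'⟩ := h.level hC (pow_pos two_pos j) hD B
      refine ⟨l', B', ?_, fun b k hb hk => ?_⟩
      · have h1 : C.card * (4 * (2 * j) + 8) ≤ (8 * n ^ 2 + 1) * (8 * j + 8) :=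
          Nat.mul_le_mul hCc (by omega)
        have h2 : (8 * n ^ 2 + 1) * (8 * j + 8) ≤ (8 * n ^ 2 + 1) * (8 * (j + 1) + 8) :=
          Nat.mul_le_mul_left _ (by omega)
        have h3 : j * ((8 * n ^ 2 + 1) * (8 * j + 8)) ≤ j * ((8 * n ^ 2 + 1) * (8 * (j + 1) + 8)) :=
          Nat.mul_le_mul_left _ h2
        rw [add_mul, one_mul]
        omega
      · have := hD' b k hb hk
        rw [pow_succ, mul_comm (2 ^ j) 2]
        exact this
  obtain ⟨l, B, hlen, hD⟩ := main N
  refine ⟨l, B, ?_, hlen⟩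
  have := (hD false 0 hC0 h.mpos).mem
  rwa [Nat.sub_zero, min_eq_right hN] at this

end Pool.Agent.LP86
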