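import Pool.Agent.LP86.Cert2
import Pool.Agent.LP86.Slp

/-!
Full tables: arcs of one letter form one band; domains of words are intervals.
-/

namespace Pool.Agent.LP86

/-- tables with nodes `0, ..., N - 1` in which each node in an even place has arcs on both pages
and each odd place has at most two nodes -/
structure Full (T : Tab) (n N : ℕ) : Prop where
  lt : ∀ z, T.pl z < n
  mem : ∀ P x y, T.Arc P x y → 0 ≤ x ∧ x < N
  full : ∀ x : ℤ, 0 ≤ x → x < N → Even (T.pl x) → ∀ P, ∃ y, T.Arc P x y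
  odd : ∀ x u v : ℤ, 0 ≤ x → x < u → u < v → v < N → T.pl x = T.pl v → Even (T.pl x)

/-- arcs of a letter -/
def La (T : Tab) (a : Lt) (x y : ℤ) : Prop := T.Arc a.1 x y ∧ T.pl x = a.2.1 ∧ T.pl y = a.2.2

theorem La.flp {T : Tab} {a : Lt} {x y : ℤ} (h : La T a x y) : La T (LP86.flp a) y x :=
  ⟨T.symm _ _ _ h.1, h.2.2, h.2.1⟩

variable {T : Tab} {n N : ℕ}

theorem Full.conv (h : Full T n N) {a : Lt} {x y u x' y' : ℤ} (h1 : La T a x y)
    (h2 : La T a x' y') (hu : x ≤ u) (hu' : u ≤ x') : ∃ v, La T a u v := by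
  rcases eq_or_lt_of_le hu with rfl | hlt
  · exact ⟨y, h1⟩
  rcases eq_or_lt_of_le hu' with rfl | hlt'
  · exact ⟨y', h2⟩
  obtain ⟨a1, a2, a3⟩ := h1
  obtain ⟨b1, b2, b3⟩ := h2
  have m1 := T.mono hu
  have m2 := T.mono hu'
  have e1 : T.pl u = a.2.1 := by omega
  have r1 := h.mem _ _ _ a1
  have r2 := h.mem _ _ _ b1
  have hev := h.odd x u x' r1.1 hlt hlt' r2.2 (a2.trans b2.symm)
  obtain ⟨v, hv⟩ := h.full u (by omega) (by omega) (by rw [e1, ← a2]; exact hev) a.1
  have s1 := (key_step (n := n) a1 hv (by omega) (h.lt _) (h.lt _) (h.lt _) hu).1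
  have s2 := (key_step (n := n) hv b1 (by omega) (h.lt _) (h.lt _) (h.lt _) hu').1
  refine ⟨v, hv, e1, ?_⟩
  rw [a2, a3] at s1
  rw [e1, b3] at s2
  have l1 := h.lt x
  have l2 := h.lt y
  exact ky_inj (i := a.2.1) (by omega) (h.lt v) (by omega) (le_antisymm s2 s1)

theorem La.uniq {a : Lt} {x y y' : ℤ} (h : La T a x y) (h' : La T a x y') : y = y' :=
  T.func _ _ _ _ h.1 h'.1

theorem Full.next (h : Full T n N) {a : Lt} {x y y' : ℤ} (h1 : La T a x y)
    (h2 : La T a (x + 1) y') : y' = y - 1 := by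
  have s1 := (key_step (n := n) h1.1 h2.1 (h1.2.1.trans h2.2.1.symm) (h.lt _) (h.lt _) (h.lt _)
    (by omega)).2 (h1.2.2.trans h2.2.2.symm)
  have hne : y' ≠ y := by
    rintro rfl
    have := T.func _ _ _ _ (T.symm _ _ _ h1.1) (T.symm _ _ _ h2.1)
    omega
  by_contra hcon
  -- a node strictly between the targets
  have hb1 : y' < y - 1 := by omega
  have r1 := h.mem _ _ _ (T.symm _ _ _ h1.1)
  have r2 := h.mem _ _ _ (T.symm _ _ _ h2.1)
  have f1 := h1.flp
  have f2 := h2.flp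
  obtain ⟨v, hv⟩ := h.conv f2 f1 (show y' ≤ y - 1 by omega) (by omega)
  have t1 := (key_step (n := n) f2.1 hv.1 (f2.2.1.trans hv.2.1.symm) (h.lt _) (h.lt _) (h.lt _)
    (by omega)).2 (f2.2.2.trans hv.2.2.symm)
  have t2 := (key_step (n := n) hv.1 f1.1 (hv.2.1.trans f1.2.1.symm) (h.lt _) (h.lt _) (h.lt _)
    (by omega)).2 (hv.2.2.trans f1.2.2.symm)
  have hv' : v = x ∨ v = x + 1 := by omega
  rcases hv' with rfl | rfl
  · have := T.func _ _ _ _ (T.symm _ _ _ hv.1) h1.1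
    omega
  · have := T.func _ _ _ _ (T.symm _ _ _ hv.1) h2.1
    omega

/-- the arcs of a letter form a band -/
theorem Full.aff (h : Full T n N) (a : Lt) (hr : ∃ x y, La T a x y) : ∃ lo hi c : ℤ, lo ≤ hi ∧
    0 ≤ lo ∧ hi < N ∧ 0 ≤ c ∧ c < 2 * N ∧ ∀ x y, La T a x y ↔ lo ≤ x ∧ x ≤ hi ∧ y = c - x := by
  classical
  set S := (Finset.Ico (0 : ℤ) N).filter fun x => ∃ y, La T a x y with hS
  have hmem : ∀ x, x ∈ S ↔ ∃ y, La T a x y := by
    intro x
    simp only [hS, Finset.mem_filter, Finset.mem_Ico, and_iff_right_iff_imp]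
    rintro ⟨y, hy⟩
    exact h.mem _ _ _ hy.1
  have hne : S.Nonempty := by
    obtain ⟨x, y, hxy⟩ := hr
    exact ⟨x, (hmem x).2 ⟨y, hxy⟩⟩
  obtain ⟨y0, hy0⟩ := (hmem _).1 (S.min'_mem hne)
  obtain ⟨y1, hy1⟩ := (hmem _).1 (S.max'_mem hne)
  set lo := S.min' hne with hlo
  set hi := S.max' hne with hhi
  have hind : ∀ t : ℕ, lo + t ≤ hi → La T a (lo + t) (y0 - t) := by
    intro t
    induction t with
    | zero => intro _; simpa using hy0
    | succ t ih =>
      intro ht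
      have h1 := ih (by push_cast at ht; omega)
      obtain ⟨v, hv⟩ := h.conv hy0 hy1 (show lo ≤ lo + ((t + 1 : ℕ) : ℤ) by omega) ht
      have h2 : La T a (lo + t + 1) v := by
        rwa [show lo + (t : ℤ) + 1 = lo + ((t + 1 : ℕ) : ℤ) by push_cast; ring]
      have h3 := h.next h1 h2
      have : y0 - ((t + 1 : ℕ) : ℤ) = v := by push_cast; omega
      rw [this]; exact hv
  have r0 := h.mem _ _ _ hy0.1
  have r1 := h.mem _ _ _ hy1.1
  have r2 := h.mem _ _ _ (T.symm _ _ _ hy0.1)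
  refine ⟨lo, hi, lo + y0, S.min'_le _ (S.max'_mem hne), r0.1, r1.2, by omega, by omega,
    fun x y => ⟨fun hxy => ?_, ?_⟩⟩
  · have hx : x ∈ S := (hmem x).2 ⟨y, hxy⟩
    have h1 := S.min'_le x hx
    have h2 := S.le_max' x hx
    refine ⟨h1, h2, ?_⟩
    obtain ⟨t, ht⟩ := Int.eq_ofNat_of_zero_le (show 0 ≤ x - lo by omega)
    have h3 := hind t (by omega)
    rw [show lo + (t : ℤ) = x by omega] at h3
    have := hxy.uniq h3
    omega
  · rintro ⟨h1, h2, rfl⟩
    obtain ⟨t, ht⟩ := Int.eq_ofNat_of_zero_le (show 0 ≤ x - lo by omega)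
    have h3 := hind t (by omega)
    rw [show lo + (t : ℤ) = x by omega] at h3
    rwa [show lo + y0 - x = y0 - (t : ℤ) by omega]

/-! ### words -/

def sw (w : List Lt) : Bool := decide (w.length % 2 = 0)

def cw (κ : Lt → ℤ) : List Lt → ℤ
  | [] => 0
  | a :: w => if sw w then κ a + cw κ w else cw κ w - κ a

theorem sw_cons (a : Lt) (w : List Lt) : sw (a :: w) = !sw w := by
  unfold sw
  rw [List.length_cons]
  rcases Nat.mod_two_eq_zero_or_one w.length with h | h
  · rw [show (w.length + 1) % 2 = 1 by omega, h]; rfl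
  · rw [show (w.length + 1) % 2 = 0 by omega, h]; rfl

theorem sw_append (u v : List Lt) : sw (u ++ v) = if sw v then sw u else !sw u := by
  induction u with
  | nil => simp only [List.nil_append]; cases sw v <;> simp [sw]
  | cons a u ih => rw [List.cons_append, sw_cons, ih, sw_cons]; cases sw v <;> simp

theorem cw_append (κ : Lt → ℤ) (u v : List Lt) :
    cw κ (u ++ v) = if sw v then cw κ u + cw κ v else cw κ v - cw κ u := by
  induction u with
  | nil => simp [cw]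
  | cons a u ih =>
    rw [List.cons_append, cw, ih, sw_append, cw]
    cases sw v <;> cases sw u <;> simp <;> ring

theorem Run.app {κ : Lt → ℤ} (hκ : ∀ a x y, La T a x y → y = κ a - x) {w : List Lt} {x y : ℤ}
    (h : Run T w x y) : y = LP86.app (sw w) (cw κ w) x := by
  induction h with
  | nil x => simp [LP86.app, sw, cw]
  | cons a w x y z h1 h2 h3 _ ih =>
    have := hκ a x y ⟨h1, h2, h3⟩
    rw [ih, this, sw_cons, cw]
    unfold LP86.app
    cases sw w <;> simp <;> ring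

/-- domains of words are intervals -/
theorem Full.dom (h : Full T n N) {κ lo hi : Lt → ℤ}
    (hκ : ∀ a, (∃ x y, La T a x y) → ∀ x y, La T a x y ↔ lo a ≤ x ∧ x ≤ hi a ∧ y = κ a - x)
    (w : List Lt) : (∃ x y : ℤ, 0 ≤ x ∧ x < N ∧ Run T w x y) → ∃ l r : ℤ, l ≤ r ∧
      ∀ x : ℤ, (l ≤ x ∧ x ≤ r) ↔ (0 ≤ x ∧ x < N ∧ ∃ y, Run T w x y) := by
  induction w with
  | nil =>
    rintro ⟨x, y, hx, hx', -⟩
    refine ⟨0, N - 1, by omega, fun x => ⟨fun hx => ⟨by omega, by omega, x, Run.nil x⟩, fun hx => ?_⟩⟩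
    constructor <;> omega
  | cons a w ih =>
    rintro ⟨x0, y0, h0, h0', hrun⟩
    cases hrun with
    | cons _ _ _ z0 _ h1 h2 h3 h4 =>
      have hla : La T a x0 z0 := ⟨h1, h2, h3⟩
      have hz := h.mem _ _ _ (T.symm _ _ _ h1)
      obtain ⟨l, r, hlr, hd⟩ := ih ⟨z0, y0, hz.1, hz.2, h4⟩
      have hk := hκ a ⟨x0, z0, hla⟩
      have hx0 := (hk x0 z0).1 hla
      have hz0 := (hd z0).2 ⟨hz.1, hz.2, y0, h4⟩
      refine ⟨max (lo a) (κ a - r), min (hi a) (κ a - l), ?_, fun x => ⟨fun hx => ?_, ?_⟩⟩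
      · have : max (lo a) (κ a - r) ≤ x0 := by
          apply max_le <;> omega
        have : x0 ≤ min (hi a) (κ a - l) := by
          apply le_min <;> omega
        omega
      · have hx1 := (hk x (κ a - x)).2 ⟨by omega, by omega, rfl⟩
        obtain ⟨hz1, hz2, y, hy⟩ := (hd (κ a - x)).1 ⟨by omega, by omega⟩
        have := h.mem _ _ _ hx1.1
        exact ⟨this.1, this.2, y, Run.cons _ _ _ _ _ hx1.1 hx1.2.1 hx1.2.2 hy⟩
      · rintro ⟨hx, hx', y, hy⟩
        cases hy with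
        | cons _ _ _ z _ g1 g2 g3 g4 =>
          have gz := h.mem _ _ _ (T.symm _ _ _ g1)
          have e1 := (hk x z).1 ⟨g1, g2, g3⟩
          have e2 := (hd z).2 ⟨gz.1, gz.2, y, g4⟩
          constructor <;> omega

theorem Full.run_mem (h : Full T n N) {w : List Lt} {x y : ℤ} (hr : Run T w x y) (hw : w ≠ []) :
    0 ≤ x ∧ x < N ∧ 0 ≤ y ∧ y < N := by
  have key : 0 ≤ y ∧ y < N := by
    induction hr with
    | nil x => exact absurd rfl hw
    | cons a w x y z h1 h2 h3 h4 ih =>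
      cases w with
      | nil => cases h4; exact h.mem _ _ _ (T.symm _ _ _ h1)
      | cons b w => exact ih (by simp)
  cases hr with
  | nil => exact absurd rfl hw
  | cons _ _ _ _ _ h1 => exact ⟨(h.mem _ _ _ h1).1, (h.mem _ _ _ h1).2, key.1, key.2⟩

end Pool.Agent.LP86
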