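import Pool.Agent.LP86.Full

/-!
Completeness of the certificates, part one: bands and entries of a full table.
-/

namespace Pool.Agent.LP86

variable {T : Tab} {n N : ℕ}

theorem Tab.lt_of_pl (T : Tab) {x y : ℤ} (h : T.pl x < T.pl y) : x < y := by
  by_contra hcon
  have := T.mono (not_lt.1 hcon)
  omega

/-- the band of a letter -/
def bandOf (lo hi κ : Lt → ℤ) (a : Lt) : Band := (a.1, a.2.1, a.2.2, lo a, hi a, κ a)

theorem gBB_symm {a b : Band} (h : gBB a b) : gBB b a := by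
  unfold gBB at *
  rcases h with h | h | h | h | h
  · exact Or.inl h.symm
  · exact Or.inr (Or.inr (Or.inl h))
  · exact Or.inr (Or.inl h)
  · exact Or.inr (Or.inr (Or.inr (Or.inr h)))
  · exact Or.inr (Or.inr (Or.inr (Or.inl h)))

theorem gBB_aux {lo hi κ : Lt → ℤ} {a b : Lt}
    (ha : ∀ x, lo a ≤ x → x ≤ hi a → La T a x (κ a - x))
    (hb : ∀ x, lo b ≤ x → x ≤ hi b → La T b x (κ b - x)) (hla : lo a ≤ hi a) (hlb : lo b ≤ hi b)
    (haj : a.2.1 < a.2.2) (hbj : b.2.1 < b.2.2)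
    (hlt : a.2.1 < b.2.1 ∨ (a.2.1 = b.2.1 ∧ a.2.2 < b.2.2)) :
    gBB (bandOf lo hi κ a) (bandOf lo hi κ b) := by
  unfold gBB bandOf
  by_cases hP : a.1 = b.1
  swap
  · exact Or.inl hP
  right
  have a1 := ha (lo a) le_rfl hla
  have a2 := ha (hi a) hla le_rfl
  have b1 := hb (lo b) le_rfl hlb
  have b2 := hb (hi b) hlb le_rfl
  have key : ∀ {x y x' y' : ℤ}, La T a x y → La T b x' y' → ¬ Al x y x' y' := by
    intro x y x' y' h h'
    have h1 := h'.1
    rw [← hP] at h1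
    exact T.nal _ _ _ _ _ h.1 h1
  rcases hlt with hlt | ⟨heq, hlt⟩
  · rcases lt_trichotomy a.2.2 b.2.1 with h | h | h
    · left
      exact T.lt_of_pl (by rw [a1.2.2, b1.2.1]; exact h)
    · left
      by_contra hcon
      have hk := key a1 b1
      have hne : lo b ≠ κ a - lo a := by
        intro e
        have h2 := T.symm _ _ _ a1.1
        rw [← e, hP] at h2
        have := T.func _ _ _ _ h2 b1.1
        have h3 := a1.2.1
        rw [this, b1.2.2] at h3
        omega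
      have h1 : lo a < lo b := T.lt_of_pl (by rw [a1.2.1, b1.2.1]; exact hlt)
      have h2 : κ a - lo a < κ b - lo b := T.lt_of_pl (by rw [a1.2.2, b1.2.2]; omega)
      apply hk
      unfold Al Btw
      simp only [not_lt] at hcon
      have h3 : lo b < κ a - lo a := lt_of_le_of_ne hcon hne
      constructor <;> omega
    · right; right; left
      have h1 : hi a < lo b := T.lt_of_pl (by rw [a2.2.1, b1.2.1]; exact hlt)
      refine ⟨h1, ?_⟩
      by_contra hcon
      have hk := key a2 b1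
      have hne : κ b - lo b ≠ κ a - hi a := by
        intro e
        have h2 := T.symm _ _ _ a2.1
        have h3 := T.symm _ _ _ b1.1
        rw [← e, hP] at h2
        have := T.func _ _ _ _ h2 h3
        omega
      have h2 : lo b < κ a - hi a := T.lt_of_pl (by rw [b1.2.1, a2.2.2]; exact h)
      apply hk
      unfold Al Btw
      simp only [not_lt] at hcon
      have h3 : κ a - hi a < κ b - lo b := lt_of_le_of_ne hcon hne.symm
      constructor <;> omega
  · right; right; right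
    have h1 : κ a - lo a < κ b - hi b := T.lt_of_pl (by rw [a1.2.2, b2.2.2]; exact hlt)
    refine ⟨?_, h1⟩
    by_contra hcon
    have hk := key a1 b2
    have hne : lo a ≠ hi b := by
      intro e
      have h2 := a1.1
      rw [e, hP] at h2
      have := T.func _ _ _ _ h2 b2.1
      omega
    have h2 : hi b < κ a - lo a := T.lt_of_pl (by rw [b2.2.1, a1.2.2]; omega)
    apply hk
    unfold Al Btw
    simp only [not_lt] at hcon
    have h3 : lo a < hi b := lt_of_le_of_ne hcon hne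
    constructor <;> omega

/-- all bands of a full table -/
theorem Full.exists_bands (h : Full T n N) {B : List ℤ} (hB : T.pl = plT B) :
    ∃ (L : List Band) (κ lo hi : Lt → ℤ), gT B L ∧ L.length ≤ 2 * n ^ 2 ∧
      (∀ a ∈ L, a.i < n ∧ a.j < n ∧ |a.lo| ≤ 2 * N ∧ |a.hi| ≤ 2 * N ∧ |a.c| ≤ 2 * N) ∧
      (∀ a, (∃ x y, La T a x y) → ∀ x y, La T a x y ↔ lo a ≤ x ∧ x ≤ hi a ∧ y = κ a - x) ∧
      ∀ a, (∃ x y, La T a x y) → a.2.1 < a.2.2 → bandOf lo hi κ a ∈ L := by
  classical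
  have hch : ∀ a, ∃ lo hi c : ℤ, (∃ x y, La T a x y) → lo ≤ hi ∧
    0 ≤ lo ∧ hi < N ∧ 0 ≤ c ∧ c < 2 * N ∧ ∀ x y, La T a x y ↔ lo ≤ x ∧ x ≤ hi ∧ y = c - x := by
    intro a
    by_cases hr : ∃ x y, La T a x y
    · obtain ⟨lo, hi, c, h1⟩ := h.aff a hr
      exact ⟨lo, hi, c, fun _ => h1⟩
    · exact ⟨0, 0, 0, fun h => absurd h hr⟩
  choose lo hi κ hk using hch
  set A : Finset Lt := ((Finset.univ : Finset Bool) ×ˢ (Finset.range n ×ˢ Finset.range n)).filter
    fun a => a.2.1 < a.2.2 ∧ ∃ x y, La T a x y with hA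
  have hmA : ∀ a, a ∈ A ↔ a.2.1 < a.2.2 ∧ ∃ x y, La T a x y := by
    intro a
    simp only [hA, Finset.mem_filter, Finset.mem_product, Finset.mem_univ, Finset.mem_range,
      true_and, and_iff_right_iff_imp]
    rintro ⟨-, x, y, hxy⟩
    have h1 := h.lt x
    have h2 := h.lt y
    rw [hxy.2.1] at h1
    rw [hxy.2.2] at h2
    exact ⟨h1, h2⟩
  have hcA : A.card ≤ 2 * n ^ 2 := by
    refine (Finset.card_filter_le _ _).trans ?_
    simp [sq]
  refine ⟨A.toList.map (bandOf lo hi κ), κ, lo, hi, ⟨?_, ?_⟩, ?_, ?_, ?_, ?_⟩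
  · intro b hb
    obtain ⟨a, ha, rfl⟩ := List.mem_map.1 hb
    obtain ⟨h1, h2⟩ := (hmA a).1 (Finset.mem_toList.1 ha)
    obtain ⟨k1, k2, k3, k4, k5, k6⟩ := hk a h2
    have e1 := (k6 (lo a) (κ a - lo a)).2 ⟨le_rfl, k1, rfl⟩
    have e2 := (k6 (hi a) (κ a - hi a)).2 ⟨k1, le_rfl, rfl⟩
    rw [La, hB] at e1 e2
    exact ⟨e1.2.1, e2.2.1, e2.2.2, e1.2.2, h1⟩
  · intro s hs t ht
    rw [List.length_map] at hs ht
    by_cases hst : s = t
    · exact Or.inl hst
    right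
    rw [List.getD_eq_getElem _ _ (by simpa using hs), List.getD_eq_getElem _ _ (by simpa using ht),
      List.getElem_map, List.getElem_map]
    have hne : A.toList[s] ≠ A.toList[t] := fun e =>
      hst ((Finset.nodup_toList A).getElem_inj_iff.1 e)
    obtain ⟨h1, h2⟩ := (hmA _).1 (Finset.mem_toList.1 (List.getElem_mem hs))
    obtain ⟨h3, h4⟩ := (hmA _).1 (Finset.mem_toList.1 (List.getElem_mem ht))
    generalize A.toList[s] = a at *
    generalize A.toList[t] = b at *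
    have ka := hk a h2
    have kb := hk b h4
    have ha : ∀ x, lo a ≤ x → x ≤ hi a → La T a x (κ a - x) := fun x hx hx' =>
      (ka.2.2.2.2.2 _ _).2 ⟨hx, hx', rfl⟩
    have hb : ∀ x, lo b ≤ x → x ≤ hi b → La T b x (κ b - x) := fun x hx hx' =>
      (kb.2.2.2.2.2 _ _).2 ⟨hx, hx', rfl⟩
    by_cases hP : a.1 = b.1
    swap
    · exact Or.inl hP
    have h5 : a.2.1 < b.2.1 ∨ (a.2.1 = b.2.1 ∧ a.2.2 < b.2.2) ∨ b.2.1 < a.2.1 ∨
        (b.2.1 = a.2.1 ∧ b.2.2 < a.2.2) := by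
      by_contra hcon
      apply hne
      refine Prod.ext hP (Prod.ext ?_ ?_) <;> omega
    rcases h5 with h5 | h5 | h5 | h5
    · exact gBB_aux ha hb ka.1 kb.1 h1 h3 (Or.inl h5)
    · exact gBB_aux ha hb ka.1 kb.1 h1 h3 (Or.inr h5)
    · exact gBB_symm (gBB_aux hb ha kb.1 ka.1 h3 h1 (Or.inl h5))
    · exact gBB_symm (gBB_aux hb ha kb.1 ka.1 h3 h1 (Or.inr h5))
  · rw [List.length_map, Finset.length_toList]; exact hcA
  · intro b hb
    obtain ⟨a, ha, rfl⟩ := List.mem_map.1 hb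
    obtain ⟨h1, h2⟩ := (hmA a).1 (Finset.mem_toList.1 ha)
    obtain ⟨k1, k2, k3, k4, k5, k6⟩ := hk a h2
    obtain ⟨x, y, hxy⟩ := h2
    have l1 := h.lt x
    have l2 := h.lt y
    rw [hxy.2.1] at l1
    rw [hxy.2.2] at l2
    refine ⟨l1, l2, ?_, ?_, ?_⟩
    · show |lo a| ≤ _
      rw [abs_le]; constructor <;> omega
    · show |hi a| ≤ _
      rw [abs_le]; constructor <;> omega
    · show |κ a| ≤ _
      rw [abs_le]; constructor <;> omega
  · intro a ha
    exact (hk a ha).2.2.2.2.2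
  · intro a ha hlt
    exact List.mem_map.2 ⟨a, Finset.mem_toList.2 ((hmA a).2 ⟨hlt, ha⟩), rfl⟩

/-- a program that follows a list of words -/
structure Lk (n : ℕ) (l : List (List Lt)) (R : List Rule) : Prop where
  len : R.length = l.length
  good : gR R
  fs : ∀ r < l.length, (rl R r).fs = fsW (l.getD r [])
  ls : ∀ r < l.length, (rl R r).ls = lsW (l.getD r [])
  lk : ∀ r < l.length, ((rl R r).1 = true ∧ ∃ a, l.getD r [] = [a]) ∨
    ((rl R r).1 = false ∧ (rl R r).2.1 < r ∧ (rl R r).2.2.1 < r ∧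
      l.getD r [] = l.getD (rl R r).2.1 [] ++ l.getD (rl R r).2.2.1 [])
  small : ∀ a ∈ R, a.2.1 ≤ l.length ∧ a.2.2.1 ≤ l.length ∧ a.fs.2 < n ∧ a.ls.2 < n

theorem getD_mem {α : Type} {l : List α} {d : α} {r : ℕ} (h : r < l.length) : l.getD r d ∈ l := by
  rw [List.getD_eq_getElem _ _ h]; exact List.getElem_mem h

theorem exists_lk {l : List (List Lt)}
    (hs : ∀ (k : ℕ) (w : List Lt), l[k]? = some w → (∃ a, w = [a]) ∨
      ∃ (i j : ℕ) (u v : List Lt), i < k ∧ j < k ∧ l[i]? = some u ∧ l[j]? = some v ∧ w = u ++ v)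
    (hne : ∀ w ∈ l, w ≠ []) (hc : ∀ w ∈ l, w.IsChain cmp)
    (hn : ∀ w ∈ l, ∀ a ∈ w, a.2.1 < n ∧ a.2.2 < n) : ∃ R, Lk n l R := by
  have hex : ∀ k, ∃ ru : Rule, k < l.length → ru.fs = fsW (l.getD k []) ∧
      ru.ls = lsW (l.getD k []) ∧ ((ru.1 = true ∧ ru.2.1 = 0 ∧ ru.2.2.1 = 0 ∧
        ∃ a, l.getD k [] = [a]) ∨
      (ru.1 = false ∧ ru.2.1 < k ∧ ru.2.2.1 < k ∧
      l.getD k [] = l.getD ru.2.1 [] ++ l.getD ru.2.2.1 [])) := by
    intro k
    by_cases hk : k < l.length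
    swap
    · exact ⟨dR, fun h => absurd h hk⟩
    have hk' : l[k]? = some (l.getD k []) := by
      rw [List.getD_eq_getElem _ _ hk]; exact List.getElem?_eq_getElem hk
    rcases hs k _ hk' with ⟨a, ha⟩ | ⟨i, j, u, v, hi, hj, hu, hv, hw⟩
    · exact ⟨(true, 0, 0, fsW (l.getD k []), lsW (l.getD k [])), fun _ =>
        ⟨rfl, rfl, Or.inl ⟨rfl, rfl, rfl, a, ha⟩⟩⟩
    · refine ⟨(false, i, j, fsW (l.getD k []), lsW (l.getD k [])), fun _ =>
        ⟨rfl, rfl, Or.inr ⟨rfl, hi, hj, ?_⟩⟩⟩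
      have e1 : l.getD i [] = u := by rw [List.getD_eq_getElem?_getD, hu]; rfl
      have e2 : l.getD j [] = v := by rw [List.getD_eq_getElem?_getD, hv]; rfl
      show l.getD k [] = l.getD i [] ++ l.getD j []
      rw [e1, e2]; exact hw
  choose f hf using hex
  have hrl : ∀ r < l.length, rl ((List.range l.length).map f) r = f r := by
    intro r hr
    show ((List.range l.length).map f).getD r dR = f r
    rw [List.getD_eq_getElem _ _ (by simpa using hr)]
    simp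
  have hmem : ∀ r < l.length, l.getD r [] ∈ l := fun r hr => getD_mem hr
  refine ⟨(List.range l.length).map f, by simp, fun r hr => ?_, fun r hr => ?_, fun r hr => ?_,
    fun r hr => ?_, fun a ha => ?_⟩
  · rw [List.length_map, List.length_range] at hr
    unfold gR1
    rw [hrl r hr]
    obtain ⟨h1, h2, h3⟩ := hf r hr
    rcases h3 with ⟨h3, -, -, a, ha⟩ | ⟨h3, hx, hy, hw⟩
    · left
      refine ⟨h3, ?_⟩
      rw [h1, h2, ha]; rfl
    · right
      rw [hrl _ (hx.trans hr), hrl _ (hy.trans hr)]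
      obtain ⟨x1, x2, -⟩ := hf _ (hx.trans hr)
      obtain ⟨y1, y2, -⟩ := hf _ (hy.trans hr)
      have nx := hne _ (hmem _ (hx.trans hr))
      have ny := hne _ (hmem _ (hy.trans hr))
      have hch := hc _ (hmem _ hr)
      rw [hw, List.isChain_append] at hch
      refine ⟨h3, hx, hy, ?_, ?_, ?_⟩
      · rw [x1, h1, hw, fsW_append _ nx]
      · rw [y2, h2, hw, lsW_append _ ny]
      · rw [x2, y1]
        obtain ⟨a, ha⟩ := Option.ne_none_iff_exists'.1 (mt List.getLast?_eq_none_iff.1 nx)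
        obtain ⟨b, hb⟩ := Option.ne_none_iff_exists'.1 (mt List.head?_eq_none_iff.1 ny)
        have hcm := hch.2.2 a (Option.mem_def.2 ha) b (Option.mem_def.2 hb)
        simp only [lsW, fsW, ha, hb, Option.getD_some]
        exact hcm
  · rw [hrl r hr]; exact (hf r hr).1
  · rw [hrl r hr]; exact (hf r hr).2.1
  · rw [hrl r hr]
    rcases (hf r hr).2.2 with ⟨h3, -, -, h4⟩ | h3
    · exact Or.inl ⟨h3, h4⟩
    · exact Or.inr h3
  · obtain ⟨r, hr, rfl⟩ := List.mem_map.1 ha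
    rw [List.mem_range] at hr
    obtain ⟨h1, h2, h3⟩ := hf r hr
    have hw := hmem r hr
    have hn' := hn _ hw
    have hne' := hne _ hw
    have e1 : (f r).fs.2 < n := by
      rw [h1, fsW_eq]
      exact (hn' _ (getD_mem (List.length_pos_iff.2 hne'))).1
    have e2 : (f r).ls.2 < n := by
      rw [h2, lsW_eq]
      have := List.length_pos_iff.2 hne'
      exact (hn' _ (getD_mem (by omega))).2
    rcases h3 with ⟨-, h3, h4, -⟩ | ⟨-, h3, h4, -⟩
    · exact ⟨by omega, by omega, e1, e2⟩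
    · exact ⟨by omega, by omega, e1, e2⟩

/-- entries of a program in a full table -/
theorem Full.entries (h : Full T n N) {L : List Band} {κ lo hi : Lt → ℤ}
    (hκ : ∀ a, (∃ x y, La T a x y) → ∀ x y, La T a x y ↔ lo a ≤ x ∧ x ≤ hi a ∧ y = κ a - x)
    (hL : ∀ a, (∃ x y, La T a x y) → a.2.1 < a.2.2 → bandOf lo hi κ a ∈ L)
    {l : List (List Lt)} {R : List Rule} (hR : Lk n l R) (hne : ∀ w ∈ l, w ≠ [])
    (hrun : ∀ w ∈ l, ∃ x y, Run T w x y) : ∃ E : List Ent, E.length = l.length ∧ gE R L E ∧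
      (∀ r < l.length, ∀ x : ℤ, ((en E r).lo ≤ x ∧ x ≤ (en E r).hi) ↔
        (0 ≤ x ∧ x < N ∧ ∃ y, Run T (l.getD r []) x y)) ∧
      ∀ e ∈ E, |e.lo| ≤ 2 * N ∧ |e.hi| ≤ 2 * N ∧ |e.c| ≤ 2 * N := by
  classical
  have hκ' : ∀ a x y, La T a x y → y = κ a - x := fun a x y hxy =>
    ((hκ a ⟨x, y, hxy⟩ x y).1 hxy).2.2
  have hex : ∀ w, ∃ e : Ent, w ∈ l → e.s = sw w ∧ e.c = cw κ w ∧ e.lo ≤ e.hi ∧
      ∀ x : ℤ, (e.lo ≤ x ∧ x ≤ e.hi) ↔ (0 ≤ x ∧ x < N ∧ ∃ y, Run T w x y) := by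
    intro w
    by_cases hw : w ∈ l
    · obtain ⟨x, y, hxy⟩ := hrun w hw
      have hb := h.run_mem hxy (hne w hw)
      obtain ⟨l0, r0, h1, h2⟩ := h.dom hκ w ⟨x, y, hb.1, hb.2.1, hxy⟩
      exact ⟨(l0, r0, sw w, cw κ w), fun _ => ⟨rfl, rfl, h1, h2⟩⟩
    · exact ⟨dE, fun h => absurd h hw⟩
  choose f hf using hex
  have hen : ∀ r < l.length, en (l.map f) r = f (l.getD r []) := by
    intro r hr
    show (l.map f).getD r dE = _
    rw [List.getD_eq_getElem _ _ (by simpa using hr), List.getD_eq_getElem _ _ hr,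
      List.getElem_map]
  refine ⟨l.map f, by simp, fun r hr => ?_, fun r hr x => ?_, fun e he => ?_⟩
  · rw [hR.len] at hr
    unfold gE1
    have hw := getD_mem (d := []) hr
    obtain ⟨s1, s2, s3, s4⟩ := hf _ hw
    have hlo := (s4 _).1 ⟨le_rfl, s3⟩
    have hhi := (s4 _).1 ⟨s3, le_rfl⟩
    rcases hR.lk r hr with ⟨h1, a, ha⟩ | ⟨h1, hx, hy, hxy⟩
    · left
      refine ⟨h1, ?_⟩
      unfold mB
      rw [hen r hr, hR.fs r hr, hR.ls r hr]
      rw [ha] at s1 s2 s3 s4 hlo hhi ⊢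
      obtain ⟨-, -, y1, hy1⟩ := hlo
      obtain ⟨-, -, y2, hy2⟩ := hhi
      have g1 : ∀ {x y : ℤ}, Run T [a] x y → La T a x y := by
        intro x y hr
        cases hr with
        | cons _ _ _ z _ r1 r2 r3 r4 =>
          cases r4
          exact ⟨r1, r2, r3⟩
      have l1 := g1 hy1
      have l2 := g1 hy2
      have q1 := (hκ a ⟨_, _, l1⟩ _ _).1 l1
      have q2 := (hκ a ⟨_, _, l1⟩ _ _).1 l2
      have ec : (f [a]).c = κ a := by rw [s2]; simp [cw, sw]
      have es : (f [a]).s = false := by rw [s1]; rfl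
      have hnl := T.noloop _ _ _ l1.1
      rw [l1.2.1, l1.2.2] at hnl
      rcases lt_or_gt_of_ne hnl with hlt | hlt
      · exact ⟨_, hL a ⟨_, _, l1⟩ hlt, rfl, es, ec, Or.inl ⟨rfl, rfl, q1.1, q2.2.1⟩⟩
      · have f1 := l1.flp
        have f2 := l2.flp
        have p1 := (hκ (flp a) ⟨_, _, f1⟩ _ _).1 f1
        have p2 := (hκ (flp a) ⟨_, _, f1⟩ _ _).1 f2
        refine ⟨_, hL (flp a) ⟨_, _, f1⟩ hlt, rfl, es, ?_, Or.inr ⟨rfl, rfl, ?_, ?_⟩⟩
        · rw [ec]
          show κ a = κ (flp a)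
          omega
        · show κ (flp a) - hi (flp a) ≤ _
          omega
        · show _ ≤ κ (flp a) - lo (flp a)
          omega
    · right
      refine ⟨h1, ?_⟩
      rw [hen r hr, hen _ (hx.trans hr), hen _ (hy.trans hr)]
      have hu := getD_mem (d := []) (hx.trans hr)
      have hv := getD_mem (d := []) (hy.trans hr)
      obtain ⟨u1, u2, u3, u4⟩ := hf _ hu
      obtain ⟨v1, v2, v3, v4⟩ := hf _ hv
      rw [hxy] at s1 s2 s3 s4 hlo hhi ⊢
      generalize l.getD (rl R r).2.1 [] = u at *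
      generalize l.getD (rl R r).2.2.1 [] = v at *
      have split : ∀ x : ℤ, 0 ≤ x → x < N → (∃ y, Run T (u ++ v) x y) →
          ((f u).lo ≤ x ∧ x ≤ (f u).hi) ∧
          ((f v).lo ≤ app (sw u) (cw κ u) x ∧ app (sw u) (cw κ u) x ≤ (f v).hi) := by
        rintro x hx hx' ⟨y, hy⟩
        obtain ⟨z, z1, z2⟩ := run_append.1 hy
        refine ⟨(u4 x).2 ⟨hx, hx', z, z1⟩, ?_⟩
        have hz := z1.app hκ'
        have hzb := h.run_mem z2 (hne v hv)
        rw [← hz]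
        exact (v4 z).2 ⟨hzb.1, hzb.2.1, y, z2⟩
      obtain ⟨⟨p1, p2⟩, p3, p4⟩ := split _ hlo.1 hlo.2.1 hlo.2.2
      obtain ⟨⟨q1, q2⟩, q3, q4⟩ := split _ hhi.1 hhi.2.1 hhi.2.2
      refine ⟨p1, q2, ?_, ?_⟩
      · rw [v1, s1, u1, s2, u2, v2, sw_append, cw_append]
        cases sw v <;> simp
      · rw [u1, u2]
        unfold app at p3 p4 q3 q4
        cases hsu : sw u
        · rw [hsu] at p3 p4 q3 q4
          simp only [Bool.false_eq_true, if_false] at p3 p4 q3 q4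
          exact Or.inr ⟨rfl, q3, p4⟩
        · rw [hsu] at p3 p4 q3 q4
          simp only [if_true] at p3 p4 q3 q4
          exact Or.inl ⟨rfl, p3, q4⟩
  · rw [hen r hr]
    exact (hf _ (getD_mem hr)).2.2.2 x
  · obtain ⟨w, hw, rfl⟩ := List.mem_map.1 he
    obtain ⟨s1, s2, s3, s4⟩ := hf w hw
    obtain ⟨a1, a2, y, hy⟩ := (s4 _).1 ⟨le_rfl, s3⟩
    obtain ⟨b1, b2, -⟩ := (s4 _).1 ⟨s3, le_rfl⟩
    have hb := h.run_mem hy (hne w hw)
    have hya := hy.app hκ'
    have hc : |(f w).c| ≤ 2 * N := by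
      rw [s2, abs_le]
      unfold app at hya
      split_ifs at hya <;> constructor <;> omega
    refine ⟨?_, ?_, hc⟩
    · rw [abs_le]; constructor <;> omega
    · rw [abs_le]; constructor <;> omega

end Pool.Agent.LP86
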