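import Pool.Agent.LP86.Btw

/-!
The gadget graph: a centre, a circle of vertices, each joined to the centre by a path (leg), and
for each constraint a fan with four links to terminals.
-/

namespace Pool.Agent.LP86

/-- circle vertices -/
inductive Cv
  | term (i : ℕ)
  | fan (t a : ℕ)
  | link (t j i : ℕ)
  deriving DecidableEq

/-- vertices: the centre, and the vertices of the legs (`leg w (lam w)` is the circle vertex) -/
inductive Vx
  | ctr
  | leg (w : Cv) (p : ℕ)
  deriving DecidableEq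

open Cv Vx

/-- length of a leg -/
def lam (k : ℕ) : Cv → ℕ
  | fan _ _ => k / 2
  | _ => (k - 1) / 2

def CValid (k N m : ℕ) : Cv → Prop
  | term i => i < N
  | fan t a => t < m ∧ a < 8
  | link t j i => t < m ∧ j < 4 ∧ 1 ≤ i ∧ i + 2 ≤ k

def VValid (k N m : ℕ) : Vx → Prop
  | ctr => True
  | leg w p => CValid k N m w ∧ 1 ≤ p ∧ p ≤ lam k w

/-- generators of the adjacency of circle vertices -/
def Bg (k : ℕ) (τ : ℕ → ℕ → ℕ) : Cv → Cv → Prop
  | fan t a, fan t' b => t = t' ∧ ((a = 0 ∧ 1 ≤ b) ∨ (1 ≤ a ∧ b = a + 1))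
  | fan t a, link t' j i => t = t' ∧ i = 1 ∧ a = 2 * j + 1
  | link t j i, link t' j' i' => t = t' ∧ j = j' ∧ i' = i + 1
  | link t j i, term x => i + 2 = k ∧ x = τ t j
  | _, _ => False

/-- generators of the adjacency -/
def Vg (k : ℕ) (τ : ℕ → ℕ → ℕ) : Vx → Vx → Prop
  | ctr, leg _ p => p = 1
  | leg w p, leg w' p' => (w = w' ∧ p' = p + 1) ∨ (p = lam k w ∧ p' = lam k w' ∧ Bg k τ w w')
  | _, _ => False

/-- `G` is (isomorphic to) the gadget graph -/
structure Model (k N m : ℕ) (τ : ℕ → ℕ → ℕ) {V : Type} (G : SimpleGraph V) where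
  φ : V → Vx
  inj : Function.Injective φ
  val : ∀ u, VValid k N m (φ u)
  sur : ∀ x, VValid k N m x → ∃ u, φ u = x
  adj : ∀ u v, G.Adj u v ↔ Vg k τ (φ u) (φ v) ∨ Vg k τ (φ v) (φ u)

variable {k N m : ℕ} {τ : ℕ → ℕ → ℕ} {V : Type} {G : SimpleGraph V}

open Classical in
/-- the vertex with a given name -/
noncomputable def Model.ψ (M : Model k N m τ G) (x : Vx) : V :=
  if h : VValid k N m x then (M.sur x h).choose else (M.sur ctr trivial).choose

theorem Model.φψ (M : Model k N m τ G) {x : Vx} (h : VValid k N m x) : M.φ (M.ψ x) = x := by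
  unfold Model.ψ
  rw [dif_pos h]
  exact (M.sur x h).choose_spec

theorem Model.ψφ (M : Model k N m τ G) (u : V) : M.ψ (M.φ u) = u :=
  M.inj (M.φψ (M.val u))

theorem Model.adj' (M : Model k N m τ G) {x y : Vx} (hx : VValid k N m x) (hy : VValid k N m y)
    (h : Vg k τ x y ∨ Vg k τ y x) : G.Adj (M.ψ x) (M.ψ y) := by
  rw [M.adj, M.φψ hx, M.φψ hy]; exact h

/-! ### distances from a fan -/

def Dc (k t : ℕ) : Cv → ℕ
  | term _ => k - 1
  | fan t' _ => if t' = t then 0 else 2 * (k / 2)
  | link t' _ i => if t' = t then i else k - 1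

def Dv (k t : ℕ) : Vx → ℕ
  | ctr => k / 2
  | leg w p => min (k / 2 + p) (Dc k t w + (lam k w - p))

theorem Dv_circle (hk : 3 ≤ k) (t : ℕ) {w : Cv} (hw : CValid k N m w) :
    Dv k t (leg w (lam k w)) = Dc k t w := by
  cases w with
  | term i => simp only [Dv, Dc, lam]; omega
  | fan t' a => simp only [Dv, Dc, lam]; split_ifs <;> omega
  | link t' j i =>
    obtain ⟨-, -, h1, h2⟩ := hw
    simp only [Dv, Dc, lam]; split_ifs <;> omega

theorem Dv_lip_aux (hk : 3 ≤ k) (t : ℕ) {x y : Vx} (hx : VValid k N m x) (hy : VValid k N m y)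
    (h : Vg k τ x y) : Dv k t x ≤ Dv k t y + 1 ∧ Dv k t y ≤ Dv k t x + 1 := by
  cases x with
  | ctr =>
    cases y with
    | ctr => exact absurd h id
    | leg w p =>
      have hp : p = 1 := h
      subst hp
      obtain ⟨hw, -, hp⟩ := hy
      cases w with
      | term i => simp only [Dv, Dc, lam] at *; omega
      | fan t' a => simp only [Dv, Dc, lam] at *; split_ifs <;> omega
      | link t' j i =>
        obtain ⟨-, -, h1, h2⟩ := hw
        simp only [Dv, Dc, lam] at *; split_ifs <;> omega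
  | leg w p =>
    cases y with
    | ctr => exact absurd h id
    | leg w' p' =>
      rcases h with ⟨rfl, rfl⟩ | ⟨rfl, rfl, h⟩
      · obtain ⟨hw, -, hp⟩ := hy
        simp only [Dv]
        omega
      · rw [Dv_circle hk t hx.1, Dv_circle hk t hy.1]
        have h1 := hx.1
        have h2 := hy.1
        cases w <;> cases w' <;> simp only [Bg] at h
        · obtain ⟨rfl, -⟩ := h
          simp only [Dc]; omega
        · obtain ⟨rfl, rfl, -⟩ := h
          simp only [Dc]; split_ifs <;> omega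
        · obtain ⟨rfl, rfl⟩ := h
          simp only [Dc]; split_ifs <;> omega
        · obtain ⟨rfl, rfl, rfl⟩ := h
          simp only [Dc]; split_ifs <;> omega

theorem Model.lip (M : Model k N m τ G) (hk : 3 ≤ k) (t : ℕ) {u v : V} (h : G.Adj u v) :
    Dv k t (M.φ u) ≤ Dv k t (M.φ v) + 1 := by
  rcases (M.adj u v).1 h with h | h
  · exact (Dv_lip_aux hk t (M.val u) (M.val v) h).1
  · exact (Dv_lip_aux hk t (M.val v) (M.val u) h).2

theorem Model.walk_lb (M : Model k N m τ G) (hk : 3 ≤ k) (t : ℕ) {u v : V} (w : G.Walk u v) :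
    Dv k t (M.φ u) ≤ Dv k t (M.φ v) + w.length := by
  induction w with
  | nil => simp
  | cons h w ih =>
    have := M.lip hk t h
    simp only [SimpleGraph.Walk.length_cons]
    omega

/-- edges far from each other are not near -/
theorem Model.not_near (M : Model k N m τ G) (hk : 3 ≤ k) (t : ℕ) {e f : Sym2 V}
    (he : ∀ u ∈ e, Dv k t (M.φ u) = 0) (hf : ∀ u ∈ f, k - 1 ≤ Dv k t (M.φ u)) : ¬ Near G k e f := by
  rintro ⟨a, ha, c, hc, w, hw⟩
  have h1 := he a ha
  have h2 := hf c hc
  have h3 := M.walk_lb hk t w.reverse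
  rw [SimpleGraph.Walk.length_reverse] at h3
  omega

end Pool.Agent.LP86
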