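import Pool.Agent.LP86.Ord

/-!
From a circular order of the terminals to a drawing of the gadget graph, continued.
-/

namespace Pool.Agent.LP86

open Cv Vx

variable {k N m : ℕ} {τ : ℕ → ℕ → ℕ} {V : Type} {G : SimpleGraph V}

def ck (k : ℕ) (τ : ℕ → ℕ → ℕ) (o : ℕ → Bool) (ρ : ℕ → ℕ) (w : Cv) : Key :=
  mkKey (ρ (blk τ o w) + 1) (chk w) (off k w) 0

theorem vkey_circ (o : ℕ → Bool) (ρ : ℕ → ℕ) (w : Cv) :
    vkey k τ o ρ (leg w (lam k w)) = ck k τ o ρ w := by
  simp [vkey, ck]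

theorem bcase (hk : 3 ≤ k) (o : ℕ → Bool) (ρ : ℕ → ℕ) {w w' : Cv} (hw : CValid k N m w)
    (hw' : CValid k N m w') (h : Bg k τ w w') :
    (∃ t a b, w = fan t a ∧ w' = fan t b ∧ FE a b ∧ t < m ∧ a < 8 ∧ b < 8) ∨
    (∀ w'' : Cv, ¬ Btw (ck k τ o ρ w'') (ck k τ o ρ w) (ck k τ o ρ w')) ∨
    (∃ t j, t < m ∧ j < 4 ∧ w = link t j (k - 2) ∧ w' = term (τ t j)) := by
  cases w with
  | term i => cases w' <;> exact absurd h (by simp [Bg])
  | fan t a =>
    cases w' with
    | term i => exact absurd h (by simp [Bg])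
    | fan t' b =>
      obtain ⟨rfl, h⟩ := h
      exact Or.inl ⟨t, a, b, rfl, rfl, h, hw.1, hw.2, hw'.2⟩
    | link t' j i =>
      obtain ⟨rfl, rfl, rfl⟩ := h
      right; left
      intro w'' hb
      have e1 : Jf (o t) (2 * j + 1) = j := by unfold Jf; split_ifs <;> omega
      have e2 : ck k τ o ρ (fan t (2 * j + 1)) = mkKey (ρ (τ t j) + 1) (t + 1) (k - 2) 0 := by
        simp only [ck, blk, chk, off, e1]
        rw [if_pos (by omega)]
      have e3 : ck k τ o ρ (link t j 1) = mkKey (ρ (τ t j) + 1) (t + 1) (k - 2 - 1) 0 := by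
        simp only [ck, blk, chk, off]
      rw [e2, e3] at hb
      exact no_btw_circ (by omega) hb.symm
  | link t j i =>
    cases w' with
    | fan t' b => exact absurd h (by simp [Bg])
    | term x =>
      obtain ⟨h1, rfl⟩ := h
      right; right
      refine ⟨t, j, hw.1, hw.2.1, ?_, rfl⟩
      rw [show k - 2 = i by omega]
    | link t' j' i' =>
      obtain ⟨rfl, rfl, rfl⟩ := h
      right; left
      intro w'' hb
      have h3 := hw'.2.2.2
      exact no_btw_circ (c := k - 2 - (i + 1)) (c' := k - 2 - i) (by omega) hb.symm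

theorem far_of_al (hk : 3 ≤ k) (o : ℕ → Bool) (ρ : ℕ → ℕ)
    (hno : ∀ t < m, ∀ a < 8, ∀ b < 8, FE a b → ∀ c < 8, ∀ d < 8, FE c d →
      ¬ Al (num (fun j => ρ (τ t j)) (o t) a) (num (fun j => ρ (τ t j)) (o t) b)
        (num (fun j => ρ (τ t j)) (o t) c) (num (fun j => ρ (τ t j)) (o t) d))
    {w w' z z' : Cv} (hw : CValid k N m w)
    (hw' : CValid k N m w') (hz : CValid k N m z) (hz' : CValid k N m z') (h : Bg k τ w w')
    (h' : Bg k τ z z') (hal : Al (ck k τ o ρ w) (ck k τ o ρ w') (ck k τ o ρ z) (ck k τ o ρ z')) :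
    ∃ t, (Dc k t w = 0 ∧ Dc k t w' = 0 ∧ k - 1 ≤ Dc k t z ∧ k - 1 ≤ Dc k t z') ∨
      (Dc k t z = 0 ∧ Dc k t z' = 0 ∧ k - 1 ≤ Dc k t w ∧ k - 1 ≤ Dc k t w') := by
  have FL : ∀ {w w' z z' : Cv}, (∃ t a b, w = fan t a ∧ w' = fan t b ∧ FE a b ∧ t < m ∧ a < 8 ∧ b < 8) →
      (∃ t j, t < m ∧ j < 4 ∧ z = link t j (k - 2) ∧ z' = term (τ t j)) →
      Al (ck k τ o ρ w) (ck k τ o ρ w') (ck k τ o ρ z) (ck k τ o ρ z') →
      ∃ t, (Dc k t w = 0 ∧ Dc k t w' = 0 ∧ k - 1 ≤ Dc k t z ∧ k - 1 ≤ Dc k t z') := by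
    rintro w w' z z' ⟨t, a, b, rfl, rfl, -⟩ ⟨t', j, -, -, rfl, rfl⟩ hal
    refine ⟨t, by simp [Dc], by simp [Dc], ?_, by simp [Dc]⟩
    have htt : t < t' := by
      have h2 := hal.2
      simp only [Btw, ck, mkKey_lt, chk, blk, off] at h2
      omega
    simp only [Dc]
    rw [if_neg (by omega)]
  rcases bcase hk o ρ hw hw' h with h1 | h1 | h1
  · rcases bcase hk o ρ hz hz' h' with h2 | h2 | h2
    · obtain ⟨t, a, b, rfl, rfl, hab, ht, ha, hb⟩ := h1
      obtain ⟨t', c, d, rfl, rfl, hcd, -, hc, hd⟩ := h2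
      by_cases htt : t = t'
      · subst htt
        exfalso
        refine hno t ht a ha b hb hab c hc d hd hcd ?_
        have key : ∀ x y, ck k τ o ρ (fan t x) < ck k τ o ρ (fan t y) ↔
            num (fun j => ρ (τ t j)) (o t) x < num (fun j => ρ (τ t j)) (o t) y := by
          intro x y
          simp only [ck, mkKey_lt, chk, blk, off, num]
          generalize ρ (τ t (Jf (o t) x)) = X
          generalize ρ (τ t (Jf (o t) y)) = Y
          simp only [lt_irrefl, true_and, false_or, and_false, or_false]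
          split_ifs <;> omega
        unfold Al Btw at hal ⊢
        simpa only [key] using hal
      · refine ⟨t, Or.inl ⟨by simp [Dc], by simp [Dc], ?_, ?_⟩⟩ <;>
        · simp only [Dc]; rw [if_neg (Ne.symm htt)]; omega
    · rcases hal.2.symm with h3 | h3
      · exact absurd h3 (h2 _)
      · exact absurd h3 (h2 _)
    · obtain ⟨t, ht⟩ := FL h1 h2 hal
      exact ⟨t, Or.inl ht⟩
  · rcases hal.1 with h3 | h3
    · exact absurd h3 (h1 _)
    · exact absurd h3 (h1 _)
  · rcases bcase hk o ρ hz hz' h' with h2 | h2 | h2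
    · obtain ⟨t, ht⟩ := FL h2 h1 hal.symm
      exact ⟨t, Or.inr ht⟩
    · rcases hal.2 with h3 | h3
      · exact absurd h3 (h2 _)
      · exact absurd h3 (h2 _)
    · exfalso
      obtain ⟨t, j, -, -, rfl, rfl⟩ := h1
      obtain ⟨t', j', -, -, rfl, rfl⟩ := h2
      simp only [Al, Btw, ck, mkKey_lt, chk, blk, off] at hal
      omega

theorem ecase {x y : Vx} (hx : VValid k N m x) (hy : VValid k N m y) (h : Vg k τ x y) :
    (∃ w, x = ctr ∧ y = leg w 1) ∨
    (∃ w p, x = leg w p ∧ y = leg w (p + 1) ∧ p + 1 ≤ lam k w) ∨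
    (∃ w w', x = leg w (lam k w) ∧ y = leg w' (lam k w') ∧ Bg k τ w w' ∧ CValid k N m w ∧
      CValid k N m w') := by
  cases x with
  | ctr =>
    cases y with
    | ctr => exact absurd h id
    | leg w p =>
      have hp : p = 1 := h
      subst hp
      exact Or.inl ⟨w, rfl, rfl⟩
  | leg w p =>
    cases y with
    | ctr => exact absurd h id
    | leg w' p' =>
      rcases h with ⟨rfl, rfl⟩ | ⟨rfl, rfl, h⟩
      · exact Or.inr (Or.inl ⟨w, p, rfl, rfl, hy.2.2⟩)
      · exact Or.inr (Or.inr ⟨w, w', rfl, rfl, h, hx.1, hy.1⟩)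

theorem low_noal (o : ℕ → Bool) (ρ : ℕ → ℕ) {x y x' y' : Vx} 
    (h : (∃ w, x = ctr ∧ y = leg w 1) ∨ (∃ w p, x = leg w p ∧ y = leg w (p + 1) ∧ p + 1 ≤ lam k w))
    (h' : (∃ w, x' = ctr ∧ y' = leg w 1) ∨
      (∃ w p, x' = leg w p ∧ y' = leg w (p + 1) ∧ p + 1 ≤ lam k w)) :
    ¬ Al (vkey k τ o ρ x) (vkey k τ o ρ y) (vkey k τ o ρ x') (vkey k τ o ρ y') := by
  intro hal
  rcases h with ⟨w, rfl, rfl⟩ | ⟨w, p, rfl, rfl, hp⟩
  · rcases h' with ⟨w', rfl, rfl⟩ | ⟨w', p', rfl, rfl, hp'⟩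
    · exact (al_distinct hal).2.1 rfl
    · rcases hal.2 with h | h
      · exact no_btw_leg o ρ hp' _ h
      · exact no_btw_leg o ρ hp' _ h
  · rcases hal.1 with h | h
    · exact no_btw_leg o ρ hp _ h
    · exact no_btw_leg o ρ hp _ h

theorem exists_rank (y : ℕ → ℝ) (N : ℕ) : ∃ ρ : ℕ → ℕ, ∀ i < N, ∀ j < N, ρ i < ρ j ↔ y i < y j := by
  classical
  refine ⟨fun i => ((Finset.range N).filter fun j => y j < y i).card, fun i hi j hj => ?_⟩
  constructor
  · intro h
    by_contra hn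
    push Not at hn
    refine absurd h (not_lt.2 (Finset.card_le_card ?_))
    intro l hl
    rw [Finset.mem_filter] at hl ⊢
    exact ⟨hl.1, hl.2.trans_le hn⟩
  · intro h
    refine Finset.card_lt_card ⟨?_, ?_⟩
    · intro l hl
      rw [Finset.mem_filter] at hl ⊢
      exact ⟨hl.1, hl.2.trans h⟩
    · intro hsub
      have : i ∈ (Finset.range N).filter fun l => y l < y i :=
        hsub (Finset.mem_filter.2 ⟨Finset.mem_range.2 hi, h⟩)
      exact lt_irrefl _ (Finset.mem_filter.1 this).2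

theorem draw_of_order (hk : 3 ≤ k) (M : Model k N m τ G) (y : ℕ → ℝ)
    (hy : ∀ i < N, ∀ j < N, y i = y j → i = j) (hτ : ∀ t < m, ∀ j < 4, τ t j < N)
    (hal : ∀ t < m, Al (y (τ t 0)) (y (τ t 2)) (y (τ t 1)) (y (τ t 3))) :
    KLocallyPlanar k G := by
  classical
  obtain ⟨ρ, hρ⟩ := exists_rank y N
  have hρi : ∀ i < N, ∀ j < N, ρ i = ρ j → i = j := by
    intro i hi j hj h
    refine hy i hi j hj (le_antisymm ?_ ?_)
    · rw [← not_lt, ← hρ j hj i hi]; omega
    · rw [← not_lt, ← hρ i hi j hj]; omega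
  have hal' : ∀ t < m, Al (ρ (τ t 0)) (ρ (τ t 2)) (ρ (τ t 1)) (ρ (τ t 3)) := by
    intro t ht
    have h0 := hτ t ht 0 (by norm_num)
    have h1 := hτ t ht 1 (by norm_num)
    have h2 := hτ t ht 2 (by norm_num)
    have h3 := hτ t ht 3 (by norm_num)
    have := hal t ht
    unfold Al Btw at this ⊢
    simpa only [hρ _ h0 _ h1, hρ _ h1 _ h2, hρ _ h2 _ h1, hρ _ h1 _ h0, hρ _ h0 _ h3, hρ _ h3 _ h2,
      hρ _ h2 _ h3, hρ _ h3 _ h0] using this
  have ho : ∀ t, ∃ o : Bool, t < m → ∀ a < 8, ∀ b < 8, FE a b → ∀ c < 8, ∀ d < 8, FE c d →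
      ¬ Al (num (fun j => ρ (τ t j)) o a) (num (fun j => ρ (τ t j)) o b)
        (num (fun j => ρ (τ t j)) o c) (num (fun j => ρ (τ t j)) o d) := by
    intro t
    by_cases ht : t < m
    · obtain ⟨o, h⟩ := fan_noal (fun j => ρ (τ t j)) (hal' t ht)
      exact ⟨o, fun _ => h⟩
    · exact ⟨true, fun h => absurd h ht⟩
  choose o ho using ho
  have hcount : Countable Key := by
    unfold Key Lex
    infer_instance
  obtain ⟨e⟩ := Order.embedding_from_countable_to_dense Key ℝ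
  let ξ : V → ℝ := fun u => e (vkey k τ o ρ (M.φ u))
  have hξ : Function.Injective ξ := by
    intro u v h
    exact M.inj (vkey_inj o ρ hρi hτ hal' hk (M.val u) (M.val v) (e.injective h))
  let pg : Sym2 V → Bool := fun f => decide (∀ u ∈ f, isCirc k (M.φ u))
  obtain ⟨D, hD⟩ := book G ξ hξ pg
  refine ⟨D, (locallyPlanar_iff D k).2 ?_⟩
  -- oriented form
  have main : ∀ a b c d, G.Adj a b → G.Adj c d → Vg k τ (M.φ a) (M.φ b) → Vg k τ (M.φ c) (M.φ d) →
      s(a, b) ≠ s(c, d) → Near G k s(a, b) s(c, d) → ¬ D.Cross s(a, b) s(c, d) := by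
    intro a b c d hab hcd h1 h2 hne hnear hcr
    obtain ⟨hpg, halt⟩ := hD a b c d hab hcd hne hcr
    have hal2 : Al (vkey k τ o ρ (M.φ a)) (vkey k τ o ρ (M.φ b)) (vkey k τ o ρ (M.φ c))
        (vkey k τ o ρ (M.φ d)) := by
      rw [← al_iff_alt] at halt
      exact (al_map e fun x _ y _ => e.lt_iff_lt).1 halt
    have notcirc : ∀ {a b : V}, ((∃ w, M.φ a = ctr ∧ M.φ b = leg w 1) ∨
        (∃ w p, M.φ a = leg w p ∧ M.φ b = leg w (p + 1) ∧ p + 1 ≤ lam k w)) →
        pg s(a, b) = false := by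
      intro a b h
      simp only [pg, decide_eq_false_iff_not]
      intro hc
      have := hc a (by simp)
      rcases h with ⟨w, h, -⟩ | ⟨w, p, h, -, hp⟩
      · rw [h] at this; exact this
      · rw [h] at this
        have : p = lam k w := this
        omega
    have circ : ∀ {a b : V}, (∃ w w', M.φ a = leg w (lam k w) ∧ M.φ b = leg w' (lam k w') ∧
        Bg k τ w w' ∧ CValid k N m w ∧ CValid k N m w') → pg s(a, b) = true := by
      rintro a b ⟨w, w', ha, hb, -⟩
      simp only [pg, decide_eq_true_eq]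
      intro u hu
      rcases Sym2.mem_iff.1 hu with rfl | rfl
      · rw [ha]; exact rfl
      · rw [hb]; exact rfl
    rcases ecase (M.val a) (M.val b) h1 with e1 | e1 | e1
    · rcases ecase (M.val c) (M.val d) h2 with e2 | e2 | e2
      · exact low_noal o ρ (Or.inl e1) (Or.inl e2) hal2
      · exact low_noal o ρ (Or.inl e1) (Or.inr e2) hal2
      · rw [notcirc (Or.inl e1), circ e2] at hpg; simp at hpg
    · rcases ecase (M.val c) (M.val d) h2 with e2 | e2 | e2
      · exact low_noal o ρ (Or.inr e1) (Or.inl e2) hal2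
      · exact low_noal o ρ (Or.inr e1) (Or.inr e2) hal2
      · rw [notcirc (Or.inr e1), circ e2] at hpg; simp at hpg
    · rcases ecase (M.val c) (M.val d) h2 with e2 | e2 | e2
      · rw [notcirc (Or.inl e2), circ e1] at hpg; simp at hpg
      · rw [notcirc (Or.inr e2), circ e1] at hpg; simp at hpg
      · obtain ⟨w, w', a1, a2, a3, a4, a5⟩ := e1
        obtain ⟨z, z', b1, b2, b3, b4, b5⟩ := e2
        rw [a1, a2, b1, b2, vkey_circ, vkey_circ, vkey_circ, vkey_circ] at hal2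
        obtain ⟨t, ht⟩ := far_of_al hk o ρ ho a4 a5 b4 b5 a3 b3 hal2
        have dist0 : ∀ {a b : V} {w w' : Cv}, M.φ a = leg w (lam k w) → M.φ b = leg w' (lam k w') →
            CValid k N m w → CValid k N m w' → ∀ u ∈ s(a, b), Dv k t (M.φ u) = Dc k t w ∨
            Dv k t (M.φ u) = Dc k t w' := by
          intro a b w w' ha hb hw hw' u hu
          rcases Sym2.mem_iff.1 hu with rfl | rfl
          · left; rw [ha, Dv_circle hk t hw]
          · right; rw [hb, Dv_circle hk t hw']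
        rcases ht with ⟨c1, c2, c3, c4⟩ | ⟨c1, c2, c3, c4⟩
        · refine M.not_near hk t (e := s(a, b)) (f := s(c, d)) (fun u hu => ?_) (fun u hu => ?_) hnear
          · rcases dist0 a1 a2 a4 a5 u hu with h | h <;> omega
          · rcases dist0 b1 b2 b4 b5 u hu with h | h <;> omega
        · refine M.not_near hk t (e := s(c, d)) (f := s(a, b)) (fun u hu => ?_) (fun u hu => ?_)
            hnear.symm
          · rcases dist0 b1 b2 b4 b5 u hu with h | h <;> omega
          · rcases dist0 a1 a2 a4 a5 u hu with h | h <;> omega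
  intro f hf g hg hne hnear
  induction f using Sym2.ind with
  | _ a b =>
  induction g using Sym2.ind with
  | _ c d =>
    have hf' : G.Adj a b := hf
    have hg' : G.Adj c d := hg
    rcases (M.adj a b).1 hf' with h1 | h1 <;> rcases (M.adj c d).1 hg' with h2 | h2
    · exact main a b c d hf' hg' h1 h2 hne hnear
    · rw [Sym2.eq_swap (a := c)] at hne hnear ⊢
      exact main a b d c hf' hg'.symm h1 h2 hne hnear
    · rw [Sym2.eq_swap (a := a)] at hne hnear ⊢
      exact main b a c d hf'.symm hg' h1 h2 hne hnear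
    · rw [Sym2.eq_swap (a := a), Sym2.eq_swap (a := c)] at hne hnear ⊢
      exact main b a d c hf'.symm hg'.symm h1 h2 hne hnear

end Pool.Agent.LP86
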