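import Pool.Agent.LP86.Rev

/-!
A locally planar drawing of the gadget graph gives a circular order of the terminals in which the
prescribed pairs alternate.
-/

namespace Pool.Agent.LP86

open Cv Vx

variable {k N m : ℕ} {τ : ℕ → ℕ → ℕ} {V : Type} {G : SimpleGraph V}

theorem btw_neg {x a b : ℝ} : Btw (-x) (-a) (-b) ↔ Btw x a b := by
  unfold Btw
  simp only [neg_lt_neg_iff]
  tauto

theorem al_neg {a b c d : ℝ} : Al (-a) (-b) (-c) (-d) ↔ Al a b c d := by
  unfold Al
  rw [btw_neg, btw_neg, btw_neg, btw_neg]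

theorem mono_step {a b c : ℝ} (hab : a < b) (h1 : ¬ Btw c a b) (h2 : ¬ Btw a b c) (hbc : b ≠ c)
    (hac : a ≠ c) : b < c := by
  unfold Btw at *
  grind

theorem mono7 (h : ℕ → ℝ)
    (inj : ∀ a b, 1 ≤ a → a ≤ 7 → 1 ≤ b → b ≤ 7 → h a = h b → a = b)
    (hno : ∀ a l, 1 ≤ a → a + 1 ≤ 7 → 1 ≤ l → l ≤ 7 → l ≠ a → l ≠ a + 1 →
      ¬ Btw (h l) (h a) (h (a + 1))) (h12 : h 1 < h 2) :
    ∀ a, 1 ≤ a → a + 1 ≤ 7 → h a < h (a + 1) := by
  intro a ha
  induction a, ha using Nat.le_induction with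
  | base => intro _; exact h12
  | succ a ha ih =>
    intro h7
    refine mono_step (ih (by omega)) (hno a (a + 2) ha (by omega) (by omega) (by omega) (by omega)
      (by omega)) (hno (a + 1) a (by omega) h7 ha (by omega) (by omega) (by omega)) ?_ ?_
    · intro e; have := inj _ _ (by omega) (by omega) (by omega) (by omega) e; omega
    · intro e; have := inj _ _ (by omega) (by omega) (by omega) (by omega) e; omega

theorem same_side {s T a b : ℝ} (hab : a < b) (h : ¬ Al s T a b) (h1 : a < s) (h2 : s < b)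
    (n1 : T ≠ a) (n2 : T ≠ b) : a < T ∧ T < b := by
  unfold Al Btw at h
  grind

theorem inc_case (h s T : ℕ → ℝ) (hm : ∀ a, 1 ≤ a → a + 1 ≤ 7 → h a < h (a + 1))
    (hs : ∀ j, j < 4 → ∀ l, 1 ≤ l → l ≤ 7 → l ≠ 2 * j + 1 → (h l < s j ↔ h l < h (2 * j + 1)))
    (hs' : ∀ j, j < 4 → ∀ l, 1 ≤ l → l ≤ 7 → s j ≠ h l)
    (hT : ∀ j, j < 4 → ∀ l, 1 ≤ l → l ≤ 7 → T j ≠ h l)
    (hsp : ∀ j, j < 4 → ¬ Btw (h (2 * j + 1)) (s j) (T j))
    (hal : ∀ j, j < 4 → ∀ a, 1 ≤ a → a + 1 ≤ 7 → (a = 2 * j + 1 ∨ a + 1 = 2 * j + 1) →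
      ¬ Al (s j) (T j) (h a) (h (a + 1))) :
    T 0 < T 1 ∧ T 1 < T 2 ∧ T 2 < T 3 := by
  have m1 : h 1 < h 2 := hm 1 (by omega) (by omega)
  have m2 : h 2 < h 3 := hm 2 (by omega) (by omega)
  have m3 : h 3 < h 4 := hm 3 (by omega) (by omega)
  have m4 : h 4 < h 5 := hm 4 (by omega) (by omega)
  have m5 : h 5 < h 6 := hm 5 (by omega) (by omega)
  have m6 : h 6 < h 7 := hm 6 (by omega) (by omega)
  -- upper bounds
  have up : ∀ j, j < 4 → ∀ a, a = 2 * j + 1 → a + 1 ≤ 7 → T j < h (a + 1) ∧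
      (h a < s j → h a < T j) := by
    rintro j hj a ha h7
    subst ha
    have hlt := hm (2 * j + 1) (by omega) h7
    have e1 : s j < h (2 * j + 1 + 1) := by
      have := hs j hj (2 * j + 1 + 1) (by omega) h7 (by omega)
      have n := hs' j hj (2 * j + 1 + 1) (by omega) h7
      rcases lt_trichotomy (s j) (h (2 * j + 1 + 1)) with e | e | e
      · exact e
      · exact absurd e n
      · have := this.1 e; linarith
    have n0 := hs' j hj (2 * j + 1) (by omega) (by omega)
    have n1 := hT j hj (2 * j + 1) (by omega) (by omega)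
    have n2 := hT j hj (2 * j + 1 + 1) (by omega) (by omega)
    have n3 := hsp j hj
    have n4 := hal j hj (2 * j + 1) (by omega) h7 (Or.inl rfl)
    rcases lt_or_gt_of_ne n0 with e | e
    · refine ⟨?_, fun h' => absurd h' (not_lt.2 e.le)⟩
      have : T j < h (2 * j + 1) := by
        unfold Btw at n3
        grind
      linarith
    · have := same_side hlt n4 e e1 n1 n2
      exact ⟨this.2, fun _ => this.1⟩
  have lo : ∀ j, j < 4 → ∀ a, a + 1 = 2 * j + 1 → 1 ≤ a → h a < T j := by
    rintro j hj a ha h1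
    have hlt := hm a h1 (by omega)
    have e1 : h a < s j := by
      refine (hs j hj a h1 (by omega) (by omega)).2 ?_
      rw [← ha]; exact hlt
    have n0 := hs' j hj (a + 1) (by omega) (by omega)
    have n1 := hT j hj (a + 1) (by omega) (by omega)
    have n2 := hT j hj a (by omega) (by omega)
    have n3 := hsp j hj
    rw [← ha] at n3
    have n4 := hal j hj a h1 (by omega) (Or.inr ha)
    rcases lt_or_gt_of_ne n0 with e | e
    · exact (same_side hlt n4 e1 e n2 n1).1
    · have : h (a + 1) < T j := by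
        unfold Btw at n3
        grind
      linarith
  have u0 := (up 0 (by omega) 1 (by omega) (by omega)).1
  have u1 := (up 1 (by omega) 3 (by omega) (by omega)).1
  have u2 := (up 2 (by omega) 5 (by omega) (by omega)).1
  have l1 := lo 1 (by omega) 2 (by omega) (by omega)
  have l2 := lo 2 (by omega) 4 (by omega) (by omega)
  have l3 := lo 3 (by omega) 6 (by omega) (by omega)
  norm_num at u0 u1 u2
  exact ⟨by linarith, by linarith, by linarith⟩

theorem fan_conclude (h s T : ℕ → ℝ)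
    (inj : ∀ a b, 1 ≤ a → a ≤ 7 → 1 ≤ b → b ≤ 7 → h a = h b → a = b)
    (hno : ∀ a l, 1 ≤ a → a + 1 ≤ 7 → 1 ≤ l → l ≤ 7 → l ≠ a → l ≠ a + 1 →
      ¬ Btw (h l) (h a) (h (a + 1)))
    (hs : ∀ j, j < 4 → ∀ l, 1 ≤ l → l ≤ 7 → l ≠ 2 * j + 1 → (h l < s j ↔ h l < h (2 * j + 1)))
    (hs' : ∀ j, j < 4 → ∀ l, 1 ≤ l → l ≤ 7 → s j ≠ h l)
    (hT : ∀ j, j < 4 → ∀ l, 1 ≤ l → l ≤ 7 → T j ≠ h l)
    (hsp : ∀ j, j < 4 → ¬ Btw (h (2 * j + 1)) (s j) (T j))
    (hal : ∀ j, j < 4 → ∀ a, 1 ≤ a → a + 1 ≤ 7 → (a = 2 * j + 1 ∨ a + 1 = 2 * j + 1) →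
      ¬ Al (s j) (T j) (h a) (h (a + 1))) : Al (T 0) (T 2) (T 1) (T 3) := by
  have key : ∀ x y z w : ℝ, x < y → y < z → z < w → Al x z y w := by
    intro x y z w h1 h2 h3
    unfold Al Btw
    exact ⟨Or.inl (Or.inl ⟨h1, h2⟩), Or.inr (Or.inl ⟨h2, h3⟩)⟩
  have n12 : h 1 ≠ h 2 := fun e => by
    have := inj 1 2 (by omega) (by omega) (by omega) (by omega) e; omega
  rcases lt_or_gt_of_ne n12 with h12 | h12
  · obtain ⟨h1, h2, h3⟩ := inc_case h s T (mono7 h inj hno h12) hs hs' hT hsp hal
    exact key _ _ _ _ h1 h2 h3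
  · have hm := mono7 (fun a => - h a) (fun a b h1 h2 h3 h4 e => inj a b h1 h2 h3 h4 (neg_injective e))
      (fun a l h1 h2 h3 h4 h5 h6 => by rw [btw_neg]; exact hno a l h1 h2 h3 h4 h5 h6)
      (by simpa using h12)
    obtain ⟨h1, h2, h3⟩ := inc_case (fun a => - h a) (fun a => - s a) (fun a => - T a) hm
      (fun j hj l h1 h2 h3 => by
        have e := hs j hj l h1 h2 h3
        have n1 := hs' j hj l h1 h2
        have n2 : h l ≠ h (2 * j + 1) := fun e =>
          h3 (inj _ _ h1 h2 (by omega) (by omega) e)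
        simp only [neg_lt_neg_iff]
        constructor
        · intro h'
          rcases lt_or_gt_of_ne n2 with h'' | h''
          · have := e.2 h''; linarith
          · exact h''
        · intro h'
          rcases lt_or_gt_of_ne n1 with h'' | h''
          · exact h''
          · have := e.1 h''; linarith)
      (fun j hj l h1 h2 e => hs' j hj l h1 h2 (neg_injective e))
      (fun j hj l h1 h2 e => hT j hj l h1 h2 (neg_injective e))
      (fun j hj => by rw [btw_neg]; exact hsp j hj)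
      (fun j hj a h1 h2 h3 => by rw [al_neg]; exact hal j hj a h1 h2 h3)
    have := key _ _ _ _ h1 h2 h3
    rwa [al_neg] at this

namespace Model

variable (M : Model k N m τ G)

/-- the vertices of a link path: from the fan to the terminal -/
def S (k : ℕ) (τ : ℕ → ℕ → ℕ) (t j i : ℕ) : Cv :=
  if i = 0 then fan t (2 * j + 1) else if i + 1 = k then term (τ t j) else link t j i

theorem S_valid (hτ : ∀ t < m, ∀ j < 4, τ t j < N) {t j i : ℕ} (ht : t < m) (hj : j < 4)
    (hi : i < k) : CValid k N m (S k τ t j i) := by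
  unfold S
  split_ifs with h1 h2
  · exact ⟨ht, by omega⟩
  · exact hτ t ht j hj
  · exact ⟨ht, hj, by omega, by omega⟩

theorem S_adj (hk : 3 ≤ k) {t j i : ℕ} (hi : i + 1 < k) :
    Bg k τ (S k τ t j i) (S k τ t j (i + 1)) := by
  unfold S
  by_cases h0 : i = 0
  · subst h0
    rw [if_pos rfl, if_neg (by omega), if_neg (by omega)]
    exact ⟨rfl, rfl, rfl⟩
  · rw [if_neg h0, if_neg (by omega : ¬ i + 1 = k), if_neg (by omega : ¬ i + 1 = 0)]
    by_cases h2 : i + 1 + 1 = k
    · rw [if_pos h2]; exact ⟨by omega, rfl⟩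
    · rw [if_neg h2]; exact ⟨rfl, rfl, rfl⟩

theorem S_lam {t j i : ℕ} (hi : 1 ≤ i) : lam k (S k τ t j i) = (k - 1) / 2 := by
  unfold S
  rw [if_neg (by omega)]
  split_ifs <;> rfl

theorem S_ne_fan {t j i : ℕ} (hi : 1 ≤ i) (t' a : ℕ) : S k τ t j i ≠ fan t' a := by
  unfold S
  rw [if_neg (by omega)]
  split_ifs <;> simp

theorem Q_symm_link {u z z' : Cv} (h : lam k u + lam k z + 1 ≤ k ∨ lam k u + lam k z' + 1 ≤ k) :
    M.Q u z z' := by
  rcases h with h | h
  · exact Or.inl h
  · exact Or.inr (Or.inl h)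

theorem hub_adj (hk : 3 ≤ k) {t a : ℕ} (ht : t < m) (h1 : 1 ≤ a) (h8 : a < 8) :
    G.Adj (M.C (fan t 0)) (M.C (fan t a)) :=
  M.adjC hk ⟨ht, by omega⟩ ⟨ht, h8⟩ (Or.inl ⟨rfl, Or.inl ⟨rfl, h1⟩⟩)

theorem wl_fan (hk : 3 ≤ k) {t a b : ℕ} (ht : t < m) (ha : a < 8) (hb : b < 8) :
    Wl G 2 (M.C (fan t a)) (M.C (fan t b)) := by
  have h : ∀ c, c < 8 → Wl G 1 (M.C (fan t 0)) (M.C (fan t c)) := by
    intro c hc
    by_cases h0 : c = 0
    · subst h0; exact (Wl.refl _).mono (by omega)
    · exact Wl.adj (M.hub_adj hk ht (by omega) hc)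
  exact (h a ha).symm.trans (h b hb)

theorem Q_fan (hk : 3 ≤ k) {t a b : ℕ} (ht : t < m) (ha : a < 8) (hb : b < 8) (z' : Cv) :
    M.Q (fan t a) (fan t b) z' := by
  by_cases h : 4 ≤ k
  · exact Or.inr (Or.inr (Or.inl ((M.wl_fan hk ht ha hb).mono (by omega))))
  · left
    simp only [lam]
    omega

theorem wl_S (hk : 3 ≤ k) (hτ : ∀ t < m, ∀ j < 4, τ t j < N) {t j i : ℕ} (ht : t < m)
    (hj : j < 4) (hi : i < k) : Wl G i (M.C (fan t (2 * j + 1))) (M.C (S k τ t j i)) := by
  induction i with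
  | zero => exact Wl.refl _
  | succ i ih =>
    exact (ih (by omega)).trans (Wl.adj (M.adjC hk (S_valid hτ ht hj (by omega))
      (S_valid hτ ht hj hi) (Or.inl (S_adj hk hi))))

include M in
/-- from a drawing to an order -/
theorem order_of_draw [Finite V] (hk : 3 ≤ k) (hτ : ∀ t < m, ∀ j < 4, τ t j < N)
    (hG : KLocallyPlanar k G) :
    ∃ y : ℕ → ℝ, (∀ i < N, ∀ j < N, y i = y j → i = j) ∧
      ∀ t < m, Al (y (τ t 0)) (y (τ t 2)) (y (τ t 1)) (y (τ t 3)) := by
  obtain ⟨D, hD⟩ := hG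
  obtain ⟨y, hy, hno⟩ := M.exists_order hk D hD
  refine ⟨fun i => y (term i), fun i hi j hj e => ?_, fun t ht => ?_⟩
  · have := hy (term i) (term j) hi hj e
    simpa using this
  have v0 : CValid k N m (fan t 0) := ⟨ht, by omega⟩
  have vf : ∀ a, a < 8 → CValid k N m (fan t a) := fun a ha => ⟨ht, ha⟩
  set p := y (fan t 0) with hp
  have hne : ∀ w, CValid k N m w → w ≠ fan t 0 → y w ≠ p := fun w hw h e => h (hy w _ hw v0 e)
  -- spokes against edges of the fan
  have spoke : ∀ w w' l, CValid k N m w → CValid k N m w' → Bg k τ w w' → 1 ≤ l → l < 8 →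
      w ≠ fan t 0 → w' ≠ fan t 0 → w ≠ fan t l → w' ≠ fan t l →
      M.Q (fan t 0) w w' → M.Q (fan t l) w w' → M.Q w (fan t 0) (fan t l) →
      M.Q w' (fan t 0) (fan t l) →
      Near G k s(M.C (fan t 0), M.C (fan t l)) s(M.C w, M.C w') →
      ¬ Btw (cut p (y (fan t l))) (cut p (y w)) (cut p (y w')) := by
    intro w w' l hw hw' hB h1 h8 n1 n2 n3 n4 q1 q2 q3 q4 hn hb
    refine hno (fan t 0) (fan t l) w w' v0 (vf l h8) hw hw' (Or.inl ⟨rfl, Or.inl ⟨rfl, h1⟩⟩)
      (Or.inl hB) n1.symm n2.symm n3.symm n4.symm q1 q2 q3 q4 hn ?_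
    exact al_cut_hub (hne _ (vf l h8) (by simp; omega)) (hne _ hw n1) (hne _ hw' n2) hb
  have cinj : ∀ w w', CValid k N m w → CValid k N m w' → w ≠ fan t 0 → w' ≠ fan t 0 →
      cut p (y w) = cut p (y w') → w = w' := fun w w' hw hw' n n' e =>
    hy _ _ hw hw' (cut_inj (hne w hw n) (hne w' hw' n') e)
  -- values of the parameters
  have hSv : ∀ j, j < 4 → ∀ i, i < k → CValid k N m (S k τ t j i) := fun j hj i hi =>
    S_valid hτ ht hj hi
  have hS0 : ∀ j i, S k τ t j i ≠ fan t 0 := by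
    intro j i
    by_cases h : i = 0
    · subst h; unfold S; rw [if_pos rfl]; simp
    · exact S_ne_fan (by omega) _ _
  have hSt : ∀ j, S k τ t j (k - 1) = term (τ t j) := by
    intro j; unfold S; rw [if_neg (by omega), if_pos (by omega)]
  have final := fan_conclude (fun a => cut p (y (fan t a)))
    (fun j => cut p (y (S k τ t j (k - 2)))) (fun j => cut p (y (S k τ t j (k - 1)))) ?_ ?_ ?_ ?_
    ?_ ?_ ?_
  · simp only [hSt] at final
    have nn : ∀ j, j < 4 → y (term (τ t j)) ≠ p := fun j hj => hne _ (hτ t ht j hj) (by simp)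
    rwa [al_cut (nn 0 (by omega)) (nn 2 (by omega)) (nn 1 (by omega)) (nn 3 (by omega))] at final
  · -- injectivity
    intro a b h1 h2 h3 h4 e
    have := cinj _ _ (vf a (by omega)) (vf b (by omega)) (by simp; omega) (by simp; omega) e
    simpa using this
  · -- path edges of the fan
    intro a l h1 h2 h3 h4 n1 n2
    refine spoke (fan t a) (fan t (a + 1)) l (vf a (by omega)) (vf _ (by omega))
      ⟨rfl, Or.inr ⟨h1, rfl⟩⟩ h3 (by omega) (by simp; omega) (by simp) (by simp; omega)
      (by simp; omega) (M.Q_fan hk ht (by omega) (by omega) _)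
      (M.Q_fan hk ht (by omega) (by omega) _) (M.Q_fan hk ht (by omega) (by omega) _)
      (M.Q_fan hk ht (by omega) (by omega) _) ?_
    exact near_of_wl (a := M.C (fan t 0)) (c := M.C (fan t a)) (by simp) (by simp)
      (Wl.adj (M.hub_adj hk ht h1 (by omega))) (by omega)
  · -- link paths keep their place
    intro j hj l h1 h7 hl
    suffices H : ∀ i, i + 2 ≤ k → (cut p (y (fan t l)) < cut p (y (S k τ t j i)) ↔
        cut p (y (fan t l)) < cut p (y (fan t (2 * j + 1)))) from H (k - 2) (by omega)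
    intro i
    induction i with
    | zero => intro _; unfold S; rw [if_pos rfl]
    | succ i ih =>
      intro hi
      rw [← ih (by omega)]
      have hlam : lam k (S k τ t j (i + 1)) = (k - 1) / 2 := S_lam (by omega)
      have hni : S k τ t j i ≠ fan t l := by
        by_cases h : i = 0
        · subst h; unfold S; rw [if_pos rfl]; simpa using fun h => hl h.symm
        · exact S_ne_fan (by omega) _ _
      have hq : M.Q (S k τ t j i) (fan t 0) (fan t l) := by
        by_cases h : i = 0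
        · subst h; unfold S; rw [if_pos rfl]
          exact M.Q_fan hk ht (by omega) (by omega) _
        · left
          rw [S_lam (by omega)]
          simp only [lam]; omega
      have key := spoke (S k τ t j i) (S k τ t j (i + 1)) l (hSv j hj i (by omega))
        (hSv j hj (i + 1) (by omega)) (S_adj hk (by omega)) h1 (by omega) (hS0 j i) (hS0 j _)
        hni (S_ne_fan (by omega) _ _)
        (by right; left; rw [hlam]; simp only [lam]; omega)
        (by right; left; rw [hlam]; simp only [lam]; omega)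
        hq (by left; rw [hlam]; simp only [lam]; omega)
        (near_of_wl (a := M.C (fan t 0)) (c := M.C (S k τ t j i)) (by simp) (by simp)
          ((Wl.adj (M.hub_adj hk ht (by omega : 1 ≤ 2 * j + 1) (by omega))).trans
            (M.wl_S hk hτ ht hj (by omega))) (by omega))
      have e1 : cut p (y (S k τ t j i)) ≠ cut p (y (fan t l)) := fun e =>
        hni (cinj _ _ (hSv j hj i (by omega)) (vf l (by omega)) (hS0 j i) (by simp; omega) e)
      have e2 : cut p (y (S k τ t j (i + 1))) ≠ cut p (y (fan t l)) := fun e =>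
        S_ne_fan (by omega) _ _
          (cinj _ _ (hSv j hj (i + 1) (by omega)) (vf l (by omega)) (hS0 j _) (by simp; omega) e)
      unfold Btw at key
      grind
  · intro j hj l h1 h7 e
    exact S_ne_fan (by omega) _ _ (cinj _ _ (hSv j hj _ (by omega)) (vf l (by omega)) (hS0 j _)
      (by simp; omega) e)
  · intro j hj l h1 h7 e
    exact S_ne_fan (by omega) _ _ (cinj _ _ (hSv j hj _ (by omega)) (vf l (by omega)) (hS0 j _)
      (by simp; omega) e)
  · -- last edge of the link path against the spoke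
    intro j hj
    have hB : Bg k τ (S k τ t j (k - 2)) (S k τ t j (k - 1)) := by
      have := S_adj (τ := τ) hk (t := t) (j := j) (i := k - 2) (by omega)
      rwa [show k - 2 + 1 = k - 1 by omega] at this
    have l1 : lam k (S k τ t j (k - 2)) = (k - 1) / 2 := S_lam (by omega)
    have l2 : lam k (S k τ t j (k - 1)) = (k - 1) / 2 := S_lam (by omega)
    refine spoke _ _ (2 * j + 1) (hSv j hj _ (by omega)) (hSv j hj _ (by omega)) hB (by omega)
      (by omega) (hS0 j _) (hS0 j _) (S_ne_fan (by omega) _ _) (S_ne_fan (by omega) _ _)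
      (by left; rw [l1]; simp only [lam]; omega) (by left; rw [l1]; simp only [lam]; omega)
      (by left; rw [l1]; simp only [lam]; omega) (by left; rw [l2]; simp only [lam]; omega) ?_
    exact near_of_wl (a := M.C (fan t (2 * j + 1))) (c := M.C (S k τ t j (k - 2))) (by simp)
      (by simp) (M.wl_S hk hτ ht hj (by omega)) (by omega)
  · -- last edge of the link path against the path edges
    intro j hj a h1 h7 ha
    have hB : Bg k τ (S k τ t j (k - 2)) (S k τ t j (k - 1)) := by
      have := S_adj (τ := τ) hk (t := t) (j := j) (i := k - 2) (by omega)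
      rwa [show k - 2 + 1 = k - 1 by omega] at this
    have l1 : lam k (S k τ t j (k - 2)) = (k - 1) / 2 := S_lam (by omega)
    have l2 : lam k (S k τ t j (k - 1)) = (k - 1) / 2 := S_lam (by omega)
    show ¬ Al _ _ _ _
    rw [al_cut (hne _ (hSv j hj _ (by omega)) (hS0 j _)) (hne _ (hSv j hj _ (by omega)) (hS0 j _))
      (hne _ (vf a (by omega)) (by simp; omega)) (hne _ (vf (a + 1) (by omega)) (by simp))]
    refine hno _ _ (fan t a) (fan t (a + 1)) (hSv j hj _ (by omega)) (hSv j hj _ (by omega))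
      (vf a (by omega)) (vf _ (by omega)) (Or.inl hB) (Or.inl ⟨rfl, Or.inr ⟨h1, rfl⟩⟩)
      (S_ne_fan (by omega) _ _) (S_ne_fan (by omega) _ _) (S_ne_fan (by omega) _ _)
      (S_ne_fan (by omega) _ _)
      (by left; rw [l1]; simp only [lam]; omega) (by left; rw [l2]; simp only [lam]; omega)
      (by left; rw [l1]; simp only [lam]; omega) (by left; rw [l1]; simp only [lam]; omega) ?_
    refine near_of_wl (a := M.C (S k τ t j (k - 2))) (c := M.C (fan t (2 * j + 1))) (by simp)
      ?_ (M.wl_S hk hτ ht hj (by omega)).symm (by omega)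
    rcases ha with ha | ha
    · rw [← ha]; simp
    · rw [← ha]; simp

end Model

end Pool.Agent.LP86
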