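import Pool.Agent.LP86.Csp
import Pool.Agent.LP86.Rev2
import Pool.Agent.LP86.Ord2
import Pool.Agent.Lib.helper10.Kit2

/-!
The recognition of `k`-locally planar graphs is NP-hard for every `k ≥ 3`.
-/

namespace Pool.Agent.LP86

open Pool.Agent.Cx Cv Vx

/-- codes of vertices: kind, three coordinates, position on the leg -/
abbrev Tup := ℕ × ℕ × ℕ × ℕ × ℕ

/-- valid codes -/
def tv (k N m : ℕ) (x : Tup) : Prop :=
  (x.1 = 0 ∧ x.2.1 = 0 ∧ x.2.2.1 = 0 ∧ x.2.2.2.1 = 0 ∧ x.2.2.2.2 = 0) ∨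
  (x.1 = 1 ∧ x.2.1 < N ∧ x.2.2.1 = 0 ∧ x.2.2.2.1 = 0 ∧ 1 ≤ x.2.2.2.2 ∧ x.2.2.2.2 ≤ (k - 1) / 2) ∨
  (x.1 = 2 ∧ x.2.1 < m ∧ x.2.2.1 < 8 ∧ x.2.2.2.1 = 0 ∧ 1 ≤ x.2.2.2.2 ∧ x.2.2.2.2 ≤ k / 2) ∨
  (x.1 = 3 ∧ x.2.1 < m ∧ x.2.2.1 < 4 ∧ 1 ≤ x.2.2.2.1 ∧ x.2.2.2.1 + 2 ≤ k ∧ 1 ≤ x.2.2.2.2 ∧
    x.2.2.2.2 ≤ (k - 1) / 2)

instance (k N m : ℕ) : DecidablePred (tv k N m) := fun _ => by unfold tv; infer_instance

/-- generators of the adjacency of circle vertices, on codes -/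
def tb (k : ℕ) (Q : List (List ℕ)) (x y : Tup) : Prop :=
  (x.1 = 2 ∧ y.1 = 2 ∧ x.2.1 = y.2.1 ∧
    ((x.2.2.1 = 0 ∧ 1 ≤ y.2.2.1) ∨ (1 ≤ x.2.2.1 ∧ y.2.2.1 = x.2.2.1 + 1))) ∨
  (x.1 = 2 ∧ y.1 = 3 ∧ x.2.1 = y.2.1 ∧ y.2.2.2.1 = 1 ∧ x.2.2.1 = 2 * y.2.2.1 + 1) ∨
  (x.1 = 3 ∧ y.1 = 3 ∧ x.2.1 = y.2.1 ∧ x.2.2.1 = y.2.2.1 ∧ y.2.2.2.1 = x.2.2.2.1 + 1) ∨
  (x.1 = 3 ∧ y.1 = 1 ∧ x.2.2.2.1 + 2 = k ∧ y.2.1 = (Q.getD x.2.1 []).getD x.2.2.1 0)

instance (k : ℕ) (Q : List (List ℕ)) (x y : Tup) : Decidable (tb k Q x y) := by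
  unfold tb; infer_instance

/-- leg length, on codes -/
def tl (k : ℕ) (x : Tup) : ℕ := if x.1 = 2 then k / 2 else (k - 1) / 2

/-- generators of the adjacency, on codes -/
def tg (k : ℕ) (Q : List (List ℕ)) (x y : Tup) : Prop :=
  (x.1 = 0 ∧ y.1 ≠ 0 ∧ y.2.2.2.2 = 1) ∨
  (x.1 ≠ 0 ∧ x.1 = y.1 ∧ x.2.1 = y.2.1 ∧ x.2.2.1 = y.2.2.1 ∧ x.2.2.2.1 = y.2.2.2.1 ∧
    y.2.2.2.2 = x.2.2.2.2 + 1) ∨
  (x.2.2.2.2 = tl k x ∧ y.2.2.2.2 = tl k y ∧ tb k Q x y)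

instance (k : ℕ) (Q : List (List ℕ)) (x y : Tup) : Decidable (tg k Q x y) := by
  unfold tg; infer_instance

/-- the adjacency, on codes -/
def tr (k : ℕ) (Q : List (List ℕ)) (x y : Tup) : Prop := tg k Q x y ∨ tg k Q y x

instance (k : ℕ) (Q : List (List ℕ)) : DecidableRel (tr k Q) := fun _ _ => by
  unfold tr; infer_instance

theorem tr_symm {k : ℕ} {Q : List (List ℕ)} {x y : Tup} (h : tr k Q x y) : tr k Q y x := Or.symm h

theorem tr_irrefl {k : ℕ} {Q : List (List ℕ)} (x : Tup) : ¬ tr k Q x x := by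
  unfold tr tg tb
  omega

/-- all vertices -/
def tE (k N m : ℕ) : List Tup :=
  (List.range 4 ×ˢ (List.range (N + m + 1) ×ˢ (List.range 8 ×ˢ
    (List.range (k + 1) ×ˢ List.range (k + 1))))).filter fun x => decide (tv k N m x)

theorem mem_tE {k N m : ℕ} {x : Tup} : x ∈ tE k N m ↔ tv k N m x := by
  obtain ⟨a, b, c, d, e⟩ := x
  have h : (a, b, c, d, e) ∈ List.range 4 ×ˢ (List.range (N + m + 1) ×ˢ (List.range 8 ×ˢ
    (List.range (k + 1) ×ˢ List.range (k + 1)))) ↔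
      a < 4 ∧ b < N + m + 1 ∧ c < 8 ∧ d < k + 1 ∧ e < k + 1 := by simp
  rw [tE, List.mem_filter, h, decide_eq_true_eq]
  unfold tv
  simp only
  omega

theorem tE_nodup {k N m : ℕ} : (tE k N m).Nodup :=
  (List.nodup_range.product (List.nodup_range.product (List.nodup_range.product
    (List.nodup_range.product List.nodup_range)))).filter _

/-- decoding -/
def dcv (x : Tup) : Cv :=
  if x.1 = 1 then term x.2.1 else if x.1 = 2 then fan x.2.1 x.2.2.1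
  else link x.2.1 x.2.2.1 x.2.2.2.1

def dvx (x : Tup) : Vx := if x.1 = 0 then ctr else leg (dcv x) x.2.2.2.2

theorem dvx_inj {k N m : ℕ} {x y : Tup} (hx : tv k N m x) (hy : tv k N m y)
    (h : dvx x = dvx y) : x = y := by
  obtain ⟨a, b, c, d, e⟩ := x
  obtain ⟨a', b', c', d', e'⟩ := y
  unfold tv at hx hy
  simp only at hx hy
  unfold dvx dcv at h
  simp only [Prod.mk.injEq]
  rcases hx with hx | hx | hx | hx <;> rcases hy with hy | hy | hy | hy <;>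
    simp [hx.1, hy.1] at h <;> omega

theorem dvx_val {k N m : ℕ} {x : Tup} (hx : tv k N m x) : VValid k N m (dvx x) := by
  obtain ⟨a, b, c, d, e⟩ := x
  unfold tv at hx
  simp only at hx
  unfold dvx dcv
  rcases hx with hx | hx | hx | hx
  · simp [hx.1, VValid]
  · simp [hx.1, VValid, CValid, lam]; omega
  · simp [hx.1, VValid, CValid, lam]; omega
  · simp [hx.1, VValid, CValid, lam]; omega

theorem dvx_sur {k N m : ℕ} {v : Vx} (hv : VValid k N m v) : ∃ x, tv k N m x ∧ dvx x = v := by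
  cases v with
  | ctr => exact ⟨(0, 0, 0, 0, 0), Or.inl ⟨rfl, rfl, rfl, rfl, rfl⟩, rfl⟩
  | leg w p =>
    obtain ⟨h1, h2, h3⟩ := hv
    cases w with
    | term i => exact ⟨(1, i, 0, 0, p), Or.inr (Or.inl ⟨rfl, h1, rfl, rfl, h2, h3⟩), rfl⟩
    | fan t a =>
      exact ⟨(2, t, a, 0, p), Or.inr (Or.inr (Or.inl ⟨rfl, h1.1, h1.2, rfl, h2, h3⟩)), rfl⟩
    | link t j i =>
      exact ⟨(3, t, j, i, p), Or.inr (Or.inr (Or.inr ⟨rfl, h1.1, h1.2.1, h1.2.2.1, h1.2.2.2,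
        h2, h3⟩)), rfl⟩

theorem tg_iff {k N m : ℕ} (Q : List (List ℕ)) {x y : Tup} (hx : tv k N m x) (hy : tv k N m y) :
    tg k Q x y ↔ Vg k (fun t j => (Q.getD t []).getD j 0) (dvx x) (dvx y) := by
  obtain ⟨a, b, c, d, e⟩ := x
  obtain ⟨a', b', c', d', e'⟩ := y
  unfold tv at hx hy
  simp only at hx hy
  unfold tg tb tl dvx dcv
  simp only
  rcases hx with hx | hx | hx | hx <;> rcases hy with hy | hy | hy | hy <;>
    simp [hx.1, hy.1, Vg, Bg, lam] <;> omega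

theorem model {k N : ℕ} (Q : List (List ℕ)) {M : List (List Bool)}
    (hM : M = mat (tE k N Q.length) fun p q => decide (tr k Q p q)) :
    IsGraph M ∧ Nonempty (Model k N Q.length (fun t j => (Q.getD t []).getD j 0) (graphOf M)) := by
  obtain ⟨h1, f, h2, h3, h4, -⟩ := graph_kit (tE k N Q.length) (tr k Q)
    (fun _ _ => tr_symm) tr_irrefl tE_nodup hM
  have hv : ∀ a, tv k N Q.length (f a) := fun a => mem_tE.1 ((h3 _).1 ⟨a, rfl⟩)
  refine ⟨h1, ⟨⟨fun a => dvx (f a), fun a b h => h4 (dvx_inj (hv a) (hv b) h),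
    fun a => dvx_val (hv a), fun x hx => ?_, fun u v => ?_⟩⟩⟩
  · obtain ⟨t, ht, rfl⟩ := dvx_sur hx
    obtain ⟨a, rfl⟩ := (h3 t).2 (mem_tE.2 ht)
    exact ⟨a, rfl⟩
  · rw [h2, ← tg_iff Q (hv u) (hv v), ← tg_iff Q (hv v) (hv u)]
    rfl

/-- the graph of a formula -/
def gr (k : ℕ) (φ : CNF) : List (List Bool) :=
  mat (tE k (nt (size φ)) (quads φ).length) fun p q => decide (tr k (quads φ) p q)

theorem gr_spec {k : ℕ} (hk : 3 ≤ k) (φ : CNF) :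
    Sat φ ↔ IsGraph (gr k φ) ∧ KLocallyPlanar k (graphOf (gr k φ)) := by
  obtain ⟨h1, ⟨M⟩⟩ := model (k := k) (N := nt (size φ)) (quads φ) (M := gr k φ) rfl
  have hq : ∀ t < (quads φ).length, (quads φ).getD t [] ∈ quads φ := fun t ht => by
    rw [List.getD_eq_getElem _ _ ht]; exact List.getElem_mem ht
  have hτ : ∀ t < (quads φ).length, ∀ j < 4, ((quads φ).getD t []).getD j 0 < nt (size φ) := by
    intro t ht j _
    by_cases hj : j < ((quads φ).getD t []).length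
    · rw [List.getD_eq_getElem _ _ hj]
      exact quads_lt (hq t ht) _ (List.getElem_mem hj)
    · rw [List.getD_eq_default _ _ (by omega)]
      unfold nt; omega
  rw [sat_iff]
  constructor
  · rintro ⟨y, hy, hal⟩
    exact ⟨h1, draw_of_order hk M y hy hτ fun t ht => hal _ (hq t ht)⟩
  · rintro ⟨-, hG⟩
    obtain ⟨y, hy, hal⟩ := M.order_of_draw hk hτ hG
    refine ⟨y, hy, fun q hq' => ?_⟩
    obtain ⟨t, ht, rfl⟩ := List.getElem_of_mem hq'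
    have := hal t ht
    simpa only [QSep, List.getD_eq_getElem _ _ ht] using this

theorem pt_tE {α : Type} [Enc α] (k : ℕ) {N m : α → ℕ} (hN : PT N) (hm : PT m) :
    PT fun a => tE k (N a) (m a) := by
  unfold tE
  refine PT.filter (f := fun a x => decide (tv k (N a) (m a) x)) (PP.decide ?_) (by fun_prop)
  unfold tv
  fun_prop

theorem pt_gr (k : ℕ) : PT (gr k) := by
  unfold gr
  refine PT.mat (r := fun φ p q => decide (tr k (quads φ) p q)) (pt_tE k (by unfold nt; fun_prop)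
    (PT.length pt_quads)) (PP.decide ?_)
  have hq : PT quads := pt_quads
  unfold tr tg tb tl
  fun_prop

theorem hard_recognition {k : ℕ} (hk : 3 ≤ k) :
    Hard fun M : List (List Bool) => IsGraph M ∧ KLocallyPlanar k (graphOf M) :=
  hard_sat.red (pt_gr k) (gr_spec hk)

/-- Recognizing `k`-locally planar graphs is NP-hard for every `k ≥ 3`. -/
theorem npHard_recognition {k : ℕ} (hk : 3 ≤ k) : NPHard (Recognition k) :=
  (hard_recognition hk).npHard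

end Pool.Agent.LP86
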