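import Pool.Agent.LP86.Ver
import Pool.Agent.LP86.Hard

/-!
The recognition problem for `k`-locally planar graphs is in NP.
-/

namespace Pool.Agent.LP86

open Pool.Agent.Cx Pool.Agent.Cis Polynomial

variable {M : List (List Bool)}

theorem rch_iff (hM : IsGraph M) (t : ℕ) : ∀ a c : Fin M.length,
    rch M t a c ↔ ∃ w : (graphOf M).Walk a c, w.length ≤ t := by
  induction t with
  | zero =>
    intro a c
    unfold rch
    constructor
    · intro h
      have : a = c := Fin.ext h
      subst this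
      exact ⟨SimpleGraph.Walk.nil, le_rfl⟩
    · rintro ⟨w, hw⟩
      exact congrArg Fin.val (SimpleGraph.Walk.eq_of_length_eq_zero (by omega : w.length = 0))
  | succ t ih =>
    intro a c
    unfold rch
    constructor
    · rintro (h | ⟨b, hb, hab, h⟩)
      · obtain ⟨w, hw⟩ := (ih a c).1 h
        exact ⟨w, by omega⟩
      · obtain ⟨w, hw⟩ := (ih ⟨b, hb⟩ c).1 h
        have hadj : (graphOf M).Adj a ⟨b, hb⟩ := (adj_iff hM _ _).2 hab
        exact ⟨SimpleGraph.Walk.cons hadj w, by simpa using hw⟩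
    · rintro ⟨w, hw⟩
      cases w with
      | nil => exact Or.inl ((ih _ _).2 ⟨SimpleGraph.Walk.nil, by simp⟩)
      | @cons _ b _ hadj w =>
        right
        rw [SimpleGraph.Walk.length_cons] at hw
        exact ⟨b.1, b.2, (adj_iff hM _ _).1 hadj, (ih b c).2 ⟨w, by omega⟩⟩

theorem nearb_iff (hM : IsGraph M) {k : ℕ} (hk : 2 ≤ k) (e f : Ed (graphOf M)) :
    nrE (graphOf M) k e f ↔ nearb k M e.1.1 e.1.2 f.1.1 f.1.2 := by
  unfold nearb
  rw [rch_iff hM, rch_iff hM, rch_iff hM, rch_iff hM]
  unfold nrE Near Ed.sym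
  simp only [Sym2.mem_iff]
  constructor
  · rintro ⟨a, ha, c, hc, w, hw⟩
    rcases ha with rfl | rfl <;> rcases hc with rfl | rfl
    · exact Or.inl ⟨w, by omega⟩
    · exact Or.inr (Or.inl ⟨w, by omega⟩)
    · exact Or.inr (Or.inr (Or.inl ⟨w, by omega⟩))
    · exact Or.inr (Or.inr (Or.inr ⟨w, by omega⟩))
  · rintro (⟨w, hw⟩ | ⟨w, hw⟩ | ⟨w, hw⟩ | ⟨w, hw⟩)
    · exact ⟨_, Or.inl rfl, _, Or.inl rfl, w, by omega⟩
    · exact ⟨_, Or.inl rfl, _, Or.inr rfl, w, by omega⟩
    · exact ⟨_, Or.inr rfl, _, Or.inl rfl, w, by omega⟩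
    · exact ⟨_, Or.inr rfl, _, Or.inr rfl, w, by omega⟩

theorem ver_sound {k : ℕ} (hk : 2 ≤ k) {c : Crt} (h : ver k M c) :
    IsGraph M ∧ KLocallyPlanar k (graphOf M) := by
  obtain ⟨hM, h1, h2, h3⟩ := h
  refine ⟨hM, ?_⟩
  push Not at h3
  have hadj : ∀ e : Ed (graphOf M), ent M e.1.1 e.1.2 = true := fun e => (adj_iff hM _ _).1 e.2.2
  refine klp_of_cert (ρ := fun v => c.1.getD v.1 0) (fun u v huv => ?_)
    (fun e => rulC M.length c e.1.1 e.1.2)
    (fun e f => tabC M.length c e.1.1 e.1.2 f.1.1 f.1.2) (fun e => ?_) (fun e f hef => ?_)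
  · simp only at huv
    rw [List.getD_eq_getElem _ _ (by rw [h1]; exact u.2),
      List.getD_eq_getElem _ _ (by rw [h1]; exact v.2)] at huv
    exact Fin.ext (h2.getElem_inj_iff.1 huv)
  · exact (h3 _ e.1.1.2 _ e.1.2.2 e.2.1 (hadj e)).1
  · have h4 := (h3 _ e.1.1.2 _ e.1.2.2 e.2.1 (hadj e)).2
    unfold ver2 at h4
    push Not at h4
    refine h4 _ f.1.1.2 _ f.1.2.2 f.2.1 (hadj f) ?_
    rcases hef with rfl | hn
    · exact Or.inl ⟨rfl, rfl⟩
    · exact Or.inr ((nearb_iff hM hk e f).1 hn)

/-- bound for the size of a certificate -/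
def cF {S : Type} [CommSemiring S] (c : S) : S :=
  (c * (2 * c + 2) + 1) + ((c * c * (rF c + 2) + 1) + (c * c * (c * c) * (tF c + 2) + 1) + 1) + 1

theorem idx_lt {n u v : ℕ} (hu : u < n) (hv : v < n) : u * n + v < n * n := by
  have : (u + 1) * n ≤ n * n := Nat.mul_le_mul_right _ hu
  rw [add_mul, one_mul] at this
  omega

theorem idx_div {n u v : ℕ} (hv : v < n) : (u * n + v) / n = u ∧ (u * n + v) % n = v := by
  have hn : 0 < n := by omega
  constructor
  · rw [add_comm, Nat.add_mul_div_right _ _ hn, Nat.div_eq_of_lt hv, zero_add]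
  · rw [add_comm, Nat.add_mul_mod_self_right, Nat.mod_eq_of_lt hv]

theorem ver_complete {k : ℕ} (hk : 2 ≤ k) (hM : IsGraph M) (h : KLocallyPlanar k (graphOf M)) :
    ∃ c : Crt, size c ≤ cF M.length ∧ ver k M c := by
  classical
  obtain ⟨ρ, R, t, hρ, hρc, hW, hP, hR, ht⟩ := cert_of_klp h
  rw [Fintype.card_fin] at hρc hR ht
  -- the lists
  let E : ℕ → ℕ → Option (Ed (graphOf M)) := fun u v =>
    if h : ∃ e : Ed (graphOf M), e.1.1.1 = u ∧ e.1.2.1 = v then some h.choose else none
  have hE : ∀ e : Ed (graphOf M), E e.1.1 e.1.2 = some e := by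
    intro e
    have hex : ∃ e' : Ed (graphOf M), e'.1.1.1 = e.1.1.1 ∧ e'.1.2.1 = e.1.2.1 := ⟨e, rfl, rfl⟩
    simp only [E]
    rw [dif_pos hex]
    obtain ⟨h1, h2⟩ := hex.choose_spec
    exact congrArg some (Subtype.ext (Prod.ext (Fin.ext h1) (Fin.ext h2)))
  let fR : ℕ → List Rule := fun i => ((E (i / M.length) (i % M.length)).map R).getD []
  let fT : ℕ → Tb := fun i => ((E (i / (M.length * M.length) / M.length) (i / (M.length * M.length) % M.length)).bind fun e =>
    (E (i % (M.length * M.length) / M.length) (i % (M.length * M.length) % M.length)).map fun f => t e f).getD dT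
  have hfR : ∀ i, size (fR i) ≤ rF M.length + 1 := by
    intro i
    simp only [fR]
    cases E (i / M.length) (i % M.length) with
    | none => simp
    | some e => exact (hR e).trans (Nat.le_succ _)
  have hdT : size dT ≤ tF M.length + 1 := by
    have e0 : size (0 : ℤ) ≤ zF M.length := by
      refine (size_int_le (k := bF M.length + 3) (by simp)).trans ?_
      unfold zF; omega
    simp only [size_pair, size_nil]
    unfold tF
    omega
  have hfT : ∀ i, size (fT i) ≤ tF M.length + 1 := by
    intro i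
    simp only [fT]
    cases E (i / (M.length * M.length) / M.length) (i / (M.length * M.length) % M.length) with
    | none => exact hdT
    | some e =>
      cases E (i % (M.length * M.length) / M.length) (i % (M.length * M.length) % M.length) with
      | none => exact hdT
      | some f => exact (ht e f).trans (Nat.le_succ _)
  set c : Crt := (List.ofFn ρ, (List.range (M.length * M.length)).map fR,
    (List.range (M.length * M.length * (M.length * M.length))).map fT) with hc
  have hrul : ∀ e : Ed (graphOf M), rulC M.length c e.1.1 e.1.2 = R e := by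
    intro e
    have h1 := idx_lt e.1.1.2 e.1.2.2
    obtain ⟨h2, h3⟩ := idx_div (u := e.1.1.1) e.1.2.2
    show ((List.range (M.length * M.length)).map fR).getD _ [] = _
    rw [List.getD_eq_getElem _ _ (by simpa using h1), List.getElem_map, List.getElem_range]
    simp only [fR]
    rw [h2, h3, hE e]
    rfl
  have htab : ∀ e f : Ed (graphOf M), tabC M.length c e.1.1 e.1.2 f.1.1 f.1.2 = t e f := by
    intro e f
    have h1 := idx_lt e.1.1.2 e.1.2.2
    obtain ⟨h2, h3⟩ := idx_div (u := e.1.1.1) e.1.2.2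
    have g1 := idx_lt f.1.1.2 f.1.2.2
    obtain ⟨g2, g3⟩ := idx_div (u := f.1.1.1) f.1.2.2
    have h4 := idx_lt h1 g1
    obtain ⟨h5, h6⟩ := idx_div (u := e.1.1.1 * M.length + e.1.2.1) g1
    show ((List.range (M.length * M.length * (M.length * M.length))).map fT).getD _ dT = _
    rw [List.getD_eq_getElem _ _ (by simpa using h4), List.getElem_map, List.getElem_range]
    simp only [fT]
    rw [h5, h6, h2, h3, g2, g3, hE e, hE f]
    rfl
  have hed : ∀ u < M.length, ∀ v < M.length, u < v → ent M u v = true →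
      ∃ e : Ed (graphOf M), e.1.1.1 = u ∧ e.1.2.1 = v := fun u hu v hv huv he =>
    ⟨⟨(⟨u, hu⟩, ⟨v, hv⟩), huv, (adj_iff hM _ _).2 he⟩, rfl, rfl⟩
  have hrk : ∀ v : Fin M.length, c.1.getD v.1 0 = ρ v := by
    intro v
    show (List.ofFn ρ).getD v.1 0 = _
    rw [List.getD_eq_getElem _ _ (by rw [List.length_ofFn]; exact v.2), List.getElem_ofFn]
  refine ⟨c, ?_, hM, by simp [hc], List.nodup_ofFn.2 hρ, ?_⟩
  · have s1 : size c.1 ≤ M.length * (2 * M.length + 2) + 1 := by
      refine size_list_le' (B := 2 * M.length + 1) (fun a ha => ?_) (by simp [hc])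
      obtain ⟨v, rfl⟩ := (List.mem_ofFn' _ _).1 ha
      have := hρc v
      simp only [size_nat]
      omega
    have s2 : size c.2.1 ≤ M.length * M.length * (rF M.length + 2) + 1 := by
      refine size_list_le' (B := rF M.length + 1) (fun a ha => ?_) (by simp [hc])
      obtain ⟨i, -, rfl⟩ := List.mem_map.1 ha
      exact hfR i
    have s3 : size c.2.2 ≤ M.length * M.length * (M.length * M.length) * (tF M.length + 2) + 1 := by
      refine size_list_le' (B := tF M.length + 1) (fun a ha => ?_) (by simp [hc])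
      obtain ⟨i, -, rfl⟩ := List.mem_map.1 ha
      exact hfT i
    have : size c = size c.1 + (size c.2.1 + size c.2.2 + 1) + 1 := by
      obtain ⟨c1, c2, c3⟩ := c
      simp only [size_pair]
    rw [this]
    unfold cF
    omega
  · rintro ⟨u, hu, v, hv, huv, he, hbad⟩
    obtain ⟨e, rfl, rfl⟩ := hed u hu v hv huv he
    rcases hbad with hbad | ⟨u', hu', v', hv', huv', he', hnr, hbad⟩
    · rw [hrul, hrk, hrk] at hbad
      exact hbad (hW e)
    · obtain ⟨f, rfl, rfl⟩ := hed u' hu' v' hv' huv' he'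
      rw [hrul, hrul, htab] at hbad
      refine hbad (hP e f ?_)
      rcases hnr with ⟨h1, h2⟩ | h1
      · exact Or.inl (Subtype.ext (Prod.ext (Fin.ext h1) (Fin.ext h2)))
      · exact Or.inr ((nearb_iff hM hk e f).2 h1)

/-- The recognition problem for `k`-locally planar graphs is in NP for every `k ≥ 2`. -/
theorem inNP_recognition {k : ℕ} (hk : 2 ≤ k) : InNP (Recognition k) := by
  classical
  refine inNP_Lang (β := Crt) (V := fun x => decide (ver k x.1 x.2)) (PP.decide (pp_ver k))
    (cF (X : ℕ[X])) (fun M hM => ?_) (fun M c h => ?_)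
  · obtain ⟨c, h1, h2⟩ := ver_complete hk hM.1 hM.2
    refine ⟨c, h1.trans ?_, decide_eq_true h2⟩
    have h3 : (cF (X : ℕ[X])).eval M.length = cF M.length := by
      simp [cF, rF, tF, lF, zF, bF, nF]
    rw [← h3]
    exact eval_mono _ (length_lt_size M).le
  · exact ver_sound hk (of_decide_eq_true h)

/-- Recognizing `k`-locally planar graphs is NP-complete for every `k ≥ 3`. -/
theorem npComplete_recognition {k : ℕ} (hk : 3 ≤ k) : NPComplete (Recognition k) :=
  ⟨inNP_recognition (by omega), npHard_recognition hk⟩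

end Pool.Agent.LP86
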