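import Pool.Agent.LP86.Sys

/-!
The mirror argument: in a shortest system no gap contains a nonempty run of positions that every
sequence meets an even number of times.
-/

namespace Pool.Agent.LP86

variable {Λ ι : Type} [LinearOrder Λ]

/-- order indicator modulo two -/
def lt2 (x y : Λ) : ZMod 2 := if x < y then 1 else 0

theorem cr_zero {a b c d : Λ} (h : ¬ Al a b c d) (h1 : a ≠ c) (h2 : a ≠ d) (h3 : b ≠ c)
    (h4 : b ≠ d) : lt2 a c + lt2 a d + (lt2 b c + lt2 b d) = 0 := by
  unfold lt2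
  unfold Al Btw at h
  split_ifs <;> first | decide | (exfalso; grind)

theorem cr_one {a b c d : Λ} (h : Al a b c d) : lt2 a c + lt2 a d ≠ lt2 b c + lt2 b d := by
  unfold lt2
  unfold Al Btw at h
  split_ifs <;> first | decide | (exfalso; grind)

/-- sum over the ends of the steps `k ≤ a < l` of page `P` -/
def Ap (s : Sq Λ) (k l : ℕ) (P : Bool) (φ : Λ → ZMod 2) : ZMod 2 :=
  ∑ a ∈ Finset.Ico k l, if s.g a = P then φ (s.p a) + φ (s.p (a + 1)) else 0

theorem Ap_add (s : Sq Λ) (k l : ℕ) (P : Bool) (φ ψ : Λ → ZMod 2) :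
    Ap s k l P (fun x => φ x + ψ x) = Ap s k l P φ + Ap s k l P ψ := by
  unfold Ap
  rw [← Finset.sum_add_distrib]
  refine Finset.sum_congr rfl fun a _ => ?_
  split_ifs
  · ring
  · simp

theorem z2 (x : ZMod 2) : x + x = 0 := by revert x; decide

theorem z2' {x y : ZMod 2} (h : x + y = 0) : x = y := by revert x y; decide

theorem Ap_sum (s : Sq Λ) {k l : ℕ} (h : k ≤ l) (φ : Λ → ZMod 2) :
    Ap s k l true φ + Ap s k l false φ = φ (s.p k) + φ (s.p l) := by
  induction l, h using Nat.le_induction with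
  | base => simp [Ap, z2]
  | succ l hl ih =>
    unfold Ap at *
    rw [Finset.sum_Ico_succ_top hl, Finset.sum_Ico_succ_top hl]
    generalize ∑ a ∈ Finset.Ico k l, (if s.g a = true then φ (s.p a) + φ (s.p (a + 1)) else 0) = A
      at *
    generalize ∑ a ∈ Finset.Ico k l, (if s.g a = false then φ (s.p a) + φ (s.p (a + 1)) else 0) = B
      at *
    generalize φ (s.p k) = u at *
    generalize φ (s.p l) = v at *
    generalize φ (s.p (l + 1)) = w at *
    cases s.g l <;> simp only [if_true, if_false, Bool.false_eq_true, reduceCtorEq] <;>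
    · revert A B u v w; decide

theorem Ap_vanish (s : Sq Λ) {k l : ℕ} (h : k < l) (P : Bool) (φ : Λ → ZMod 2)
    (h0 : ∀ a, k < a → a < l → φ (s.p a) = 0) :
    Ap s k l P φ = (if s.g k = P then φ (s.p k) else 0) +
      (if s.g (l - 1) = P then φ (s.p l) else 0) := by
  unfold Ap
  have e : ∀ a, (if s.g a = P then φ (s.p a) + φ (s.p (a + 1)) else 0) =
      (if s.g a = P then φ (s.p a) else 0) + (if s.g a = P then φ (s.p (a + 1)) else 0) := by
    intro a; split_ifs <;> simp
  simp only [e]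
  rw [Finset.sum_add_distrib]
  congr 1
  · rw [Finset.sum_eq_single k]
    · intro b hb hbk
      rw [Finset.mem_Ico] at hb
      rw [h0 b (by omega) hb.2]; simp
    · intro hk; exact absurd (Finset.mem_Ico.2 ⟨le_rfl, h⟩) hk
  · rw [Finset.sum_eq_single (l - 1)]
    · rw [show l - 1 + 1 = l by omega]
    · intro b hb hbk
      rw [Finset.mem_Ico] at hb
      rw [h0 (b + 1) (by omega) (by omega)]; simp
    · intro hk; exact absurd (Finset.mem_Ico.2 ⟨by omega, by omega⟩) hk

/-- two portions that cross nowhere -/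
theorem Ap_cross (s t : Sq Λ) {k l k' l' : ℕ} (P : Bool)
    (hd : ∀ a, k ≤ a → a ≤ l → ∀ b, k' ≤ b → b ≤ l' → s.p a ≠ t.p b)
    (hn : ∀ a, k ≤ a → a < l → ∀ b, k' ≤ b → b < l' → s.g a = t.g b →
      ¬ Al (s.p a) (s.p (a + 1)) (t.p b) (t.p (b + 1))) :
    Ap s k l P (fun x => Ap t k' l' P (lt2 x)) = 0 := by
  unfold Ap
  refine Finset.sum_eq_zero fun a ha => ?_
  rw [Finset.mem_Ico] at ha
  split_ifs with h
  · rw [← Finset.sum_add_distrib]
    refine Finset.sum_eq_zero fun b hb => ?_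
    rw [Finset.mem_Ico] at hb
    split_ifs with h'
    · exact cr_zero (hn a ha.1 ha.2 b hb.1 hb.2 (h.trans h'.symm)) (hd _ (by omega) (by omega) _
        (by omega) (by omega)) (hd _ (by omega) (by omega) _ (by omega) (by omega))
        (hd _ (by omega) (by omega) _ (by omega) (by omega))
        (hd _ (by omega) (by omega) _ (by omega) (by omega))
    · simp
  · rfl

/-- excursions from a run do not interleave -/
theorem outer (s t : Sq Λ) {α β : Λ} {k l k' l' : ℕ} (hkl : k < l) (hkl' : k' < l')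
    (hd : ∀ a, k ≤ a → a ≤ l → ∀ b, k' ≤ b → b ≤ l' → s.p a ≠ t.p b)
    (hn : ∀ a, k ≤ a → a < l → ∀ b, k' ≤ b → b < l' → s.g a = t.g b →
      ¬ Al (s.p a) (s.p (a + 1)) (t.p b) (t.p (b + 1)))
    (h1 : α ≤ s.p k ∧ s.p k ≤ β) (h2 : α ≤ s.p l ∧ s.p l ≤ β)
    (h3 : ∀ a, k < a → a < l → ¬ (α ≤ s.p a ∧ s.p a ≤ β))
    (h1' : α ≤ t.p k' ∧ t.p k' ≤ β) (h2' : α ≤ t.p l' ∧ t.p l' ≤ β)
    (h3' : ∀ a, k' < a → a < l' → ¬ (α ≤ t.p a ∧ t.p a ≤ β)) :
    (if s.g k = t.g k' then lt2 (s.p k) (t.p k') else 0) +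
    (if s.g k = t.g (l' - 1) then lt2 (s.p k) (t.p l') else 0) +
    ((if s.g (l - 1) = t.g k' then lt2 (s.p l) (t.p k') else 0) +
    (if s.g (l - 1) = t.g (l' - 1) then lt2 (s.p l) (t.p l') else 0)) = 0 := by
  have NU := Ap_cross s t true hd hn
  have NL := Ap_cross s t false hd hn
  have hF : ∀ x, Ap t k' l' false (lt2 x) = Ap t k' l' true (lt2 x) +
      (lt2 x (t.p k') + lt2 x (t.p l')) := by
    intro x
    rw [← Ap_sum t hkl'.le (lt2 x)]
    generalize Ap t k' l' true (lt2 x) = A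
    generalize Ap t k' l' false (lt2 x) = B
    revert A B; decide
  simp only [hF] at NL
  rw [Ap_add] at NL
  have e1 := Ap_sum s hkl.le (fun x => Ap t k' l' true (lt2 x))
  have e2 := Ap_vanish s hkl false (fun x => lt2 x (t.p k') + lt2 x (t.p l')) (by
    intro a ha ha'
    have := h3 a ha ha'
    have d1 := hd a (by omega) (by omega) k' le_rfl hkl'.le
    have d2 := hd a (by omega) (by omega) l' hkl'.le le_rfl
    unfold lt2
    split_ifs <;> first | decide | (exfalso; grind))
  have e3 : Ap t k' l' true (lt2 (s.p k)) + Ap t k' l' true (lt2 (s.p l)) =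
      (if t.g k' = true then lt2 (s.p k) (t.p k') + lt2 (s.p l) (t.p k') else 0) +
      (if t.g (l' - 1) = true then lt2 (s.p k) (t.p l') + lt2 (s.p l) (t.p l') else 0) := by
    rw [← Ap_add]
    refine Ap_vanish t hkl' true (fun y => lt2 (s.p k) y + lt2 (s.p l) y) ?_
    intro a ha ha'
    have := h3' a ha ha'
    have d1 := hd k le_rfl hkl.le a (by omega) (by omega)
    have d2 := hd l hkl.le le_rfl a (by omega) (by omega)
    unfold lt2
    split_ifs <;> first | decide | (exfalso; grind)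
  simp only [e2] at NL
  simp only [e3] at e1
  generalize Ap s k l true (fun x => Ap t k' l' true (lt2 x)) = A at *
  generalize Ap s k l false (fun x => Ap t k' l' true (lt2 x)) = B at *
  generalize lt2 (s.p k) (t.p k') = u1 at *
  generalize lt2 (s.p k) (t.p l') = u2 at *
  generalize lt2 (s.p l) (t.p k') = u3 at *
  generalize lt2 (s.p l) (t.p l') = u4 at *
  generalize s.g k = g1 at *
  generalize s.g (l - 1) = g2 at *
  generalize t.g k' = g3 at *
  generalize t.g (l' - 1) = g4 at *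
  clear e2 e3 hF hd hn h1 h2 h3 h1' h2' h3'
  revert g1 g2 g3 g4 A B u1 u2 u3 u4
  decide

end Pool.Agent.LP86
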