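import Pool.Agent.LP86.Mirror

/-!
Chains of pieces below the new axis.
-/

namespace Pool.Agent.LP86

variable {Λ ι : Type} [LinearOrder Λ]

def inR (α β x : Λ) : Prop := α ≤ x ∧ x ≤ β

instance (α β x : Λ) : Decidable (inR α β x) := by unfold inR; infer_instance

open Classical in
/-- number of visits of the run before step `k` -/
noncomputable def cnt (s : Sq Λ) (α β : Λ) (k : ℕ) : ℕ :=
  ((Finset.range k).filter fun a => inR α β (s.p a)).card

theorem cnt_zero (s : Sq Λ) (α β : Λ) : cnt s α β 0 = 0 := by simp [cnt]

theorem cnt_succ_in {s : Sq Λ} {α β : Λ} {k : ℕ} (h : inR α β (s.p k)) :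
    cnt s α β (k + 1) = cnt s α β k + 1 := by
  classical
  unfold cnt
  rw [Finset.range_add_one, Finset.filter_insert, if_pos h, Finset.card_insert_of_notMem (by simp)]

theorem cnt_succ_out {s : Sq Λ} {α β : Λ} {k : ℕ} (h : ¬ inR α β (s.p k)) :
    cnt s α β (k + 1) = cnt s α β k := by
  classical
  unfold cnt
  rw [Finset.range_add_one, Finset.filter_insert, if_neg h]

theorem cnt_mono (s : Sq Λ) (α β : Λ) {k l : ℕ} (h : k ≤ l) : cnt s α β k ≤ cnt s α β l := by
  classical
  exact Finset.card_le_card (Finset.filter_subset_filter _ (Finset.range_mono h))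

theorem exists_prev {s : Sq Λ} {α β : Λ} {k : ℕ} (h : 0 < cnt s α β k) :
    ∃ l < k, inR α β (s.p l) ∧ cnt s α β k = cnt s α β l + 1 := by
  induction k with
  | zero => rw [cnt_zero] at h; omega
  | succ k ih =>
    by_cases hk : inR α β (s.p k)
    · exact ⟨k, by omega, hk, cnt_succ_in hk⟩
    · rw [cnt_succ_out hk] at h ⊢
      obtain ⟨l, h1, h2, h3⟩ := ih h
      exact ⟨l, by omega, h2, h3⟩

theorem between_out {s : Sq Λ} {α β : Λ} {k l : ℕ} (hk : inR α β (s.p k))
    (h : cnt s α β l = cnt s α β k + 1) {a : ℕ} (h1 : k < a) (h2 : a < l) :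
    ¬ inR α β (s.p a) := by
  intro ha
  have h3 := cnt_succ_in hk
  have h4 := cnt_succ_in ha
  have h5 := cnt_mono s α β (show k + 1 ≤ a by omega)
  have h6 := cnt_mono s α β (show a + 1 ≤ l by omega)
  omega

/-- pieces below the new axis; the flag says that the point is on the top side of the run -/
inductive Piece (s : Sq Λ) (α β : Λ) : Λ × Bool → Λ × Bool → Prop
  | low (k : ℕ) (hk : k < s.m) (hc : Even (cnt s α β (k + 1))) (hg : s.g k = false) :
      Piece s α β (s.p k, false) (s.p (k + 1), false)
  | inn (k l : ℕ) (hkl : k < l) (hl : l < s.m) (h0 : 0 < k) (hk : inR α β (s.p k))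
      (hl' : inR α β (s.p l)) (hc : cnt s α β l = cnt s α β k + 1) :
      Piece s α β (s.p k, s.g (k - 1)) (s.p l, s.g l)

/-- sum over a list -/
def Sm (L : List Λ) (φ : Λ → ZMod 2) : ZMod 2 := (L.map φ).sum

theorem Sm_append (L L' : List Λ) (φ : Λ → ZMod 2) : Sm (L ++ L') φ = Sm L φ + Sm L' φ := by
  simp [Sm]

/-- two nearby sequences -/
structure Nearby (s t : Sq Λ) (α β : Λ) : Prop where
  dis : ∀ a ≤ s.m, ∀ b ≤ t.m, s.p a ≠ t.p b
  nal : ∀ a < s.m, ∀ b < t.m, s.g a = t.g b → ¬ Al (s.p a) (s.p (a + 1)) (t.p b) (t.p (b + 1))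
  alt : ∀ k, k + 1 < s.m → s.g (k + 1) = !s.g k
  alt' : ∀ k, k + 1 < t.m → t.g (k + 1) = !t.g k

theorem inn_inn {s t : Sq Λ} {α β : Λ} (N : Nearby s t α β) {k l k' l' : ℕ}
    (hkl : k < l) (hl : l < s.m) (h0 : 0 < k) (hk : inR α β (s.p k))
    (hl' : inR α β (s.p l)) (hc : cnt s α β l = cnt s α β k + 1)
    (tkl : k' < l') (tl : l' < t.m) (t0 : 0 < k') (tk : inR α β (t.p k'))
    (tl' : inR α β (t.p l')) (tc : cnt t α β l' = cnt t α β k' + 1) :
    (if s.g (k - 1) = t.g (k' - 1) then lt2 (s.p k) (t.p k') else 0) +
    (if s.g (k - 1) = t.g l' then lt2 (s.p k) (t.p l') else 0) +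
    ((if s.g l = t.g (k' - 1) then lt2 (s.p l) (t.p k') else 0) +
    (if s.g l = t.g l' then lt2 (s.p l) (t.p l') else 0)) = 0 := by
  have h := outer s t hkl tkl (fun a _ ha b _ hb => N.dis a (by omega) b (by omega))
    (fun a _ ha b _ hb => N.nal a (by omega) b (by omega)) hk hl'
    (fun a h1 h2 => between_out hk hc h1 h2) tk tl' (fun a h1 h2 => between_out tk tc h1 h2)
  have e1 : s.g k = !s.g (k - 1) := by
    have := N.alt (k - 1) (by omega); rwa [show k - 1 + 1 = k by omega] at this
  have e2 : s.g l = !s.g (l - 1) := by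
    have := N.alt (l - 1) (by omega); rwa [show l - 1 + 1 = l by omega] at this
  have e3 : t.g k' = !t.g (k' - 1) := by
    have := N.alt' (k' - 1) (by omega); rwa [show k' - 1 + 1 = k' by omega] at this
  have e4 : t.g l' = !t.g (l' - 1) := by
    have := N.alt' (l' - 1) (by omega); rwa [show l' - 1 + 1 = l' by omega] at this
  rw [e1, e3] at h
  rw [e2, e4]
  revert h
  generalize s.g (k - 1) = g1
  generalize s.g (l - 1) = g2
  generalize t.g (k' - 1) = g3
  generalize t.g (l' - 1) = g4
  cases g1 <;> cases g2 <;> cases g3 <;> cases g4 <;> simp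

/-- invariants of a chain of pieces of `t`, tested against the pieces of `s` -/
structure Chn (s : Sq Λ) (α β : Λ) (X Y : Λ × Bool) (L : List Λ) (B : Bool → List Λ) : Prop where
  inB : ∀ σ, ∀ y ∈ B σ, inR α β y
  low : ∀ k < s.m, s.g k = false → Sm L (lt2 (s.p k)) + Sm L (lt2 (s.p (k + 1))) = 0
  inn : ∀ k l, k < l → l < s.m → 0 < k → inR α β (s.p k) → inR α β (s.p l) →
    cnt s α β l = cnt s α β k + 1 →
    Sm (B (s.g (k - 1))) (lt2 (s.p k)) + Sm (B (s.g l)) (lt2 (s.p l)) = 0
  up : ∀ φ, Sm (B true) φ = (if X.2 then φ X.1 else 0) + (if Y.2 then φ Y.1 else 0)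
  dn : ∀ φ, Sm L φ + Sm (B false) φ = (if X.2 then 0 else φ X.1) + (if Y.2 then 0 else φ Y.1)
  ev : Even ((B false).length + (B true).length)

theorem Chn.exists {s t : Sq Λ} {α β : Λ} (N : Nearby s t α β) {X Y : Λ × Bool}
    (h : Relation.ReflTransGen (Piece t α β) X Y) : ∃ L B, Chn s α β X Y L B := by
  induction h with
  | refl =>
    refine ⟨[], fun _ => [], by simp, by simp [Sm], by simp [Sm], fun φ => ?_, fun φ => ?_, by simp⟩
    · simp [Sm, z2]
    · simp [Sm, z2]
  | @tail Y Z _ hp ih =>
    obtain ⟨L, B, h⟩ := ih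
    cases hp with
    | low k hk hc hg =>
      refine ⟨[t.p k, t.p (k + 1)] ++ L, B, h.inB, fun a ha hga => ?_, h.inn, fun φ => ?_,
        fun φ => ?_, h.ev⟩
      · rw [Sm_append, Sm_append]
        have h1 := h.low a ha hga
        have h2 := cr_zero (N.nal a ha k hk (hga.trans hg.symm)) (N.dis a ha.le k hk.le)
          (N.dis a ha.le (k + 1) hk) (N.dis (a + 1) ha k hk.le) (N.dis (a + 1) ha (k + 1) hk)
        simp only [Sm, List.map_cons, List.map_nil, List.sum_cons, List.sum_nil] at h1 ⊢
        linear_combination h1 + h2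
      · have := h.up φ
        simpa using this
      · have := h.dn φ
        rw [Sm_append]
        simp only [Sm, List.map_cons, List.map_nil, List.sum_cons, List.sum_nil,
          Bool.false_eq_true, if_false] at this ⊢
        linear_combination this + z2 (φ (t.p k))
    | inn k l hkl hl h0 hk hl' hc =>
      set B' : Bool → List Λ := fun σ => (if σ = t.g (k - 1) then [t.p k] else []) ++
        ((if σ = t.g l then [t.p l] else []) ++ B σ) with hB'
      have hS : ∀ σ φ, Sm (B' σ) φ = (if σ = t.g (k - 1) then φ (t.p k) else 0) +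
          ((if σ = t.g l then φ (t.p l) else 0) + Sm (B σ) φ) := by
        intro σ φ
        simp only [hB', Sm_append]
        congr 1
        · split_ifs <;> simp [Sm]
        · congr 1
          split_ifs <;> simp [Sm]
      refine ⟨L, B', ?_, h.low, ?_, fun φ => ?_, fun φ => ?_, ?_⟩
      · intro σ y hy
        simp only [hB', List.mem_append] at hy
        rcases hy with hy | hy | hy
        · split_ifs at hy
          · rw [List.mem_singleton] at hy; subst hy; exact hk
          · simp at hy
        · split_ifs at hy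
          · rw [List.mem_singleton] at hy; subst hy; exact hl'
          · simp at hy
        · exact h.inB σ y hy
      · intro a b hab hb ha0 ha hb' hcab
        rw [hS, hS]
        have h1 := h.inn a b hab hb ha0 ha hb' hcab
        have h2 := inn_inn N hab hb ha0 ha hb' hcab hkl hl h0 hk hl' hc
        linear_combination h1 + h2
      · rw [hS, h.up φ]
        generalize φ (t.p k) = u
        generalize φ (t.p l) = v
        generalize φ X.1 = w
        generalize t.g l = g1
        generalize t.g (k - 1) = g2
        generalize X.2 = g3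
        cases g1 <;> cases g2 <;> cases g3 <;> simp <;> (revert u v w; decide)
      · rw [hS]
        have := h.dn φ
        revert this
        generalize Sm L φ = A
        generalize Sm (B false) φ = B0
        generalize φ (t.p k) = u
        generalize φ (t.p l) = v
        generalize φ X.1 = w
        generalize t.g l = g1
        generalize t.g (k - 1) = g2
        generalize X.2 = g3
        cases g1 <;> cases g2 <;> cases g3 <;> simp <;> (revert A B0 u v w; decide)
      · have := h.ev
        simp only [hB', List.length_append]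
        generalize t.g l = g1
        generalize t.g (k - 1) = g2
        cases g1 <;> cases g2 <;> simp <;> grind

theorem lt2_out {α β x y : Λ} (hαβ : α ≤ β) (hx : ¬ inR α β x) (hy : inR α β y) :
    lt2 x y = lt2 x α := by
  unfold lt2
  unfold inR at *
  split_ifs <;> first | rfl | (exfalso; grind)

theorem lt2_out' {α β x y : Λ} (hαβ : α ≤ β) (hx : ¬ inR α β x) (hy : inR α β y) :
    lt2 y x = lt2 α x := by
  unfold lt2
  unfold inR at *
  split_ifs <;> first | rfl | (exfalso; grind)

theorem Sm_const {L : List Λ} {φ : Λ → ZMod 2} {c : ZMod 2} (h : ∀ y ∈ L, φ y = c) :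
    Sm L φ = L.length * c := by
  induction L with
  | nil => simp [Sm]
  | cons y L ih =>
    have h1 := ih fun z hz => h z (List.mem_cons_of_mem _ hz)
    have h2 := h y (by simp)
    simp only [Sm, List.map_cons, List.sum_cons, List.length_cons, Nat.cast_add, Nat.cast_one] at *
    rw [h1, h2]; ring

/-- chains with ends on the new axis do not alternate -/
theorem chain_noal {s t : Sq Λ} {α β : Λ} (hαβ : α ≤ β) (N : Nearby s t α β) {a b c d : Λ}
    (h1 : Relation.ReflTransGen (Piece s α β) (a, decide (inR α β a)) (b, decide (inR α β b)))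
    (h2 : Relation.ReflTransGen (Piece t α β) (c, decide (inR α β c)) (d, decide (inR α β d))) :
    ¬ Al a b c d := by
  obtain ⟨L, B, h⟩ := Chn.exists N h2
  set κ : ZMod 2 := (if inR α β c then 0 else lt2 α c) + (if inR α β d then 0 else lt2 α d) with hκ
  have hup : ∀ φ : Λ → ZMod 2, Sm (B true) φ = (if inR α β c then φ c else 0) +
      (if inR α β d then φ d else 0) := by
    intro φ; have := h.up φ; simpa using this
  have hdn : ∀ φ : Λ → ZMod 2, Sm L φ + Sm (B false) φ = (if inR α β c then 0 else φ c) +
      (if inR α β d then 0 else φ d) := by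
    intro φ; have := h.dn φ; simpa using this
  have hR : ∀ x, inR α β x → Sm L (lt2 x) + Sm (B false) (lt2 x) = κ := by
    intro x hx
    rw [hdn, hκ]
    congr 1
    · split_ifs with hc
      · rfl
      · exact lt2_out' hαβ hc hx
    · split_ifs with hc
      · rfl
      · exact lt2_out' hαβ hc hx
  set H : Λ × Bool → ZMod 2 := fun X => if X.2 then κ + Sm (B true) (lt2 X.1) else Sm L (lt2 X.1)
    with hH
  have hHR : ∀ x σ, inR α β x → H (x, σ) = κ + Sm (B σ) (lt2 x) := by
    intro x σ hx
    have := hR x hx
    cases σ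
    · simp only [hH, Bool.false_eq_true, if_false]
      rw [← this]
      linear_combination -z2 (Sm (B false) (lt2 x))
    · simp [hH]
  have hinv : ∀ X Y, Piece s α β X Y → H X = H Y := by
    intro X Y hp
    cases hp with
    | low k hk hc hg => simpa [hH] using z2' (h.low k hk hg)
    | inn k l hkl hl h0 hk hl' hc =>
      rw [hHR _ _ hk, hHR _ _ hl', z2' (h.inn k l hkl hl h0 hk hl' hc)]
  have hall : H (a, decide (inR α β a)) = H (b, decide (inR α β b)) := by
    refine Relation.ReflTransGen.head_induction_on h1 rfl ?_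
    intro X Y hXY _ ih
    exact (hinv X Y hXY).trans ih
  have hend : ∀ x, H (x, decide (inR α β x)) = lt2 x c + lt2 x d := by
    intro x
    by_cases hx : inR α β x
    · have e := hR x hx
      rw [decide_eq_true hx, hHR x true hx, hup, ← e, hdn]
      split_ifs <;> ring
    · rw [decide_eq_false hx]
      simp only [hH, Bool.false_eq_true, if_false]
      have e1 : Sm (B false) (lt2 x) = (B false).length * lt2 x α :=
        Sm_const fun y hy => lt2_out hαβ hx (h.inB _ y hy)
      have e2 : Sm (B true) (lt2 x) = (B true).length * lt2 x α :=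
        Sm_const fun y hy => lt2_out hαβ hx (h.inB _ y hy)
      have e3 : (((B false).length : ZMod 2) + ((B true).length : ZMod 2)) = 0 := by
        have := (ZMod.natCast_eq_zero_iff_even).2 h.ev
        exact_mod_cast this
      have e4 := hdn (lt2 x)
      have e5 := hup (lt2 x)
      have e6 : Sm (B false) (lt2 x) = Sm (B true) (lt2 x) := by
        rw [e1, e2]
        refine z2' ?_
        rw [← add_mul, e3, zero_mul]
      rw [e6, e5] at e4
      have : Sm L (lt2 x) = ((if inR α β c then 0 else lt2 x c) + if inR α β d then 0 else lt2 x d) +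
          ((if inR α β c then lt2 x c else 0) + if inR α β d then lt2 x d else 0) := by
        rw [← e4]
        linear_combination -z2 (((if inR α β c then lt2 x c else 0) + if inR α β d then lt2 x d else 0))
      rw [this]
      split_ifs <;> ring
  rw [hend, hend] at hall
  intro hal
  exact cr_one hal hall

end Pool.Agent.LP86
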