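import Pool.Agent.LP86.FanPat

/-!
From a circular order of the terminals to a drawing of the gadget graph.
-/

namespace Pool.Agent.LP86

open Cv Vx

/-- the keys: quadruples ordered lexicographically -/
abbrev Key := ℕ ×ₗ ℕ ×ₗ ℕ ×ₗ ℕ

def mkKey (a b c d : ℕ) : Key := toLex (a, toLex (b, toLex (c, d)))

theorem mkKey_lt {a b c d a' b' c' d' : ℕ} : mkKey a b c d < mkKey a' b' c' d' ↔
    a < a' ∨ (a = a' ∧ (b < b' ∨ (b = b' ∧ (c < c' ∨ (c = c' ∧ d < d'))))) := by
  simp only [mkKey, Prod.Lex.toLex_lt_toLex]

theorem mkKey_inj {a b c d a' b' c' d' : ℕ} (h : mkKey a b c d = mkKey a' b' c' d') :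
    a = a' ∧ b = b' ∧ c = c' ∧ d = d' := by
  have h1 : ¬ mkKey a b c d < mkKey a' b' c' d' := by rw [h]; exact lt_irrefl _
  have h2 : ¬ mkKey a' b' c' d' < mkKey a b c d := by rw [h]; exact lt_irrefl _
  rw [mkKey_lt] at h1 h2
  omega

variable {k N m : ℕ} {τ : ℕ → ℕ → ℕ} {V : Type} {G : SimpleGraph V}

/-- terminal whose block contains the circle vertex -/
def blk (τ : ℕ → ℕ → ℕ) (o : ℕ → Bool) : Cv → ℕ
  | term i => i
  | link t j _ => τ t j
  | fan t a => τ t (Jf (o t) a)

def chk : Cv → ℕ
  | term _ => 0
  | link t _ _ => t + 1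
  | fan t _ => t + 1

def off (k : ℕ) : Cv → ℕ
  | term _ => 0
  | link _ _ s => k - 2 - s
  | fan _ a => if a % 2 = 1 then k - 2 else k - 1

def vkey (k : ℕ) (τ : ℕ → ℕ → ℕ) (o : ℕ → Bool) (ρ : ℕ → ℕ) : Vx → Key
  | ctr => mkKey 0 0 0 0
  | leg w p => mkKey (ρ (blk τ o w) + 1) (chk w) (off k w) (lam k w - p)

def isCirc (k : ℕ) : Vx → Prop
  | ctr => False
  | leg w p => p = lam k w

section

variable (o : ℕ → Bool) (ρ : ℕ → ℕ)
  (hρ : ∀ i < N, ∀ j < N, ρ i = ρ j → i = j)
  (hτ : ∀ t < m, ∀ j < 4, τ t j < N)
  (hal : ∀ t < m, Al (ρ (τ t 0)) (ρ (τ t 2)) (ρ (τ t 1)) (ρ (τ t 3)))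

include hρ hτ hal

omit hρ in
theorem tau_inj {t : ℕ} (ht : t < m) {i j : ℕ} (hi : i < 4) (hj : j < 4) (h : τ t i = τ t j) :
    i = j := by
  have h1 := al_distinct (hal t ht)
  interval_cases i <;> interval_cases j <;> simp_all

theorem blk_lt {w : Cv} (hw : CValid k N m w) : blk τ o w < N := by
  cases w with
  | term i => exact hw
  | fan t a => exact hτ t hw.1 _ (Jf_lt _ hw.2)
  | link t j i => exact hτ t hw.1 _ hw.2.1

theorem vkey_inj (hk : 3 ≤ k) {x y : Vx} (hx : VValid k N m x) (hy : VValid k N m y)
    (h : vkey k τ o ρ x = vkey k τ o ρ y) : x = y := by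
  cases x with
  | ctr =>
    cases y with
    | ctr => rfl
    | leg w p => have := (mkKey_inj h).1; omega
  | leg w p =>
    cases y with
    | ctr => have := (mkKey_inj h).1; omega
    | leg w' p' =>
      obtain ⟨h1, h2, h3, h4⟩ := mkKey_inj h
      have h5 : blk τ o w = blk τ o w' := hρ _ (blk_lt o ρ hρ hτ hal hx.1) _
        (blk_lt o ρ hρ hτ hal hy.1) (by omega)
      have hww : w = w' := by
        cases w with
        | term i =>
          cases w' with
          | term i' => simp only [blk] at h5; rw [h5]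
          | fan t' a' => simp [chk] at h2
          | link t' j' s' => simp [chk] at h2
        | fan t a =>
          obtain ⟨ht, ha⟩ := hx.1
          cases w' with
          | term i' => simp [chk] at h2
          | fan t' a' =>
            have htt : t = t' := by simpa [chk] using h2
            subst htt
            obtain ⟨-, ha'⟩ := hy.1
            have h6 := tau_inj ρ hτ hal ht (Jf_lt (o t) ha) (Jf_lt (o t) ha') h5
            simp only [off] at h3
            have : a = a' := by
              unfold Jf at h6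
              split_ifs at h3 h6 <;> omega
            rw [this]
          | link t' j' s' =>
            have h7 := hy.1.2.2
            simp only [off] at h3
            split_ifs at h3 <;> omega
        | link t j s =>
          obtain ⟨ht, hj, h7⟩ := hx.1
          cases w' with
          | term i' => simp [chk] at h2
          | fan t' a' =>
            simp only [off] at h3
            split_ifs at h3 <;> omega
          | link t' j' s' =>
            have htt : t = t' := by simpa [chk] using h2
            subst htt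
            obtain ⟨-, hj', h8⟩ := hy.1
            have h6 := tau_inj ρ hτ hal ht hj hj' h5
            subst h6
            simp only [off] at h3
            have : s = s' := by omega
            rw [this]
      subst hww
      have h6 := hx.2
      have h7 := hy.2
      have : p = p' := by omega
      rw [this]

end

/-- nothing lies between consecutive vertices of a leg -/
theorem no_btw_leg (o : ℕ → Bool) (ρ : ℕ → ℕ) {w : Cv} {p : ℕ} (hp : p + 1 ≤ lam k w) (x : Key) :
    ¬ Btw x (vkey k τ o ρ (leg w p)) (vkey k τ o ρ (leg w (p + 1))) := by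
  obtain ⟨a, b, c, d⟩ := x
  change ¬ Btw (mkKey a b c d) _ _
  unfold Btw
  simp only [vkey, mkKey_lt]
  omega

/-- near-consecutive circle vertices -/
theorem no_btw_circ {a b c c' : ℕ} (h : c' = c + 1) {a' b' e : ℕ} :
    ¬ Btw (mkKey a' b' e 0) (mkKey a b c 0) (mkKey a b c' 0) := by
  unfold Btw
  simp only [mkKey_lt]
  omega

theorem circ_key (o : ℕ → Bool) (ρ : ℕ → ℕ) {x : Vx} (h : isCirc k x) : ∃ w, x = leg w (lam k w) ∧
    vkey k τ o ρ x = mkKey (ρ (blk τ o w) + 1) (chk w) (off k w) 0 := by
  cases x with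
  | ctr => exact absurd h id
  | leg w p =>
    have hp : p = lam k w := h
    subst hp
    exact ⟨w, rfl, by simp [vkey]⟩

theorem Dc_ge (hk : 3 ≤ k) {t : ℕ} {w : Cv} (h : chk w ≠ t + 1) : k - 1 ≤ Dc k t w := by
  cases w with
  | term i => simp [Dc]
  | fan t' a => simp only [chk, Dc] at *; split_ifs <;> omega
  | link t' j i => simp only [chk, Dc] at *; split_ifs <;> omega

end Pool.Agent.LP86
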