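import Pool.Agent.LP86.Gad

/-!
From a locally planar drawing of the gadget graph to a circular order of the terminals.
-/

namespace Pool.Agent.LP86

open Cv Vx

variable {k N m : ℕ} {τ : ℕ → ℕ → ℕ} {V : Type} {G : SimpleGraph V}

/-- vertices of a leg, starting with the centre -/
def lv (w : Cv) (p : ℕ) : Vx := if p = 0 then ctr else leg w p

theorem lam_pos (hk : 3 ≤ k) (w : Cv) : 1 ≤ lam k w := by
  cases w <;> simp only [lam] <;> omega

theorem lam_le (w : Cv) : 2 * lam k w ≤ k := by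
  cases w <;> simp only [lam] <;> omega

theorem lv_valid {w : Cv} (hw : CValid k N m w) {p : ℕ} (hp : p ≤ lam k w) :
    VValid k N m (lv w p) := by
  unfold lv
  split_ifs with h
  · trivial
  · exact ⟨hw, by omega, hp⟩

/-- bounded walks -/
def Wl (G : SimpleGraph V) (n : ℕ) (a b : V) : Prop := ∃ w : G.Walk a b, w.length ≤ n

theorem Wl.refl (a : V) : Wl G 0 a a := ⟨.nil, by simp⟩

theorem Wl.adj {a b : V} (h : G.Adj a b) : Wl G 1 a b := ⟨.cons h .nil, by simp⟩

theorem Wl.mono {n n' : ℕ} {a b : V} (h : Wl G n a b) (hn : n ≤ n') : Wl G n' a b :=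
  let ⟨w, hw⟩ := h; ⟨w, hw.trans hn⟩

theorem Wl.symm {n : ℕ} {a b : V} (h : Wl G n a b) : Wl G n b a :=
  let ⟨w, hw⟩ := h; ⟨w.reverse, by simpa using hw⟩

theorem Wl.trans {n n' : ℕ} {a b c : V} (h : Wl G n a b) (h' : Wl G n' b c) :
    Wl G (n + n') a c :=
  let ⟨w, hw⟩ := h; let ⟨w', hw'⟩ := h'; ⟨w.append w', by simp; omega⟩

theorem near_of_wl {n : ℕ} {e f : Sym2 V} {a c : V} (ha : a ∈ e) (hc : c ∈ f) (h : Wl G n a c)
    (hn : n + 2 ≤ k) : Near G k e f := by
  obtain ⟨w, hw⟩ := h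
  exact ⟨a, ha, c, hc, w, by omega⟩

namespace Model

variable (M : Model k N m τ G)

/-- the leg vertices in the graph -/
noncomputable def L (w : Cv) (p : ℕ) : V := M.ψ (lv w p)

/-- circle vertices in the graph -/
noncomputable def C (w : Cv) : V := M.L w (lam k w)

theorem L_zero (w w' : Cv) : M.L w 0 = M.L w' 0 := rfl

theorem φL {w : Cv} (hw : CValid k N m w) {p : ℕ} (hp : p ≤ lam k w) : M.φ (M.L w p) = lv w p :=
  M.φψ (lv_valid hw hp)

theorem L_inj {w w' : Cv} (hw : CValid k N m w) (hw' : CValid k N m w') {p p' : ℕ}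
    (hp : p ≤ lam k w) (hp' : p' ≤ lam k w') (h0 : 1 ≤ p) (h : M.L w p = M.L w' p') :
    w = w' ∧ p = p' := by
  have h1 : lv w p = lv w' p' := by rw [← M.φL hw hp, ← M.φL hw' hp', h]
  unfold lv at h1
  rw [if_neg (by omega)] at h1
  split_ifs at h1
  simpa using h1

theorem adjL {w : Cv} (hw : CValid k N m w) {p : ℕ} (hp : p + 1 ≤ lam k w) :
    G.Adj (M.L w p) (M.L w (p + 1)) := by
  refine M.adj' (lv_valid hw (by omega)) (lv_valid hw hp) (Or.inl ?_)
  unfold lv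
  rw [if_neg (by omega : ¬ p + 1 = 0)]
  split_ifs with h
  · exact (by omega : p + 1 = 1)
  · exact Or.inl ⟨rfl, rfl⟩

theorem C_eq (hk : 3 ≤ k) (w : Cv) : M.C w = M.ψ (leg w (lam k w)) := by
  unfold C L lv
  rw [if_neg (by have := lam_pos hk w; omega)]

theorem adjC (hk : 3 ≤ k) {w w' : Cv} (hw : CValid k N m w) (hw' : CValid k N m w')
    (h : Bg k τ w w' ∨ Bg k τ w' w) : G.Adj (M.C w) (M.C w') := by
  rw [M.C_eq hk, M.C_eq hk]
  refine M.adj' ⟨hw, lam_pos hk w, le_rfl⟩ ⟨hw', lam_pos hk w', le_rfl⟩ ?_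
  rcases h with h | h
  · exact Or.inl (Or.inr ⟨rfl, rfl, h⟩)
  · exact Or.inr (Or.inr ⟨rfl, rfl, h⟩)

theorem wl_leg {w : Cv} (hw : CValid k N m w) {p : ℕ} (hp : p ≤ lam k w) (w0 : Cv) :
    Wl G p (M.L w0 0) (M.L w p) := by
  induction p with
  | zero => exact Wl.refl _
  | succ p ih => exact (ih (by omega)).trans (Wl.adj (M.adjL hw hp))

theorem up {w : Cv} (hw : CValid k N m w) {n : ℕ} (h1 : 1 ≤ n) (hn : n ≤ lam k w) :
    ∃ P : G.Walk (M.L w 1) (M.L w n), (∀ z ∈ P.support, ∃ p, 1 ≤ p ∧ p ≤ lam k w ∧ z = M.L w p) ∧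
      ∀ e ∈ P.edges, ∃ p, p + 1 ≤ lam k w ∧ e = s(M.L w p, M.L w (p + 1)) := by
  induction n, h1 using Nat.le_induction with
  | base => exact ⟨.nil, by simpa using ⟨1, le_rfl, hn, rfl⟩, by simp⟩
  | succ n h1 ih =>
    obtain ⟨P, hP1, hP2⟩ := ih (by omega)
    refine ⟨P.concat (M.adjL hw hn), fun z hz => ?_, fun e he => ?_⟩
    · rw [SimpleGraph.Walk.support_concat] at hz
      simp only [List.concat_eq_append, List.mem_append, List.mem_singleton] at hz
      rcases hz with hz | rfl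
      · exact hP1 z hz
      · exact ⟨n + 1, by omega, hn, rfl⟩
    · rw [SimpleGraph.Walk.edges_concat] at he
      simp only [List.concat_eq_append, List.mem_append, List.mem_singleton] at he
      rcases he with he | rfl
      · exact hP2 e he
      · exact ⟨n, hn, rfl⟩

/-- the edges of the cycle through the centre and the circle edge `w w'` -/
def E (w w' : Cv) (e : Sym2 V) : Prop :=
  (∃ p, p + 1 ≤ lam k w ∧ e = s(M.L w p, M.L w (p + 1))) ∨
  (∃ p, p + 1 ≤ lam k w' ∧ e = s(M.L w' p, M.L w' (p + 1))) ∨ e = s(M.C w, M.C w')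

theorem cyc (hk : 3 ≤ k) {w w' : Cv} (hw : CValid k N m w) (hw' : CValid k N m w')
    (h : Bg k τ w w' ∨ Bg k τ w' w) :
    ∃ P : G.Walk (M.L w 1) (M.L w' 1),
      (∀ z ∈ P.support, (∃ p, 1 ≤ p ∧ p ≤ lam k w ∧ z = M.L w p) ∨
        (∃ p, 1 ≤ p ∧ p ≤ lam k w' ∧ z = M.L w' p)) ∧
      ∀ e ∈ P.edges, M.E w w' e := by
  obtain ⟨P, hP1, hP2⟩ := M.up hw (lam_pos hk w) le_rfl
  obtain ⟨Q, hQ1, hQ2⟩ := M.up hw' (lam_pos hk w') le_rfl
  have hadj : G.Adj (M.L w (lam k w)) (M.L w' (lam k w')) := M.adjC hk hw hw' h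
  refine ⟨P.append (.cons hadj Q.reverse), fun z hz => ?_, fun e he => ?_⟩
  · rw [SimpleGraph.Walk.mem_support_append_iff] at hz
    rcases hz with hz | hz
    · exact Or.inl (hP1 z hz)
    · rw [SimpleGraph.Walk.support_cons, List.mem_cons, SimpleGraph.Walk.support_reverse,
        List.mem_reverse] at hz
      rcases hz with rfl | hz
      · exact Or.inl ⟨_, lam_pos hk w, le_rfl, rfl⟩
      · exact Or.inr (hQ1 z hz)
  · rw [SimpleGraph.Walk.edges_append, List.mem_append, SimpleGraph.Walk.edges_cons, List.mem_cons,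
      SimpleGraph.Walk.edges_reverse, List.mem_reverse] at he
    rcases he with he | rfl | he
    · exact Or.inl (hP2 e he)
    · exact Or.inr (Or.inr rfl)
    · exact Or.inr (Or.inl (hQ2 e he))

/-- closeness of a circle vertex and a circle edge -/
def Q (u z z' : Cv) : Prop := lam k u + lam k z + 1 ≤ k ∨ lam k u + lam k z' + 1 ≤ k ∨
  Wl G (k - 2) (M.C u) (M.C z) ∨ Wl G (k - 2) (M.C u) (M.C z')

theorem near_leg_leg {w z : Cv} (hw : CValid k N m w) (hz : CValid k N m z) {p q : ℕ}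
    (hp : p + 1 ≤ lam k w) (hq : q + 1 ≤ lam k z) :
    Near G k s(M.L w p, M.L w (p + 1)) s(M.L z q, M.L z (q + 1)) := by
  refine near_of_wl (a := M.L w p) (c := M.L z q) (by simp) (by simp)
    ((M.wl_leg hw (by omega) w).symm.trans (M.wl_leg hz (by omega) w)) ?_
  have := lam_le (k := k) w
  have := lam_le (k := k) z
  omega

theorem near_leg_edge (hk : 3 ≤ k) {w z z' : Cv} (hw : CValid k N m w) (hz : CValid k N m z)
    (hz' : CValid k N m z') (hQ : M.Q w z z') {p : ℕ} (hp : p + 1 ≤ lam k w) :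
    Near G k s(M.L w p, M.L w (p + 1)) s(M.C z, M.C z') := by
  have l1 := lam_le (k := k) w
  have l2 := lam_le (k := k) z
  rcases hQ with h | h | h | h
  · exact near_of_wl (a := M.L w p) (c := M.C z) (by simp) (by simp)
      ((M.wl_leg hw (by omega) w).symm.trans (M.wl_leg hz le_rfl w)) (by omega)
  · exact near_of_wl (a := M.L w p) (c := M.C z') (by simp) (by simp)
      ((M.wl_leg hw (by omega) w).symm.trans (M.wl_leg hz' le_rfl w)) (by omega)
  all_goals
    by_cases hp' : p + 1 = lam k w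
    · have e : M.C w = M.L w (p + 1) := by unfold C; rw [hp']
      rw [e] at h
      exact near_of_wl (a := M.L w (p + 1)) (by simp) (by simp) h (by omega)
    · exact near_of_wl (a := M.L w p) (c := M.C z) (by simp) (by simp)
        ((M.wl_leg hw (by omega) w).symm.trans (M.wl_leg hz le_rfl w)) (by omega)

theorem near_E (hk : 3 ≤ k) {w w' z z' : Cv} (hw : CValid k N m w) (hw' : CValid k N m w')
    (hz : CValid k N m z) (hz' : CValid k N m z') (q1 : M.Q w z z') (q2 : M.Q w' z z')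
    (q3 : M.Q z w w') (q4 : M.Q z' w w') (hn : Near G k s(M.C w, M.C w') s(M.C z, M.C z'))
    {e f : Sym2 V} (he : M.E w w' e) (hf : M.E z z' f) : Near G k e f := by
  rcases he with ⟨p, hp, rfl⟩ | ⟨p, hp, rfl⟩ | rfl <;>
    rcases hf with ⟨q, hq, rfl⟩ | ⟨q, hq, rfl⟩ | rfl
  · exact M.near_leg_leg hw hz hp hq
  · exact M.near_leg_leg hw hz' hp hq
  · exact M.near_leg_edge hk hw hz hz' q1 hp
  · exact M.near_leg_leg hw' hz hp hq
  · exact M.near_leg_leg hw' hz' hp hq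
  · exact M.near_leg_edge hk hw' hz hz' q2 hp
  · exact (M.near_leg_edge hk hz hw hw' q3 hq).symm
  · exact (M.near_leg_edge hk hz' hw hw' q4 hq).symm
  · exact hn

theorem E_edge (hk : 3 ≤ k) {w w' : Cv} (hw : CValid k N m w) (hw' : CValid k N m w')
    (h : Bg k τ w w' ∨ Bg k τ w' w) {e : Sym2 V} (he : M.E w w' e) : e ∈ G.edgeSet := by
  rcases he with ⟨p, hp, rfl⟩ | ⟨p, hp, rfl⟩ | rfl
  · exact M.adjL hw hp
  · exact M.adjL hw' hp
  · exact M.adjC hk hw hw' h

/-- edges of cycles with different circle vertices are different -/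
theorem E_mem (hk : 3 ≤ k) {w w' : Cv} {e : Sym2 V} (he : M.E w w' e) :
    ∃ u p, (u = w ∨ u = w') ∧ 1 ≤ p ∧ p ≤ lam k u ∧ M.L u p ∈ e := by
  rcases he with ⟨p, hp, rfl⟩ | ⟨p, hp, rfl⟩ | rfl
  · exact ⟨w, p + 1, Or.inl rfl, by omega, hp, by simp⟩
  · exact ⟨w', p + 1, Or.inr rfl, by omega, hp, by simp⟩
  · exact ⟨w, lam k w, Or.inl rfl, lam_pos hk w, le_rfl, Sym2.mem_mk_left _ _⟩

theorem E_mem' {w w' : Cv} {e : Sym2 V} (he : M.E w w' e) {x : V} (hx : x ∈ e) :
    ∃ u p, (u = w ∨ u = w') ∧ p ≤ lam k u ∧ x = M.L u p := by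
  rcases he with ⟨p, hp, rfl⟩ | ⟨p, hp, rfl⟩ | rfl
  · rcases Sym2.mem_iff.1 hx with rfl | rfl
    · exact ⟨w, p, Or.inl rfl, by omega, rfl⟩
    · exact ⟨w, p + 1, Or.inl rfl, hp, rfl⟩
  · rcases Sym2.mem_iff.1 hx with rfl | rfl
    · exact ⟨w', p, Or.inr rfl, by omega, rfl⟩
    · exact ⟨w', p + 1, Or.inr rfl, hp, rfl⟩
  · rcases Sym2.mem_iff.1 hx with rfl | rfl
    · exact ⟨w, _, Or.inl rfl, le_rfl, rfl⟩
    · exact ⟨w', _, Or.inr rfl, le_rfl, rfl⟩

/-- positions of the circle vertices read off from a drawing -/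
theorem exists_order [Finite V] (hk : 3 ≤ k) (D : TopGraph G) (hD : D.LocallyPlanar k) :
    ∃ y : Cv → ℝ, (∀ w w', CValid k N m w → CValid k N m w' → y w = y w' → w = w') ∧
      ∀ w w' z z', CValid k N m w → CValid k N m w' → CValid k N m z → CValid k N m z' →
        (Bg k τ w w' ∨ Bg k τ w' w) → (Bg k τ z z' ∨ Bg k τ z' z) →
        w ≠ z → w ≠ z' → w' ≠ z → w' ≠ z' →
        M.Q w z z' → M.Q w' z z' → M.Q z w w' → M.Q z' w w' →
        Near G k s(M.C w, M.C w') s(M.C z, M.C z') → ¬ Al (y w) (y w') (y z) (y z') := by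
  rw [locallyPlanar_iff] at hD
  let c : V := M.L (term 0) 0
  have hstar : ∀ a b, G.Adj c a → G.Adj c b → a ≠ b → ¬ D.Cross s(c, a) s(c, b) := by
    intro a b ha hb hab
    refine hD _ ha _ hb ?_ (near_of_wl (a := c) (c := c) (by simp) (by simp) (Wl.refl c) (by omega))
    intro h
    rcases Sym2.eq_iff.1 h with ⟨-, h⟩ | ⟨h, -⟩
    · exact hab h
    · exact hb.ne h
  obtain ⟨x, hx1, hx2⟩ := rotation D c hstar
  have hadj : ∀ w, CValid k N m w → G.Adj c (M.L w 1) := fun w hw => M.adjL hw (lam_pos hk w)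
  refine ⟨fun w => x (M.L w 1), ?_, ?_⟩
  · intro w w' hw hw' h
    exact (M.L_inj hw hw' (lam_pos hk w) (lam_pos hk w') le_rfl
      (hx1 _ _ (hadj w hw) (hadj w' hw') h)).1
  · intro w w' z z' hw hw' hz hz' hB hB' n1 n2 n3 n4 q1 q2 q3 q4 hn
    rw [al_iff_alt4]
    obtain ⟨P, hP1, hP2⟩ := M.cyc hk hw hw' hB
    obtain ⟨R, hR1, hR2⟩ := M.cyc hk hz hz' hB'
    have hnot : ∀ {w w' : Cv}, CValid k N m w → CValid k N m w' → ∀ {a b : V} (P : G.Walk a b),
        (∀ z ∈ P.support, (∃ p, 1 ≤ p ∧ p ≤ lam k w ∧ z = M.L w p) ∨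
        (∃ p, 1 ≤ p ∧ p ≤ lam k w' ∧ z = M.L w' p)) → c ∉ P.support := by
      intro w w' hw hw' a b P hP hc
      rcases hP c hc with ⟨p, h1, h2, h3⟩ | ⟨p, h1, h2, h3⟩
      · have := (M.L_inj hw hw h2 (Nat.zero_le _) h1 h3.symm).2; omega
      · have := (M.L_inj hw' hw' h2 (Nat.zero_le _) h1 h3.symm).2; omega
    refine hx2 _ _ _ _ (hadj w hw) (hadj w' hw') (hadj z hz) (hadj z' hz') P R (hnot hw hw' P hP1)
      (hnot hz hz' R hR1) ?_ ?_
    · intro v hv hv'
      rcases hP1 v hv with ⟨p, h1, h2, rfl⟩ | ⟨p, h1, h2, rfl⟩ <;>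
        rcases hR1 _ hv' with ⟨q, h4, h5, h6⟩ | ⟨q, h4, h5, h6⟩
      · exact n1 (M.L_inj hw hz h2 h5 h1 h6).1
      · exact n2 (M.L_inj hw hz' h2 h5 h1 h6).1
      · exact n3 (M.L_inj hw' hz h2 h5 h1 h6).1
      · exact n4 (M.L_inj hw' hz' h2 h5 h1 h6).1
    · intro e he f hf
      have hE : M.E w w' e := by
        rcases he with rfl | rfl | he
        · exact Or.inl ⟨0, lam_pos hk w, rfl⟩
        · exact Or.inr (Or.inl ⟨0, lam_pos hk w', rfl⟩)
        · exact hP2 e he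
      have hF : M.E z z' f := by
        rcases hf with rfl | rfl | hf
        · exact Or.inl ⟨0, lam_pos hk z, rfl⟩
        · exact Or.inr (Or.inl ⟨0, lam_pos hk z', rfl⟩)
        · exact hR2 f hf
      refine hD e (M.E_edge hk hw hw' hB hE) f (M.E_edge hk hz hz' hB' hF) ?_
        (M.near_E hk hw hw' hz hz' q1 q2 q3 q4 hn hE hF)
      rintro rfl
      obtain ⟨u, p, hu, hp1, hp2, hmem⟩ := M.E_mem hk hE
      obtain ⟨u', p', hu', hp', h⟩ := M.E_mem' hF hmem
      have hval : CValid k N m u := by rcases hu with rfl | rfl <;> assumption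
      have hval' : CValid k N m u' := by rcases hu' with rfl | rfl <;> assumption
      have huu := (M.L_inj hval hval' hp2 hp' hp1 h).1
      rcases hu with rfl | rfl <;> rcases hu' with rfl | rfl
      · exact n1 huu
      · exact n2 huu
      · exact n3 huu
      · exact n4 huu

end Model

end Pool.Agent.LP86
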