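import Pool.Agent.LP86.Close
import Pool.Agent.H207R2.BL.Cross

/-!
The rotation at a vertex: if no two edges at `v` cross, the edges at `v` get a linear order
(a circular order cut at some place) such that two cycles through `v` that share only `v` and
whose edges do not cross have non-alternating pairs of edges at `v`.
-/

namespace Pool.Agent.LP86

open Set

variable {V : Type} {G : SimpleGraph V}

/-- alternation of two pairs of reals -/
def Alt4 (a b c d : ℝ) : Prop :=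
  (min a b < min c d ∧ min c d < max a b ∧ max a b < max c d) ∨
    (min c d < min a b ∧ min a b < max c d ∧ max c d < max a b)

/-- last visit of an arc to a small disc -/
theorem last_exit {A : Set ℂ} {p q : ℂ} (hA : IsJordanArc A p q) {r : ℝ} (hr : 0 < r)
    (hq : r < dist q p) :
    ∃ (x : ℂ) (B : Set ℂ), B ⊆ A ∧ JoinedIn B x q ∧ dist x p = r ∧
      ∀ z ∈ B, r ≤ dist z p ∧ (dist z p = r → z = x) := by
  obtain ⟨γ, hc, hi, h0, h1, hrange⟩ := hA
  have hcd : Continuous fun t => dist (γ t) p := hc.dist continuous_const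
  let K : Set unitInterval := {t | dist (γ t) p ≤ r}
  have hK : IsCompact K := (isClosed_le hcd continuous_const).isCompact
  have hKn : K.Nonempty := ⟨0, by simp only [K, mem_ofPred_eq, h0, dist_self]; exact hr.le⟩
  obtain ⟨T, hT, hmax⟩ := hK.exists_isGreatest hKn
  have hlt : ∀ t, T < t → r < dist (γ t) p := by
    intro t ht
    by_contra h
    exact absurd (hmax (not_lt.1 h)) (not_le.2 ht)
  have hT1 : T < 1 := by
    refine lt_of_le_of_ne unitInterval.le_one' ?_
    rintro rfl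
    have : dist (γ 1) p ≤ r := hT
    rw [h1] at this
    linarith
  have hTr : dist (γ T) p = r := by
    refine le_antisymm hT ?_
    by_contra h
    push Not at h
    have hopen : IsOpen {t | dist (γ t) p < r} := isOpen_lt hcd continuous_const
    have hnb : {t | dist (γ t) p < r} ∈ nhds T := hopen.mem_nhds h
    have := (mem_nhdsGT_iff_exists_Ioo_subset' hT1).1 (mem_nhdsWithin_of_mem_nhds hnb)
    obtain ⟨u, hu, hsub⟩ := this
    obtain ⟨t, ht1, ht2⟩ := exists_between (show T < u from hu)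
    have h3 : dist (γ t) p < r := hsub ⟨ht1, ht2⟩
    linarith [hlt t ht1]
  refine ⟨γ T, γ '' Icc T 1, ?_, ?_, hTr, ?_⟩
  · rintro _ ⟨t, -, rfl⟩
    rw [← hrange]; exact mem_range_self t
  · have hpc : IsPathConnected (Icc T (1 : unitInterval)) := by
      have hconv : IsPathConnected (Icc (T : ℝ) 1) :=
        (convex_Icc _ _).isPathConnected ⟨1, ⟨T.2.2, le_rfl⟩⟩
      have : Icc T (1 : unitInterval) = (fun t : ℝ => projIcc (0:ℝ) 1 zero_le_one t) '' Icc (T : ℝ) 1 := by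
        ext t
        constructor
        · rintro ⟨ht1, -⟩
          exact ⟨t, ⟨ht1, t.2.2⟩, by simp [projIcc_of_mem]⟩
        · rintro ⟨s, ⟨hs1, hs2⟩, rfl⟩
          refine ⟨?_, unitInterval.le_one'⟩
          have hs : s ∈ Icc (0:ℝ) 1 := ⟨T.2.1.trans hs1, hs2⟩
          simp only [projIcc_of_mem zero_le_one hs]
          exact hs1
      rw [this]
      exact hconv.image continuous_projIcc
    have h2 := hpc.image hc
    have := h2.joinedIn (γ T) ⟨T, ⟨le_rfl, hT1.le⟩, rfl⟩ (γ 1) ⟨1, ⟨hT1.le, le_rfl⟩, rfl⟩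
    rwa [h1] at this
  · rintro _ ⟨t, ⟨ht1, -⟩, rfl⟩
    rcases ht1.lt_or_eq with h | rfl
    · exact ⟨(hlt t h).le, fun h' => absurd h' (hlt t h).ne'⟩
    · exact ⟨hTr.ge, fun _ => rfl⟩

theorem IsJordanArc.isCompact {A : Set ℂ} {a b : ℂ} (h : IsJordanArc A a b) : IsCompact A := by
  obtain ⟨γ, hc, -, -, -, rfl⟩ := h
  exact isCompact_range hc

theorem IsJordanArc.joinedIn {A : Set ℂ} {a b : ℂ} (h : IsJordanArc A a b) : JoinedIn A a b := by
  obtain ⟨γ, hc, -, h0, h1, rfl⟩ := h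
  exact ⟨⟨⟨γ, hc⟩, h0, h1⟩, fun t => mem_range_self t⟩

/-- Cayley transform of the outside of a disc to the closed upper half plane -/
noncomputable def cay (p ω z : ℂ) : ℂ := -Complex.I * (ω + (z - p)) / (ω - (z - p))

theorem cay_inj {p ω z z' : ℂ} (hω : ω ≠ 0) (h : z ≠ p + ω) (h' : z' ≠ p + ω)
    (he : cay p ω z = cay p ω z') : z = z' := by
  have h1 : ω - (z - p) ≠ 0 := fun e => h (by linear_combination -e)
  have h2 : ω - (z' - p) ≠ 0 := fun e => h' (by linear_combination -e)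
  unfold cay at he
  rw [div_eq_div_iff h1 h2] at he
  have h3 : (2 * Complex.I * ω) * (z - z') = 0 := by linear_combination -he
  rcases mul_eq_zero.1 h3 with h4 | h4
  · simp [hω] at h4
  · linear_combination h4

theorem cay_im {p ω z : ℂ} : (cay p ω z).im = (Complex.normSq (z - p) - Complex.normSq ω) /
    Complex.normSq (ω - (z - p)) := by
  unfold cay
  rw [Complex.div_im]
  simp only [Complex.normSq_apply, Complex.mul_re, Complex.mul_im, Complex.neg_re, Complex.neg_im,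
    Complex.I_re, Complex.I_im, Complex.add_re, Complex.add_im, Complex.sub_re, Complex.sub_im]
  ring

theorem cay_im_nonneg {p ω z : ℂ} (h : ‖ω‖ ≤ dist z p) : 0 ≤ (cay p ω z).im := by
  rw [cay_im]
  refine div_nonneg ?_ (Complex.normSq_nonneg _)
  rw [dist_eq_norm] at h
  rw [Complex.normSq_eq_norm_sq, Complex.normSq_eq_norm_sq]
  have := norm_nonneg ω
  nlinarith

theorem cay_im_zero {p ω z : ℂ} (h : dist z p = ‖ω‖) : (cay p ω z).im = 0 := by
  rw [cay_im]
  rw [dist_eq_norm] at h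
  rw [Complex.normSq_eq_norm_sq, Complex.normSq_eq_norm_sq, h]
  simp

theorem cay_path {p ω : ℂ} {S : Set ℂ} (hS : ∀ z ∈ S, ‖ω‖ ≤ dist z p ∧ z ≠ p + ω) {x y : ℂ}
    (h : JoinedIn S x y) (hx : dist x p = ‖ω‖) (hy : dist y p = ‖ω‖) :
    ∃ (α : ℝ → ℂ), Continuous α ∧ (∀ s, 0 ≤ (α s).im) ∧ α 0 = ((cay p ω x).re : ℂ) ∧
      α 1 = ((cay p ω y).re : ℂ) ∧ ∀ s, ∃ z ∈ S, α s = cay p ω z := by
  obtain ⟨γ, hγ⟩ := h
  have hmem : ∀ s, γ.extend s ∈ S := by
    intro s
    have : γ.extend s ∈ Set.range γ.extend := ⟨s, rfl⟩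
    rw [Path.extend_range] at this
    obtain ⟨t, ht⟩ := this
    rw [← ht]; exact hγ t
  refine ⟨fun s => cay p ω (γ.extend s), ?_, fun s => cay_im_nonneg (hS _ (hmem s)).1, ?_, ?_,
    fun s => ⟨_, hmem s, rfl⟩⟩
  · unfold cay
    refine Continuous.div ?_ ?_ ?_
    · exact continuous_const.mul (continuous_const.add (γ.continuous_extend.sub continuous_const))
    · exact continuous_const.sub (γ.continuous_extend.sub continuous_const)
    · intro s e
      exact (hS _ (hmem s)).2 (by linear_combination -e)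
  · simp only [Path.extend_zero]
    apply Complex.ext
    · simp
    · simpa using cay_im_zero hx
  · simp only [Path.extend_one]
    apply Complex.ext
    · simp
    · simpa using cay_im_zero hy

theorem disc_cross {p ω : ℂ} (hω : ω ≠ 0) {S T : Set ℂ}
    (hS : ∀ z ∈ S, ‖ω‖ ≤ dist z p ∧ z ≠ p + ω)
    (hT : ∀ z ∈ T, ‖ω‖ ≤ dist z p ∧ z ≠ p + ω) {a b c d : ℂ} (h1 : JoinedIn S a b)
    (h2 : JoinedIn T c d) (ha : dist a p = ‖ω‖) (hb : dist b p = ‖ω‖) (hc : dist c p = ‖ω‖)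
    (hd : dist d p = ‖ω‖)
    (hA : Alt4 (cay p ω a).re (cay p ω b).re (cay p ω c).re (cay p ω d).re) :
    ∃ z, z ∈ S ∧ z ∈ T := by
  wlog hab : (cay p ω a).re ≤ (cay p ω b).re generalizing a b
  · refine this h1.symm hb ha ?_ (le_of_not_ge hab)
    unfold Alt4 at *; rwa [min_comm (cay p ω b).re, max_comm (cay p ω b).re]
  wlog hcd : (cay p ω c).re ≤ (cay p ω d).re generalizing c d
  · refine this h2.symm hd hc ?_ (le_of_not_ge hcd)
    unfold Alt4 at *; rwa [min_comm (cay p ω d).re, max_comm (cay p ω d).re]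
  obtain ⟨α, α1, α2, α3, α4, α5⟩ := cay_path hS h1 ha hb
  obtain ⟨β, β1, β2, β3, β4, β5⟩ := cay_path hT h2 hc hd
  unfold Alt4 at hA
  rw [min_eq_left hab, min_eq_left hcd, max_eq_right hab, max_eq_right hcd] at hA
  have : ∃ s t, α s = β t := by
    rcases hA with ⟨h3, h4, h5⟩ | ⟨h3, h4, h5⟩
    · exact Pool.Agent.H207R2.BL.interlace α β α1 β1 α2 β2 _ _ _ _ h3 h4 h5 α3 α4 β3 β4
    · obtain ⟨s, t, h⟩ := Pool.Agent.H207R2.BL.interlace β α β1 α1 β2 α2 _ _ _ _ h3 h4 h5 β3 β4 α3 α4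
      exact ⟨t, s, h.symm⟩
  obtain ⟨s, t, hst⟩ := this
  obtain ⟨z, hz, ez⟩ := α5 s
  obtain ⟨w, hw, ew⟩ := β5 t
  have : z = w := cay_inj hω (hS z hz).2 (hT w hw).2 (by rw [← ez, ← ew, hst])
  exact ⟨z, hz, this ▸ hw⟩

theorem walk_joined (D : TopGraph G) {a b : V} (P : G.Walk a b) {S : Set ℂ} (ha : D.pos a ∈ S)
    (h : ∀ e ∈ P.edges, D.arc e ⊆ S) : JoinedIn S (D.pos a) (D.pos b) := by
  induction P with
  | nil => exact JoinedIn.refl ha
  | @cons u w v huw P ih =>
    have h1 : D.arc s(u, w) ⊆ S := h _ (by simp)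
    have h2 : JoinedIn S (D.pos u) (D.pos w) := (D.isArc u w huw).joinedIn.mono h1
    exact h2.trans (ih h2.target_mem fun e he => h e (by simp [he]))

theorem rotation [Finite V] (D : TopGraph G) (v : V)
    (hstar : ∀ a b, G.Adj v a → G.Adj v b → a ≠ b → ¬ D.Cross s(v, a) s(v, b)) :
    ∃ x : V → ℝ, (∀ a b, G.Adj v a → G.Adj v b → x a = x b → a = b) ∧
      ∀ a b c d, G.Adj v a → G.Adj v b → G.Adj v c → G.Adj v d →
        ∀ (P : G.Walk a b) (Q : G.Walk c d), v ∉ P.support → v ∉ Q.support →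
          (∀ w ∈ P.support, w ∉ Q.support) →
          (∀ e, (e = s(v, a) ∨ e = s(v, b) ∨ e ∈ P.edges) →
            ∀ f, (f = s(v, c) ∨ f = s(v, d) ∨ f ∈ Q.edges) → ¬ D.Cross e f) →
          ¬ Alt4 (x a) (x b) (x c) (x d) := by
  classical
  have hpv : ∀ e ∈ G.edgeSet, v ∉ e → D.pos v ∉ D.arc e := fun e he hv h => hv (D.avoid e he v h)
  -- a small radius
  obtain ⟨r, hr, hr1, hr2⟩ : ∃ r : ℝ, 0 < r ∧ (∀ w, w ≠ v → r < dist (D.pos w) (D.pos v)) ∧
      ∀ e ∈ G.edgeSet, v ∉ e → ∀ z ∈ D.arc e, r < dist z (D.pos v) := by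
    let K : Set ℂ := (⋃ w : {w // w ≠ v}, {D.pos w}) ∪ ⋃ e : {e : Sym2 V // e ∈ G.edgeSet ∧ v ∉ e}, D.arc e
    have hK : IsClosed K := by
      refine IsClosed.union (isClosed_iUnion_of_finite fun _ => isClosed_singleton)
        (isClosed_iUnion_of_finite ?_)
      rintro ⟨e, he, -⟩
      induction e using Sym2.ind with
      | _ a b => exact (D.isArc a b he).isCompact.isClosed
    have hpK : D.pos v ∈ Kᶜ := by
      rintro (h | h)
      · obtain ⟨w, hw⟩ := mem_iUnion.1 h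
        exact w.2 (D.pos_inj hw.symm)
      · obtain ⟨e, he⟩ := mem_iUnion.1 h
        exact hpv e.1 e.2.1 e.2.2 he
    obtain ⟨ε, hε, hsub⟩ := Metric.isOpen_iff.1 hK.isOpen_compl _ hpK
    have hfar : ∀ z ∈ K, ε / 2 < dist z (D.pos v) := by
      intro z hz
      by_contra h
      exact hsub (Metric.mem_ball.2 (by linarith : dist z (D.pos v) < ε)) hz
    exact ⟨ε / 2, by linarith, fun w hw => hfar _ (Or.inl (mem_iUnion.2 ⟨⟨w, hw⟩, rfl⟩)),
      fun e he hv z hz => hfar z (Or.inr (mem_iUnion.2 ⟨⟨e, he, hv⟩, hz⟩))⟩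
  -- last exits
  have hex : ∀ a, ∃ (x : ℂ) (B : Set ℂ), G.Adj v a → B ⊆ D.arc s(v, a) ∧ JoinedIn B x (D.pos a) ∧
      dist x (D.pos v) = r ∧ ∀ z ∈ B, r ≤ dist z (D.pos v) ∧ (dist z (D.pos v) = r → z = x) := by
    intro a
    by_cases h : G.Adj v a
    · obtain ⟨x, B, h1⟩ := last_exit (D.isArc v a h) hr (hr1 a h.ne')
      exact ⟨x, B, fun _ => h1⟩
    · exact ⟨0, ∅, fun h' => absurd h' h⟩
  choose X B hXB using hex
  -- the base direction
  obtain ⟨ω, hωn, hωX⟩ : ∃ ω : ℂ, ‖ω‖ = r ∧ ∀ a, X a ≠ D.pos v + ω := by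
    have hinf : (Metric.sphere (D.pos v) r).Infinite := by
      have h1 : IsPreconnected (Metric.sphere (D.pos v) r) := isPreconnected_sphere
        (by rw [Complex.rank_real_complex]; exact Cardinal.one_lt_two) _ _
      refine h1.infinite_of_nontrivial ⟨D.pos v + r, ?_, D.pos v - r, ?_, ?_⟩
      · simp [abs_of_pos hr]
      · simp [abs_of_pos hr]
      · intro h
        have : (r : ℂ) = 0 := by linear_combination h / 2
        exact hr.ne' (by exact_mod_cast this)
    obtain ⟨z, hz, hzX⟩ := hinf.exists_notMem_finite (Set.finite_range X)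
    refine ⟨z - D.pos v, ?_, ?_⟩
    · rwa [mem_sphere_iff_norm] at hz
    · intro a h
      exact hzX ⟨a, by rw [h]; ring⟩
  have hω0 : ω ≠ 0 := by rintro rfl; simp at hωn; exact hr.ne hωn
  refine ⟨fun a => (cay (D.pos v) ω (X a)).re, ?_, ?_⟩
  · intro a b ha hb hab
    by_contra hne
    obtain ⟨a1, a2, a3, a4⟩ := hXB a ha
    obtain ⟨b1, b2, b3, b4⟩ := hXB b hb
    have e1 : cay (D.pos v) ω (X a) = cay (D.pos v) ω (X b) := by
      apply Complex.ext
      · exact hab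
      · rw [cay_im_zero (a3.trans hωn.symm), cay_im_zero (b3.trans hωn.symm)]
    have e2 := cay_inj hω0 (hωX a) (hωX b) e1
    have h1 : X a ∈ D.arc s(v, a) := a1 a2.source_mem
    have h2 : X a ∈ D.arc s(v, b) := e2 ▸ b1 b2.source_mem
    refine hstar a b ha hb hne ⟨X a, ⟨h1, h2⟩, ?_⟩
    rintro ⟨w, hw1, hw2, hw3⟩
    have hwv : w = v := by
      rcases Sym2.mem_iff.1 hw1 with h | h
      · exact h
      · rcases Sym2.mem_iff.1 hw2 with h' | h'
        · exact h'
        · exact absurd (h.symm.trans h') hne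
    rw [hwv] at hw3
    rw [hw3, dist_self] at a3
    exact hr.ne a3
  · intro a b c d ha hb hc hd P Q hP hQ hdis hno hA
    obtain ⟨a1, a2, a3, a4⟩ := hXB a ha
    obtain ⟨b1, b2, b3, b4⟩ := hXB b hb
    obtain ⟨c1, c2, c3, c4⟩ := hXB c hc
    obtain ⟨d1, d2, d3, d4⟩ := hXB d hd
    -- the sets
    have gen : ∀ {a b : V} (P : G.Walk a b), v ∉ P.support → B a ⊆ D.arc s(v, a) →
        JoinedIn (B a) (X a) (D.pos a) →
        (∀ z ∈ B a, r ≤ dist z (D.pos v) ∧ (dist z (D.pos v) = r → z = X a)) →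
        B b ⊆ D.arc s(v, b) → JoinedIn (B b) (X b) (D.pos b) →
        (∀ z ∈ B b, r ≤ dist z (D.pos v) ∧ (dist z (D.pos v) = r → z = X b)) →
        ∃ S : Set ℂ, JoinedIn S (X a) (X b) ∧ (∀ z ∈ S, ‖ω‖ ≤ dist z (D.pos v) ∧ z ≠ D.pos v + ω) ∧
          ∀ z ∈ S, ∃ e, (e = s(v, a) ∨ e = s(v, b) ∨ e ∈ P.edges) ∧ z ∈ D.arc e := by
      intro a b P hP a1 a2 a4 b1 b2 b4
      refine ⟨B a ∪ B b ∪ ⋃ e ∈ {e | e ∈ P.edges}, D.arc e, ?_, ?_, ?_⟩
      · have h1 : JoinedIn (B a ∪ B b ∪ ⋃ e ∈ {e | e ∈ P.edges}, D.arc e) (X a) (D.pos a) :=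
          a2.mono fun z hz => Or.inl (Or.inl hz)
        have h2 : JoinedIn (B a ∪ B b ∪ ⋃ e ∈ {e | e ∈ P.edges}, D.arc e) (X b) (D.pos b) :=
          b2.mono fun z hz => Or.inl (Or.inr hz)
        refine (h1.trans (walk_joined D P h1.target_mem ?_)).trans h2.symm
        intro e he z hz
        exact Or.inr (mem_iUnion₂.2 ⟨e, he, hz⟩)
      · rintro z ((hz | hz) | hz)
        · refine ⟨hωn.trans_le (a4 z hz).1, fun h => ?_⟩
          refine hωX a (((a4 z hz).2 ?_).symm.trans h)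
          rw [h]; simpa using hωn
        · refine ⟨hωn.trans_le (b4 z hz).1, fun h => ?_⟩
          refine hωX b (((b4 z hz).2 ?_).symm.trans h)
          rw [h]; simpa using hωn
        · obtain ⟨e, he, hz⟩ := mem_iUnion₂.1 hz
          have hve : v ∉ e := fun h => hP (P.mem_support_of_mem_edges he h)
          have := hr2 e (P.edges_subset_edgeSet he) hve z hz
          refine ⟨hωn.trans_le this.le, fun h => ?_⟩
          rw [h] at this
          simp [hωn] at this
      · rintro z ((hz | hz) | hz)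
        · exact ⟨_, Or.inl rfl, a1 hz⟩
        · exact ⟨_, Or.inr (Or.inl rfl), b1 hz⟩
        · obtain ⟨e, he, hz⟩ := mem_iUnion₂.1 hz
          exact ⟨e, Or.inr (Or.inr he), hz⟩
    obtain ⟨S, S1, S2, S3⟩ := gen P hP a1 a2 a4 b1 b2 b4
    obtain ⟨T, T1, T2, T3⟩ := gen Q hQ c1 c2 c4 d1 d2 d4
    obtain ⟨z, hzS, hzT⟩ := disc_cross hω0 S2 T2 S1 T1 (a3.trans hωn.symm) (b3.trans hωn.symm)
      (c3.trans hωn.symm) (d3.trans hωn.symm) hA
    obtain ⟨e, he, hze⟩ := S3 z hzS
    obtain ⟨f, hf, hzf⟩ := T3 z hzT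
    refine hno e he f hf ⟨z, ⟨hze, hzf⟩, ?_⟩
    rintro ⟨w, hwe, hwf, hw⟩
    have hwv : w ≠ v := by
      rintro rfl
      have := (S2 z hzS).1
      rw [hw, dist_self, hωn] at this
      linarith
    have supp : ∀ {a b : V} (P : G.Walk a b) (e : Sym2 V),
        (e = s(v, a) ∨ e = s(v, b) ∨ e ∈ P.edges) → w ∈ e → w ∈ P.support := by
      intro a b P e he hwe
      rcases he with rfl | rfl | he
      · rcases Sym2.mem_iff.1 hwe with h | h
        · exact absurd h hwv
        · rw [h]; exact P.start_mem_support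
      · rcases Sym2.mem_iff.1 hwe with h | h
        · exact absurd h hwv
        · rw [h]; exact P.end_mem_support
      · exact P.mem_support_of_mem_edges he hwe
    exact hdis w (supp P e he hwe) (supp Q f hf hwf)

end Pool.Agent.LP86
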