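import Pool.Agent.LP86.Btw

/-!
Systems of two-page sequences: combinatorial drawings of the edges of a graph in which near edges
do not cross. Properties of shortest systems.
-/

namespace Pool.Agent.LP86

/-- a sequence of positions on a line, with a page for every step -/
structure Sq (Λ : Type) where
  m : ℕ
  p : ℕ → Λ
  g : ℕ → Bool

variable {Λ ι : Type} [LinearOrder Λ]

/-! ### alternation on a linear order -/

theorem al_split {a b c x y : Λ} (h : Al a c x y) (h1 : b ≠ x) (h2 : b ≠ y) :
    Al a b x y ∨ Al b c x y := by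
  unfold Al Btw at *
  grind

theorem al_cross {a b c d x y : Λ} (h : Al a b c d) (h' : Al a d x y) (h1 : b ≠ x) (h2 : b ≠ y)
    (h3 : c ≠ x) (h4 : c ≠ y) : Al a b x y ∨ Al c d x y := by
  unfold Al Btw at *
  grind

theorem al_loop {a b c d x y : Λ} (h : Al a d x y) (h1 : b ≠ x) (h2 : b ≠ y)
    (h3 : c ≠ x) (h4 : c ≠ y) (h5 : ¬ Btw x b c) (h6 : ¬ Btw y b c) :
    Al a b x y ∨ Al c d x y := by
  unfold Al Btw at *
  grind

theorem btw_of_noal {a b x y : Λ} (h : Btw x a b) (h' : ¬ Al a b x y) (h1 : y ≠ a) (h2 : y ≠ b) :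
    Btw y a b := by
  unfold Al Btw at *
  grind

theorem noal_symm {a b c d : Λ} : ¬ Al a b c d ↔ ¬ Al c d a b := by
  unfold Al
  tauto

structure Sys (pl : Λ → ℕ) (sp tp : ι → ℕ) (nr : ι → ι → Prop) (D : ι → Sq Λ) : Prop where
  src : ∀ i, pl ((D i).p 0) = sp i
  dst : ∀ i, pl ((D i).p (D i).m) = tp i
  int : ∀ i k, 0 < k → k < (D i).m → Even (pl ((D i).p k))
  dis : ∀ i j, nr i j → i ≠ j → ∀ k ≤ (D i).m, ∀ l ≤ (D j).m, (D i).p k ≠ (D j).p l
  nal : ∀ i j, nr i j → i ≠ j → ∀ k < (D i).m, ∀ l < (D j).m, (D i).g k = (D j).g l →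
    ¬ Al ((D i).p k) ((D i).p (k + 1)) ((D j).p l) ((D j).p (l + 1))

variable {pl : Λ → ℕ} {sp tp : ι → ℕ} {nr : ι → ι → Prop} {D : ι → Sq Λ}

open Classical in
/-- replacing one sequence -/
theorem Sys.replace (hD : Sys pl sp tp nr D) (hnr : ∀ i j, nr i j → nr j i) (i : ι) (s : Sq Λ)
    (h0 : s.p 0 = (D i).p 0) (h1 : s.p s.m = (D i).p (D i).m)
    (hnode : ∀ k ≤ s.m, ∃ l ≤ (D i).m, s.p k = (D i).p l ∧
      (0 < k → k < s.m → 0 < l ∧ l < (D i).m))
    (harc : ∀ j, nr i j → i ≠ j → ∀ k < s.m, ∀ l < (D j).m, s.g k = (D j).g l →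
      ¬ Al (s.p k) (s.p (k + 1)) ((D j).p l) ((D j).p (l + 1))) :
    Sys pl sp tp nr (Function.update D i s) := by
  refine ⟨fun j => ?_, fun j => ?_, fun j k hk hk' => ?_, fun j l hn hne k hk k' hk' => ?_,
    fun j l hn hne k hk k' hk' hg => ?_⟩
  · by_cases h : j = i
    · subst h; rw [Function.update_self, h0]; exact hD.src j
    · rw [Function.update_of_ne h]; exact hD.src j
  · by_cases h : j = i
    · subst h; rw [Function.update_self, h1]; exact hD.dst j
    · rw [Function.update_of_ne h]; exact hD.dst j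
  · by_cases h : j = i
    · subst h
      rw [Function.update_self] at hk' ⊢
      obtain ⟨l, hl, e, h2⟩ := hnode k hk'.le
      rw [e]
      exact hD.int j l (h2 hk hk').1 (h2 hk hk').2
    · rw [Function.update_of_ne h] at hk' ⊢
      exact hD.int j k hk hk'
  · by_cases h : j = i
    · subst h
      rw [Function.update_self] at hk ⊢
      rw [Function.update_of_ne hne.symm] at hk' ⊢
      obtain ⟨a, ha, e, -⟩ := hnode k hk
      rw [e]
      exact hD.dis j l hn hne a ha k' hk'
    · rw [Function.update_of_ne h] at hk ⊢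
      by_cases h' : l = i
      · subst h'
        rw [Function.update_self] at hk' ⊢
        obtain ⟨a, ha, e, -⟩ := hnode k' hk'
        rw [e]
        exact hD.dis j l hn hne k hk a ha
      · rw [Function.update_of_ne h'] at hk' ⊢
        exact hD.dis j l hn hne k hk k' hk'
  · by_cases h : j = i
    · subst h
      rw [Function.update_self] at hk hg ⊢
      rw [Function.update_of_ne hne.symm] at hk' hg ⊢
      exact harc l hn hne k hk k' hk' hg
    · rw [Function.update_of_ne h] at hk hg ⊢
      by_cases h' : l = i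
      · subst h'
        rw [Function.update_self] at hk' hg ⊢
        rw [noal_symm]
        exact harc j (hnr _ _ hn) hne.symm k' hk' k hk hg.symm
      · rw [Function.update_of_ne h'] at hk' hg ⊢
        exact hD.nal j l hn hne k hk k' hk' hg

/-- a system of minimal total length -/
structure MinSys [Fintype ι] (pl : Λ → ℕ) (sp tp : ι → ℕ) (nr : ι → ι → Prop) (D : ι → Sq Λ) :
    Prop where
  sys : Sys pl sp tp nr D
  min : ∀ D' : ι → Sq Λ, Sys pl sp tp nr D' → ∑ i, (D i).m ≤ ∑ i, (D' i).m
  symm : ∀ i j, nr i j → nr j i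
  osp : ∀ i, ¬ Even (sp i)
  otp : ∀ i, ¬ Even (tp i)
  spt : ∀ i, sp i ≠ tp i
  mono : Monotone pl

theorem exists_minSys [Fintype ι] (hD : Sys pl sp tp nr D) (hnr : ∀ i j, nr i j → nr j i)
    (osp : ∀ i, ¬ Even (sp i)) (otp : ∀ i, ¬ Even (tp i)) (spt : ∀ i, sp i ≠ tp i)
    (mono : Monotone pl) : ∃ D' : ι → Sq Λ, MinSys pl sp tp nr D' := by
  classical
  let S : Set ℕ := {n | ∃ D' : ι → Sq Λ, Sys pl sp tp nr D' ∧ ∑ i, (D' i).m = n}
  have hS : S.Nonempty := ⟨_, D, hD, rfl⟩
  obtain ⟨D', h1, h2⟩ := Nat.sInf_mem hS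
  exact ⟨D', h1, fun D'' h => h2 ▸ Nat.sInf_le ⟨D'', h, rfl⟩, hnr, osp, otp, spt, mono⟩

namespace MinSys

variable [Fintype ι] (M : MinSys pl sp tp nr D)
include M

theorem le_replace (i : ι) (s : Sq Λ)
    (h0 : s.p 0 = (D i).p 0) (h1 : s.p s.m = (D i).p (D i).m)
    (hnode : ∀ k ≤ s.m, ∃ l ≤ (D i).m, s.p k = (D i).p l ∧
      (0 < k → k < s.m → 0 < l ∧ l < (D i).m))
    (harc : ∀ j, nr i j → i ≠ j → ∀ k < s.m, ∀ l < (D j).m, s.g k = (D j).g l →
      ¬ Al (s.p k) (s.p (k + 1)) ((D j).p l) ((D j).p (l + 1))) : (D i).m ≤ s.m := by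
  classical
  have h := M.min _ (M.sys.replace M.symm i s h0 h1 hnode harc)
  rw [← Finset.add_sum_erase _ _ (Finset.mem_univ i),
    ← Finset.add_sum_erase (a := i) _ (fun j => (Function.update D i s j).m) (Finset.mem_univ i)] at h
  have e : ∑ x ∈ Finset.univ.erase i, (D x).m =
      ∑ x ∈ Finset.univ.erase i, (Function.update D i s x).m :=
    Finset.sum_congr rfl fun x hx => by
      rw [Function.update_of_ne (Finset.ne_of_mem_erase hx)]
  rw [e] at h
  simp only [Function.update_self] at h
  omega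

theorem m_pos (i : ι) : 0 < (D i).m := by
  rcases Nat.eq_zero_or_pos (D i).m with h | h
  · have h1 := M.sys.src i
    have h2 := M.sys.dst i
    rw [h] at h2
    exact absurd (h1.symm.trans h2) (M.spt i)
  · exact h

theorem inj (i : ι) {a b : ℕ} (ha : a ≤ (D i).m) (hb : b ≤ (D i).m) (h : (D i).p a = (D i).p b) :
    a = b := by
  wlog hab : a < b generalizing a b
  · rcases Nat.lt_or_ge b a with h' | h'
    · exact (this hb ha h.symm h').symm
    · omega
  exfalso
  set q := (D i).p with hq
  set n := (D i).m with hn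
  have := M.le_replace i ⟨n - (b - a), fun k => if k ≤ a then q k else q (k + (b - a)),
    fun k => if k < a then (D i).g k else (D i).g (k + (b - a))⟩ (by simp [hq]) ?_ ?_ ?_
  · simp only at this; omega
  · simp only
    split_ifs with h'
    · have : n - (b - a) = a := by omega
      rw [this, h]; congr 1; omega
    · congr 1; omega
  · intro k hk
    simp only at hk ⊢
    split_ifs with h'
    · exact ⟨k, by omega, rfl, by omega⟩
    · exact ⟨k + (b - a), by omega, rfl, by omega⟩
  · intro j hj hne k hk l hl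
    simp only at hk ⊢
    rcases lt_trichotomy k a with h' | rfl | h'
    · rw [if_pos h', if_pos h'.le, if_pos (by omega)]
      exact M.sys.nal i j hj hne k (by omega) l hl
    · rw [if_neg (by omega), if_pos le_rfl, if_neg (by omega), h, show k + (b - k) = b by omega,
        show k + 1 + (b - k) = b + 1 by omega]
      exact M.sys.nal i j hj hne b (by omega) l hl
    · rw [if_neg (by omega), if_neg (by omega), if_neg (by omega),
        show k + 1 + (b - a) = k + (b - a) + 1 by omega]
      exact M.sys.nal i j hj hne (k + (b - a)) (by omega) l hl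

/-- a shortcut must cross something -/
theorem shortcut (i : ι) {a b : ℕ} (hab : a + 2 ≤ b) (hb : b ≤ (D i).m) (P : Bool) :
    ∃ j, nr i j ∧ i ≠ j ∧ ∃ l < (D j).m, P = (D j).g l ∧
      Al ((D i).p a) ((D i).p b) ((D j).p l) ((D j).p (l + 1)) := by
  by_contra hcon
  push Not at hcon
  set q := (D i).p with hq
  set n := (D i).m with hn
  have := M.le_replace i ⟨n - (b - a) + 1, fun k => if k ≤ a then q k else q (k + (b - a - 1)),
    fun k => if k < a then (D i).g k else if k = a then P else (D i).g (k + (b - a - 1))⟩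
    (by simp [hq]) ?_ ?_ ?_
  · simp only at this; omega
  · simp only
    rw [if_neg (by omega)]
    congr 1; omega
  · intro k hk
    simp only at hk ⊢
    split_ifs with h'
    · exact ⟨k, by omega, rfl, by omega⟩
    · exact ⟨k + (b - a - 1), by omega, rfl, by omega⟩
  · intro j hj hne k hk l hl
    simp only at hk ⊢
    rcases lt_trichotomy k a with h' | rfl | h'
    · rw [if_pos h', if_pos h'.le, if_pos (by omega)]
      exact M.sys.nal i j hj hne k (by omega) l hl
    · rw [if_neg (by omega), if_pos rfl, if_pos le_rfl, if_neg (by omega),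
        show k + 1 + (b - k - 1) = b by omega]
      exact fun e => hcon j hj hne l hl e
    · rw [if_neg (by omega), if_neg (by omega), if_neg (by omega), if_neg (by omega),
        show k + 1 + (b - a - 1) = k + (b - a - 1) + 1 by omega]
      exact M.sys.nal i j hj hne (k + (b - a - 1)) (by omega) l hl

theorem alt (i : ι) {k : ℕ} (hk : k + 1 < (D i).m) : (D i).g (k + 1) = !(D i).g k := by
  by_contra hne
  have hg : (D i).g (k + 1) = (D i).g k := by
    revert hne; cases (D i).g (k + 1) <;> cases (D i).g k <;> simp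
  obtain ⟨j, hj, hij, l, hl, hP, hal⟩ := M.shortcut i (a := k) (b := k + 2) le_rfl (by omega)
    ((D i).g k)
  rcases al_split hal (b := (D i).p (k + 1)) (M.sys.dis i j hj hij _ (by omega) _ (by omega))
    (M.sys.dis i j hj hij _ (by omega) _ (by omega)) with h | h
  · exact M.sys.nal i j hj hij k (by omega) l hl hP h
  · exact M.sys.nal i j hj hij (k + 1) (by omega) l hl (hg.trans hP) h

theorem self (i : ι) {k l : ℕ} (hkl : k < l) (hl : l < (D i).m) (hg : (D i).g k = (D i).g l) :
    ¬ Al ((D i).p k) ((D i).p (k + 1)) ((D i).p l) ((D i).p (l + 1)) := by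
  intro hal
  have h2 : k + 2 ≤ l := by
    by_contra h
    have : l = k + 1 := by omega
    subst this
    have := M.alt i (k := k) (by omega)
    rw [← hg] at this
    simp at this
  obtain ⟨j, hj, hij, n, hn, hP, hal'⟩ := M.shortcut i (a := k) (b := l + 1) (by omega) (by omega)
    ((D i).g k)
  rcases al_cross hal hal' (M.sys.dis i j hj hij _ (by omega) _ (by omega))
    (M.sys.dis i j hj hij _ (by omega) _ (by omega)) (M.sys.dis i j hj hij _ (by omega) _ (by omega))
    (M.sys.dis i j hj hij _ (by omega) _ (by omega)) with h | h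
  · exact M.sys.nal i j hj hij k (by omega) n hn hP h
  · exact M.sys.nal i j hj hij l (by omega) n hn (hg.symm.trans hP) h

theorem self' (i : ι) {k l : ℕ} (hk : k < (D i).m) (hl : l < (D i).m)
    (hg : (D i).g k = (D i).g l) :
    ¬ Al ((D i).p k) ((D i).p (k + 1)) ((D i).p l) ((D i).p (l + 1)) := by
  rcases lt_trichotomy k l with h | rfl | h
  · exact M.self i h hl hg
  · unfold Al Btw; grind
  · rw [noal_symm]; exact M.self i h hk hg.symm

theorem odd_end (i : ι) {k : ℕ} (hk : k ≤ (D i).m) (h : Even (pl ((D i).p k))) :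
    0 < k ∧ k < (D i).m := by
  refine ⟨Nat.pos_of_ne_zero ?_, lt_of_le_of_ne hk ?_⟩
  · rintro rfl
    rw [M.sys.src i] at h
    exact M.osp i h
  · rintro rfl
    rw [M.sys.dst i] at h
    exact M.otp i h

/-- the arc on a given page at an inner node -/
theorem arc_at (i : ι) {k : ℕ} (h0 : 0 < k) (h1 : k < (D i).m) (P : Bool) :
    ∃ l < (D i).m, (D i).g l = P ∧ (l = k ∨ l + 1 = k) := by
  by_cases h : (D i).g k = P
  · exact ⟨k, h1, h, Or.inl rfl⟩
  · obtain ⟨k, rfl⟩ := Nat.exists_eq_succ_of_ne_zero h0.ne'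
    refine ⟨k, by omega, ?_, Or.inr rfl⟩
    have := M.alt i (k := k) h1
    rw [Nat.succ_eq_add_one, this] at h
    revert h; cases (D i).g k <;> cases P <;> simp

theorem pl_btw {x a b : Λ} (h : Btw x a b) (hab : pl a = pl b) : pl x = pl a := by
  rcases h with ⟨h1, h2⟩ | ⟨h1, h2⟩
  · have := M.mono h1.le; have := M.mono h2.le; omega
  · have := M.mono h1.le; have := M.mono h2.le; omega

theorem loop_int (i : ι) {k : ℕ} (hk : k < (D i).m)
    (hpl : pl ((D i).p k) = pl ((D i).p (k + 1))) : 0 < k ∧ k + 1 < (D i).m := by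
  have h0 : 0 < k := by
    rcases Nat.eq_zero_or_pos k with rfl | h
    · exfalso
      have h1 := M.sys.src i
      rcases Nat.lt_or_ge 1 (D i).m with h | h
      · have h2 := M.sys.int i 1 (by omega) h
        rw [← hpl, h1] at h2
        exact M.osp i h2
      · have h2 := M.sys.dst i
        rw [show (D i).m = 0 + 1 by omega, ← hpl, h1] at h2
        exact M.spt i h2
    · exact h
  refine ⟨h0, ?_⟩
  rcases Nat.lt_or_ge (k + 1) (D i).m with h | h
  · exact h
  · exfalso
    have h2 := M.sys.dst i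
    rw [show (D i).m = k + 1 by omega, ← hpl] at h2
    exact M.otp i (h2 ▸ M.sys.int i k h0 hk)

theorem noloop_core (i : ι) (k : ℕ) (hk : k < (D i).m)
    (hpl : pl ((D i).p k) = pl ((D i).p (k + 1)))
    (hno : ∀ j, nr i j → i ≠ j → ∀ l ≤ (D j).m, ¬ Btw ((D j).p l) ((D i).p k) ((D i).p (k + 1))) :
    False := by
  obtain ⟨h0, h1⟩ := M.loop_int i hk hpl
  obtain ⟨k, rfl⟩ := Nat.exists_eq_succ_of_ne_zero h0.ne'
  simp only [Nat.succ_eq_add_one] at *
  obtain ⟨j, hj, hij, l, hl, hP, hal⟩ := M.shortcut i (a := k) (b := k + 3) (by omega) (by omega)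
    ((D i).g k)
  have hne : ∀ a ≤ (D i).m, ∀ b ≤ (D j).m, (D i).p a ≠ (D j).p b := M.sys.dis i j hj hij
  rcases al_loop hal (hne (k + 1) (by omega) l (by omega)) (hne _ (by omega) _ (by omega))
    (hne (k + 1 + 1) (by omega) l (by omega)) (hne _ (by omega) _ (by omega))
    (hno j hj hij l (by omega)) (hno j hj hij (l + 1) (by omega)) with h | h
  · exact M.sys.nal i j hj hij k (by omega) l hl hP h
  · refine M.sys.nal i j hj hij (k + 2) (by omega) l hl ?_ h
    rw [← hP, M.alt i (k := k + 1) (by omega), M.alt i (k := k) (by omega), Bool.not_not]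

open Classical in
theorem noloop_aux (N : ℕ) : ∀ (i : ι) (k : ℕ), k < (D i).m →
    pl ((D i).p k) = pl ((D i).p (k + 1)) →
    ∑ j, ((Finset.range ((D j).m + 1)).filter fun l =>
      Btw ((D j).p l) ((D i).p k) ((D i).p (k + 1))).card ≤ N → False := by
  induction N using Nat.strong_induction_on with
  | _ N ih =>
    intro i k hk hpl hN
    refine M.noloop_core i k hk hpl fun j hj hij l hl hb => ?_
    have hpl' := M.pl_btw hb hpl
    obtain ⟨h0, h1⟩ := M.loop_int i hk hpl
    have hev := M.sys.int i k h0 hk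
    obtain ⟨h2, h3⟩ := M.odd_end j hl (hpl' ▸ hev)
    obtain ⟨n, hn, hg, hnl⟩ := M.arc_at j h2 h3 ((D i).g k)
    have hne : ∀ a ≤ (D i).m, ∀ b ≤ (D j).m, (D i).p a ≠ (D j).p b := M.sys.dis i j hj hij
    have hna := M.sys.nal i j hj hij k hk n hn hg.symm
    -- both ends of the arc are in between
    have hboth : Btw ((D j).p n) ((D i).p k) ((D i).p (k + 1)) ∧
        Btw ((D j).p (n + 1)) ((D i).p k) ((D i).p (k + 1)) := by
      rcases hnl with rfl | rfl
      · exact ⟨hb, btw_of_noal hb hna (hne _ (by omega) _ (by omega)).symm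
          (hne _ (by omega) _ (by omega)).symm⟩
      · refine ⟨btw_of_noal hb (fun h => hna h.swap2) (hne _ (by omega) _ (by omega)).symm
          (hne _ (by omega) _ (by omega)).symm, hb⟩
    have e1 := M.pl_btw hboth.1 hpl
    have e2 := M.pl_btw hboth.2 hpl
    refine ih _ ?_ j n hn (e1.trans e2.symm) le_rfl
    refine lt_of_lt_of_le ?_ hN
    have hsub : ∀ x, Btw x ((D j).p n) ((D j).p (n + 1)) →
        Btw x ((D i).p k) ((D i).p (k + 1)) := by
      intro x hx
      obtain ⟨b1, b2⟩ := hboth
      unfold Btw at *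
      grind
    refine Finset.sum_lt_sum (fun a _ => Finset.card_le_card fun x hx => ?_)
      ⟨j, Finset.mem_univ j, Finset.card_lt_card ⟨fun x hx => ?_, fun hsup => ?_⟩⟩
    · simp only [Finset.mem_filter] at hx ⊢
      exact ⟨hx.1, hsub _ hx.2⟩
    · simp only [Finset.mem_filter] at hx ⊢
      exact ⟨hx.1, hsub _ hx.2⟩
    · have : n ∈ (Finset.range ((D j).m + 1)).filter fun l =>
          Btw ((D j).p l) ((D j).p n) ((D j).p (n + 1)) := hsup (by
        simp only [Finset.mem_filter, Finset.mem_range]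
        exact ⟨by omega, hboth.1⟩)
      simp only [Finset.mem_filter] at this
      have h := this.2
      unfold Btw at h
      grind

/-- no arc joins two positions of one place -/
theorem noloop (i : ι) {k : ℕ} (hk : k < (D i).m) : pl ((D i).p k) ≠ pl ((D i).p (k + 1)) :=
  fun h => M.noloop_aux _ i k hk h le_rfl

end MinSys

/-! ### extracting sequences from relations -/

theorem extract {r : Bool → Λ → Λ → Prop} {a b : Λ}
    (h : Relation.ReflTransGen (fun x y => ∃ P, r P x y) a b) :
    ∃ s : Sq Λ, s.p 0 = a ∧ s.p s.m = b ∧ (∀ k < s.m, r (s.g k) (s.p k) (s.p (k + 1))) ∧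
      ∀ k ≤ s.m, ∀ l ≤ s.m, s.p k = s.p l → k = l := by
  classical
  have hex : ∃ n, ∃ s : Sq Λ, s.m = n ∧ s.p 0 = a ∧ s.p s.m = b ∧
      ∀ k < s.m, r (s.g k) (s.p k) (s.p (k + 1)) := by
    induction h with
    | refl => exact ⟨0, ⟨0, fun _ => a, fun _ => true⟩, rfl, rfl, rfl, by simp⟩
    | @tail b c _ hbc ih =>
      obtain ⟨n, s, h1, h2, h3, h4⟩ := ih
      obtain ⟨P, hP⟩ := hbc
      refine ⟨n + 1, ⟨s.m + 1, fun k => if k ≤ s.m then s.p k else c,
        fun k => if k < s.m then s.g k else P⟩, by simp [h1], by simp [h2], by simp, ?_⟩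
      intro k hk
      simp only at hk ⊢
      by_cases h : k < s.m
      · rw [if_pos h, if_pos h.le, if_pos (by omega)]
        exact h4 k h
      · have : k = s.m := by omega
        subst this
        rw [if_neg h, if_pos le_rfl, if_neg (by omega), h3]
        exact hP
  obtain ⟨s, h1, h2, h3, h4⟩ := Nat.find_spec hex
  refine ⟨s, h2, h3, h4, ?_⟩
  have main : ∀ k l, k < l → l ≤ s.m → s.p k ≠ s.p l := by
    intro k l hkl hl he
    have := Nat.find_min' hex (m := s.m - (l - k)) ⟨⟨s.m - (l - k), fun j => if j ≤ k then s.p j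
      else s.p (j + (l - k)), fun j => if j < k then s.g j else s.g (j + (l - k))⟩, rfl,
      by simp [h2], ?_, ?_⟩
    · rw [← h1] at this; omega
    · simp only
      split_ifs with h'
      · rw [← h3, show s.m - (l - k) = k by omega, he]; congr 1; omega
      · rw [← h3]; congr 1; omega
    · intro j hj
      simp only at hj ⊢
      rcases lt_trichotomy j k with h' | rfl | h'
      · rw [if_pos h', if_pos h'.le, if_pos (by omega)]; exact h4 j (by omega)
      · rw [if_neg (by omega), if_pos le_rfl, if_neg (by omega), he,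
          show j + (l - j) = l by omega, show j + 1 + (l - j) = l + 1 by omega]
        exact h4 l (by omega)
      · rw [if_neg (by omega), if_neg (by omega), if_neg (by omega),
          show j + 1 + (l - k) = j + (l - k) + 1 by omega]
        exact h4 _ (by omega)
  intro k hk l hl he
  rcases lt_trichotomy k l with h | h | h
  · exact absurd he (main k l h hl)
  · exact h
  · exact absurd he.symm (main l k h hk)

end Pool.Agent.LP86
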