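import Pool.Agent.LP86.Mirror3
import Pool.Agent.H207R2.BL.Cross

/-!
From curves in the plane with end points near the real axis to a system of sequences.
-/

namespace Pool.Agent.LP86

open Set

/-- the closed half plane of a page -/
def Hp (P : Bool) : Set ℂ := {z | 0 ≤ sg P * z.im}

theorem joined_curve {S : Set ℂ} {x y : ℂ} (h : JoinedIn S x y) :
    ∃ α : ℝ → ℂ, Continuous α ∧ (∀ s, α s ∈ S) ∧ α 0 = x ∧ α 1 = y := by
  obtain ⟨γ, hγ⟩ := h
  refine ⟨γ.extend, γ.continuous_extend, fun s => ?_, γ.extend_zero, γ.extend_one⟩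
  have : γ.extend s ∈ range γ.extend := mem_range_self s
  rw [γ.extend_range] at this
  obtain ⟨t, ht⟩ := this
  rw [← ht]
  exact hγ t

theorem cross_aux {A B : Set ℂ} (hAB : Disjoint A B) {x1 x2 x3 x4 : ℝ} (h12 : x1 < x2)
    (h23 : x2 < x3) (h34 : x3 < x4) (hA : JoinedIn (A ∩ Hp true) x1 x3)
    (hB : JoinedIn (B ∩ Hp true) x2 x4) : False := by
  obtain ⟨α, a1, a2, a3, a4⟩ := joined_curve hA
  obtain ⟨β, b1, b2, b3, b4⟩ := joined_curve hB
  obtain ⟨s, t, h⟩ := Pool.Agent.H207R2.BL.interlace α β a1 b1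
    (fun s => by have := (a2 s).2; simpa [Hp, sg] using this)
    (fun s => by have := (b2 s).2; simpa [Hp, sg] using this) x1 x2 x3 x4 h12 h23 h34 a3 a4 b3 b4
  exact (Set.disjoint_left.1 hAB) (a2 s).1 (h ▸ (b2 t).1)

theorem cross_true {A B : Set ℂ} (hAB : Disjoint A B) {a b c d : ℝ}
    (hA : JoinedIn (A ∩ Hp true) a b) (hB : JoinedIn (B ∩ Hp true) c d) : ¬ Al a b c d := by
  intro h
  wlog hab : a < b generalizing a b
  · refine this hA.symm h.swap1 ?_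
    rcases lt_trichotomy a b with h' | h' | h'
    · exact absurd h' hab
    · exfalso
      subst h'
      unfold Al Btw at h
      grind
    · exact h'
  wlog hcd : c < d generalizing c d
  · refine this hB.symm h.swap2 ?_
    rcases lt_trichotomy c d with h' | h' | h'
    · exact absurd h' hcd
    · exfalso
      subst h'
      unfold Al Btw at h
      grind
    · exact h'
  have : (a < c ∧ c < b ∧ b < d) ∨ (c < a ∧ a < d ∧ d < b) := by
    unfold Al Btw at h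
    grind
  rcases this with ⟨h1, h2, h3⟩ | ⟨h1, h2, h3⟩
  · exact cross_aux hAB h1 h2 h3 hA hB
  · exact cross_aux hAB.symm h1 h2 h3 hB hA

theorem joined_conj {S : Set ℂ} {x y : ℝ} (h : JoinedIn S x y) :
    JoinedIn ((starRingEnd ℂ) '' S) x y := by
  have := h.map (f := starRingEnd ℂ) Complex.continuous_conj
  simpa using this

/-- disjoint connections in a half plane do not alternate -/
theorem cross_page (P : Bool) {A B : Set ℂ} (hAB : Disjoint A B) {a b c d : ℝ}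
    (hA : JoinedIn (A ∩ Hp P) a b) (hB : JoinedIn (B ∩ Hp P) c d) : ¬ Al a b c d := by
  cases P with
  | true => exact cross_true hAB hA hB
  | false =>
    have himg : ∀ S : Set ℂ, (starRingEnd ℂ) '' (S ∩ Hp false) ⊆
        ((starRingEnd ℂ) '' S) ∩ Hp true := by
      rintro S _ ⟨z, ⟨h1, h2⟩, rfl⟩
      refine ⟨⟨z, h1, rfl⟩, ?_⟩
      simpa [Hp, sg] using h2
    have hinj : Function.Injective (starRingEnd ℂ) := (starRingEnd ℂ).injective
    exact cross_true (A := (starRingEnd ℂ) '' A) (B := (starRingEnd ℂ) '' B)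
      ((Set.disjoint_image_iff hinj).2 hAB) ((joined_conj hA).mono (himg A))
      ((joined_conj hB).mono (himg B))

/-- curves whose ends lie on small circles around the vertices -/
structure Cur (V ι : Type) (w : ι → Bool → V) (nr : ι → ι → Prop) where
  ν : V → ℝ
  r : ℝ
  δ : ℝ
  c : ι → ℝ → ℂ
  a : ι → ℝ
  b : ι → ℝ
  cont : ∀ i, Continuous (c i)
  rpos : 0 < r
  dpos : 0 < δ
  dr : δ ≤ r
  sep : ∀ v v', v ≠ v' → 2 * r < |ν v - ν v'|
  hab : ∀ i, a i < b i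
  far : ∀ i v, ∀ τ ∈ Icc (a i) (b i), r ≤ ‖c i τ - ν v‖
  farint : ∀ i v, ∀ τ ∈ Ioo (a i) (b i), r < ‖c i τ - ν v‖
  pa : ∀ i, ‖c i (a i) - ν (w i false)‖ = r
  pb : ∀ i, ‖c i (b i) - ν (w i true)‖ = r
  mid : ∀ i j, nr i j → i ≠ j → ∀ τ ∈ Icc (a i) (b i), ∀ τ' ∈ Icc (a j) (b j),
    δ < ‖c i τ - c j τ'‖
  wne : ∀ i, w i false ≠ w i true

namespace Cur

variable {V ι : Type} {w : ι → Bool → V} {nr : ι → ι → Prop} (K : Cur V ι w nr)

/-- end points of the curves -/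
def q (i : ι) (e : Bool) : ℂ := K.c i (if e then K.b i else K.a i)

theorem q_norm (i : ι) (e : Bool) : ‖K.q i e - K.ν (w i e)‖ = K.r := by
  cases e
  · exact K.pa i
  · exact K.pb i

theorem q_time (i : ι) (e : Bool) : (if e then K.b i else K.a i) ∈ Icc (K.a i) (K.b i) := by
  cases e
  · simp [(K.hab i).le]
  · simp [(K.hab i).le]

/-- the vertical segment at an end -/
def seg (i : ι) (e P : Bool) : Set ℂ :=
  {z | z.re = (K.q i e).re ∧ 0 < sg P * (K.q i e).im ∧ 0 ≤ sg P * z.im ∧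
    sg P * z.im ≤ sg P * (K.q i e).im}

/-- the carrier of the curve on a page -/
def car (i : ι) (P : Bool) : Set ℂ := K.c i '' Icc (K.a i) (K.b i) ∪ ⋃ e, K.seg i e P

theorem normSq_eq (z : ℂ) (x : ℝ) : ‖z - x‖ ^ 2 = (z.re - x) ^ 2 + z.im ^ 2 := by
  rw [← Complex.normSq_eq_norm_sq, Complex.normSq_apply]
  simp; ring

theorem seg_norm {i : ι} {e P : Bool} {z : ℂ} (h : z ∈ K.seg i e P) :
    ‖z - K.ν (w i e)‖ ≤ K.r ∧ (K.r ≤ ‖z - K.ν (w i e)‖ → z = K.q i e) := by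
  obtain ⟨h1, h2, h3, h4⟩ := h
  have e1 := normSq_eq z (K.ν (w i e))
  have e2 := normSq_eq (K.q i e) (K.ν (w i e))
  rw [K.q_norm i e] at e2
  have hs := sg_sq P
  have h5 : z.im ^ 2 ≤ (K.q i e).im ^ 2 := by
    have : (sg P * z.im) ^ 2 ≤ (sg P * (K.q i e).im) ^ 2 := pow_le_pow_left₀ h3 h4 2
    rw [mul_pow, mul_pow, sq (sg P), hs, one_mul, one_mul] at this
    exact this
  have h6 : ‖z - K.ν (w i e)‖ ^ 2 ≤ K.r ^ 2 := by rw [e1, e2, h1]; linarith
  refine ⟨(pow_le_pow_iff_left₀ (norm_nonneg _) K.rpos.le two_ne_zero).1 h6, fun h7 => ?_⟩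
  have h8 : K.r ^ 2 ≤ ‖z - K.ν (w i e)‖ ^ 2 := pow_le_pow_left₀ K.rpos.le h7 2
  rw [e1, e2, h1] at h8
  have h9 : z.im ^ 2 = (K.q i e).im ^ 2 := by linarith
  have h10 : (sg P * z.im) ^ 2 = (sg P * (K.q i e).im) ^ 2 := by rw [mul_pow, mul_pow, h9]
  have h11 : sg P * z.im = sg P * (K.q i e).im :=
    (pow_left_inj₀ h3 h2.le two_ne_zero).1 h10
  exact Complex.ext h1 (mul_left_cancel₀ (sg_ne P) h11)

theorem mid_ne {i j : ι} (h : nr i j) (hij : i ≠ j) {τ τ' : ℝ} (hτ : τ ∈ Icc (K.a i) (K.b i))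
    (hτ' : τ' ∈ Icc (K.a j) (K.b j)) : K.c i τ ≠ K.c j τ' := by
  intro e
  have := K.mid i j h hij τ hτ τ' hτ'
  rw [e, sub_self, norm_zero] at this
  linarith [K.dpos]

theorem q_ne {i j : ι} (h : nr i j) (hij : i ≠ j) (e e' : Bool) : K.q i e ≠ K.q j e' :=
  K.mid_ne h hij (K.q_time i e) (K.q_time j e')

theorem near_vertex {z : ℂ} {v v' : V} (h : ‖z - K.ν v‖ ≤ K.r) (h' : ‖z - K.ν v'‖ ≤ K.r) :
    v = v' := by
  by_contra hne
  have h1 := K.sep v v' hne
  have h2 : |K.ν v - K.ν v'| = ‖((K.ν v : ℂ) - z) + (z - K.ν v')‖ := by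
    rw [sub_add_sub_cancel, ← Complex.ofReal_sub, Complex.norm_real, Real.norm_eq_abs]
  have h3 := norm_add_le ((K.ν v : ℂ) - z) (z - K.ν v')
  rw [norm_sub_rev] at h3
  linarith

theorem seg_seg {i j : ι} (h : nr i j) (hij : i ≠ j) {e e' P : Bool} {z : ℂ}
    (h1 : z ∈ K.seg i e P) (h2 : z ∈ K.seg j e' P) : False := by
  have hv := K.near_vertex (K.seg_norm h1).1 (K.seg_norm h2).1
  refine K.q_ne h hij e e' ?_
  obtain ⟨a1, a2, a3, a4⟩ := h1
  obtain ⟨b1, b2, b3, b4⟩ := h2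
  have e1 := normSq_eq (K.q i e) (K.ν (w i e))
  have e2 := normSq_eq (K.q j e') (K.ν (w i e))
  rw [K.q_norm i e] at e1
  have e3 := K.q_norm j e'
  rw [← hv] at e3
  rw [e3] at e2
  have hre : (K.q i e).re = (K.q j e').re := a1.symm.trans b1
  rw [← hre] at e2
  have h9 : (K.q i e).im ^ 2 = (K.q j e').im ^ 2 := by linarith
  have h10 : (sg P * (K.q i e).im) ^ 2 = (sg P * (K.q j e').im) ^ 2 := by rw [mul_pow, mul_pow, h9]
  have h11 : sg P * (K.q i e).im = sg P * (K.q j e').im :=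
    (pow_left_inj₀ a2.le b2.le two_ne_zero).1 h10
  exact Complex.ext hre (mul_left_cancel₀ (sg_ne P) h11)

theorem mid_seg {i j : ι} (h : nr i j) (hij : i ≠ j) {e' P : Bool} {τ : ℝ}
    (hτ : τ ∈ Icc (K.a i) (K.b i)) (h2 : K.c i τ ∈ K.seg j e' P) : False := by
  have := (K.seg_norm h2).2 (K.far i _ τ hτ)
  exact K.mid_ne h hij hτ (K.q_time j e') this

theorem car_disj (hs : ∀ i j, nr i j → nr j i) {i j : ι} (h : nr i j) (hij : i ≠ j) (P : Bool) :
    Disjoint (K.car i P) (K.car j P) := by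
  rw [Set.disjoint_left]
  rintro z (⟨τ, hτ, rfl⟩ | h1) (⟨τ', hτ', h2⟩ | h2)
  · exact K.mid_ne h hij hτ hτ' h2.symm
  · obtain ⟨e, he⟩ := mem_iUnion.1 h2
    exact K.mid_seg h hij hτ he
  · obtain ⟨e, he⟩ := mem_iUnion.1 h1
    rw [← h2] at he
    exact K.mid_seg (hs _ _ h) hij.symm hτ' he
  · obtain ⟨e, he⟩ := mem_iUnion.1 h1
    obtain ⟨e', he'⟩ := mem_iUnion.1 h2
    exact K.seg_seg h hij he he'

end Cur

end Pool.Agent.LP86
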