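import Pool.Agent.LP86.Top

/-!
From curves to chains of excursions.
-/

namespace Pool.Agent.LP86

open Set

abbrev Lam := ℝ ×ₗ Bool

theorem lam_lt {x y : Lam} (h : (ofLex x).1 ≠ (ofLex y).1) : x < y ↔ (ofLex x).1 < (ofLex y).1 := by
  rw [Prod.Lex.lt_iff]
  constructor
  · rintro (h' | ⟨h', -⟩)
    · exact h'
    · exact absurd h' h
  · exact Or.inl

theorem lam2_le {x y : Lam} (h : x < y) : (ofLex x).1 ≤ (ofLex y).1 := by
  rw [Prod.Lex.lt_iff] at h
  rcases h with h | ⟨h, -⟩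
  · exact h.le
  · exact h.le

theorem al_fst {x y z u : Lam} (h1 : (ofLex x).1 ≠ (ofLex z).1) (h2 : (ofLex x).1 ≠ (ofLex u).1)
    (h3 : (ofLex y).1 ≠ (ofLex z).1) (h4 : (ofLex y).1 ≠ (ofLex u).1) :
    Al x y z u ↔ Al (ofLex x).1 (ofLex y).1 (ofLex z).1 (ofLex u).1 := by
  unfold Al Btw
  rw [lam_lt h1, lam_lt h1.symm, lam_lt h2, lam_lt h2.symm, lam_lt h3, lam_lt h3.symm, lam_lt h4,
    lam_lt h4.symm]

namespace Cur

variable {V ι : Type} {w : ι → Bool → V} {nr : ι → ι → Prop} (K : Cur V ι w nr)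

/-- position of an end -/
noncomputable def pe (i : ι) (e : Bool) : Lam :=
  toLex ((K.q i e).re, decide ((K.q i e).im < 0))

/-- position of an axis point -/
noncomputable def pn (i : ι) (τ : ℝ) : Lam := toLex ((K.c i τ).re, false)

def Node (i : ι) (x : Lam) : Prop :=
  (∃ e, x = K.pe i e) ∨ ∃ τ ∈ Icc (K.a i) (K.b i), (K.c i τ).im = 0 ∧ x = K.pn i τ

def NodeP (i : ι) (P : Bool) (x : Lam) : Prop :=
  (∃ e, x = K.pe i e ∧ 0 < sg P * (K.q i e).im) ∨
    ∃ τ ∈ Icc (K.a i) (K.b i), (K.c i τ).im = 0 ∧ x = K.pn i τ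

theorem real_of_im {z : ℂ} (h : z.im = 0) : z = (z.re : ℂ) := Complex.ext rfl (by simpa using h)

theorem nodeP_car {i : ι} {P : Bool} {x : Lam} (h : K.NodeP i P x) :
    (((ofLex x).1 : ℝ) : ℂ) ∈ K.car i P := by
  rcases h with ⟨e, rfl, he⟩ | ⟨τ, hτ, h0, rfl⟩
  · refine Or.inr (mem_iUnion.2 ⟨e, ?_⟩)
    refine ⟨rfl, he, ?_, ?_⟩
    · simp
    · simp only [Complex.ofReal_im, mul_zero]; exact he.le
  · exact Or.inl ⟨τ, hτ, real_of_im h0⟩

theorem nodeP_ne (hs : ∀ i j, nr i j → nr j i) {i j : ι} (h : nr i j) (hij : i ≠ j) {P : Bool}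
    {x z : Lam} (hx : K.NodeP i P x) (hz : K.NodeP j P z) : (ofLex x).1 ≠ (ofLex z).1 := by
  intro e
  have h1 := K.nodeP_car hx
  have h2 := K.nodeP_car hz
  rw [e] at h1
  exact Set.disjoint_left.1 (K.car_disj hs h hij P) h1 h2

/-- no nearby node in between -/
def Short (i : ι) (x y : Lam) : Prop :=
  ∀ j, nr i j → i ≠ j → ∀ z, K.Node j z → ¬ Btw z x y

/-- the relation of page `P` -/
def R (i : ι) (P : Bool) (x y : Lam) : Prop :=
  K.Node i x ∧ K.Node i y ∧ (K.Short i x y ∨ (K.NodeP i P x ∧ K.NodeP i P y ∧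
    JoinedIn (K.car i P ∩ Hp P) (((ofLex x).1 : ℝ) : ℂ) (((ofLex y).1 : ℝ) : ℂ)))

theorem R_noal (hs : ∀ i j, nr i j → nr j i) {i j : ι} (h : nr i j) (hij : i ≠ j) {P : Bool}
    {x y z u : Lam} (h1 : K.R i P x y) (h2 : K.R j P z u) : ¬ Al x y z u := by
  obtain ⟨nx, ny, h1⟩ := h1
  obtain ⟨nz, nu, h2⟩ := h2
  rcases h1 with h1 | ⟨px, py, h1⟩
  · intro hal
    rcases hal.1 with h' | h'
    · exact h1 j h hij z nz h'
    · exact h1 j h hij u nu h'
  · rcases h2 with h2 | ⟨pz, pu, h2⟩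
    · intro hal
      rcases hal.2 with h' | h'
      · exact h2 i (hs _ _ h) hij.symm x nx h'
      · exact h2 i (hs _ _ h) hij.symm y ny h'
    · rw [al_fst (K.nodeP_ne hs h hij px pz) (K.nodeP_ne hs h hij px pu)
        (K.nodeP_ne hs h hij py pz) (K.nodeP_ne hs h hij py pu)]
      exact cross_page P (K.car_disj hs h hij P) h1 h2

theorem norm_real {z : ℂ} (h : z.im = 0) (x : ℝ) : ‖z - x‖ = |z.re - x| := by
  rw [real_of_im h, ← Complex.ofReal_sub, Complex.norm_real, Real.norm_eq_abs]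
  simp

theorem norm_real2 {z z' : ℂ} (h : z.im = 0) (h' : z'.im = 0) : ‖z - z'‖ = |z.re - z'.re| := by
  rw [real_of_im h', norm_real h]; simp

theorem q_real {i : ι} {e : Bool} (h : K.r ≤ |(K.q i e).re - K.ν (w i e)|) : (K.q i e).im = 0 := by
  have e1 := normSq_eq (K.q i e) (K.ν (w i e))
  rw [K.q_norm i e] at e1
  have h2 : K.r ^ 2 ≤ |(K.q i e).re - K.ν (w i e)| ^ 2 := pow_le_pow_left₀ K.rpos.le h 2
  rw [sq_abs] at h2
  have : (K.q i e).im ^ 2 ≤ 0 := by linarith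
  have h3 : (K.q i e).im ^ 2 = 0 := le_antisymm this (sq_nonneg _)
  exact pow_eq_zero_iff (two_ne_zero) |>.1 h3

theorem close_short_aux {i j : ι} (h : nr i j) (hij : i ≠ j) {τ τ' : ℝ}
    (hτ : τ ∈ Icc (K.a i) (K.b i)) (hτ' : τ' ∈ Icc (K.a i) (K.b i)) (h0 : (K.c i τ).im = 0)
    (h0' : (K.c i τ').im = 0) (hd : ‖K.c i τ - K.c i τ'‖ < K.δ) {z : Lam} (hz : K.Node j z)
    (h1 : (K.c i τ).re ≤ (ofLex z).1) (h2 : (ofLex z).1 ≤ (K.c i τ').re) : False := by
  rw [norm_real2 h0 h0', abs_sub_comm, abs_of_nonneg (by linarith)] at hd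
  rcases hz with ⟨e, rfl⟩ | ⟨σ, hσ, hs0, rfl⟩
  · have hz1 : (ofLex (K.pe j e)).1 = (K.q j e).re := rfl
    rw [hz1] at h1 h2
    have f1 := K.far i (w j e) τ hτ
    have f2 := K.far i (w j e) τ' hτ'
    rw [norm_real h0] at f1
    rw [norm_real h0'] at f2
    have f3 : |(K.q j e).re - K.ν (w j e)| ≤ K.r := by
      have := Complex.abs_re_le_norm (K.q j e - K.ν (w j e))
      rw [K.q_norm j e] at this
      simpa using this
    have hdr := K.dr
    have hrp := K.rpos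
    have f3' := abs_le.1 f3
    rcases le_abs.1 f1 with g1 | g1
    · have e1 : (K.q j e).re = (K.c i τ).re := by linarith
      have h3 : (K.q j e).im = 0 := K.q_real (by rw [e1]; exact le_abs.2 (Or.inl g1))
      exact K.mid_ne h hij hτ (K.q_time j e) (Complex.ext e1.symm (h0.trans h3.symm))
    · rcases le_abs.1 f2 with g2 | g2
      · linarith
      · have e1 : (K.q j e).re = (K.c i τ').re := by linarith
        have h3 : (K.q j e).im = 0 := K.q_real (by rw [e1]; exact le_abs.2 (Or.inr g2))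
        exact K.mid_ne h hij hτ' (K.q_time j e) (Complex.ext e1.symm (h0'.trans h3.symm))
  · have hm := K.mid i j h hij τ hτ σ hσ
    have hz1 : (ofLex (K.pn j σ)).1 = (K.c j σ).re := rfl
    rw [hz1] at h1 h2
    rw [norm_real2 h0 hs0, abs_sub_comm, abs_of_nonneg (by linarith)] at hm
    linarith

theorem close_short {i : ι} {τ τ' : ℝ}
    (hτ : τ ∈ Icc (K.a i) (K.b i)) (hτ' : τ' ∈ Icc (K.a i) (K.b i)) (h0 : (K.c i τ).im = 0)
    (h0' : (K.c i τ').im = 0) (hd : ‖K.c i τ - K.c i τ'‖ < K.δ) :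
    K.Short i (K.pn i τ) (K.pn i τ') := by
  intro j h hij z hz hb
  rcases hb with ⟨h1, h2⟩ | ⟨h1, h2⟩
  · exact K.close_short_aux h hij hτ hτ' h0 h0' hd hz (lam2_le h1) (lam2_le h2)
  · exact K.close_short_aux h hij hτ' hτ h0' h0 (by rwa [norm_sub_rev]) hz (lam2_le h1) (lam2_le h2)

theorem sign_const {f : ℝ → ℝ} (hf : Continuous f) {x y : ℝ} (hxy : x < y)
    (h : ∀ u ∈ Ioo x y, f u ≠ 0) : ∃ P : Bool, ∀ u ∈ Icc x y, 0 ≤ sg P * f u := by
  have key : (∀ u ∈ Ioo x y, 0 < f u) ∨ (∀ u ∈ Ioo x y, f u < 0) := by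
    by_contra hcon
    push Not at hcon
    obtain ⟨⟨u, hu, hu'⟩, v, hv, hv'⟩ := hcon
    have := intermediate_value_uIcc (a := u) (b := v) hf.continuousOn
    obtain ⟨t, ht, h0⟩ := this (show (0 : ℝ) ∈ uIcc (f u) (f v) from
      mem_uIcc.2 (Or.inl ⟨hu', hv'⟩))
    exact h t (Set.ordConnected_Ioo.uIcc_subset hu hv ht) h0
  rcases key with h1 | h1
  · refine ⟨true, fun u hu => ?_⟩
    rw [← closure_Ioo hxy.ne] at hu
    have : closure (Ioo x y) ⊆ {u | 0 ≤ f u} :=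
      closure_minimal (fun u hu => (h1 u hu).le) (isClosed_le continuous_const hf)
    simpa [sg] using this hu
  · refine ⟨false, fun u hu => ?_⟩
    rw [← closure_Ioo hxy.ne] at hu
    have : closure (Ioo x y) ⊆ {u | f u ≤ 0} :=
      closure_minimal (fun u hu => (h1 u hu).le) (isClosed_le hf continuous_const)
    simpa [sg] using this hu

theorem joined_mid {i : ι} {P : Bool} {τ τ' : ℝ} (h : τ ≤ τ') (ha : K.a i ≤ τ) (hb : τ' ≤ K.b i)
    (hP : ∀ u ∈ Icc τ τ', 0 ≤ sg P * (K.c i u).im) :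
    JoinedIn (K.car i P ∩ Hp P) (K.c i τ) (K.c i τ') := by
  have h1 : IsPathConnected (K.c i '' Icc τ τ') :=
    ((convex_Icc τ τ').isPathConnected ⟨τ, left_mem_Icc.2 h⟩).image' (K.cont i).continuousOn
  refine (h1.joinedIn _ (mem_image_of_mem _ (left_mem_Icc.2 h)) _
    (mem_image_of_mem _ (right_mem_Icc.2 h))).mono ?_
  rintro _ ⟨u, hu, rfl⟩
  exact ⟨Or.inl ⟨u, ⟨ha.trans hu.1, hu.2.trans hb⟩, rfl⟩, hP u hu⟩

theorem joined_end {i : ι} {e P : Bool} (h : 0 < sg P * (K.q i e).im) :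
    JoinedIn (K.car i P ∩ Hp P) (((K.q i e).re : ℝ) : ℂ) (K.q i e) := by
  refine JoinedIn.of_segment_subset ?_
  rintro z ⟨s, t, hs, ht, hst, rfl⟩
  have hre : (s • (((K.q i e).re : ℝ) : ℂ) + t • K.q i e).re = (K.q i e).re := by
    simp only [Complex.add_re, Complex.real_smul, Complex.mul_re, Complex.ofReal_re,
      Complex.ofReal_im, zero_mul, sub_zero]
    rw [← add_mul, hst, one_mul]
  have him : (s • (((K.q i e).re : ℝ) : ℂ) + t • K.q i e).im = t * (K.q i e).im := by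
    simp [Complex.real_smul]
  have ht1 : t ≤ 1 := by linarith
  have h1 : 0 ≤ sg P * (s • (((K.q i e).re : ℝ) : ℂ) + t • K.q i e).im := by
    rw [him, mul_left_comm]; exact mul_nonneg ht h.le
  refine ⟨Or.inr (mem_iUnion.2 ⟨e, hre, h, h1, ?_⟩), h1⟩
  rw [him, mul_left_comm]
  exact mul_le_of_le_one_left h.le ht1

theorem node_of_nodeP {i : ι} {P : Bool} {x : Lam} (h : K.NodeP i P x) : K.Node i x := by
  rcases h with ⟨e, he, -⟩ | h
  · exact Or.inl ⟨e, he⟩
  · exact Or.inr h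

theorem R_of_joined {i : ι} {P : Bool} {x y : Lam} (hx : K.NodeP i P x) (hy : K.NodeP i P y)
    (h : JoinedIn (K.car i P ∩ Hp P) (((ofLex x).1 : ℝ) : ℂ) (((ofLex y).1 : ℝ) : ℂ)) :
    K.R i P x y := ⟨K.node_of_nodeP hx, K.node_of_nodeP hy, Or.inr ⟨hx, hy, h⟩⟩

theorem arc_mid {i : ι} {τ τ' : ℝ} (h : τ < τ') (ha : K.a i ≤ τ) (hb : τ' ≤ K.b i)
    (h0 : (K.c i τ).im = 0) (h0' : (K.c i τ').im = 0) (hno : ∀ u ∈ Ioo τ τ', (K.c i u).im ≠ 0) :
    ∃ P, K.R i P (K.pn i τ) (K.pn i τ') := by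
  obtain ⟨P, hP⟩ := sign_const (f := fun u => (K.c i u).im)
    (Complex.continuous_im.comp (K.cont i)) h hno
  refine ⟨P, K.R_of_joined (Or.inr ⟨τ, ⟨ha, h.le.trans hb⟩, h0, rfl⟩)
    (Or.inr ⟨τ', ⟨ha.trans h.le, hb⟩, h0', rfl⟩) ?_⟩
  have := K.joined_mid h.le ha hb hP
  rw [real_of_im h0, real_of_im h0'] at this
  exact this

theorem arc_first {i : ι} {τ : ℝ} (h : K.a i < τ) (hb : τ ≤ K.b i)
    (h0' : (K.c i τ).im = 0) (hno : ∀ u ∈ Ico (K.a i) τ, (K.c i u).im ≠ 0) :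
    ∃ P, K.R i P (K.pe i false) (K.pn i τ) := by
  obtain ⟨P, hP⟩ := sign_const (f := fun u => (K.c i u).im)
    (Complex.continuous_im.comp (K.cont i)) h (fun u hu => hno u ⟨hu.1.le, hu.2⟩)
  have hq : 0 < sg P * (K.q i false).im := by
    refine lt_of_le_of_ne (hP _ (left_mem_Icc.2 h.le)) ?_
    exact (mul_ne_zero (sg_ne P) (hno _ ⟨le_rfl, h⟩)).symm
  refine ⟨P, K.R_of_joined (Or.inl ⟨false, rfl, hq⟩) (Or.inr ⟨τ, ⟨h.le, hb⟩, h0', rfl⟩) ?_⟩
  have := K.joined_mid h.le le_rfl hb hP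
  rw [real_of_im h0'] at this
  exact (K.joined_end hq).trans this

theorem arc_last {i : ι} {τ : ℝ} (h : τ < K.b i) (ha : K.a i ≤ τ)
    (h0 : (K.c i τ).im = 0) (hno : ∀ u ∈ Ioc τ (K.b i), (K.c i u).im ≠ 0) :
    ∃ P, K.R i P (K.pn i τ) (K.pe i true) := by
  obtain ⟨P, hP⟩ := sign_const (f := fun u => (K.c i u).im)
    (Complex.continuous_im.comp (K.cont i)) h (fun u hu => hno u ⟨hu.1, hu.2.le⟩)
  have hq : 0 < sg P * (K.q i true).im := by
    refine lt_of_le_of_ne (hP _ (right_mem_Icc.2 h.le)) ?_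
    exact (mul_ne_zero (sg_ne P) (hno _ ⟨h, le_rfl⟩)).symm
  refine ⟨P, K.R_of_joined (Or.inr ⟨τ, ⟨ha, h.le⟩, h0, rfl⟩) (Or.inl ⟨true, rfl, hq⟩) ?_⟩
  have := K.joined_mid h.le ha le_rfl hP
  rw [real_of_im h0] at this
  exact this.trans (K.joined_end hq).symm

theorem arc_all {i : ι} (hno : ∀ u ∈ Icc (K.a i) (K.b i), (K.c i u).im ≠ 0) :
    ∃ P, K.R i P (K.pe i false) (K.pe i true) := by
  have h := K.hab i
  obtain ⟨P, hP⟩ := sign_const (f := fun u => (K.c i u).im)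
    (Complex.continuous_im.comp (K.cont i)) h (fun u hu => hno u ⟨hu.1.le, hu.2.le⟩)
  have hq : ∀ e, 0 < sg P * (K.q i e).im := fun e =>
    lt_of_le_of_ne (hP _ (K.q_time i e)) (mul_ne_zero (sg_ne P) (hno _ (K.q_time i e))).symm
  refine ⟨P, K.R_of_joined (Or.inl ⟨false, rfl, hq _⟩) (Or.inl ⟨true, rfl, hq _⟩) ?_⟩
  have := K.joined_mid h.le le_rfl le_rfl hP
  exact ((K.joined_end (hq false)).trans this).trans (K.joined_end (hq true)).symm

theorem pn_a {i : ι} (h : (K.c i (K.a i)).im = 0) : K.pn i (K.a i) = K.pe i false := by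
  have h' : (K.q i false).im = 0 := h
  simp only [pn, pe, h', lt_irrefl, decide_false]
  rfl

theorem pn_b {i : ι} (h : (K.c i (K.b i)).im = 0) : K.pn i (K.b i) = K.pe i true := by
  have h' : (K.q i true).im = 0 := h
  simp only [pn, pe, h', lt_irrefl, decide_false]
  rfl

theorem exists_part (i : ι) : ∃ n : ℕ, 0 < n ∧ ∀ x ∈ Icc (K.a i) (K.b i), ∀ y ∈ Icc (K.a i) (K.b i),
    |x - y| ≤ (K.b i - K.a i) / n → ‖K.c i x - K.c i y‖ < K.δ := by
  have hu := isCompact_Icc.uniformContinuousOn_of_continuous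
    (s := Icc (K.a i) (K.b i)) (K.cont i).continuousOn
  rw [Metric.uniformContinuousOn_iff] at hu
  obtain ⟨ε, he, hε⟩ := hu K.δ K.dpos
  obtain ⟨n, hn⟩ := exists_nat_gt ((K.b i - K.a i) / ε)
  have hpos : 0 < (K.b i - K.a i) / ε := div_pos (by linarith [K.hab i]) he
  have hn0 : (0 : ℝ) < n := hpos.trans hn
  refine ⟨n, by exact_mod_cast hn0, fun x hx y hy hxy => ?_⟩
  have := hε x hx y hy (by
    rw [Real.dist_eq]
    refine lt_of_le_of_lt hxy ?_
    rw [div_lt_iff₀ hn0]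
    rw [div_lt_iff₀ he] at hn
    linarith)
  rwa [dist_eq_norm] at this

theorem reach (i : ι) :
    Relation.ReflTransGen (fun x y => ∃ P, K.R i P x y) (K.pe i false) (K.pe i true) := by
  set Rc : Lam → Prop := fun x =>
    Relation.ReflTransGen (fun x y => ∃ P, K.R i P x y) (K.pe i false) x with hRc
  obtain ⟨n, hn, hcl⟩ := K.exists_part i
  have hab := K.hab i
  set Z : Set ℝ := {u | (K.c i u).im = 0} with hZ
  have hZc : IsClosed Z := isClosed_eq (Complex.continuous_im.comp (K.cont i)) continuous_const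
  set d := (K.b i - K.a i) / n with hd
  have hn0 : (0 : ℝ) < n := by exact_mod_cast hn
  have hd0 : 0 < d := div_pos (by linarith) hn0
  set T : ℕ → ℝ := fun j => K.a i + j * d with hT
  have hT0 : T 0 = K.a i := by simp [hT]
  have hTn : T n = K.b i := by
    simp only [hT, hd]
    field_simp
    ring
  have hTs : ∀ j, T (j + 1) = T j + d := by
    intro j; simp only [hT]; push_cast; ring
  have hTa : ∀ j, K.a i ≤ T j := by
    intro j; simp only [hT]; have : (0 : ℝ) ≤ j * d := by positivity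
    linarith
  have hTb : ∀ j, j ≤ n → T j ≤ K.b i := by
    intro j hj
    rw [← hTn]
    simp only [hT]
    have : (j : ℝ) ≤ n := by exact_mod_cast hj
    nlinarith
  have main : ∀ j, j ≤ n → ∀ z ∈ Icc (K.a i) (K.b i), z ∈ Z → z ≤ T j →
      (∀ z' ∈ Icc (K.a i) (K.b i), z' ∈ Z → z' ≤ T j → z' ≤ z) → Rc (K.pn i z) := by
    intro j
    induction j with
    | zero =>
      intro _ z hz hzZ hzT _
      rw [hT0] at hzT
      have : z = K.a i := le_antisymm hzT hz.1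
      subst this
      rw [K.pn_a hzZ]
    | succ j ih =>
      intro hj z hz hzZ hzT hmax
      have ih := ih (by omega)
      by_cases hzj : z ≤ T j
      · exact ih z hz hzZ hzj fun z' h1 h2 h3 => hmax z' h1 h2 (by rw [hTs]; linarith)
      push Not at hzj
      -- first axis time of the piece
      obtain ⟨α, ⟨hα, hαZ⟩, hαmin⟩ := ((isCompact_Icc (a := T j) (b := T (j + 1))).inter_right
        hZc).exists_isLeast ⟨z, ⟨hzj.le, hzT⟩, hzZ⟩
      have hαmin' : ∀ u, T j ≤ u → u ≤ T (j + 1) → u ∈ Z → α ≤ u := fun u h1 h2 h3 =>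
        hαmin ⟨⟨h1, h2⟩, h3⟩
      have hαz := hαmin' z hzj.le hzT hzZ
      have hαI : α ∈ Icc (K.a i) (K.b i) := ⟨(hTa j).trans hα.1, hα.2.trans (hTb _ hj)⟩
      have hRα : Rc (K.pn i α) := by
        rcases eq_or_lt_of_le hα.1 with h | h
        · exact ih α hαI hαZ h.ge fun z' _ _ h3 => h3.trans h.le
        · by_cases hne : ((Icc (K.a i) (T j)) ∩ Z).Nonempty
          · obtain ⟨z0, ⟨hz0, hz0Z⟩, hz0max⟩ := ((isCompact_Icc (a := K.a i)
              (b := T j)).inter_right hZc).exists_isGreatest hne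
            have hz0I : z0 ∈ Icc (K.a i) (K.b i) := ⟨hz0.1, hz0.2.trans (hTb _ (by omega))⟩
            have h1 := ih z0 hz0I hz0Z hz0.2 fun z' h1 h2 h3 => hz0max ⟨⟨h1.1, h3⟩, h2⟩
            obtain ⟨P, hP⟩ := K.arc_mid (lt_of_le_of_lt hz0.2 h) hz0.1 hαI.2 hz0Z hαZ (by
              intro u hu hu0
              rcases le_or_gt u (T j) with h' | h'
              · have := hz0max ⟨⟨hz0.1.trans hu.1.le, h'⟩, hu0⟩
                exact absurd hu.1 (not_lt.2 this)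
              · have := hαmin' u h'.le (hu.2.le.trans hα.2) hu0
                exact absurd hu.2 (not_lt.2 this))
            exact h1.tail ⟨P, hP⟩
          · obtain ⟨P, hP⟩ := K.arc_first (lt_of_le_of_lt (hTa j) h) hαI.2 hαZ (by
              intro u hu hu0
              rcases le_or_gt u (T j) with h' | h'
              · exact hne ⟨u, ⟨hu.1, h'⟩, hu0⟩
              · have := hαmin' u h'.le (hu.2.le.trans hα.2) hu0
                exact absurd hu.2 (not_lt.2 this))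
            exact Relation.ReflTransGen.single ⟨P, hP⟩
      have hsh := K.close_short hαI hz hαZ hzZ (hcl α hαI z hz (by
        rw [abs_sub_comm, abs_of_nonneg (by linarith)]
        have := hTs j
        have := hα.1
        linarith))
      exact hRα.tail ⟨true, Or.inr ⟨α, hαI, hαZ, rfl⟩, Or.inr ⟨z, hz, hzZ, rfl⟩, Or.inl hsh⟩
  by_cases hne : ((Icc (K.a i) (K.b i)) ∩ Z).Nonempty
  · obtain ⟨z, ⟨hz, hzZ⟩, hzmax⟩ := (isCompact_Icc.inter_right hZc).exists_isGreatest hne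
    have h1 := main n le_rfl z hz hzZ (by rw [hTn]; exact hz.2) fun z' h1 h2 _ => hzmax ⟨h1, h2⟩
    rcases eq_or_lt_of_le hz.2 with h | h
    · rw [h, K.pn_b (h ▸ hzZ)] at h1
      exact h1
    · obtain ⟨P, hP⟩ := K.arc_last h hz.1 hzZ (by
        intro u hu hu0
        have := hzmax ⟨⟨hz.1.trans hu.1.le, hu.2⟩, hu0⟩
        exact absurd hu.1 (not_lt.2 this))
      exact h1.tail ⟨P, hP⟩
  · obtain ⟨P, hP⟩ := K.arc_all (fun u hu hu0 => hne ⟨u, hu, hu0⟩)
    exact Relation.ReflTransGen.single ⟨P, hP⟩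

end Cur

end Pool.Agent.LP86
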