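import Pool.Agent.LP86.Top2

/-!
From curves to a system; the places.
-/

namespace Pool.Agent.LP86

open Set

namespace Cur

variable {V ι : Type} [Fintype V] {w : ι → Bool → V} {nr : ι → ι → Prop} (K : Cur V ι w nr)

open Classical in
/-- rank of a vertex -/
noncomputable def rk (v : V) : ℕ := (Finset.univ.filter fun u => K.ν u < K.ν v).card

open Classical in
/-- places of real numbers: odd near vertices, even elsewhere -/
noncomputable def plr (x : ℝ) : ℕ :=
  (Finset.univ.filter fun u => K.ν u - K.r ≤ x).card +
  (Finset.univ.filter fun u => K.ν u + K.r < x).card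

theorem ν_inj {u v : V} (h : K.ν u = K.ν v) : u = v := by
  by_contra hne
  have := K.sep u v hne
  rw [h, sub_self, abs_zero] at this
  linarith [K.rpos]

theorem sep' {u v : V} (h : K.ν u < K.ν v) : K.ν u + 2 * K.r < K.ν v := by
  have := K.sep v u (fun e => by rw [e] at h; exact lt_irrefl _ h)
  rw [abs_of_pos (by linarith)] at this
  linarith

theorem plr_mono : Monotone K.plr := by
  classical
  intro x y h
  unfold plr
  refine Nat.add_le_add (Finset.card_le_card fun u hu => ?_) (Finset.card_le_card fun u hu => ?_)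
  · rw [Finset.mem_filter] at *
    exact ⟨hu.1, hu.2.trans h⟩
  · rw [Finset.mem_filter] at *
    exact ⟨hu.1, hu.2.trans_le h⟩

theorem plr_le (x : ℝ) : K.plr x ≤ 2 * Fintype.card V := by
  classical
  unfold plr
  have h1 := Finset.card_filter_le (Finset.univ : Finset V) (fun u => K.ν u - K.r ≤ x)
  have h2 := Finset.card_filter_le (Finset.univ : Finset V) (fun u => K.ν u + K.r < x)
  rw [Finset.card_univ] at h1 h2
  omega

theorem plr_vertex {x : ℝ} {v : V} (h : |x - K.ν v| ≤ K.r) : K.plr x = 2 * K.rk v + 1 := by
  classical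
  have h' := abs_le.1 h
  have hr := K.rpos
  have e1 : (Finset.univ.filter fun u => K.ν u - K.r ≤ x) =
      insert v (Finset.univ.filter fun u => K.ν u < K.ν v) := by
    ext u
    simp only [Finset.mem_filter, Finset.mem_univ, true_and, Finset.mem_insert]
    constructor
    · intro h1
      rcases lt_trichotomy (K.ν u) (K.ν v) with h2 | h2 | h2
      · exact Or.inr h2
      · exact Or.inl (K.ν_inj h2)
      · have := K.sep' h2; linarith
    · rintro (rfl | h1)
      · linarith
      · have := K.sep' h1; linarith
  have e2 : (Finset.univ.filter fun u => K.ν u + K.r < x) =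
      (Finset.univ.filter fun u => K.ν u < K.ν v) := by
    ext u
    simp only [Finset.mem_filter, Finset.mem_univ, true_and]
    constructor
    · intro h1
      rcases lt_trichotomy (K.ν u) (K.ν v) with h2 | h2 | h2
      · exact h2
      · linarith
      · have := K.sep' h2; linarith
    · intro h1
      have := K.sep' h1; linarith
  unfold plr rk
  rw [e1, e2, Finset.card_insert_of_notMem (by simp)]
  omega

theorem plr_gap {x : ℝ} (h : ∀ v, K.r < |x - K.ν v|) : Even (K.plr x) := by
  classical
  have e : (Finset.univ.filter fun u => K.ν u - K.r ≤ x) =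
      (Finset.univ.filter fun u => K.ν u + K.r < x) := by
    ext u
    simp only [Finset.mem_filter, Finset.mem_univ, true_and]
    have := K.rpos
    rcases lt_abs.1 (h u) with h1 | h1
    · constructor <;> intro _ <;> linarith
    · constructor <;> intro _ <;> linarith
  unfold plr
  rw [e]
  exact ⟨_, rfl⟩

theorem rk_inj : Function.Injective K.rk := by
  classical
  intro u v h
  by_contra hne
  have key : ∀ u v : V, K.ν u < K.ν v → K.rk u < K.rk v := by
    intro u v huv
    refine Finset.card_lt_card ⟨fun x hx => ?_, fun hs => ?_⟩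
    · rw [Finset.mem_filter] at *
      exact ⟨hx.1, hx.2.trans huv⟩
    · have : u ∈ Finset.univ.filter fun x => K.ν x < K.ν u := hs (by simpa using huv)
      simp at this
  rcases lt_trichotomy (K.ν u) (K.ν v) with h' | h' | h'
  · have := key _ _ h'; omega
  · exact hne (K.ν_inj h')
  · have := key _ _ h'; omega

theorem rk_lt (v : V) : K.rk v < Fintype.card V := by
  classical
  rw [← Finset.card_univ]
  refine Finset.card_lt_card ⟨fun x hx => Finset.mem_univ x, fun hs => ?_⟩
  have := hs (Finset.mem_univ v)
  simp at this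

/-- places of positions -/
noncomputable def pl (x : Lam) : ℕ := K.plr (ofLex x).1

theorem pl_mono : Monotone K.pl := by
  intro x y h
  rcases eq_or_lt_of_le h with rfl | h
  · exact le_rfl
  · exact K.plr_mono (lam2_le h)

theorem pl_pe (i : ι) (e : Bool) : K.pl (K.pe i e) = 2 * K.rk (w i e) + 1 := by
  refine K.plr_vertex ?_
  have := Complex.abs_re_le_norm (K.q i e - K.ν (w i e))
  rw [K.q_norm i e] at this
  simpa [pe] using this

theorem pl_pn {i : ι} {τ : ℝ} (h : τ ∈ Ioo (K.a i) (K.b i)) (h0 : (K.c i τ).im = 0) :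
    Even (K.pl (K.pn i τ)) := by
  refine K.plr_gap fun v => ?_
  have := K.farint i v τ h
  rwa [norm_real h0] at this

theorem node_disj (hs : ∀ i j, nr i j → nr j i) {i j : ι} (h : nr i j) (hij : i ≠ j) {x : Lam}
    (h1 : K.Node i x) (h2 : K.Node j x) : False := by
  have port_gap : ∀ {i j : ι}, nr i j → i ≠ j → ∀ e, ∀ τ ∈ Icc (K.a i) (K.b i), (K.c i τ).im = 0 →
      K.pn i τ = K.pe j e → False := by
    intro i j h hij e τ hτ h0 he
    have e1 : (K.c i τ).re = (K.q j e).re := congrArg (fun x => (ofLex x).1) he
    have f1 := K.far i (w j e) τ hτ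
    rw [norm_real h0, e1] at f1
    have h3 := K.q_real f1
    exact K.mid_ne h hij hτ (K.q_time j e) (Complex.ext e1 (h0.trans h3.symm))
  rcases h1 with ⟨e, rfl⟩ | ⟨τ, hτ, h0, rfl⟩ <;> rcases h2 with ⟨e', he'⟩ | ⟨τ', hτ', h0', he'⟩
  · have e1 : (K.q i e).re = (K.q j e').re := congrArg (fun x => (ofLex x).1) he'
    have e2 : decide ((K.q i e).im < 0) = decide ((K.q j e').im < 0) :=
      congrArg (fun x => (ofLex x).2) he'
    -- the same vertex
    have hv : w i e = w j e' := by
      by_contra hne
      have h1 := K.sep _ _ hne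
      have h2 := Complex.abs_re_le_norm (K.q i e - K.ν (w i e))
      have h3 := Complex.abs_re_le_norm (K.q j e' - K.ν (w j e'))
      rw [K.q_norm i e] at h2
      rw [K.q_norm j e'] at h3
      simp only [Complex.sub_re, Complex.ofReal_re] at h2 h3
      rw [← e1] at h3
      have h4 : |K.ν (w i e) - K.ν (w j e')| ≤
          |(K.q i e).re - K.ν (w i e)| + |(K.q i e).re - K.ν (w j e')| := by
        rw [abs_sub_comm (K.q i e).re (K.ν (w i e))]
        have := abs_add_le (K.ν (w i e) - (K.q i e).re) ((K.q i e).re - K.ν (w j e'))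
        rwa [sub_add_sub_cancel] at this
      linarith
    have n1 := normSq_eq (K.q i e) (K.ν (w i e))
    have n2 := normSq_eq (K.q j e') (K.ν (w j e'))
    rw [K.q_norm i e] at n1
    rw [K.q_norm j e', ← hv, ← e1] at n2
    have h9 : (K.q i e).im ^ 2 = (K.q j e').im ^ 2 := by linarith
    have him : (K.q i e).im = (K.q j e').im := by
      rcases sq_eq_sq_iff_eq_or_eq_neg.1 h9 with h | h
      · exact h
      · by_cases hneg : (K.q i e).im < 0
        · rw [decide_eq_true hneg] at e2
          have := of_decide_eq_true e2.symm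
          linarith
        · rw [decide_eq_false hneg] at e2
          have := of_decide_eq_false e2.symm
          linarith
    exact K.q_ne h hij e e' (Complex.ext e1 him)
  · exact port_gap (hs _ _ h) hij.symm e τ' hτ' h0' he'.symm
  · exact port_gap h hij e' τ hτ h0 he'
  · have e1 : (K.c i τ).re = (K.c j τ').re := congrArg (fun x => (ofLex x).1) he'
    exact K.mid_ne h hij hτ hτ' (Complex.ext e1 (h0.trans h0'.symm))

/-- the system of the curves -/
theorem exists_sys (hs : ∀ i j, nr i j → nr j i) : ∃ D : ι → Sq Lam,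
    Sys K.pl (fun i => 2 * K.rk (w i false) + 1) (fun i => 2 * K.rk (w i true) + 1) nr D := by
  have hext := fun i => extract (K.reach i)
  choose D e0 em er einj using hext
  refine ⟨D, ⟨fun i => by rw [e0, K.pl_pe], fun i => by rw [em, K.pl_pe], ?_, ?_, ?_⟩⟩
  · intro i k hk hk'
    have hnode : K.Node i ((D i).p k) := (er i k hk').1
    have h0 : (D i).p k ≠ K.pe i false := fun h => by
      have := einj i k hk'.le 0 (Nat.zero_le _) (by rw [e0]; exact h); omega
    have h1 : (D i).p k ≠ K.pe i true := fun h => by
      have := einj i k hk'.le _ le_rfl (by rw [em]; exact h); omega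
    rcases hnode with ⟨e, he⟩ | ⟨τ, hτ, hτ0, he⟩
    · cases e
      · exact absurd he h0
      · exact absurd he h1
    · rw [he] at h0 h1 ⊢
      refine K.pl_pn ⟨lt_of_le_of_ne hτ.1 ?_, lt_of_le_of_ne hτ.2 ?_⟩ hτ0
      · rintro rfl; exact h0 (K.pn_a hτ0)
      · rintro rfl; exact h1 (K.pn_b hτ0)
  · have hnode : ∀ i, ∀ k ≤ (D i).m, K.Node i ((D i).p k) := by
      intro i k hk
      rcases eq_or_lt_of_le hk with rfl | hk
      · rw [em]; exact Or.inl ⟨true, rfl⟩
      · exact (er i k hk).1
    intro i j hn hij k hk l hl he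
    exact K.node_disj hs hn hij (hnode i k hk) (he ▸ hnode j l hl)
  · intro i j hn hij k hk l hl hg
    have h1 := er i k hk
    have h2 := er j l hl
    rw [← hg] at h2
    exact K.R_noal hs hn hij h1 h2

end Cur

end Pool.Agent.LP86
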