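import Pool.Agent.LP86.Full2

/-!
The true table of two sequences.
-/

namespace Pool.Agent.LP86

variable {Λ : Type} [LinearOrder Λ]

/-- two good sequences, equal or disjoint and noncrossing -/
structure Duo (pl : Λ → ℕ) (n : ℕ) (s : Bool → Sq Λ) : Prop where
  gs : ∀ j, Gs pl n (s j)
  or : ∀ i j, s i = s j ∨ ((∀ k ≤ (s i).m, ∀ l ≤ (s j).m, (s i).p k ≠ (s j).p l) ∧
    ∀ k < (s i).m, ∀ l < (s j).m, (s i).g k = (s j).g l →
      ¬ Al ((s i).p k) ((s i).p (k + 1)) ((s j).p l) ((s j).p (l + 1)))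

variable {pl : Λ → ℕ} {n : ℕ} {s : Bool → Sq Λ}

/-- the directed arcs -/
def Ar (s : Bool → Sq Λ) (P : Bool) (x y : Λ) : Prop :=
  ∃ j b k, k < (s j).m ∧ Pg (s j) b k = P ∧ Ps (s j) b k = x ∧ Ps (s j) b (k + 1) = y

theorem Ar.symm {P : Bool} {x y : Λ} (h : Ar s P x y) : Ar s P y x := by
  obtain ⟨j, b, k, hk, rfl, rfl, rfl⟩ := h
  refine ⟨j, !b, (s j).m - 1 - k, by omega, ?_, ?_, ?_⟩
  · rw [Pg_flip (s j) b (by omega), show (s j).m - 1 - ((s j).m - 1 - k) = k by omega]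
  · rw [Ps_flip (s j) b (by omega), show (s j).m - ((s j).m - 1 - k) = k + 1 by omega]
  · rw [Ps_flip (s j) b (by omega), show (s j).m - ((s j).m - 1 - k + 1) = k by omega]

/-- the nodes -/
def Nde (s : Bool → Sq Λ) (x : Λ) : Prop := ∃ j k, k ≤ (s j).m ∧ (s j).p k = x

theorem nd_dir (j b : Bool) {k : ℕ} (hk : k ≤ (s j).m) : Nde s (Ps (s j) b k) := by
  cases b
  · exact ⟨j, k, hk, rfl⟩
  · exact ⟨j, (s j).m - k, by omega, rfl⟩

theorem Ar.nd {P : Bool} {x y : Λ} (h : Ar s P x y) : Nde s x := by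
  obtain ⟨j, b, k, hk, rfl, rfl, rfl⟩ := h
  exact nd_dir j b hk.le

/-- the underlying node of a directed node -/
theorem Ps_und (σ : Sq Λ) (b : Bool) {k : ℕ} (hk : k ≤ σ.m) : ∃ l ≤ σ.m, Ps σ b k = σ.p l := by
  cases b
  · exact ⟨k, hk, rfl⟩
  · exact ⟨σ.m - k, by omega, rfl⟩

/-- the underlying arc of a directed arc -/
theorem Pg_und (σ : Sq Λ) (b : Bool) {k : ℕ} (hk : k < σ.m) : ∃ l < σ.m, Pg σ b k = σ.g l ∧
    ((Ps σ b k = σ.p l ∧ Ps σ b (k + 1) = σ.p (l + 1)) ∨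
      (Ps σ b k = σ.p (l + 1) ∧ Ps σ b (k + 1) = σ.p l)) := by
  cases b
  · exact ⟨k, hk, rfl, Or.inl ⟨rfl, rfl⟩⟩
  · refine ⟨σ.m - 1 - k, by omega, rfl, Or.inr ⟨?_, ?_⟩⟩
    · simp only [Ps, Sq.dir, Sq.rev, if_true]
      rw [show σ.m - 1 - k + 1 = σ.m - k by omega]
    · simp only [Ps, Sq.dir, Sq.rev, if_true]
      rw [show σ.m - 1 - k = σ.m - (k + 1) by omega]

theorem Duo.func (h : Duo pl n s) {P : Bool} {x y y' : Λ} (h1 : Ar s P x y) (h2 : Ar s P x y') :
    y = y' := by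
  obtain ⟨j, b, k, hk, g1, p1, q1⟩ := h1
  obtain ⟨j', b', k', hk', g2, p2, q2⟩ := h2
  rcases h.or j j' with he | ⟨hd, -⟩
  · rw [← he] at hk' g2 p2 q2
    obtain ⟨rfl, rfl⟩ := (h.gs j).det hk hk' (p1.trans p2.symm) (g1.trans g2.symm)
    exact q1.symm.trans q2
  · obtain ⟨l, hl, e1⟩ := Ps_und (s j) b hk.le
    obtain ⟨l', hl', e2⟩ := Ps_und (s j') b' hk'.le
    exact absurd (e1.symm.trans (p1.trans (p2.symm.trans e2))) (hd l hl l' hl')

theorem Duo.nal (h : Duo pl n s) {P : Bool} {x y z u : Λ} (h1 : Ar s P x y) (h2 : Ar s P z u) :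
    ¬ Al x y z u := by
  obtain ⟨j, b, k, hk, g1, rfl, rfl⟩ := h1
  obtain ⟨j', b', k', hk', g2, rfl, rfl⟩ := h2
  rcases h.or j j' with he | ⟨-, hd⟩
  · rw [← he] at hk' g2 ⊢
    exact (h.gs j).nald hk hk' (g1.trans g2.symm)
  · obtain ⟨l, hl, a1, a2⟩ := Pg_und (s j) b hk
    obtain ⟨l', hl', b1, b2⟩ := Pg_und (s j') b' hk'
    have h3 := hd l hl l' hl' (a1.symm.trans (g1.trans (g2.symm.trans b1)))
    rcases a2 with ⟨a2, a3⟩ | ⟨a2, a3⟩ <;> rcases b2 with ⟨b2, b3⟩ | ⟨b2, b3⟩ <;>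
      rw [a2, a3, b2, b3]
    · exact h3
    · exact fun h => h3 h.swap2
    · exact fun h => h3 h.swap1
    · exact fun h => h3 h.swap1.swap2

theorem Duo.noloop (h : Duo pl n s) {P : Bool} {x y : Λ} (h1 : Ar s P x y) : pl x ≠ pl y := by
  obtain ⟨j, b, k, hk, -, rfl, rfl⟩ := h1
  exact (h.gs j).noloopd hk

theorem Duo.full (h : Duo pl n s) {x : Λ} (hx : Nde s x) (he : Even (pl x)) (P : Bool) :
    ∃ y, Ar s P x y := by
  obtain ⟨j, k, hk, rfl⟩ := hx
  obtain ⟨b', k', hk', e1, e2⟩ := (h.gs j).has (b := false) hk he P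
  exact ⟨_, j, b', k', hk', e2, e1, rfl⟩

theorem Duo.odd (h : Duo pl n s) {x u v : Λ} (hx : Nde s x) (hu : Nde s u) (hv : Nde s v)
    (hxu : x < u) (huv : u < v) (hp : pl x = pl v) : Even (pl x) := by
  by_contra hodd
  have m1 := (h.gs true).mono hxu.le
  have m2 := (h.gs true).mono huv.le
  have hpu : pl u = pl x := by omega
  have hend : ∀ {z : Λ}, Nde s z → pl z = pl x → ∃ j, (z = (s j).p 0 ∨ z = (s j).p (s j).m) := by
    rintro z ⟨j, k, hk, rfl⟩ hz
    have : ¬ (0 < k ∧ k < (s j).m) := by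
      rintro ⟨a1, a2⟩
      exact hodd (hz ▸ (h.gs j).even k a1 a2)
    have hk0 : k = 0 ∨ k = (s j).m := by omega
    rcases hk0 with rfl | rfl
    · exact ⟨j, Or.inl rfl⟩
    · exact ⟨j, Or.inr rfl⟩
  have huniq : ∀ {z z' : Λ} (j : Bool), (z = (s j).p 0 ∨ z = (s j).p (s j).m) →
      (z' = (s j).p 0 ∨ z' = (s j).p (s j).m) → pl z = pl x → pl z' = pl x → z = z' := by
    intro z z' j h1 h2 e1 e2
    have hne := (h.gs j).ends
    rcases h1 with rfl | rfl <;> rcases h2 with rfl | rfl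
    · rfl
    · exact absurd (e1.trans e2.symm) hne
    · exact absurd (e2.trans e1.symm) hne
    · rfl
  obtain ⟨j1, h1⟩ := hend hx rfl
  obtain ⟨j2, h2⟩ := hend hu hpu
  obtain ⟨j3, h3⟩ := hend hv hp.symm
  by_cases e12 : j1 = j2
  · subst e12; exact hxu.ne (huniq j1 h1 h2 rfl hpu)
  by_cases e23 : j2 = j3
  · subst e23; exact huv.ne (huniq j2 h2 h3 hpu hp.symm)
  have e13 : j1 = j3 := by
    revert e12 e23; cases j1 <;> cases j2 <;> cases j3 <;> simp
  subst e13
  exact (hxu.trans huv).ne (huniq j1 h1 h3 rfl hp.symm)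

theorem nd_finite (s : Bool → Sq Λ) : Set.Finite {x | Nde s x} := by
  have : {x | Nde s x} = ⋃ j : Bool, (fun k => (s j).p k) '' Set.Iic (s j).m := by
    ext x
    simp only [Set.mem_iUnion, Set.mem_image, Set.mem_Iic]
    exact Iff.rfl
  rw [this]
  exact Set.finite_iUnion fun j => (Set.finite_Iic _).image _

theorem countP_range (m q : ℕ) : (List.range q).countP (fun t => decide (t + 1 ≤ m)) = min m q := by
  induction q with
  | zero => simp
  | succ q ih =>
    rw [List.range_succ, List.countP_append, ih, List.countP_singleton]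
    by_cases h : q + 1 ≤ m
    · rw [if_pos (decide_eq_true h)]; omega
    · rw [if_neg (by simpa using h)]; omega

/-- the boundaries of the places -/
def bds (pl : Λ → ℕ) (n : ℕ) {N : ℕ} (nd : Fin N → Λ) : List ℤ :=
  (List.range (n - 1)).map fun t => ((Finset.univ.filter fun j => pl (nd j) < t + 1).card : ℤ)

theorem plT_bds (hm : Monotone pl) (hn : ∀ x, pl x < n) {N : ℕ} {nd : Fin N → Λ}
    (hnd : StrictMono nd) (i : Fin N) : plT (bds pl n nd) i.1 = pl (nd i) := by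
  unfold plT bds
  rw [List.countP_map]
  have hkey : ∀ t : ℕ, ((Finset.univ.filter fun j => pl (nd j) < t + 1).card ≤ i.1) ↔
      t + 1 ≤ pl (nd i) := by
    intro t
    constructor
    · intro h
      by_contra hcon
      have hsub : (Finset.univ.filter fun j : Fin N => j ≤ i) ⊆
          Finset.univ.filter fun j => pl (nd j) < t + 1 := by
        intro j hj
        simp only [Finset.mem_filter, Finset.mem_univ, true_and] at hj ⊢
        have := hm (hnd.monotone hj)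
        omega
      have h1 := Finset.card_le_card hsub
      have h2 : (Finset.univ.filter fun j : Fin N => j ≤ i).card = i.1 + 1 := by
        have : (Finset.univ.filter fun j : Fin N => j ≤ i) = Finset.Iic i := by
          ext j; simp
        rw [this, Fin.card_Iic]
      omega
    · intro h
      have hsub : (Finset.univ.filter fun j => pl (nd j) < t + 1) ⊆
          Finset.univ.filter fun j : Fin N => j < i := by
        intro j hj
        simp only [Finset.mem_filter, Finset.mem_univ, true_and] at hj ⊢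
        by_contra hcon
        have := hm (hnd.monotone (not_lt.1 hcon))
        omega
      have h1 := Finset.card_le_card hsub
      have h2 : (Finset.univ.filter fun j : Fin N => j < i).card = i.1 := by
        have : (Finset.univ.filter fun j : Fin N => j < i) = Finset.Iio i := by
          ext j; simp
        rw [this, Fin.card_Iio]
      omega
  have : (List.range (n - 1)).countP ((fun b : ℤ => decide (b ≤ (i.1 : ℤ))) ∘ fun t =>
      ((Finset.univ.filter fun j => pl (nd j) < t + 1).card : ℤ)) =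
      (List.range (n - 1)).countP fun t => decide (t + 1 ≤ pl (nd i)) := by
    refine List.countP_congr fun t _ => ?_
    simp only [Function.comp, decide_eq_true_eq, Nat.cast_le]
    exact hkey t
  rw [this, countP_range]
  have := hn (nd i)
  omega

theorem Al.of_fin {N : ℕ} {nd : Fin N → Λ} (hnd : StrictMono nd) {a b c d : Fin N}
    (h : Al (a.1 : ℤ) b.1 c.1 d.1) : Al (nd a) (nd b) (nd c) (nd d) := by
  have e : ∀ x y : Fin N, (x.1 : ℤ) < y.1 → nd x < nd y := fun x y hxy =>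
    hnd (by exact_mod_cast hxy)
  exact al_imp (e _ _) (e _ _) (e _ _) (e _ _) (e _ _) (e _ _) (e _ _) (e _ _) h

/-- the true table -/
def truT (h : Duo pl n s) {N : ℕ} (nd : Fin N → Λ) (hnd : StrictMono nd) : Tab where
  pl := plT (bds pl n nd)
  Arc P x y := ∃ i j : Fin N, (i.1 : ℤ) = x ∧ (j.1 : ℤ) = y ∧ Ar s P (nd i) (nd j)
  mono := plT_mono _
  symm := by
    rintro P x y ⟨i, j, hi, hj, ha⟩
    exact ⟨j, i, hj, hi, ha.symm⟩
  func := by
    rintro P x y y' ⟨i, j, hi, hj, ha⟩ ⟨i', j', hi', hj', ha'⟩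
    have hii : i = i' := Fin.ext (by omega)
    subst hii
    have := hnd.injective (h.func ha ha')
    subst this
    exact hj.symm.trans hj'
  nal := by
    rintro P x y z u ⟨i, j, rfl, rfl, ha⟩ ⟨i', j', rfl, rfl, ha'⟩ hal
    exact h.nal ha ha' (hal.of_fin hnd)
  noloop := by
    rintro P x y ⟨i, j, rfl, rfl, ha⟩
    rw [plT_bds (h.gs true).mono (h.gs true).lt hnd, plT_bds (h.gs true).mono (h.gs true).lt hnd]
    exact h.noloop ha

theorem truT_full (h : Duo pl n s) {N : ℕ} (nd : Fin N → Λ) (hnd : StrictMono nd)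
    (hr : ∀ x, Nde s x ↔ ∃ i, nd i = x) : Full (truT h nd hnd) n N := by
  have hpl : ∀ i : Fin N, (truT h nd hnd).pl i.1 = pl (nd i) := fun i =>
    plT_bds (h.gs true).mono (h.gs true).lt hnd i
  have hfin : ∀ x : ℤ, 0 ≤ x → x < N → ∃ i : Fin N, (i.1 : ℤ) = x := by
    intro x hx hx'
    obtain ⟨t, rfl⟩ := Int.eq_ofNat_of_zero_le hx
    exact ⟨⟨t, by exact_mod_cast hx'⟩, rfl⟩
  refine ⟨fun z => ?_, ?_, fun x hx hx' he P => ?_, fun x u v hx hxu huv hv he => ?_⟩
  · have h1 : (truT h nd hnd).pl z ≤ (bds pl n nd).length := List.countP_le_length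
    have h2 : (bds pl n nd).length = n - 1 := by simp [bds]
    have h3 := (h.gs true).lt ((s true).p 0)
    omega
  · rintro P x y ⟨i, j, rfl, rfl, -⟩
    exact ⟨by omega, by exact_mod_cast i.2⟩
  · obtain ⟨i, rfl⟩ := hfin x hx hx'
    rw [hpl] at he
    obtain ⟨y, hy⟩ := h.full ((hr _).2 ⟨i, rfl⟩) he P
    obtain ⟨j, rfl⟩ := (hr y).1 hy.symm.nd
    exact ⟨j.1, i, j, rfl, rfl, hy⟩
  · obtain ⟨i, rfl⟩ := hfin x hx (by omega)
    obtain ⟨j, rfl⟩ := hfin u (by omega) (by omega)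
    obtain ⟨k, rfl⟩ := hfin v (by omega) (by omega)
    rw [hpl, hpl] at he
    rw [hpl]
    exact h.odd ((hr _).2 ⟨i, rfl⟩) ((hr _).2 ⟨j, rfl⟩) ((hr _).2 ⟨k, rfl⟩)
      (hnd (by exact_mod_cast hxu)) (hnd (by exact_mod_cast huv)) he

theorem fac_succ (σ : Sq Λ) (b : Bool) (k l : ℕ) :
    fac pl σ b k (l + 1) = Lr pl σ b k :: fac pl σ b (k + 1) l := by
  unfold fac
  rw [List.range_succ_eq_map, List.map_cons, List.map_map]
  congr 1
  refine List.map_congr_left fun a _ => ?_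
  simp only [Function.comp]
  congr 1
  omega

theorem truT_run (h : Duo pl n s) {N : ℕ} (nd : Fin N → Λ) (hnd : StrictMono nd)
    (hr : ∀ x, Nde s x ↔ ∃ i, nd i = x) (j b : Bool) (l : ℕ) : ∀ k, k + l ≤ (s j).m →
    ∃ x y : Fin N, nd x = Ps (s j) b k ∧ Run (truT h nd hnd) (fac pl (s j) b k l) x.1 y.1 := by
  have hpl : ∀ i : Fin N, (truT h nd hnd).pl i.1 = pl (nd i) := fun i =>
    plT_bds (h.gs true).mono (h.gs true).lt hnd i
  induction l with
  | zero =>
    intro k hk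
    obtain ⟨x, hx⟩ := (hr _).1 (nd_dir (s := s) j b (show k ≤ (s j).m by omega))
    exact ⟨x, x, hx, Run.nil _⟩
  | succ l ih =>
    intro k hk
    obtain ⟨x, hx⟩ := (hr _).1 (nd_dir (s := s) j b (show k ≤ (s j).m by omega))
    obtain ⟨z, y, hz, hrun⟩ := ih (k + 1) (by omega)
    refine ⟨x, y, hx, ?_⟩
    rw [fac_succ]
    refine Run.cons _ _ _ z.1 _ ⟨x, z, rfl, rfl, j, b, k, by omega, rfl, hx.symm, hz.symm⟩ ?_ ?_
      hrun
    · rw [hpl, hx]; rfl
    · rw [hpl, hz]; rfl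

/-- enumeration of the nodes -/
theorem exists_nd (s : Bool → Sq Λ) : ∃ (N : ℕ) (nd : Fin N → Λ), StrictMono nd ∧
    (∀ x, Nde s x ↔ ∃ i, nd i = x) ∧ N ≤ (s true).m + (s false).m + 2 := by
  classical
  set S := (nd_finite s).toFinset with hS
  have hmem : ∀ x, x ∈ S ↔ Nde s x := fun x => by simp [hS]
  refine ⟨S.card, S.orderEmbOfFin rfl, (S.orderEmbOfFin rfl).strictMono, fun x => ?_, ?_⟩
  · rw [← hmem, ← Finset.mem_coe, ← Finset.range_orderEmbOfFin S rfl]
    exact Iff.rfl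
  · have hsub : S ⊆ (Finset.range ((s true).m + 1)).image (s true).p ∪
        (Finset.range ((s false).m + 1)).image (s false).p := by
      intro x hx
      obtain ⟨j, k, hk, rfl⟩ := (hmem x).1 hx
      rw [Finset.mem_union]
      cases j
      · exact Or.inr (Finset.mem_image.2 ⟨k, by simp; omega, rfl⟩)
      · exact Or.inl (Finset.mem_image.2 ⟨k, by simp; omega, rfl⟩)
    have h1 := Finset.card_le_card hsub
    have h2 := Finset.card_union_le ((Finset.range ((s true).m + 1)).image (s true).p)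
      ((Finset.range ((s false).m + 1)).image (s false).p)
    have h3 := Finset.card_image_le (s := Finset.range ((s true).m + 1)) (f := (s true).p)
    have h4 := Finset.card_image_le (s := Finset.range ((s false).m + 1)) (f := (s false).p)
    rw [Finset.card_range] at h3 h4
    omega

/-! ### the certificate of a pair -/

theorem Fc.chain {σ : Sq Λ} (h : Gs pl n σ) {w : List Lt} (hw : Fc pl σ w) : w.IsChain cmp := by
  obtain ⟨b, k, l, h0, h1, rfl⟩ := hw
  rw [List.isChain_iff_getElem]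
  intro i hi
  simp only [fac, List.length_map, List.length_range] at hi
  simp only [fac, List.getElem_map, List.getElem_range]
  refine ⟨by simp only [Lr, add_assoc], ?_, ?_⟩
  · have := (h.dir b).alt (k + i) (by rw [dir_m]; omega)
    simp only [Lr, Pg]
    rw [show k + (i + 1) = k + i + 1 by omega]
    exact this
  · have := (h.dir b).even (k + i + 1) (by omega) (by rw [dir_m]; omega)
    simp only [Lr, Ps]
    exact Nat.even_iff.1 this

theorem Fc.ne {σ : Sq Λ} {w : List Lt} (hw : Fc pl σ w) : w ≠ [] := by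
  obtain ⟨b, k, l, h0, h1, rfl⟩ := hw
  intro e
  have := congrArg List.length e
  rw [fac_length] at this
  simp at this
  omega

theorem Fc.bd {σ : Sq Λ} (h : Gs pl n σ) {w : List Lt} (hw : Fc pl σ w) :
    ∀ a ∈ w, a.2.1 < n ∧ a.2.2 < n := by
  obtain ⟨b, k, l, h0, h1, rfl⟩ := hw
  intro a ha
  obtain ⟨i, -, rfl⟩ := List.mem_map.1 ha
  exact ⟨h.lt _, h.lt _⟩

/-- the data of one edge: a program whose last word is the word of the sequence -/
structure Prg (pl : Λ → ℕ) (n : ℕ) (σ : Sq Λ) (l : List (List Lt)) (R : List Rule) : Prop where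
  lk : Lk n l R
  fc : ∀ w ∈ l, Fc pl σ w
  pos : 0 < l.length
  last : l.getD (l.length - 1) [] = fac pl σ false 0 σ.m

theorem Gs.exists_prg {σ : Sq Λ} (h : Gs pl n σ) {N : ℕ} (hN : σ.m ≤ 2 ^ N) : ∃ l R,
    Prg pl n σ l R ∧ l.length ≤ 2 * n ^ 2 + N * ((8 * n ^ 2 + 1) * (8 * N + 8)) := by
  obtain ⟨l, hB, hm, hl⟩ := h.exists_slp hN
  obtain ⟨k, hk, hkw⟩ := List.getElem_of_mem hm
  set l' := l.take (k + 1) with hl'
  have hlen : l'.length = k + 1 := by rw [hl', List.length_take]; omega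
  have hsub : ∀ w ∈ l', w ∈ l := fun w hw => List.mem_of_mem_take hw
  have hget : ∀ i, i < k + 1 → l'[i]? = l[i]? := fun i hi => by
    rw [hl', List.getElem?_take_of_lt hi]
  obtain ⟨R, hR⟩ := exists_lk (n := n) (l := l') (fun i w hw => by
    have hi : i < k + 1 := by
      rw [← hlen]; exact (List.getElem?_eq_some_iff.1 hw).1
    rw [hget i hi] at hw
    rcases hB.slp i w hw with h1 | ⟨a, b, u, v, h1, h2, h3, h4, h5⟩
    · exact Or.inl h1
    · exact Or.inr ⟨a, b, u, v, h1, h2, by rw [hget a (by omega)]; exact h3,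
        by rw [hget b (by omega)]; exact h4, h5⟩)
    (fun w hw => (hB.prop w (hsub w hw)).ne) (fun w hw => (hB.prop w (hsub w hw)).chain h)
    (fun w hw => (hB.prop w (hsub w hw)).bd h)
  refine ⟨l', R, ⟨hR, fun w hw => hB.prop w (hsub w hw), by omega, ?_⟩, ?_⟩
  · rw [hlen, Nat.add_sub_cancel, List.getD_eq_getElem?_getD, hget k (by omega),
      List.getElem?_eq_getElem hk, Option.getD_some, hkw]
  · rw [hlen]; omega

/-- the table of a pair -/
theorem Duo.exists_tb (h : Duo pl n s) {l : Bool → List (List Lt)} {R : Bool → List Rule}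
    (hR : ∀ j, Prg pl n (s j) (l j) (R j)) : ∃ t : Tb, gP (R true) (R false) t ∧
      t.1.length ≤ n ∧ t.2.1.length ≤ 2 * n ^ 2 ∧ t.2.2.1.1.length = (l true).length ∧
      t.2.2.2.1.length = (l false).length ∧
      (∀ z ∈ t.1, |z| ≤ 2 * ((s true).m + (s false).m + 2 : ℕ)) ∧
      (∀ a ∈ t.2.1, a.i < n ∧ a.j < n ∧ |a.lo| ≤ 2 * ((s true).m + (s false).m + 2 : ℕ) ∧
        |a.hi| ≤ 2 * ((s true).m + (s false).m + 2 : ℕ) ∧
        |a.c| ≤ 2 * ((s true).m + (s false).m + 2 : ℕ)) ∧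
      (∀ e ∈ t.2.2.1.1, |e.lo| ≤ 2 * ((s true).m + (s false).m + 2 : ℕ) ∧
        |e.hi| ≤ 2 * ((s true).m + (s false).m + 2 : ℕ) ∧
        |e.c| ≤ 2 * ((s true).m + (s false).m + 2 : ℕ)) ∧
      (∀ e ∈ t.2.2.2.1, |e.lo| ≤ 2 * ((s true).m + (s false).m + 2 : ℕ) ∧
        |e.hi| ≤ 2 * ((s true).m + (s false).m + 2 : ℕ) ∧
        |e.c| ≤ 2 * ((s true).m + (s false).m + 2 : ℕ)) ∧
      |t.2.2.1.2| ≤ 2 * ((s true).m + (s false).m + 2 : ℕ) ∧
      |t.2.2.2.2| ≤ 2 * ((s true).m + (s false).m + 2 : ℕ) := by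
  obtain ⟨N, nd, hnd, hr, hN⟩ := exists_nd s
  have hF := truT_full h nd hnd hr
  obtain ⟨L, κ, lo, hi, hT, hLl, hLb, hκ, hL⟩ := hF.exists_bands (B := bds pl n nd) rfl
  have hrunw : ∀ j, ∀ w ∈ l j, ∃ x y, Run (truT h nd hnd) w x y := by
    intro j w hw
    obtain ⟨b, k, m, h0, h1, rfl⟩ := (hR j).fc w hw
    obtain ⟨x, y, -, hxy⟩ := truT_run h nd hnd hr j b m k h1
    exact ⟨_, _, hxy⟩
  have hE : ∀ j, ∃ E : List Ent × ℤ, E.1.length = (l j).length ∧ gS (R j) L E ∧
      (∀ e ∈ E.1, |e.lo| ≤ 2 * N ∧ |e.hi| ≤ 2 * N ∧ |e.c| ≤ 2 * N) ∧ |E.2| ≤ 2 * N := by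
    intro j
    obtain ⟨E, e1, e2, e3, e4⟩ := hF.entries hκ hL (hR j).lk (fun w hw => ((hR j).fc w hw).ne)
      (hrunw j)
    obtain ⟨x, y, -, hxy⟩ := truT_run h nd hnd hr j false (s j).m 0 (by omega)
    have hpos := (hR j).pos
    have h1 := (e3 ((l j).length - 1) (by omega) x.1).2
      ⟨by omega, by exact_mod_cast x.2, y.1, by rw [(hR j).last]; exact hxy⟩
    refine ⟨(E, x.1), e1, ⟨e2, ?_⟩, e4, ?_⟩
    · rw [(hR j).lk.len]; exact h1
    · have := x.2
      show |((x.1 : ℕ) : ℤ)| ≤ _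
      rw [abs_le]; constructor <;> omega
  choose E hE1 hE2 hE3 hE4 using hE
  have hM : (2 * N : ℤ) ≤ 2 * ((s true).m + (s false).m + 2 : ℕ) := by
    have : (N : ℤ) ≤ ((s true).m + (s false).m + 2 : ℕ) := by exact_mod_cast hN
    linarith
  refine ⟨(bds pl n nd, L, E true, E false), ⟨hT, hE2 true, hE2 false⟩, ?_, hLl, hE1 true,
    hE1 false, fun z hz => ?_, fun a ha => ?_, fun e he => ?_, fun e he => ?_, ?_, ?_⟩
  · simp [bds]
  · obtain ⟨t, -, rfl⟩ := List.mem_map.1 hz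
    have h1 : (Finset.univ.filter fun j => pl (nd j) < t + 1).card ≤ N :=
      (Finset.card_filter_le _ _).trans (by simp)
    rw [abs_le]; constructor <;> omega
  · obtain ⟨h1, h2, h3, h4, h5⟩ := hLb a ha
    exact ⟨h1, h2, h3.trans hM, h4.trans hM, h5.trans hM⟩
  · obtain ⟨h3, h4, h5⟩ := hE3 true e he
    exact ⟨h3.trans hM, h4.trans hM, h5.trans hM⟩
  · obtain ⟨h3, h4, h5⟩ := hE3 false e he
    exact ⟨h3.trans hM, h4.trans hM, h5.trans hM⟩
  · exact (hE4 true).trans hM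
  · exact (hE4 false).trans hM

end Pool.Agent.LP86
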