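import Pool.Agent.LP86.Asm
import Pool.Agent.Lib.helper10.CisMem

/-!
The verifier, and membership in NP.
-/

namespace Pool.Agent.LP86

open Pool.Agent.Cx Pool.Agent.Cis

variable {α : Type} [Enc α]

@[fun_prop] theorem PT.plT {B : α → List ℤ} {z : α → ℤ} (hB : PT B) (hz : PT z) :
    PT fun a => plT (B a) (z a) := by
  unfold LP86.plT
  exact PT.countP (f := fun a b => decide (b ≤ z a)) (PP.decide (by fun_prop)) hB

@[fun_prop] theorem pp_gB {B : α → List ℤ} {a : α → Band} (hB : PT B) (ha : PT a) :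
    PP fun x => gB (B x) (a x) := by
  unfold gB Band.lo Band.hi Band.c Band.i Band.j
  fun_prop

@[fun_prop] theorem pp_gBB {a b : α → Band} (ha : PT a) (hb : PT b) :
    PP fun x => gBB (a x) (b x) := by
  unfold gBB Band.lo Band.hi Band.c
  fun_prop

@[fun_prop] theorem pp_gT {B : α → List ℤ} {L : α → List Band} (hB : PT B) (hL : PT L) :
    PP fun x => gT (B x) (L x) := by
  unfold gT
  refine PP.and (PP.ball (p := fun x a => gB (B x) a) (by fun_prop) hL)
    (PP.ball_lt (p := fun x s => ∀ t < (L x).length, s = t ∨ gBB ((L x).getD s dB)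
      ((L x).getD t dB)) (PP.ball_lt (p := fun (x : α × ℕ) t => x.2 = t ∨
      gBB ((L x.1).getD x.2 dB) ((L x.1).getD t dB)) (by fun_prop) (by fun_prop)) (by fun_prop))

@[fun_prop] theorem pp_mB {a : α → Band} {r : α → Rule} {e : α → Ent} (ha : PT a) (hr : PT r)
    (he : PT e) : PP fun x => mB (a x) (r x) (e x) := by
  unfold mB Band.lo Band.hi Band.c Band.i Band.j Rule.fs Rule.ls Ent.lo Ent.hi Ent.s Ent.c
  fun_prop

@[fun_prop] theorem pp_mC {a b e : α → Ent} (ha : PT a) (hb : PT b) (he : PT e) :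
    PP fun x => LP86.mC (a x) (b x) (e x) := by
  unfold LP86.mC Ent.lo Ent.hi Ent.s Ent.c
  fun_prop

@[fun_prop] theorem pt_rl {R : α → List Rule} {r : α → ℕ} (hR : PT R) (hr : PT r) :
    PT fun x => rl (R x) (r x) := by
  unfold rl; fun_prop

@[fun_prop] theorem pt_en {E : α → List Ent} {r : α → ℕ} (hE : PT E) (hr : PT r) :
    PT fun x => en (E x) (r x) := by
  unfold en; fun_prop

@[fun_prop] theorem pp_gE1 {R : α → List Rule} {L : α → List Band} {E : α → List Ent} {r : α → ℕ}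
    (hR : PT R) (hL : PT L) (hE : PT E) (hr : PT r) :
    PP fun x => gE1 (R x) (L x) (E x) (r x) := by
  unfold gE1
  fun_prop

@[fun_prop] theorem pp_gE {R : α → List Rule} {L : α → List Band} {E : α → List Ent}
    (hR : PT R) (hL : PT L) (hE : PT E) : PP fun x => gE (R x) (L x) (E x) := by
  unfold gE
  exact PP.ball_lt (p := fun x r => gE1 (R x) (L x) (E x) r) (by fun_prop) (by fun_prop)

@[fun_prop] theorem pp_gS {R : α → List Rule} {L : α → List Band} {E : α → List Ent × ℤ}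
    (hR : PT R) (hL : PT L) (hE : PT E) : PP fun x => gS (R x) (L x) (E x) := by
  unfold gS Ent.lo Ent.hi
  fun_prop

@[fun_prop] theorem pp_gP {R R' : α → List Rule} {t : α → Tb}
    (hR : PT R) (hR' : PT R') (ht : PT t) : PP fun x => gP (R x) (R' x) (t x) := by
  unfold gP
  fun_prop

@[fun_prop] theorem pp_gR1 {R : α → List Rule} {r : α → ℕ} (hR : PT R) (hr : PT r) :
    PP fun x => gR1 (R x) (r x) := by
  unfold gR1 Rule.fs Rule.ls
  fun_prop

@[fun_prop] theorem pp_gR {R : α → List Rule} (hR : PT R) : PP fun x => gR (R x) := by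
  unfold gR
  exact PP.ball_lt (p := fun x r => gR1 (R x) r) (by fun_prop) (by fun_prop)

@[fun_prop] theorem pp_gW {R : α → List Rule} {p q : α → ℕ} (hR : PT R) (hp : PT p) (hq : PT q) :
    PP fun x => gW (R x) (p x) (q x) := by
  unfold gW Rule.fs Rule.ls
  fun_prop

/-- walks of length at most `t` -/
def rch (M : List (List Bool)) : ℕ → ℕ → ℕ → Prop
  | 0, a, c => a = c
  | t + 1, a, c => rch M t a c ∨ ∃ b < M.length, ent M a b = true ∧ rch M t b c

theorem pp_rch' (t : ℕ) : PP fun x : List (List Bool) × ℕ × ℕ => rch x.1 t x.2.1 x.2.2 := by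
  induction t with
  | zero => unfold rch; fun_prop
  | succ t ih =>
    exact PP.or ih (PP.bex_lt (p := fun (x : List (List Bool) × ℕ × ℕ) b =>
      ent x.1 x.2.1 b = true ∧ rch x.1 t b x.2.2) (PP.and (by fun_prop)
      (PP.comp (f := fun y : (List (List Bool) × ℕ × ℕ) × ℕ => (y.1.1, y.2, y.1.2.2)) ih
        (by fun_prop))) (by fun_prop))

@[fun_prop] theorem pp_rch {M : α → List (List Bool)} {a c : α → ℕ} (t : ℕ) (hM : PT M) (ha : PT a)
    (hc : PT c) : PP fun x => rch (M x) t (a x) (c x) :=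
  PP.comp (f := fun x => (M x, a x, c x)) (pp_rch' t) (by fun_prop)

def nearb (k : ℕ) (M : List (List Bool)) (u v u' v' : ℕ) : Prop :=
  rch M (k - 2) u u' ∨ rch M (k - 2) u v' ∨ rch M (k - 2) v u' ∨ rch M (k - 2) v v'

@[fun_prop] theorem pp_nearb {M : α → List (List Bool)} {u v u' v' : α → ℕ} (k : ℕ) (hM : PT M)
    (hu : PT u) (hv : PT v) (hu' : PT u') (hv' : PT v') :
    PP fun x => nearb k (M x) (u x) (v x) (u' x) (v' x) := by
  unfold nearb; fun_prop

abbrev Crt := List ℕ × List (List Rule) × List Tb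

abbrev dT : Tb := ([], [], ([], 0), ([], 0))

def rulC (n : ℕ) (c : Crt) (u v : ℕ) : List Rule := c.2.1.getD (u * n + v) []

def tabC (n : ℕ) (c : Crt) (u v u' v' : ℕ) : Tb :=
  c.2.2.getD ((u * n + v) * (n * n) + (u' * n + v')) dT

def ver2 (k : ℕ) (M : List (List Bool)) (c : Crt) (u v : ℕ) : Prop :=
  ∃ u' < M.length, ∃ v' < M.length, u' < v' ∧ ent M u' v' = true ∧
    ((u = u' ∧ v = v') ∨ nearb k M u v u' v') ∧
    ¬ gP (rulC M.length c u v) (rulC M.length c u' v') (tabC M.length c u v u' v')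

/-- the verifier -/
def ver (k : ℕ) (M : List (List Bool)) (c : Crt) : Prop :=
  IsGraph M ∧ c.1.length = M.length ∧ c.1.Nodup ∧
    ¬ ∃ u < M.length, ∃ v < M.length, u < v ∧ ent M u v = true ∧
      (¬ gW (rulC M.length c u v) (c.1.getD u 0) (c.1.getD v 0) ∨ ver2 k M c u v)

@[fun_prop] theorem pt_rulC {n u v : α → ℕ} {c : α → Crt} (hn : PT n) (hc : PT c) (hu : PT u)
    (hv : PT v) : PT fun x => rulC (n x) (c x) (u x) (v x) := by
  unfold rulC; fun_prop

@[fun_prop] theorem pt_tabC {n u v u' v' : α → ℕ} {c : α → Crt} (hn : PT n) (hc : PT c) (hu : PT u)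
    (hv : PT v) (hu' : PT u') (hv' : PT v') :
    PT fun x => tabC (n x) (c x) (u x) (v x) (u' x) (v' x) := by
  unfold tabC; fun_prop

@[fun_prop] theorem pp_ver2 (k : ℕ) {M : α → List (List Bool)} {c : α → Crt} {u v : α → ℕ}
    (hM : PT M) (hc : PT c) (hu : PT u) (hv : PT v) : PP fun x => ver2 k (M x) (c x) (u x) (v x) := by
  unfold ver2
  refine PP.bex_lt (p := fun x u' => ∃ v' < (M x).length, u' < v' ∧ ent (M x) u' v' = true ∧
    ((u x = u' ∧ v x = v') ∨ nearb k (M x) (u x) (v x) u' v') ∧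
    ¬ gP (rulC (M x).length (c x) (u x) (v x)) (rulC (M x).length (c x) u' v')
      (tabC (M x).length (c x) (u x) (v x) u' v')) ?_ (by fun_prop)
  refine PP.bex_lt (p := fun (x : α × ℕ) v' => x.2 < v' ∧ ent (M x.1) x.2 v' = true ∧
    ((u x.1 = x.2 ∧ v x.1 = v') ∨ nearb k (M x.1) (u x.1) (v x.1) x.2 v') ∧
    ¬ gP (rulC (M x.1).length (c x.1) (u x.1) (v x.1)) (rulC (M x.1).length (c x.1) x.2 v')
      (tabC (M x.1).length (c x.1) (u x.1) (v x.1) x.2 v')) ?_ (by fun_prop)
  fun_prop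

theorem pp_ver (k : ℕ) : PP fun x : List (List Bool) × Crt => ver k x.1 x.2 := by
  unfold ver
  have h0 : PP fun x : List (List Bool) × Crt => IsGraph x.1 := PP.comp pp_isGraph (by fun_prop)
  refine PP.and h0 (PP.and (by fun_prop) (PP.and (by fun_prop) (PP.not ?_)))
  refine PP.bex_lt (p := fun (x : List (List Bool) × Crt) u => ∃ v < x.1.length, u < v ∧
    ent x.1 u v = true ∧ (¬ gW (rulC x.1.length x.2 u v) (x.2.1.getD u 0) (x.2.1.getD v 0) ∨
      ver2 k x.1 x.2 u v)) ?_ (by fun_prop)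
  refine PP.bex_lt (p := fun (x : (List (List Bool) × Crt) × ℕ) v => x.2 < v ∧
    ent x.1.1 x.2 v = true ∧ (¬ gW (rulC x.1.1.length x.1.2 x.2 v) (x.1.2.1.getD x.2 0)
      (x.1.2.1.getD v 0) ∨ ver2 k x.1.1 x.1.2 x.2 v)) ?_ (by fun_prop)
  fun_prop

end Pool.Agent.LP86
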