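import Pool.Agent.LP86.Canon
import Pool.Agent.LP86.Sys

/-!
Factors of the itinerary of one sequence: every factor occurs around a critical step.
-/

namespace Pool.Agent.LP86

/-- letters: page, place of the source, place of the target -/
abbrev Lt := Bool × ℕ × ℕ

variable {Λ : Type} [LinearOrder Λ]

theorem key_stepL {pl : Λ → ℕ} (hm : Monotone pl) {n : ℕ} {x y x' y' : Λ} (hnal : ¬ Al x y x' y')
    (hyy : y ≠ y') (hx : pl x = pl x') (n1 : pl x ≠ pl y) (n2 : pl x' ≠ pl y')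
    (hi : pl x < n) (hj : pl y < n) (hj' : pl y' < n) (hlt : x < x') :
    ky n (pl x) (pl y) ≤ ky n (pl x) (pl y') ∧ (pl y = pl y' → y' < y) := by
  have mono : ∀ a b, pl a < pl b → a < b := fun a b h => by
    by_contra hcon
    have := hm (not_lt.1 hcon)
    omega
  have m1 := mono y x
  have m2 := mono x y
  have m3 := mono y' x
  have m4 := mono x y'
  have m5 := mono y x'
  have m6 := mono x' y
  have m7 := mono y' x'
  have m8 := mono x' y'
  have m9 := mono y y'
  have m10 := mono y' y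
  unfold Al Btw at hnal
  constructor
  · unfold ky
    by_contra hcon
    apply hnal
    split_ifs at hcon <;> grind
  · intro hp
    by_contra hcon
    apply hnal
    grind

/-- the reversed sequence -/
def Sq.rev (s : Sq Λ) : Sq Λ := ⟨s.m, fun k => s.p (s.m - k), fun k => s.g (s.m - 1 - k)⟩

/-- a sequence in one of its two directions -/
def Sq.dir (s : Sq Λ) (b : Bool) : Sq Λ := if b then s.rev else s

theorem dir_m (s : Sq Λ) (b : Bool) : (s.dir b).m = s.m := by cases b <;> rfl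

/-- good sequences: those of shortest systems -/
structure Gs (pl : Λ → ℕ) (n : ℕ) (s : Sq Λ) : Prop where
  mono : Monotone pl
  lt : ∀ x, pl x < n
  mpos : 0 < s.m
  inj : ∀ k ≤ s.m, ∀ l ≤ s.m, s.p k = s.p l → k = l
  alt : ∀ k, k + 1 < s.m → s.g (k + 1) = !s.g k
  nal : ∀ k < s.m, ∀ l < s.m, s.g k = s.g l → ¬ Al (s.p k) (s.p (k + 1)) (s.p l) (s.p (l + 1))
  noloop : ∀ k < s.m, pl (s.p k) ≠ pl (s.p (k + 1))
  even : ∀ k, 0 < k → k < s.m → Even (pl (s.p k))
  odd0 : ¬ Even (pl (s.p 0))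
  oddm : ¬ Even (pl (s.p s.m))
  ends : pl (s.p 0) ≠ pl (s.p s.m)

variable {pl : Λ → ℕ} {n : ℕ} {s : Sq Λ}

theorem Gs.rev (h : Gs pl n s) : Gs pl n s.rev := by
  refine ⟨h.mono, h.lt, h.mpos, fun k hk l hl e => ?_, fun k hk => ?_, fun k hk l hl e => ?_,
    fun k hk => ?_, fun k h0 hk => ?_, ?_, ?_, ?_⟩
  · simp only [Sq.rev] at hk hl e
    have := h.inj _ (by omega) _ (by omega) e
    omega
  · simp only [Sq.rev] at hk ⊢
    have := h.alt (s.m - 1 - (k + 1)) (by omega)
    rw [show s.m - 1 - (k + 1) + 1 = s.m - 1 - k by omega] at this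
    rw [this, Bool.not_not]
  · simp only [Sq.rev] at hk hl e ⊢
    have := h.nal _ (show s.m - 1 - k < s.m by omega) _ (show s.m - 1 - l < s.m by omega) e
    rw [show s.m - 1 - k + 1 = s.m - k by omega, show s.m - 1 - l + 1 = s.m - l by omega] at this
    rw [show s.m - (k + 1) = s.m - 1 - k by omega, show s.m - (l + 1) = s.m - 1 - l by omega]
    exact fun h => this (h.swap1.swap2)
  · simp only [Sq.rev] at hk ⊢
    have := h.noloop (s.m - 1 - k) (by omega)
    rw [show s.m - 1 - k + 1 = s.m - k by omega] at this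
    rw [show s.m - (k + 1) = s.m - 1 - k by omega]
    exact this.symm
  · simp only [Sq.rev] at hk ⊢
    exact h.even _ (by omega) (by omega)
  · simpa [Sq.rev] using h.oddm
  · simpa [Sq.rev] using h.odd0
  · simpa [Sq.rev] using h.ends.symm

theorem Gs.dir (h : Gs pl n s) (b : Bool) : Gs pl n (s.dir b) := by
  cases b
  · exact h
  · exact h.rev

theorem Gs.odd_end (h : Gs pl n s) {k : ℕ} (hk : k ≤ s.m) (he : Even (pl (s.p k))) :
    0 < k ∧ k < s.m := by
  refine ⟨Nat.pos_of_ne_zero ?_, lt_of_le_of_ne hk ?_⟩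
  · rintro rfl; exact h.odd0 he
  · rintro rfl; exact h.oddm he

/-- position of a directed node -/
def Ps (s : Sq Λ) (b : Bool) (k : ℕ) : Λ := (s.dir b).p k

/-- page of a directed step -/
def Pg (s : Sq Λ) (b : Bool) (k : ℕ) : Bool := (s.dir b).g k

/-- letter of a directed step -/
def Lr (pl : Λ → ℕ) (s : Sq Λ) (b : Bool) (k : ℕ) : Lt :=
  (Pg s b k, pl (Ps s b k), pl (Ps s b (k + 1)))

theorem Ps_flip (s : Sq Λ) (b : Bool) {k : ℕ} (hk : k ≤ s.m) : Ps s (!b) k = Ps s b (s.m - k) := by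
  cases b
  · simp [Ps, Sq.dir, Sq.rev]
  · simp only [Ps, Sq.dir, Sq.rev, Bool.not_true, Bool.false_eq_true, if_false, if_true]
    rw [show s.m - (s.m - k) = k by omega]

theorem Pg_flip (s : Sq Λ) (b : Bool) {k : ℕ} (hk : k < s.m) :
    Pg s (!b) k = Pg s b (s.m - 1 - k) := by
  cases b
  · simp [Pg, Sq.dir, Sq.rev]
  · simp only [Pg, Sq.dir, Sq.rev, Bool.not_true, Bool.false_eq_true, if_false, if_true]
    rw [show s.m - 1 - (s.m - 1 - k) = k by omega]

theorem Gs.nald (h : Gs pl n s) {b b' : Bool} {k k' : ℕ} (hk : k < s.m) (hk' : k' < s.m)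
    (hg : Pg s b k = Pg s b' k') : ¬ Al (Ps s b k) (Ps s b (k + 1)) (Ps s b' k') (Ps s b' (k' + 1)) := by
  by_cases hb : b = b'
  · subst hb
    exact (h.dir b).nal k (by rwa [dir_m]) k' (by rwa [dir_m]) hg
  · obtain rfl : b' = !b := by cases b <;> cases b' <;> simp_all
    rw [Pg_flip s b hk'] at hg
    rw [Ps_flip s b hk'.le, Ps_flip s b (by omega)]
    have := (h.dir b).nal k (by rwa [dir_m]) (s.m - 1 - k') (by rw [dir_m]; omega) hg
    rw [show s.m - 1 - k' + 1 = s.m - k' by omega] at this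
    rw [show s.m - (k' + 1) = s.m - 1 - k' by omega]
    exact fun h => this h.swap2

/-- a position and a page determine the directed step -/
theorem Gs.det (h : Gs pl n s) {b b' : Bool} {k k' : ℕ} (hk : k < s.m) (hk' : k' < s.m)
    (hp : Ps s b k = Ps s b' k') (hg : Pg s b k = Pg s b' k') : b = b' ∧ k = k' := by
  by_cases hb : b = b'
  · subst hb
    exact ⟨rfl, (h.dir b).inj k (by rw [dir_m]; omega) k' (by rw [dir_m]; omega) hp⟩
  · exfalso
    obtain rfl : b' = !b := by cases b <;> cases b' <;> simp_all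
    rw [Pg_flip s b hk'] at hg
    rw [Ps_flip s b hk'.le] at hp
    have e := (h.dir b).inj k (by rw [dir_m]; omega) (s.m - k') (by rw [dir_m]; omega) hp
    have h1 := (h.dir b).alt (s.m - 1 - k') (by rw [dir_m]; omega)
    rw [show s.m - 1 - k' + 1 = k by omega] at h1
    simp only [Pg] at hg
    rw [h1] at hg
    revert hg
    cases (s.dir b).g (s.m - 1 - k') <;> simp

/-- steps with a common target and page are equal -/
theorem Gs.det' (h : Gs pl n s) {b b' : Bool} {k k' : ℕ} (hk : k < s.m) (hk' : k' < s.m)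
    (hp : Ps s b (k + 1) = Ps s b' (k' + 1)) (hg : Pg s b k = Pg s b' k') : b = b' ∧ k = k' := by
  have e1 : Ps s (!b) (s.m - 1 - k) = Ps s b (k + 1) := by
    rw [Ps_flip s b (by omega), show s.m - (s.m - 1 - k) = k + 1 by omega]
  have e2 : Ps s (!b') (s.m - 1 - k') = Ps s b' (k' + 1) := by
    rw [Ps_flip s b' (by omega), show s.m - (s.m - 1 - k') = k' + 1 by omega]
  have e3 : Pg s (!b) (s.m - 1 - k) = Pg s b k := by
    rw [Pg_flip s b (by omega), show s.m - 1 - (s.m - 1 - k) = k by omega]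
  have e4 : Pg s (!b') (s.m - 1 - k') = Pg s b' k' := by
    rw [Pg_flip s b' (by omega), show s.m - 1 - (s.m - 1 - k') = k' by omega]
  obtain ⟨h1, h2⟩ := h.det (by omega) (by omega) (e1.trans (hp.trans e2.symm))
    (e3.trans (hg.trans e4.symm))
  refine ⟨by simpa using h1, by omega⟩

/-- a node in an even place has a step on each page -/
theorem Gs.has (h : Gs pl n s) {b : Bool} {k : ℕ} (hk : k ≤ s.m) (he : Even (pl (Ps s b k)))
    (P : Bool) : ∃ b' k', k' < s.m ∧ Ps s b' k' = Ps s b k ∧ Pg s b' k' = P := by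
  obtain ⟨h0, h1⟩ := (h.dir b).odd_end (by rwa [dir_m]) he
  rw [dir_m] at h1
  by_cases hg : Pg s b k = P
  · exact ⟨b, k, h1, rfl, hg⟩
  · refine ⟨!b, s.m - k, by omega, ?_, ?_⟩
    · rw [Ps_flip s b (by omega), show s.m - (s.m - k) = k by omega]
    · rw [Pg_flip s b (by omega), show s.m - 1 - (s.m - k) = k - 1 by omega]
      have h2 := (h.dir b).alt (k - 1) (by rw [dir_m]; omega)
      rw [show k - 1 + 1 = k by omega] at h2
      simp only [Pg] at hg ⊢
      rw [h2] at hg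
      revert hg
      cases (s.dir b).g (k - 1) <;> cases P <;> simp

theorem Gs.noloopd (h : Gs pl n s) {b : Bool} {k : ℕ} (hk : k < s.m) :
    pl (Ps s b k) ≠ pl (Ps s b (k + 1)) := (h.dir b).noloop k (by rwa [dir_m])

/-- comparing steps of one page and one place -/
theorem Gs.step (h : Gs pl n s) {b b' : Bool} {k k' : ℕ} (hk : k < s.m) (hk' : k' < s.m)
    (hg : Pg s b k = Pg s b' k') (hq : pl (Ps s b k) = pl (Ps s b' k'))
    (hlt : Ps s b k < Ps s b' k') :
    ky n (pl (Ps s b k)) (pl (Ps s b (k + 1))) ≤ ky n (pl (Ps s b k)) (pl (Ps s b' (k' + 1))) ∧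
      (pl (Ps s b (k + 1)) = pl (Ps s b' (k' + 1)) → Ps s b' (k' + 1) < Ps s b (k + 1)) := by
  refine key_stepL h.mono (h.nald hk hk' hg) (fun e => ?_) hq (h.noloopd hk) (h.noloopd hk')
    (h.lt _) (h.lt _) (h.lt _) hlt
  obtain ⟨rfl, rfl⟩ := h.det' hk hk' e hg
  exact lt_irrefl _ hlt

/-- steps between two steps of one letter have that letter -/
theorem Gs.contig (h : Gs pl n s) {b1 b2 b3 : Bool} {k1 k2 k3 : ℕ} (h1 : k1 < s.m) (h2 : k2 < s.m)
    (h3 : k3 < s.m) (hl : Lr pl s b1 k1 = Lr pl s b3 k3) (hg : Pg s b2 k2 = Pg s b1 k1)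
    (hlt : Ps s b1 k1 < Ps s b2 k2) (hlt' : Ps s b2 k2 < Ps s b3 k3) :
    Lr pl s b2 k2 = Lr pl s b1 k1 := by
  simp only [Lr, Prod.mk.injEq] at hl ⊢
  obtain ⟨g1, g2, g3⟩ := hl
  have m1 := h.mono hlt.le
  have m2 := h.mono hlt'.le
  have e1 : pl (Ps s b2 k2) = pl (Ps s b1 k1) := by omega
  have s1 := (h.step h1 h2 hg.symm e1.symm hlt).1
  have s2 := (h.step h2 h3 (hg.trans g1) (by omega) hlt').1
  rw [e1, ← g3] at s2
  have e2 := ky_inj (h.lt _) (h.lt _) (h.lt _) (le_antisymm s1 s2)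
  exact ⟨hg, e1, e2.symm⟩

/-- critical steps: extreme among the steps of the same letter -/
def Crit (pl : Λ → ℕ) (s : Sq Λ) (b : Bool) (k : ℕ) : Prop :=
  k < s.m ∧ ((∀ b' k', k' < s.m → Lr pl s b' k' = Lr pl s b k → Ps s b k ≤ Ps s b' k') ∨
    (∀ b' k', k' < s.m → Lr pl s b' k' = Lr pl s b k → Ps s b' k' ≤ Ps s b k))

/-- adjacent directed nodes -/
def Adjc (s : Sq Λ) (x y : Λ) : Prop := x ≠ y ∧ ∀ b k, k ≤ s.m → ¬ Btw (Ps s b k) x y

/-- a noncritical step and an adjacent node -/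
theorem Gs.adj_letter (h : Gs pl n s) {b b' : Bool} {k k' : ℕ} (hk : k < s.m) (hk' : k' < s.m)
    (hg : Pg s b k = Pg s b' k') (hcr : ¬ Crit pl s b k)
    (hadj : Adjc s (Ps s b k) (Ps s b' k')) : Lr pl s b' k' = Lr pl s b k := by
  unfold Crit at hcr
  push Not at hcr
  obtain ⟨⟨b1, k1, h1, l1, p1⟩, ⟨b2, k2, h2, l2, p2⟩⟩ := hcr hk
  have hbt1 := hadj.2 b1 k1 h1.le
  have hbt2 := hadj.2 b2 k2 h2.le
  rcases lt_or_gt_of_ne hadj.1 with hlt | hlt
  · -- the adjacent node is on the right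
    have hle : Ps s b' k' ≤ Ps s b2 k2 := by
      by_contra hcon
      exact hbt2 (Or.inl ⟨p2, not_le.1 hcon⟩)
    rcases eq_or_lt_of_le hle with he | hlt'
    · have hg2 : Pg s b' k' = Pg s b2 k2 := hg.symm.trans (congrArg (fun x : Lt => x.1) l2).symm
      obtain ⟨rfl, rfl⟩ := h.det hk' h2 he hg2
      exact l2
    · exact h.contig hk hk' h2 l2.symm hg.symm hlt hlt'
  · have hle : Ps s b1 k1 ≤ Ps s b' k' := by
      by_contra hcon
      exact hbt1 (Or.inr ⟨not_le.1 hcon, p1⟩)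
    rcases eq_or_lt_of_le hle with he | hlt'
    · have hg2 : Pg s b1 k1 = Pg s b' k' := (congrArg (fun x : Lt => x.1) l1).trans hg
      obtain ⟨rfl, rfl⟩ := h.det h1 hk' he hg2
      exact l1
    · rw [h.contig h1 hk' hk l1 (hg.symm.trans (congrArg (fun x : Lt => x.1) l1).symm) hlt' hlt, l1]

/-- adjacency passes to the targets -/
theorem Gs.adj_next (h : Gs pl n s) {b b' : Bool} {k k' : ℕ} (hk : k < s.m) (hk' : k' < s.m)
    (hl : Lr pl s b' k' = Lr pl s b k) (he : Even (pl (Ps s b (k + 1))))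
    (hadj : Adjc s (Ps s b k) (Ps s b' k')) : Adjc s (Ps s b (k + 1)) (Ps s b' (k' + 1)) := by
  simp only [Lr, Prod.mk.injEq] at hl
  obtain ⟨g1, g2, g3⟩ := hl
  have hne : Ps s b (k + 1) ≠ Ps s b' (k' + 1) := by
    intro e
    obtain ⟨rfl, rfl⟩ := h.det' hk hk' e g1.symm
    exact hadj.1 rfl
  refine ⟨hne, ?_⟩
  -- a node strictly between the targets has its partner strictly between the sources
  have key : ∀ (b b' : Bool) (k k' : ℕ), k < s.m → k' < s.m → Pg s b' k' = Pg s b k →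
      pl (Ps s b' k') = pl (Ps s b k) → pl (Ps s b' (k' + 1)) = pl (Ps s b (k + 1)) →
      Even (pl (Ps s b (k + 1))) → ∀ b2 k2, k2 ≤ s.m → Ps s b (k + 1) < Ps s b2 k2 →
      Ps s b2 k2 < Ps s b' (k' + 1) → ∃ b3 k3, k3 ≤ s.m ∧ Ps s b' k' < Ps s b3 k3 ∧
        Ps s b3 k3 < Ps s b k := by
    intro b b' k k' hk hk' g1 g2 g3 he b2 k2 h2 hx hy
    have m1 := h.mono hx.le
    have m2 := h.mono hy.le
    have e1 : pl (Ps s b2 k2) = pl (Ps s b (k + 1)) := by omega
    obtain ⟨b3, k3, h3, e3, g4⟩ := h.has h2 (e1 ▸ he) (Pg s b k)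
    -- reversed steps
    have r1 : Ps s (!b) (s.m - 1 - k) = Ps s b (k + 1) := by
      rw [Ps_flip s b (by omega), show s.m - (s.m - 1 - k) = k + 1 by omega]
    have r1' : Ps s (!b) (s.m - 1 - k + 1) = Ps s b k := by
      rw [Ps_flip s b (by omega), show s.m - (s.m - 1 - k + 1) = k by omega]
    have r2 : Ps s (!b') (s.m - 1 - k') = Ps s b' (k' + 1) := by
      rw [Ps_flip s b' (by omega), show s.m - (s.m - 1 - k') = k' + 1 by omega]
    have r2' : Ps s (!b') (s.m - 1 - k' + 1) = Ps s b' k' := by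
      rw [Ps_flip s b' (by omega), show s.m - (s.m - 1 - k' + 1) = k' by omega]
    have q1 : Pg s (!b) (s.m - 1 - k) = Pg s b k := by
      rw [Pg_flip s b (by omega), show s.m - 1 - (s.m - 1 - k) = k by omega]
    have q2 : Pg s (!b') (s.m - 1 - k') = Pg s b' k' := by
      rw [Pg_flip s b' (by omega), show s.m - 1 - (s.m - 1 - k') = k' by omega]
    have s1 := h.step (b := !b) (k := s.m - 1 - k) (b' := b3) (k' := k3) (by omega) h3
      (q1.trans g4.symm) (by rw [r1, e3, e1]) (by rw [r1, e3]; exact hx)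
    have s2 := h.step (b := b3) (k := k3) (b' := !b') (k' := s.m - 1 - k') h3 (by omega)
      (by rw [g4, q2, g1]) (by rw [r2, e3, e1, g3]) (by rw [r2, e3]; exact hy)
    rw [r1, r1'] at s1
    rw [r2', e3] at s2
    have a1 := s1.1
    have a2 := s2.1
    rw [e1, g2] at a2
    have e4 := ky_inj (h.lt _) (h.lt _) (h.lt _) (le_antisymm a1 a2)
    exact ⟨b3, k3 + 1, h3, s2.2 (by rw [← e4, g2]), s1.2 e4⟩
  intro b2 k2 h2 hb
  rcases hb with ⟨hx, hy⟩ | ⟨hx, hy⟩
  · obtain ⟨b3, k3, h3, h4, h5⟩ := key b b' k k' hk hk' g1 g2 g3 he b2 k2 h2 hx hy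
    exact hadj.2 b3 k3 h3 (Or.inr ⟨h4, h5⟩)
  · obtain ⟨b3, k3, h3, h4, h5⟩ := key b' b k' k hk' hk g1.symm g2.symm g3.symm (g3 ▸ he) b2 k2 h2
      hx hy
    exact hadj.2 b3 k3 h3 (Or.inl ⟨h4, h5⟩)

/-- every factor occurs around a critical step -/
theorem Gs.window (h : Gs pl n s) {b : Bool} {k l : ℕ} (hl : 0 < l) (hkl : k + l ≤ s.m) :
    ∃ b' k' t, t < l ∧ k' + l ≤ s.m ∧ Crit pl s b' (k' + t) ∧
      ∀ a < l, Lr pl s b (k + a) = Lr pl s b' (k' + a) := by
  classical
  -- occurrences of the factor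
  set F : Finset (Bool × ℕ) := (Finset.univ ×ˢ Finset.range (s.m + 1)).filter fun x =>
    x.2 + l ≤ s.m ∧ ∀ a < l, Lr pl s b (k + a) = Lr pl s x.1 (x.2 + a) with hF
  have hmem : ∀ b' k', (b', k') ∈ F ↔ k' + l ≤ s.m ∧
      ∀ a < l, Lr pl s b (k + a) = Lr pl s b' (k' + a) := by
    intro b' k'
    simp only [hF, Finset.mem_filter, Finset.mem_product, Finset.mem_univ, Finset.mem_range,
      true_and, and_iff_right_iff_imp]
    intro h; omega
  obtain ⟨⟨b', k'⟩, hx, hmin⟩ := F.exists_min_image (fun x => Ps s x.1 x.2)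
    ⟨(b, k), (hmem b k).2 ⟨hkl, fun a _ => rfl⟩⟩
  obtain ⟨hk', hw⟩ := (hmem b' k').1 hx
  by_contra hcon
  push Not at hcon
  have hnc : ∀ t < l, ¬ Crit pl s b' (k' + t) := by
    intro t ht hcr
    obtain ⟨a, ha, hne⟩ := hcon b' k' t ht hk' hcr
    exact hne (hw a ha)
  -- the nearest step on the left with the same letter
  have h0 := hnc 0 hl
  rw [add_zero] at h0
  unfold Crit at h0
  push Not at h0
  obtain ⟨⟨b1, k1, h1, l1, p1⟩, -⟩ := h0 (by omega)
  set F2 : Finset (Bool × ℕ) := (Finset.univ ×ˢ Finset.range s.m).filter fun x =>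
    Lr pl s x.1 x.2 = Lr pl s b' k' ∧ Ps s x.1 x.2 < Ps s b' k' with hF2
  have hmem2 : ∀ b2 k2, (b2, k2) ∈ F2 ↔ k2 < s.m ∧ Lr pl s b2 k2 = Lr pl s b' k' ∧
      Ps s b2 k2 < Ps s b' k' := by
    intro b2 k2
    simp [hF2]
  obtain ⟨⟨b2, k2⟩, hx2, hmax⟩ := F2.exists_max_image (fun x => Ps s x.1 x.2)
    ⟨(b1, k1), (hmem2 b1 k1).2 ⟨h1, l1, p1⟩⟩
  obtain ⟨hk2, hl2, hp2⟩ := (hmem2 b2 k2).1 hx2
  have hadj0 : Adjc s (Ps s b' k') (Ps s b2 k2) := by
    refine ⟨hp2.ne', fun b3 k3 h3 hb => ?_⟩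
    rcases hb with ⟨hb, hb'⟩ | ⟨hb, hb'⟩
    · exact absurd (hb.trans hb') (not_lt.2 hp2.le)
    -- the place is even: it has three nodes
    have m1 := h.mono hb.le
    have m2 := h.mono hb'.le
    have hq : pl (Ps s b2 k2) = pl (Ps s b' k') := congrArg (fun x : Lt => x.2.1) hl2
    have e3 : pl (Ps s b3 k3) = pl (Ps s b' k') := by omega
    have hev : Even (pl (Ps s b' k')) := by
      by_contra hodd
      -- all three nodes are ends with the same place
      have hend : ∀ b k, k ≤ s.m → pl (Ps s b k) = pl (Ps s b' k') →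
          Ps s b k = s.p 0 ∨ Ps s b k = s.p s.m := by
        intro b k hk hpk
        have : ¬ (0 < k ∧ k < s.m) := by
          rintro ⟨a1, a2⟩
          have := (h.dir b).even k a1 (by rwa [dir_m])
          apply hodd
          rw [← hpk]; exact this
        have hk0 : k = 0 ∨ k = s.m := by omega
        cases b <;> rcases hk0 with rfl | rfl <;> simp [Ps, Sq.dir, Sq.rev]
      have a1 := hend b' k' (by omega) rfl
      have a2 := hend b2 k2 hk2.le hq
      have hne := h.ends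
      rcases a1 with a1 | a1 <;> rcases a2 with a2 | a2
      · rw [a1, a2] at hp2; exact lt_irrefl _ hp2
      · rw [a1, a2] at hq; exact hne hq.symm
      · rw [a1, a2] at hq; exact hne hq
      · rw [a1, a2] at hp2; exact lt_irrefl _ hp2
    obtain ⟨b4, k4, h4, e4, g4⟩ := h.has h3 (e3 ▸ hev) (Pg s b' k')
    have hc := h.contig hk2 h4 (show k' < s.m by omega) hl2
      (g4.trans (congrArg (fun x : Lt => x.1) hl2).symm) (by rw [e4]; exact hb)
      (by rw [e4]; exact hb')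
    have := hmax (b4, k4) ((hmem2 b4 k4).2 ⟨h4, hc.trans hl2, by rw [e4]; exact hb'⟩)
    simp only [e4] at this
    exact absurd hb (not_lt.2 this)
  have main : ∀ t < l, k2 + t < s.m ∧ Lr pl s b2 (k2 + t) = Lr pl s b' (k' + t) ∧
      Adjc s (Ps s b' (k' + t)) (Ps s b2 (k2 + t)) := by
    intro t
    induction t with
    | zero => intro _; exact ⟨hk2, hl2, hadj0⟩
    | succ t ih =>
      intro ht
      obtain ⟨i1, i2, i3⟩ := ih (by omega)
      have hev : Even (pl (Ps s b' (k' + t + 1))) :=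
        (h.dir b').even (k' + t + 1) (by omega) (by rw [dir_m]; omega)
      have hadj := h.adj_next (show k' + t < s.m by omega) i1 i2 hev i3
      have hpl : pl (Ps s b2 (k2 + t + 1)) = pl (Ps s b' (k' + t + 1)) :=
        congrArg (fun x : Lt => x.2.2) i2
      have hint := (h.dir b2).odd_end (k := k2 + t + 1) (by rw [dir_m]; omega)
        (show Even (pl (Ps s b2 (k2 + t + 1))) by rw [hpl]; exact hev)
      rw [dir_m] at hint
      have hpg : Pg s b' (k' + t + 1) = Pg s b2 (k2 + t + 1) := by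
        have e1 := (h.dir b').alt (k' + t) (by rw [dir_m]; omega)
        have e2 := (h.dir b2).alt (k2 + t) (by rw [dir_m]; omega)
        have e3 : Pg s b2 (k2 + t) = Pg s b' (k' + t) := congrArg (fun x : Lt => x.1) i2
        simp only [Pg] at e3 ⊢
        rw [e1, e2, e3]
      refine ⟨by omega, ?_, hadj⟩
      exact h.adj_letter (by omega) (by omega) hpg (hnc (t + 1) ht) hadj
  have hlast := (main (l - 1) (by omega)).1
  have := hmin (b2, k2) ((hmem b2 k2).2 ⟨by omega, fun a ha => by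
    rw [(main a ha).2.1]; exact hw a ha⟩)
  exact absurd hp2 (not_lt.2 this)

end Pool.Agent.LP86
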